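import Mathlib

/-!
# Absolute extensors for metric sources (PART 8a)
-/

set_option autoImplicit false

namespace H30

/-- `C` is an absolute extensor: every map from a closed subset of a metric space to `C` extends
to the whole space. -/
def AE {Y : Type} [TopologicalSpace Y] (C : Set Y) : Prop :=
  ∀ (Z : Type) [MetricSpace Z] (B : Set Z), IsClosed B → ∀ f : Z → Y, ContinuousOn f B →
    Set.MapsTo f B C → ∃ F : Z → Y, Continuous F ∧ (∀ z, F z ∈ C) ∧ Set.EqOn F f B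

variable {Y : Type} [TopologicalSpace Y]

theorem AE.union {C₁ C₂ : Set Y} (h₁ : IsClosed C₁) (h₂ : IsClosed C₂) (a₁ : AE C₁) (a₂ : AE C₂)
    (a : AE (C₁ ∩ C₂)) : AE (C₁ ∪ C₂) := by
  classical
  intro Z _ B hB f hf hm
  have hB1 : IsClosed (B ∩ f ⁻¹' C₁) := hf.preimage_isClosed_of_isClosed hB h₁
  have hB2 : IsClosed (B ∩ f ⁻¹' C₂) := hf.preimage_isClosed_of_isClosed hB h₂
  rcases Set.eq_empty_or_nonempty (B ∩ f ⁻¹' C₁) with e1 | n1
  · obtain ⟨F, hF, hF1, hF2⟩ := a₂ Z B hB f hf (fun z hz => by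
      rcases hm hz with h | h
      · have : z ∈ B ∩ f ⁻¹' C₁ := ⟨hz, h⟩
        rw [e1] at this
        exact absurd this (Set.notMem_empty z)
      · exact h)
    exact ⟨F, hF, fun z => Or.inr (hF1 z), hF2⟩
  rcases Set.eq_empty_or_nonempty (B ∩ f ⁻¹' C₂) with e2 | n2
  · obtain ⟨F, hF, hF1, hF2⟩ := a₁ Z B hB f hf (fun z hz => by
      rcases hm hz with h | h
      · exact h
      · have : z ∈ B ∩ f ⁻¹' C₂ := ⟨hz, h⟩
        rw [e2] at this
        exact absurd this (Set.notMem_empty z))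
    exact ⟨F, hF, fun z => Or.inl (hF1 z), hF2⟩
  set B₁ := B ∩ f ⁻¹' C₁ with hB₁
  set B₂ := B ∩ f ⁻¹' C₂ with hB₂
  set d₁ : Z → ℝ := fun z => Metric.infDist z B₁ with hd₁
  set d₂ : Z → ℝ := fun z => Metric.infDist z B₂ with hd₂
  have c₁ : Continuous d₁ := Metric.continuous_infDist_pt B₁
  have c₂ : Continuous d₂ := Metric.continuous_infDist_pt B₂
  have z₁ : ∀ z, d₁ z = 0 ↔ z ∈ B₁ := fun z => (hB1.mem_iff_infDist_zero n1).symm
  have z₂ : ∀ z, d₂ z = 0 ↔ z ∈ B₂ := fun z => (hB2.mem_iff_infDist_zero n2).symm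
  have p₁ : ∀ z, 0 ≤ d₁ z := fun z => Metric.infDist_nonneg
  have p₂ : ∀ z, 0 ≤ d₂ z := fun z => Metric.infDist_nonneg
  have hBu : ∀ z ∈ B, z ∈ B₁ ∨ z ∈ B₂ := by
    intro z hz
    rcases hm hz with h | h
    · exact Or.inl ⟨hz, h⟩
    · exact Or.inr ⟨hz, h⟩
  -- on the common part
  obtain ⟨F₀, hF₀, hF₀1, hF₀2⟩ := a Z (B₁ ∩ B₂) (hB1.inter hB2) f
    (hf.mono (fun z hz => hz.1.1)) (fun z hz => ⟨hz.1.2, hz.2.2⟩)
  set Z₀ : Set Z := {z | d₁ z = d₂ z} with hZ₀
  have hZ₀c : IsClosed Z₀ := isClosed_eq c₁ c₂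
  have key : ∀ z ∈ B₁, z ∈ Z₀ → z ∈ B₁ ∩ B₂ := by
    intro z hz hz0
    refine ⟨hz, (z₂ z).1 ?_⟩
    have h1 : d₁ z = d₂ z := hz0
    rw [← h1]; exact (z₁ z).2 hz
  have key' : ∀ z ∈ B₂, z ∈ Z₀ → z ∈ B₁ ∩ B₂ := by
    intro z hz hz0
    refine ⟨(z₁ z).1 ?_, hz⟩
    have h1 : d₁ z = d₂ z := hz0
    rw [h1]; exact (z₂ z).2 hz
  -- extension on one side
  have side : ∀ (C' : Set Y) (B' : Set Z), AE C' → IsClosed B' → B' ⊆ B → C₁ ∩ C₂ ⊆ C' →
      (∀ z ∈ B', f z ∈ C') → (∀ z ∈ B', z ∈ Z₀ → z ∈ B₁ ∩ B₂) →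
      ∃ F : Z → Y, Continuous F ∧ (∀ z, F z ∈ C') ∧ (∀ z ∈ B', F z = f z) ∧
        ∀ z ∈ Z₀, F z = F₀ z := by
    intro C' B' aC hB'c hB'B hCC hBC hk
    let gg : Z → Y := fun z => if z ∈ B' then f z else F₀ z
    have g1 : ∀ z ∈ B', gg z = f z := fun z hz => if_pos hz
    have g2 : ∀ z ∈ Z₀, gg z = F₀ z := by
      intro z hz
      by_cases hzB : z ∈ B'
      · rw [g1 z hzB]
        exact (hF₀2 (hk z hzB hz)).symm
      · exact if_neg hzB
    have gc : ContinuousOn gg (B' ∪ Z₀) := by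
      apply ContinuousOn.union_of_isClosed _ _ hB'c hZ₀c
      · exact (hf.mono hB'B).congr g1
      · exact hF₀.continuousOn.congr g2
    obtain ⟨F, hF, hF1, hF2⟩ := aC Z (B' ∪ Z₀) (hB'c.union hZ₀c) gg gc (by
      rintro z (hz | hz)
      · rw [g1 z hz]; exact hBC z hz
      · rw [g2 z hz]; exact hCC (hF₀1 z))
    refine ⟨F, hF, hF1, fun z hz => ?_, fun z hz => ?_⟩
    · rw [hF2 (Or.inl hz), g1 z hz]
    · rw [hF2 (Or.inr hz), g2 z hz]
  obtain ⟨F₁, hF₁, hF₁1, hF₁2, hF₁3⟩ := side C₁ B₁ a₁ hB1 (fun z hz => hz.1)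
    Set.inter_subset_left (fun z hz => hz.2) key
  obtain ⟨F₂, hF₂, hF₂1, hF₂2, hF₂3⟩ := side C₂ B₂ a₂ hB2 (fun z hz => hz.1)
    Set.inter_subset_right (fun z hz => hz.2) key'
  refine ⟨fun z => if d₁ z ≤ d₂ z then F₁ z else F₂ z, ?_, ?_, ?_⟩
  · exact Continuous.if_le hF₁ hF₂ c₁ c₂ (fun z hz => by rw [hF₁3 z hz, hF₂3 z hz])
  · intro z
    show (if d₁ z ≤ d₂ z then F₁ z else F₂ z) ∈ C₁ ∪ C₂
    split_ifs
    · exact Or.inl (hF₁1 z)
    · exact Or.inr (hF₂1 z)
  · intro z hz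
    show (if d₁ z ≤ d₂ z then F₁ z else F₂ z) = f z
    split_ifs with h
    · apply hF₁2
      rcases hBu z hz with h1 | h1
      · exact h1
      · rw [← z₁]
        have := (z₂ z).2 h1
        have := p₁ z
        linarith
    · apply hF₂2
      rcases hBu z hz with h1 | h1
      · exfalso
        apply h
        rw [(z₁ z).2 h1]
        exact p₂ z
      · exact h1

/-- transport along a map with a continuous left inverse -/
theorem AE.image {Y' : Type} [TopologicalSpace Y'] {C : Set Y} (h : AE C) (e : Y → Y') (r : Y' → Y)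
    (he : Continuous e) (hr : Continuous r) (hre : ∀ y, r (e y) = y) : AE (e '' C) := by
  intro Z _ B hB f hf hm
  obtain ⟨F, hF, hF1, hF2⟩ := h Z B hB (fun z => r (f z)) (hr.comp_continuousOn hf) (by
    intro z hz
    obtain ⟨c, hc, hcz⟩ := hm hz
    show r (f z) ∈ C
    rw [← hcz, hre]
    exact hc)
  refine ⟨fun z => e (F z), he.comp hF, fun z => ⟨F z, hF1 z, rfl⟩, ?_⟩
  intro z hz
  obtain ⟨c, hc, hcz⟩ := hm hz
  show e (F z) = f z
  rw [hF2 hz]
  show e (r (f z)) = f z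
  rw [← hcz, hre]

/-- the nearest point retraction onto a complete convex set -/
theorem ae_retraction {F : Type} [NormedAddCommGroup F] [InnerProductSpace ℝ F] {K : Set F}
    (hc : IsComplete K) (hK : Convex ℝ K) (hn : K.Nonempty) :
    ∃ r : F → F, Continuous r ∧ (∀ x, r x ∈ K) ∧ ∀ x ∈ K, r x = x := by
  have hex : ∀ x : F, ∃ v ∈ K, ∀ w ∈ K, inner ℝ (x - v) (w - v) ≤ 0 := by
    intro x
    obtain ⟨v, hv, hv'⟩ := exists_norm_eq_iInf_of_complete_convex hn hc hK x
    exact ⟨v, hv, (norm_eq_iInf_iff_real_inner_le_zero hK hv).1 hv'⟩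
  choose r hr hr' using hex
  refine ⟨r, ?_, hr, ?_⟩
  · have hL : LipschitzWith 1 r := by
      apply LipschitzWith.of_dist_le_mul
      intro x y
      rw [NNReal.coe_one, one_mul, dist_eq_norm, dist_eq_norm]
      have h1 := hr' x (r y) (hr y)
      have h2 := hr' y (r x) (hr x)
      have h3 : inner ℝ (r x - r y) (r x - r y) ≤ inner ℝ (x - y) (r x - r y) := by
        have e : inner ℝ (x - y) (r x - r y) - inner ℝ (r x - r y) (r x - r y) =
            -(inner ℝ (x - r x) (r y - r x) + inner ℝ (y - r y) (r x - r y)) := by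
          have e1 : r y - r x = -(r x - r y) := by abel
          rw [e1, inner_neg_right, ← inner_sub_left]
          have e2 : x - y - (r x - r y) = (x - r x) - (y - r y) := by abel
          rw [e2, inner_sub_left]
          ring
        linarith
      rw [real_inner_self_eq_norm_sq] at h3
      have h4 := real_inner_le_norm (x - y) (r x - r y)
      by_cases h0 : ‖r x - r y‖ = 0
      · rw [h0]; exact norm_nonneg _
      · have h5 : 0 < ‖r x - r y‖ := lt_of_le_of_ne (norm_nonneg _) (Ne.symm h0)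
        have h6 : ‖r x - r y‖ * ‖r x - r y‖ ≤ ‖x - y‖ * ‖r x - r y‖ := by
          rw [← sq]; linarith
        exact le_of_mul_le_mul_right h6 h5
    exact hL.continuous
  · intro x hx
    have h1 := hr' x x hx
    rw [real_inner_self_eq_norm_sq] at h1
    have h2 : ‖x - r x‖ = 0 := by
      have := sq_nonneg ‖x - r x‖
      have h3 : ‖x - r x‖ ^ 2 = 0 := le_antisymm h1 this
      exact pow_eq_zero_iff (two_ne_zero) |>.1 h3
    rw [norm_eq_zero, sub_eq_zero] at h2
    exact h2.symm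

/-- compact convex nonempty sets are absolute extensors -/
theorem AE.convex {E : Type} [NormedAddCommGroup E] [NormedSpace ℝ E] [FiniteDimensional ℝ E]
    {K : Set E} (hc : IsCompact K) (hK : Convex ℝ K) (hn : K.Nonempty) : AE K := by
  let e : E ≃L[ℝ] EuclideanSpace ℝ (Fin (Module.finrank ℝ E)) := toEuclidean
  have hKe : Convex ℝ (e '' K) := hK.linear_image e.toLinearEquiv.toLinearMap
  have hce : IsComplete (e '' K) := (hc.image e.continuous).isComplete
  obtain ⟨r, hr, hr1, hr2⟩ := ae_retraction hce hKe (hn.image e)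
  intro Z _ B hB f hf hm
  have : TietzeExtension.{0, 0} E := TietzeExtension.of_tvs ℝ
  obtain ⟨G, hG⟩ := ContinuousMap.exists_restrict_eq hB (⟨fun z : B => f z, hf.domRestrict⟩ : C(B, E))
  refine ⟨fun z => e.symm (r (e (G z))), ?_, ?_, ?_⟩
  · exact e.symm.continuous.comp (hr.comp (e.continuous.comp G.continuous))
  · intro z
    obtain ⟨k, hk, hk'⟩ := hr1 (e (G z))
    show e.symm (r (e (G z))) ∈ K
    rw [← hk', e.symm_apply_apply]
    exact hk
  · intro z hz
    have h1 : G z = f z := by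
      have := congrArg (fun g : C(B, E) => g ⟨z, hz⟩) hG
      exact this
    show e.symm (r (e (G z))) = f z
    rw [h1, hr2 _ ⟨f z, hm hz, rfl⟩, e.symm_apply_apply]

/-- the same for a convex subset of a subtype -/
theorem AE.convex_subtype {E : Type} [NormedAddCommGroup E] [NormedSpace ℝ E]
    [FiniteDimensional ℝ E] {P : Set E} {K : Set P} (hc : IsCompact K)
    (hK : Convex ℝ ((↑) '' K : Set E)) (hn : K.Nonempty) : AE K := by
  have h := AE.convex (hc.image continuous_subtype_val) hK (hn.image _)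
  intro Z _ B hB f hf hm
  obtain ⟨F, hF, hF1, hF2⟩ := h Z B hB (fun z => (f z : E))
    (continuous_subtype_val.comp_continuousOn hf) (fun z hz => ⟨f z, hm hz, rfl⟩)
  have hP : ∀ z, F z ∈ P := by
    intro z
    obtain ⟨k, _, hk⟩ := hF1 z
    rw [← hk]; exact k.2
  refine ⟨fun z => ⟨F z, hP z⟩, hF.subtype_mk hP, ?_, ?_⟩
  · intro z
    obtain ⟨k, hk, hk'⟩ := hF1 z
    have : (⟨F z, hP z⟩ : P) = k := Subtype.ext hk'.symm
    show (⟨F z, hP z⟩ : P) ∈ K
    rw [this]
    exact hk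
  · intro z hz
    exact Subtype.ext (hF2 hz)

end H30
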