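import Pool.Agent.Helper30_Alex.Dev

/-!
# Covering maps between glued spaces (PART 9a)
-/

set_option autoImplicit false

namespace H30

/-- a criterion for an evenly covered point -/
theorem cover_evenly {E X : Type*} [TopologicalSpace E] [TopologicalSpace X] {f : E → X}
    (hf : Continuous f) {x : X} {U : Set X} (hU : IsOpen U) (hx : x ∈ U)
    {I : Type*} [TopologicalSpace I] [DiscreteTopology I] (c : f ⁻¹' U → I)
    (hc : ∀ i, IsOpen (c ⁻¹' {i}))
    (ho : ∀ W, IsOpen W → W ⊆ f ⁻¹' U → IsOpen (f '' W))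
    (hinj : ∀ a b : f ⁻¹' U, f a = f b → c a = c b → a = b)
    (hsurj : ∀ y ∈ U, ∀ i, ∃ a : f ⁻¹' U, f a = y ∧ c a = i) :
    IsEvenlyCovered f x (f ⁻¹' {x}) := by
  have hfU : IsOpen (f ⁻¹' U) := hU.preimage hf
  let F : f ⁻¹' U → U × I := fun a => (⟨f a, a.2⟩, c a)
  have hF : Function.Bijective F := by
    constructor
    · intro a b h
      have h1 : f a = f b := congrArg (fun z : U × I => (z.1 : X)) h
      have h2 : c a = c b := congrArg (fun z : U × I => z.2) h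
      exact hinj a b h1 h2
    · rintro ⟨⟨y, hy⟩, i⟩
      obtain ⟨a, ha, hi⟩ := hsurj y hy i
      exact ⟨a, Prod.ext (Subtype.ext ha) hi⟩
  have hcc : Continuous c := by
    rw [continuous_discrete_rng]
    exact hc
  have hFc : Continuous F :=
    (Continuous.subtype_mk (hf.comp continuous_subtype_val) _).prodMk hcc
  have hFo : IsOpenMap F := by
    intro W hW
    have hW' : F '' W = ⋃ i, ((↑) ⁻¹' (f '' ((↑) '' (W ∩ c ⁻¹' {i}) : Set E)) : Set U) ×ˢ {i} := by
      ext ⟨y, i⟩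
      simp only [Set.mem_image, Set.mem_iUnion, Set.mem_prod, Set.mem_preimage, Set.mem_singleton_iff]
      constructor
      · rintro ⟨a, ha, h⟩
        have h1 : f a = y := congrArg (fun z : U × I => (z.1 : X)) h
        have h2 : c a = i := congrArg (fun z : U × I => z.2) h
        exact ⟨i, ⟨a, ⟨a, ⟨ha, h2⟩, rfl⟩, h1⟩, rfl⟩
      · rintro ⟨i', ⟨_, ⟨a, ⟨ha, h2⟩, rfl⟩, h1⟩, rfl⟩
        exact ⟨a, ha, Prod.ext (Subtype.ext h1) h2⟩
    rw [hW']
    refine isOpen_iUnion fun i => IsOpen.prod ?_ (isOpen_discrete _)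
    refine IsOpen.preimage continuous_subtype_val (ho _ ?_ ?_)
    · exact hfU.isOpenMap_subtype_val _ (hW.inter (hc i))
    · rintro _ ⟨a, -, rfl⟩; exact a.2
  have : IsEvenlyCovered f x I :=
    ⟨inferInstance, U, hx, hU, hfU,
      (Equiv.ofBijective F hF).toHomeomorphOfContinuousOpen hFc hFo, fun _ => rfl⟩
  exact this.to_isEvenlyCovered_preimage

/-- the classes of copies over a given copy -/
def cover_setoid (G G' : Gl) (h : G.I → G'.I) (T : Finset S) (i' : G'.I) :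
    Setoid {i : G.I // G'.r T (h i) i'} where
  r a b := G.r T a.1 b.1
  iseqv := ⟨fun a => G.refl T a.1, fun {_ _} h => G.symm h, fun {_ _ _} h h' => G.trans h h'⟩

/-- local version: `map h` is evenly covered at `[p, i']` if all classes over the class of `i'`
correspond bijectively for all subsets of the set of facets at `p` -/
theorem Dev.evenlyCovered (C : Chamber) (G G' : Gl) (h : G.I → G'.I)
    (hr : ∀ T, Clique T → ∀ i j, G.r T i j → G'.r T (h i) (h j)) (p : C.P) (i' : G'.I)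
    (H : ∀ T ⊆ C.sup p, ∀ i, G'.r (C.sup p) (h i) i' → ∀ j', G'.r T (h i) j' →
      ∃! j, G.r T i j ∧ h j = j') :
    IsEvenlyCovered (Dev.map h hr : Dev C G → Dev C G') (Dev.mk i' p)
      ((Dev.map h hr : Dev C G → Dev C G') ⁻¹' {Dev.mk i' p}) := by
  classical
  let f : Dev C G → Dev C G' := Dev.map h hr
  let U : Set (Dev C G') := Dev.star i' p
  have key : ∀ (j : G.I) (q : C.P), (Dev.mk j q : Dev C G) ∈ f ⁻¹' U ↔
      C.sup q ⊆ C.sup p ∧ G'.r (C.sup p) (h j) i' := by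
    intro j q
    show (Dev.mk (h j) q : Dev C G') ∈ Dev.star i' p ↔ _
    rw [Dev.mem_star_mk]
    exact ⟨fun ⟨a, b⟩ => ⟨a, G'.symm b⟩, fun ⟨a, b⟩ => ⟨a, G'.symm b⟩⟩
  let I := Quotient (cover_setoid G G' h (C.sup p) i')
  let _ : TopologicalSpace I := ⊥
  have : DiscreteTopology I := ⟨rfl⟩
  have hex : ∀ x : f ⁻¹' U, ∃ i : {i : G.I // G'.r (C.sup p) (h i) i'}, ∃ q : C.P,
      (Dev.mk i.1 q : Dev C G) = x := by
    rintro ⟨x, hx⟩
    obtain ⟨j, q, rfl⟩ := Dev.exists_rep x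
    exact ⟨⟨j, ((key j q).1 hx).2⟩, q, rfl⟩
  let c : f ⁻¹' U → I := fun x => Quotient.mk _ (hex x).choose
  have hcmk : ∀ (j : G.I) (q : C.P) (hx : (Dev.mk j q : Dev C G) ∈ f ⁻¹' U),
      c ⟨Dev.mk j q, hx⟩ = Quotient.mk _ ⟨j, ((key j q).1 hx).2⟩ := by
    intro j q hx
    obtain ⟨q', hq'⟩ := (hex ⟨Dev.mk j q, hx⟩).choose_spec
    obtain ⟨rfl, h2⟩ := Dev.mk_eq.1 hq'
    refine Quotient.sound (s := cover_setoid G G' h (C.sup p) i') ?_
    exact G.mono ((key j q').1 hx).1 h2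
  have hH : ∀ T ⊆ C.sup p, ∀ i j, G'.r (C.sup p) (h i) i' → G.r (C.sup p) i j →
      G'.r T (h i) (h j) → G.r T i j := by
    intro T hT i j hi hij hij'
    obtain ⟨j2, ⟨h1, h2⟩, -⟩ := H T hT i hi (h j) hij'
    obtain ⟨j3, -, h3⟩ := H (C.sup p) (Finset.Subset.refl _) i hi (h j) (G'.mono hT hij')
    have e1 : j = j3 := h3 j ⟨hij, rfl⟩
    have e2 : j2 = j3 := h3 j2 ⟨G.mono hT h1, h2⟩
    rw [e1, ← e2]
    exact h1
  refine cover_evenly (f := f) (Dev.continuous_map h hr) (Dev.isOpen_star i' p)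
    (Dev.self_mem_star i' p) c ?_ ?_ ?_ ?_
  · intro i
    induction i using Quotient.ind with
    | _ i =>
      have : c ⁻¹' {Quotient.mk _ i} = (↑) ⁻¹' (Dev.star i.1 p : Set (Dev C G)) := by
        ext ⟨x, hx⟩
        obtain ⟨j, q, rfl⟩ := Dev.exists_rep x
        simp only [Set.mem_preimage, Set.mem_singleton_iff]
        rw [hcmk j q hx, Dev.mem_star_mk]
        constructor
        · intro h1
          exact ⟨((key j q).1 hx).1,
            G.symm (Quotient.exact (s := cover_setoid G G' h (C.sup p) i') h1)⟩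
        · rintro ⟨-, h2⟩
          exact Quotient.sound (s := cover_setoid G G' h (C.sup p) i') (G.symm h2)
      rw [this]
      exact (Dev.isOpen_star i.1 p).preimage continuous_subtype_val
  · intro W hW hWU
    rw [Dev.isOpen_iff]
    intro j'
    have : {q : C.P | (Dev.mk j' q : Dev C G') ∈ f '' W} =
        ⋃ j : {j : G.I // h j = j'}, {q : C.P | (Dev.mk j.1 q : Dev C G) ∈ W} := by
      ext q
      simp only [Set.mem_iUnion, Set.mem_ofPred_eq]
      constructor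
      · rintro ⟨x, hx, hxq⟩
        obtain ⟨j, q', rfl⟩ := Dev.exists_rep x
        obtain ⟨rfl, h2⟩ := Dev.mk_eq.1 (show (Dev.mk (h j) q' : Dev C G') = Dev.mk j' q from hxq)
        have h3 := (key j q').1 (hWU hx)
        obtain ⟨j2, ⟨h4, h5⟩, -⟩ := H (C.sup q') h3.1 j h3.2 j' h2
        refine ⟨⟨j2, h5⟩, ?_⟩
        have : (Dev.mk j2 q' : Dev C G) = Dev.mk j q' := Dev.mk_eq.2 ⟨rfl, G.symm h4⟩
        rw [this]; exact hx
      · rintro ⟨⟨j, rfl⟩, hj⟩
        exact ⟨_, hj, rfl⟩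
    rw [this]
    exact isOpen_iUnion fun j => (Dev.isOpen_iff.1 hW) j.1
  · rintro ⟨a, ha⟩ ⟨b, hb⟩ hab hc
    obtain ⟨j, q, rfl⟩ := Dev.exists_rep a
    obtain ⟨j', q', rfl⟩ := Dev.exists_rep b
    rw [hcmk, hcmk] at hc
    obtain ⟨rfl, h2⟩ :=
      Dev.mk_eq.1 (show (Dev.mk (h j) q : Dev C G') = Dev.mk (h j') q' from hab)
    have h3 := (key j q).1 ha
    have h4 : G.r (C.sup p) j j' := Quotient.exact (s := cover_setoid G G' h (C.sup p) i') hc
    exact Subtype.ext (Dev.mk_eq.2 ⟨rfl, hH _ h3.1 j j' h3.2 h4 h2⟩)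
  · intro y hy i
    induction i using Quotient.ind with
    | _ i =>
      obtain ⟨j', q, rfl⟩ := Dev.exists_rep y
      obtain ⟨h1, h2⟩ := Dev.mem_star_mk.1 hy
      obtain ⟨j, ⟨h3, h4⟩, -⟩ := H (C.sup p) (Finset.Subset.refl _) i.1 i.2 j' (G'.trans i.2 h2)
      subst h4
      have hm : (Dev.mk j q : Dev C G) ∈ f ⁻¹' U := (key j q).2 ⟨h1, G'.symm h2⟩
      refine ⟨⟨Dev.mk j q, hm⟩, rfl, ?_⟩
      rw [hcmk]
      exact Quotient.sound (s := cover_setoid G G' h (C.sup p) i') (G.symm h3)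

theorem Dev.isCoveringMap (C : Chamber) (G G' : Gl) (h : G.I → G'.I)
    (hr : ∀ T, Clique T → ∀ i j, G.r T i j → G'.r T (h i) (h j))
    (H : ∀ T, Clique T → ∀ i, ∀ j', G'.r T (h i) j' → ∃! j, G.r T i j ∧ h j = j') :
    IsCoveringMap (Dev.map h hr : Dev C G → Dev C G') := by
  intro x
  obtain ⟨i', p, rfl⟩ := Dev.exists_rep x
  exact Dev.evenlyCovered C G G' h hr p i' fun T hT i _ j' hj' =>
    H T ((C.clique_sup p).mono hT) i j' hj'

end H30
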