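import Pool.Agent.Helper30_Alex.RacgDef

/-!
# Right-angled Coxeter groups: length, descents, strict fundamental domain (PART 1)
-/

set_option autoImplicit false

namespace H30

variable {B : Type} [DecidableEq B] (adj : B → B → Prop) [DecidableRel adj]

/-! ### generation by the generators -/

theorem racg_induction {p : RA adj → Prop} (h1 : p 1)
    (hm : ∀ w s, p w → p (w * gen adj s)) (w : RA adj) : p w := by
  have h : w ∈ Subgroup.closure (Set.range (gen adj)) := by
    have h2 : Subgroup.closure (Set.range ((raM adj).toCoxeterSystem.simple)) = ⊤ :=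
      (raM adj).toCoxeterSystem.subgroup_closure_range_simple
    have h3 : (raM adj).toCoxeterSystem.simple = gen adj := by
      funext s
      simp [gen, CoxeterMatrix.toCoxeterSystem_simple]
    rw [h3] at h2
    rw [h2]
    exact Subgroup.mem_top w
  induction h using Subgroup.closure_induction_right with
  | one => exact h1
  | mul_right x hx y hy ih =>
    obtain ⟨s, rfl⟩ := hy
    exact hm _ _ ih
  | mul_inv_cancel x hx y hy ih =>
    obtain ⟨s, rfl⟩ := hy
    have : (gen adj s)⁻¹ = gen adj s := inv_eq_of_mul_eq_one_left (gen_mul_self adj s)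
    rw [this]
    exact hm _ _ ih

theorem racg_gen_inv (s : B) : (gen adj s)⁻¹ = gen adj s :=
  inv_eq_of_mul_eq_one_left (gen_mul_self adj s)

theorem racg_mul_gen_gen (w : RA adj) (s : B) : w * gen adj s * gen adj s = w := by
  rw [mul_assoc, gen_mul_self, mul_one]

/-! ### the Tits representation -/

/-- the vectors `b s` -/
def racgB (s : B) : B → ℝ := fun t => if t = s then 2 else if adj s t then 0 else -2

/-- the reflection as a linear map -/
noncomputable def racgRefl (s : B) : (B → ℝ) →ₗ[ℝ] (B → ℝ) where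
  toFun x := x - x s • racgB adj s
  map_add' x y := by
    funext t
    simp only [Pi.add_apply, Pi.sub_apply, Pi.smul_apply, smul_eq_mul]
    ring
  map_smul' c x := by
    funext t
    simp only [Pi.smul_apply, Pi.sub_apply, smul_eq_mul, RingHom.id_apply]
    ring

theorem racgRefl_apply (s : B) (x : B → ℝ) : racgRefl adj s x = x - x s • racgB adj s := rfl

theorem racgRefl_invol (s : B) (x : B → ℝ) : racgRefl adj s (racgRefl adj s x) = x := by
  simp only [racgRefl_apply]
  funext t
  have h1 : racgB adj s s = 2 := by simp [racgB]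
  simp only [Pi.sub_apply, Pi.smul_apply, smul_eq_mul, h1]
  ring

/-- the reflection -/
noncomputable def racgEquiv (s : B) : (B → ℝ) ≃ₗ[ℝ] (B → ℝ) :=
  LinearEquiv.ofLinearMap (racgRefl adj s) (racgRefl adj s)
    (LinearMap.ext (racgRefl_invol adj s)) (LinearMap.ext (racgRefl_invol adj s))

theorem racgEquiv_apply (s : B) (x : B → ℝ) : racgEquiv adj s x = x - x s • racgB adj s := rfl

/-- the Tits representation exists -/
theorem racg_exists_tits (hs : ∀ s t, adj s t → adj t s) (hi : ∀ s, ¬ adj s s) :
    ∃ (D : Geo adj) (o : D.E), ∀ s, 0 < D.α s o := by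
  obtain ⟨φ, hφ⟩ := exists_hom adj (H := (B → ℝ) ≃ₗ[ℝ] (B → ℝ)) (racgEquiv adj)
    (by
      intro s
      apply LinearEquiv.ext
      intro x
      exact racgRefl_invol adj s x)
    (by
      intro s t hst
      have hne : s ≠ t := by rintro rfl; exact hi s hst
      apply LinearEquiv.ext
      intro x
      show racgEquiv adj s (racgEquiv adj t x) = racgEquiv adj t (racgEquiv adj s x)
      simp only [racgEquiv_apply]
      have h1 : racgB adj s t = 0 := by simp [racgB, hne.symm, hst]
      have h2 : racgB adj t s = 0 := by simp [racgB, hne, hs s t hst]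
      funext r
      simp only [Pi.sub_apply, Pi.smul_apply, smul_eq_mul, h1, h2]
      ring)
  refine ⟨{ E := B → ℝ
            α := fun s => LinearMap.proj s
            b := racgB adj
            diag := fun s => by simp [racgB]
            near := fun s t h => by
              have hne : t ≠ s := by rintro rfl; exact hi _ h
              simp [racgB, hne, h]
            far := fun s t hne h => by
              simp [racgB, hne.symm, h]
            act := φ
            act_gen := fun s x => by rw [hφ]; rfl }, fun _ => 1, fun s => ?_⟩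
  simp

/-! ### the numbers `v_s(w)` -/

variable {adj}

/-- the numbers `v_s(w) = α_s (w⁻¹ x)` -/
def Geo.racgV (D : Geo adj) (x : D.E) (w : RA adj) (s : B) : ℝ := D.α s (D.act w⁻¹ x)

theorem Geo.racgV_one (D : Geo adj) (x : D.E) (s : B) : D.racgV x 1 s = D.α s x := by
  simp [Geo.racgV]

theorem Geo.racgV_mul (D : Geo adj) (x : D.E) (w : RA adj) (s t : B) :
    D.racgV x (w * gen adj s) t = D.racgV x w t - D.racgV x w s * D.α t (D.b s) := by
  unfold Geo.racgV
  rw [mul_inv_rev, racg_gen_inv, map_mul]
  show D.α t (D.act (gen adj s) (D.act w⁻¹ x)) = _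
  rw [D.act_gen, map_sub, map_smul, smul_eq_mul]

theorem Geo.racgV_self (D : Geo adj) (x : D.E) (w : RA adj) (s : B) :
    D.racgV x (w * gen adj s) s = -D.racgV x w s := by
  rw [D.racgV_mul, D.diag]; ring

theorem Geo.racgV_near (D : Geo adj) (x : D.E) (w : RA adj) {s t : B} (h : adj s t) :
    D.racgV x (w * gen adj s) t = D.racgV x w t := by
  rw [D.racgV_mul, D.near s t h]; ring

theorem Geo.racgV_far (D : Geo adj) (x : D.E) (w : RA adj) {s t : B} (hne : s ≠ t) (h : ¬ adj s t)
    (hp : 0 < D.racgV x w s) : D.racgV x w t + 2 * D.racgV x w s ≤ D.racgV x (w * gen adj s) t := by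
  rw [D.racgV_mul]
  have := D.far s t hne h
  nlinarith

/-- outward galleries, for the given geometric representation `D₀` and base point `o` -/
inductive RacgOut (D₀ : Geo adj) (o : D₀.E) : ℕ → RA adj → Prop
  | base : RacgOut D₀ o 0 1
  | step (n : ℕ) (w : RA adj) (s : B) (h : RacgOut D₀ o n w) (hv : 0 < D₀.racgV o w s) :
      RacgOut D₀ o (n + 1) (w * gen adj s)

section

variable (hs : ∀ s t, adj s t → adj t s) (D₀ : Geo adj) (o : D₀.E) (ho : ∀ s, 0 < D₀.α s o)

include hs ho in
theorem RacgOut.sign {n : ℕ} {w : RA adj} (h : RacgOut D₀ o n w) :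
    ∀ (D : Geo adj) (x : D.E), (∀ s, 0 < D.α s x) →
      (∀ s, 0 < D₀.racgV o w s → 0 < D.racgV x w s) ∧ (∀ s, ¬ 0 < D₀.racgV o w s → D.racgV x w s < 0) ∧
      (∀ s t, s ≠ t → ¬ adj s t → 0 < D.racgV x w s + D.racgV x w t) := by
  induction h with
  | base =>
    intro D x hx
    simp only [Geo.racgV_one]
    exact ⟨fun s _ => hx s, fun s hn => absurd (ho s) hn, fun s t _ _ => add_pos (hx s) (hx t)⟩
  | step n w s h hv ih =>
    intro D x hx
    obtain ⟨i1, i2, i3⟩ := ih D x hx
    obtain ⟨j1, j2, j3⟩ := ih D₀ o ho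
    have hvD : 0 < D.racgV x w s := i1 s hv
    -- positivity at far places
    have hfar : ∀ t, s ≠ t → ¬ adj s t → 0 < D.racgV x (w * gen adj s) t := by
      intro t hne ha
      have h1 := D.racgV_far x w hne ha hvD
      have h2 := i3 s t hne ha
      linarith
    have hfar0 : ∀ t, s ≠ t → ¬ adj s t → 0 < D₀.racgV o (w * gen adj s) t := by
      intro t hne ha
      have h1 := D₀.racgV_far o w hne ha hv
      have h2 := j3 s t hne ha
      linarith
    have hge : ∀ t, s ≠ t → D.racgV x w t ≤ D.racgV x (w * gen adj s) t := by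
      intro t hne
      by_cases ha : adj s t
      · rw [D.racgV_near x w ha]
      · have h1 := D.racgV_far x w hne ha hvD
        linarith
    refine ⟨?_, ?_, ?_⟩
    · intro t ht
      by_cases hst : s = t
      · subst hst
        rw [D₀.racgV_self] at ht
        linarith
      · by_cases ha : adj s t
        · rw [D₀.racgV_near o w ha] at ht
          rw [D.racgV_near x w ha]
          exact i1 t ht
        · exact hfar t hst ha
    · intro t ht
      by_cases hst : s = t
      · subst hst
        rw [D.racgV_self]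
        linarith
      · by_cases ha : adj s t
        · rw [D₀.racgV_near o w ha] at ht
          rw [D.racgV_near x w ha]
          exact i2 t ht
        · exact absurd (hfar0 t hst ha) ht
    · intro t t' hne ha
      by_cases h1 : s = t
      · subst h1
        rw [D.racgV_self]
        have h2 := D.racgV_far x w hne ha hvD
        have h3 := i3 s t' hne ha
        linarith
      · by_cases h2 : s = t'
        · subst h2
          have ha' : ¬ adj s t := fun h => ha (hs _ _ h)
          rw [D.racgV_self]
          have h3 := D.racgV_far x w hne.symm ha' hvD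
          have h4 := i3 s t hne.symm ha'
          linarith
        · have h3 := hge t h1
          have h4 := hge t' h2
          have h5 := i3 t t' hne ha
          linarith

include hs ho in
theorem RacgOut.neg_of_not_pos {n : ℕ} {w : RA adj} (h : RacgOut D₀ o n w) {s : B}
    (hn : ¬ 0 < D₀.racgV o w s) : D₀.racgV o w s < 0 :=
  (h.sign hs D₀ o ho D₀ o ho).2.1 s hn

include hs ho in
theorem RacgOut.inward {n : ℕ} {w : RA adj} (h : RacgOut D₀ o n w) :
    ∀ s, D₀.racgV o w s < 0 → ∃ m, n = m + 1 ∧ RacgOut D₀ o m (w * gen adj s) := by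
  induction h with
  | base =>
    intro s hv
    rw [D₀.racgV_one] at hv
    exact absurd (ho s) (not_lt.2 hv.le)
  | step n w t h hv ih =>
    intro s hneg
    have hout : RacgOut D₀ o (n + 1) (w * gen adj t) := RacgOut.step n w t h hv
    by_cases hst : s = t
    · subst hst
      exact ⟨n, rfl, by rw [racg_mul_gen_gen]; exact h⟩
    · have hadj : adj s t := by
        by_contra hna
        have h1 := (hout.sign hs D₀ o ho D₀ o ho).2.2 s t hst hna
        have h2 : D₀.racgV o (w * gen adj t) t < 0 := by rw [D₀.racgV_self]; linarith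
        linarith
      have h1 : D₀.racgV o w s < 0 := by
        rw [D₀.racgV_near o w (hs _ _ hadj)] at hneg
        exact hneg
      obtain ⟨m, hm, hO⟩ := ih s h1
      refine ⟨n, rfl, ?_⟩
      have h2 : 0 < D₀.racgV o (w * gen adj s) t := by
        rw [D₀.racgV_near o w hadj]; exact hv
      have h3 := RacgOut.step m _ t hO h2
      rw [hm, mul_assoc, gen_comm adj (hs _ _ hadj), ← mul_assoc]
      exact h3

include hs ho in
theorem RacgOut.exists (w : RA adj) : ∃ n, RacgOut D₀ o n w := by
  induction w using racg_induction adj with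
  | h1 => exact ⟨0, RacgOut.base⟩
  | hm w s ih =>
    obtain ⟨n, hn⟩ := ih
    by_cases h : 0 < D₀.racgV o w s
    · exact ⟨n + 1, RacgOut.step n w s hn h⟩
    · obtain ⟨m, _, hO⟩ := hn.inward hs D₀ o ho s (hn.neg_of_not_pos hs D₀ o ho h)
      exact ⟨m, hO⟩

include hs ho in
theorem RacgOut.unique {n : ℕ} {w : RA adj} (h : RacgOut D₀ o n w) : ∀ m, RacgOut D₀ o m w → n = m := by
  induction h with
  | base =>
    intro m hm
    generalize hw : (1 : RA adj) = w at hm
    cases hm with
    | base => rfl
    | step n w s h hv =>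
      exfalso
      have h1 : D₀.racgV o (w * gen adj s) s < 0 := by rw [D₀.racgV_self]; linarith
      rw [← hw, D₀.racgV_one] at h1
      exact absurd (ho s) (not_lt.2 h1.le)
  | step n w s h hv ih =>
    intro m hm
    have h1 : D₀.racgV o (w * gen adj s) s < 0 := by rw [D₀.racgV_self]; linarith
    obtain ⟨k, hk, hO⟩ := hm.inward hs D₀ o ho s h1
    rw [racg_mul_gen_gen] at hO
    rw [hk, ih k hO]

include hs ho in
/-- the length data of a base point in a geometric representation -/
theorem racg_exists_lenData' : ∃ Λ : LenData adj, (∀ w, Λ.In w = {s | D₀.racgV o w s < 0}) ∧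
    ∀ w, w ≠ 1 → (Λ.In w).Nonempty := by
  choose ℓ hℓ using RacgOut.exists hs D₀ o ho
  have hsg := fun w => (hℓ w).sign hs D₀ o ho
  have hne : ∀ w s, D₀.racgV o w s < 0 ∨ 0 < D₀.racgV o w s := by
    intro w s
    by_cases h : 0 < D₀.racgV o w s
    · exact Or.inr h
    · exact Or.inl ((hℓ w).neg_of_not_pos hs D₀ o ho h)
  refine ⟨{ ℓ := ℓ
            In := fun w => {s | D₀.racgV o w s < 0}
            one := ?_
            In_one := ?_
            desc := ?_
            asc := ?_
            mem_flip := ?_
            clique := ?_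
            comm := ?_
            geo_neg := ?_
            geo_pos := ?_ }, fun w => rfl, ?_⟩
  · intro w
    constructor
    · intro h
      have h1 := hℓ w
      rw [h] at h1
      cases h1
      rfl
    · rintro rfl
      exact ((RacgOut.base).unique hs D₀ o ho _ (hℓ 1)).symm
  · ext s
    simp only [Set.mem_ofPred_eq, D₀.racgV_one, Set.mem_empty_iff_false, iff_false, not_lt]
    exact (ho s).le
  · intro w s h
    obtain ⟨m, hm, hO⟩ := (hℓ w).inward hs D₀ o ho s h
    rw [hm, (hℓ (w * gen adj s)).unique hs D₀ o ho m hO]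
  · intro w s h
    have h1 : 0 < D₀.racgV o w s := (hne w s).resolve_left h
    exact (hℓ (w * gen adj s)).unique hs D₀ o ho _ (RacgOut.step _ w s (hℓ w) h1)
  · intro w s
    show D₀.racgV o (w * gen adj s) s < 0 ↔ ¬ D₀.racgV o w s < 0
    rw [D₀.racgV_self]
    rcases hne w s with h | h
    · constructor
      · intro h1; linarith
      · intro h1; exact absurd h h1
    · constructor
      · intro _; linarith
      · intro _; linarith
  · intro w s h1 t h2 hst
    by_contra hna
    have h3 := (hsg w D₀ o ho).2.2 s t hst hna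
    have h1' : D₀.racgV o w s < 0 := h1
    have h2' : D₀.racgV o w t < 0 := h2
    linarith
  · intro w s t h
    show D₀.racgV o (w * gen adj s) t < 0 ↔ D₀.racgV o w t < 0
    rw [D₀.racgV_near o w h]
  · intro D x hx w s h
    exact (hsg w D x hx).2.1 s (not_lt.2 (le_of_lt h))
  · intro D x hx w s h
    exact (hsg w D x hx).1 s ((hne w s).resolve_left h)
  · intro w hw
    have h1 := hℓ w
    generalize ℓ w = n at h1
    cases h1 with
    | base => exact absurd rfl hw
    | step n w s h hv =>
      refine ⟨s, ?_⟩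
      show D₀.racgV o (w * gen adj s) s < 0
      rw [D₀.racgV_self]; linarith

end

variable (adj)

/-- length function and descent sets exist -/
theorem exists_lenData (hs : ∀ s t, adj s t → adj t s) (hi : ∀ s, ¬ adj s s) :
    Nonempty (LenData adj) := by
  obtain ⟨D, o, ho⟩ := racg_exists_tits adj hs hi
  obtain ⟨Λ, -, -⟩ := racg_exists_lenData' hs D o ho
  exact ⟨Λ⟩

variable {adj}

/-! ### consequences for arbitrary length data -/

theorem LenData.racg_irrefl (Λ : LenData adj) (s : B) : ¬ adj s s := by
  intro h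
  have h1 := Λ.comm 1 s s h
  have h2 := Λ.mem_flip 1 s
  tauto

theorem LenData.racg_one_eq (Λ : LenData adj) : Λ.ℓ 1 = 0 := (Λ.one 1).2 rfl

theorem LenData.racg_gen_eq (Λ : LenData adj) (s : B) : Λ.ℓ (gen adj s) = 1 := by
  have h1 := Λ.asc 1 s (by rw [Λ.In_one]; simp)
  rw [one_mul, Λ.racg_one_eq] at h1
  exact h1

theorem LenData.racg_symm (Λ : LenData adj) (s t : B) (h : adj s t) : adj t s := by
  have hne : s ≠ t := by rintro rfl; exact Λ.racg_irrefl s h
  have hc := gen_comm adj h
  have h1 : t ∉ Λ.In (gen adj s) := by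
    have := Λ.comm 1 s t h
    rw [one_mul, Λ.In_one] at this
    simpa using this
  have h2 : t ∈ Λ.In (gen adj s * gen adj t) := (Λ.mem_flip _ _).2 h1
  have h3 : Λ.ℓ (gen adj s * gen adj t) = 2 := by
    rw [Λ.asc _ _ h1, Λ.racg_gen_eq]
  have h4 : s ∉ Λ.In (gen adj t) := by
    intro h5
    have h6 := Λ.desc _ _ h5
    rw [← hc, h3, Λ.racg_gen_eq] at h6
    omega
  have h5 : s ∈ Λ.In (gen adj s * gen adj t) := by
    rw [hc]; exact (Λ.mem_flip _ _).2 h4
  exact Λ.clique _ t h2 s h5 hne.symm

theorem LenData.racg_exists_desc (Λ : LenData adj) (w : RA adj) (hw : w ≠ 1) : (Λ.In w).Nonempty := by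
  obtain ⟨D, o, ho⟩ := racg_exists_tits adj Λ.racg_symm Λ.racg_irrefl
  obtain ⟨Λ', h1, h2⟩ := racg_exists_lenData' Λ.racg_symm D o ho
  obtain ⟨s, hs⟩ := h2 w hw
  refine ⟨s, ?_⟩
  by_contra hn
  have h3 := Λ.geo_pos D o ho w s hn
  rw [h1] at hs
  have h4 : D.racgV o w s < 0 := hs
  unfold Geo.racgV at h4
  linarith

/-- sign of the forms on the closed chamber -/
theorem LenData.closed_neg (Λ : LenData adj) (D : Geo adj) (o : D.E) (ho : ∀ s, 0 < D.α s o)
    (x : D.E) (hx : ∀ s, 0 ≤ D.α s x) (w : RA adj) (s : B) (h : s ∈ Λ.In w) :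
    D.α s (D.act w⁻¹ x) ≤ 0 := by
  apply le_of_forall_pos_le_add
  intro ε hε
  -- choose a small multiple of `o`
  set c : ℝ := D.α s (D.act w⁻¹ o) with hc
  have hc0 : c < 0 := Λ.geo_neg D o ho w s h
  have h1 := Λ.geo_neg D (x + (ε / (-c)) • o) (by
    intro t
    rw [map_add, map_smul, smul_eq_mul]
    have h2 : 0 < ε / (-c) := div_pos hε (by linarith)
    have h3 := mul_pos h2 (ho t)
    linarith [hx t]) w s h
  rw [map_add, map_add, map_smul, map_smul, smul_eq_mul, ← hc] at h1
  have h2 : ε / (-c) * c = -ε := by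
    rw [div_neg, neg_mul, div_mul_cancel₀ _ hc0.ne]
  rw [h2] at h1
  linarith

theorem LenData.closed_pos (Λ : LenData adj) (D : Geo adj) (o : D.E) (ho : ∀ s, 0 < D.α s o)
    (x : D.E) (hx : ∀ s, 0 ≤ D.α s x) (w : RA adj) (s : B) (h : s ∉ Λ.In w) :
    0 ≤ D.α s (D.act w⁻¹ x) := by
  apply le_of_forall_pos_le_add
  intro ε hε
  set c : ℝ := D.α s (D.act w⁻¹ o) with hc
  have hc0 : 0 < c := Λ.geo_pos D o ho w s h
  have h1 := Λ.geo_pos D (x + (ε / c) • o) (by
    intro t
    rw [map_add, map_smul, smul_eq_mul]
    have h2 : 0 < ε / c := div_pos hε hc0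
    have h3 := mul_pos h2 (ho t)
    linarith [hx t]) w s h
  rw [map_add, map_add, map_smul, map_smul, smul_eq_mul, ← hc] at h1
  have h2 : ε / c * c = ε := by
    field_simp
  rw [h2] at h1
  linarith

theorem Geo.racg_act_mul (D : Geo adj) (w w' : RA adj) (x : D.E) :
    D.act (w * w') x = D.act w (D.act w' x) := by
  rw [map_mul]; rfl

/-- the closed chamber is a strict fundamental domain -/
theorem Geo.strict (hs : ∀ s t, adj s t → adj t s) (hi : ∀ s, ¬ adj s s) (D : Geo adj)
    (o : D.E) (ho : ∀ s, 0 < D.α s o) (x y : D.E) (hx : ∀ s, 0 ≤ D.α s x)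
    (hy : ∀ s, 0 ≤ D.α s y) (w : RA adj) (h : D.act w x = y) :
    x = y ∧ w ∈ Subgroup.closure (gen adj '' {s | D.α s x = 0}) := by
  obtain ⟨Λ⟩ := exists_lenData adj hs hi
  induction hn : Λ.ℓ w generalizing w with
  | zero =>
    have hw : w = 1 := (Λ.one w).1 hn
    subst hw
    rw [map_one] at h
    exact ⟨h, Subgroup.one_mem _⟩
  | succ n ih =>
    have hw : w ≠ 1 := by
      rintro rfl
      rw [Λ.racg_one_eq] at hn
      omega
    obtain ⟨s, hsI⟩ := Λ.racg_exists_desc w hw
    have h1 := Λ.closed_neg D o ho y hy w s hsI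
    have h2 : D.act w⁻¹ y = x := by
      rw [← h, ← D.racg_act_mul, inv_mul_cancel, map_one]; rfl
    rw [h2] at h1
    have h3 : D.α s x = 0 := le_antisymm h1 (hx s)
    have h4 : D.act (w * gen adj s) x = y := by
      rw [D.racg_act_mul, D.act_gen, h3, zero_smul, sub_zero, h]
    have h5 : Λ.ℓ (w * gen adj s) = n := by
      have := Λ.desc w s hsI
      omega
    obtain ⟨h6, h7⟩ := ih (w * gen adj s) h4 h5
    refine ⟨h6, ?_⟩
    have h8 : gen adj s ∈ Subgroup.closure (gen adj '' {s | D.α s x = 0}) :=
      Subgroup.subset_closure ⟨s, h3, rfl⟩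
    have h9 := Subgroup.mul_mem _ h7 h8
    rwa [racg_mul_gen_gen] at h9

/-- removing an element from a product over a clique -/
theorem racg_prod_erase (s : B) (l : List B) (hsl : s ∈ l) (hn : l.Nodup)
    (hT : ∀ t ∈ l, t ≠ s → adj s t) :
    gen adj s * (l.map (gen adj)).prod = ((l.erase s).map (gen adj)).prod := by
  induction l with
  | nil => simp at hsl
  | cons a l ih =>
    rw [List.nodup_cons] at hn
    by_cases has : a = s
    · subst has
      rw [List.erase_cons_head, List.map_cons, List.prod_cons, ← mul_assoc, gen_mul_self, one_mul]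
    · have hsl' : s ∈ l := by
        rcases List.mem_cons.1 hsl with h | h
        · exact absurd h.symm has
        · exact h
      rw [List.erase_cons_tail (by simpa using has), List.map_cons, List.map_cons, List.prod_cons,
        List.prod_cons, ← mul_assoc, gen_comm adj (hT a List.mem_cons_self has), mul_assoc,
        ih hsl' hn.2 (fun t ht hne => hT t (List.mem_cons_of_mem _ ht) hne)]

/-- the subgroup generated by a finite clique consists of the products over subsets -/
theorem mem_closure_clique (hs : ∀ s t, adj s t → adj t s) (T : Finset B)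
    (hT : ∀ s ∈ T, ∀ t ∈ T, s ≠ t → adj s t) (w : RA adj)
    (hw : w ∈ Subgroup.closure (gen adj '' (T : Set B))) :
    ∃ l : List B, l.Nodup ∧ (∀ s ∈ l, s ∈ T) ∧ w = (l.map (gen adj)).prod := by
  have key : ∀ s ∈ T, ∀ y : RA adj,
      (∃ l : List B, l.Nodup ∧ (∀ s ∈ l, s ∈ T) ∧ y = (l.map (gen adj)).prod) →
      ∃ l : List B, l.Nodup ∧ (∀ s ∈ l, s ∈ T) ∧ gen adj s * y = (l.map (gen adj)).prod := by
    rintro s hsT y ⟨l, hn, hl, rfl⟩
    by_cases hsl : s ∈ l
    · refine ⟨l.erase s, hn.erase s, fun t ht => hl t (List.mem_of_mem_erase ht), ?_⟩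
      exact racg_prod_erase s l hsl hn (fun t ht hne => hT s hsT t (hl t ht) hne.symm)
    · refine ⟨s :: l, List.nodup_cons.2 ⟨hsl, hn⟩, ?_, ?_⟩
      · intro t ht
        rcases List.mem_cons.1 ht with h | h
        · rw [h]; exact hsT
        · exact hl t h
      · rw [List.map_cons, List.prod_cons]
  induction hw using Subgroup.closure_induction_left with
  | one => exact ⟨[], List.nodup_nil, by simp, by simp⟩
  | mul_left x hx y hy ih =>
    obtain ⟨s, hsT, rfl⟩ := hx
    exact key s hsT y ih
  | inv_mul_cancel x hx y hy ih =>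
    obtain ⟨s, hsT, rfl⟩ := hx
    rw [racg_gen_inv]
    exact key s hsT y ih

/-- multiplying by the product over a clique disjoint from the descent set increases the length -/
theorem LenData.length_clique (Λ : LenData adj) (l : List B) (hn : l.Nodup)
    (hT : ∀ s ∈ l, ∀ t ∈ l, s ≠ t → adj s t) (w : RA adj) (hd : ∀ s ∈ l, s ∉ Λ.In w) :
    Λ.ℓ (w * (l.map (gen adj)).prod) = Λ.ℓ w + l.length := by
  induction l generalizing w with
  | nil => simp
  | cons a l ih =>
    rw [List.nodup_cons] at hn
    rw [List.map_cons, List.prod_cons, ← mul_assoc,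
      ih hn.2 (fun s hs t ht hne => hT s (List.mem_cons_of_mem _ hs) t (List.mem_cons_of_mem _ ht) hne)
        (w * gen adj a) ?_, Λ.asc w a (hd a List.mem_cons_self), List.length_cons]
    · ring
    · intro s hs
      have hne : a ≠ s := by rintro rfl; exact hn.1 hs
      rw [Λ.comm w a s (hT a List.mem_cons_self s (List.mem_cons_of_mem _ hs) hne)]
      exact hd s (List.mem_cons_of_mem _ hs)

/-- finitely many elements of bounded length when there are finitely many generators -/
theorem LenData.finite_length [Finite B] (Λ : LenData adj) (n : ℕ) :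
    {w : RA adj | Λ.ℓ w ≤ n}.Finite := by
  induction n with
  | zero =>
    apply (Set.finite_singleton (1 : RA adj)).subset
    intro w hw
    exact (Λ.one w).1 (Nat.le_zero.1 hw)
  | succ n ih =>
    have h1 : (Set.image2 (fun (w : RA adj) (s : B) => w * gen adj s) {w : RA adj | Λ.ℓ w ≤ n}
        Set.univ).Finite := ih.image2 _ Set.finite_univ
    apply ((Set.finite_singleton (1 : RA adj)).union h1).subset
    intro w hw
    by_cases hw1 : w = 1
    · exact Or.inl hw1
    · obtain ⟨s, hs⟩ := Λ.racg_exists_desc w hw1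
      refine Or.inr ⟨w * gen adj s, ?_, s, Set.mem_univ _, racg_mul_gen_gen adj w s⟩
      have h2 := Λ.desc w s hs
      have h3 : Λ.ℓ w ≤ n + 1 := hw
      show Λ.ℓ (w * gen adj s) ≤ n
      omega

end H30
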