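import Pool.Agent.Helper30_Alex.Cells
import Pool.Agent.Helper30_Alex.Cover
import Pool.Agent.Helper30_Alex.Racg

/-!
# X and X' are aspherical (PART 9)
-/

set_option autoImplicit false

namespace H30


section cube

open scoped unitInterval Topology

/-- a map on the cube which is locally constant along paths in the boundary is constant there -/
theorem asph_boundary {E : Type} {n : ℕ} (hn : 2 ≤ n) (g : (Fin n → I) → E)
    (hg : ∀ γ : I → (Fin n → I), Continuous γ → (∀ t, γ t ∈ Cube.boundary (Fin n)) →
      g (γ 0) = g (γ 1)) :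
    ∀ y ∈ Cube.boundary (Fin n), g y = g 0 := by
  intro y hy
  obtain ⟨i, hi⟩ := hy
  have h1 : g (fun k => if k = i then y i else 0) = g y := by
    have := hg (fun t k => if k = i then y i else t * y k) (by
      refine continuous_pi fun k => ?_
      by_cases hk : k = i
      · simp only [hk, if_true]; exact continuous_const
      · simp only [hk, if_false]; exact continuous_id.mul continuous_const)
      (fun t => ⟨i, by simpa using hi⟩)
    simp only [zero_mul, one_mul] at this
    rw [this]
    congr 1
    funext k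
    by_cases hk : k = i
    · simp [hk]
    · simp [hk]
  obtain ⟨j, hj⟩ : ∃ j : Fin n, j ≠ i := by
    have : Nontrivial (Fin n) := Fin.nontrivial_iff_two_le.2 hn
    exact exists_ne i
  have h2 : g 0 = g (fun k => if k = i then y i else 0) := by
    have := hg (fun t k => if k = i then t * y i else 0) (by
      refine continuous_pi fun k => ?_
      by_cases hk : k = i
      · simp only [hk, if_true]; exact continuous_id.mul continuous_const
      · simp only [hk, if_false]; exact continuous_const)
      (fun t => ⟨j, by simp [hj]⟩)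
    simp only [zero_mul, one_mul] at this
    rw [← this]
    congr 1
    funext k
    by_cases hk : k = i
    · simp [hk]
    · simp [hk]
  rw [← h1, ← h2]

/-- a space covered by a space in which every compact set lies in an absolute extensor is
aspherical -/
theorem asph_of_cover {X E : Type} [TopologicalSpace X] [TopologicalSpace E] (π : E → X)
    (cov : IsCoveringMap π) (hs : Function.Surjective π)
    (hK : ∀ K : Set E, IsCompact K → ∃ T : Set E, K ⊆ T ∧ AE T) (n : ℕ) (hn : 2 ≤ n) (x : X) :
    Subsingleton (HomotopyGroup (Fin n) X x) := by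
  suffices h : ∀ f : GenLoop (Fin n) X x, GenLoop.Homotopic f GenLoop.const by
    constructor
    intro a b
    induction a using Quotient.ind with
    | _ a =>
      induction b using Quotient.ind with
      | _ b =>
        exact Quotient.sound ((h a).trans (h b).symm)
  intro f
  obtain ⟨e, he⟩ := hs x
  have h0 : (0 : Fin n → I) ∈ Cube.boundary (Fin n) := ⟨⟨0, by omega⟩, Or.inl rfl⟩
  -- the lift
  let H : C(I × (Fin n → I), X) :=
    ⟨fun z => f (fun k => z.1 * z.2 k), f.1.continuous.comp (by fun_prop)⟩
  have hH0 : ∀ a, H (0, a) = π ((ContinuousMap.const (Fin n → I) e) a) := by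
    intro a
    show f (fun k => (0 : I) * a k) = π e
    rw [he]
    have : (fun k => (0 : I) * a k) = (0 : Fin n → I) := by funext k; simp
    rw [this]
    exact f.2 _ h0
  let Ht := cov.liftHomotopy H (ContinuousMap.const (Fin n → I) e) hH0
  have hHt : ∀ z, π (Ht z) = H z := fun z => congrFun (cov.liftHomotopy_lifts H _ hH0) z
  let g : (Fin n → I) → E := fun y => Ht (1, y)
  have hg : Continuous g := Ht.continuous.comp (by fun_prop)
  have hgf : ∀ y, π (g y) = f y := by
    intro y
    show π (Ht (1, y)) = f y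
    rw [hHt]
    show f (fun k => (1 : I) * y k) = f y
    congr 1
    funext k
    simp
  have hbd : ∀ y ∈ Cube.boundary (Fin n), g y = g 0 := by
    refine asph_boundary hn g fun γ hγ hb => ?_
    refine cov.const_of_comp (g := fun t => g (γ t)) (hg.comp hγ) (fun a a' => ?_) 0 1
    rw [hgf, hgf]
    exact (f.2 _ (hb a)).trans (f.2 _ (hb a')).symm
  have hg0 : π (g 0) = x := by rw [hgf]; exact f.2 _ h0
  obtain ⟨T, hT, hAE⟩ := hK (Set.range g) (isCompact_range hg)
  -- the prescribed map on the boundary of the cylinder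
  have hcb : IsClosed (Cube.boundary (Fin n)) := by
    have : Cube.boundary (Fin n) = ⋃ i : Fin n, ({y | y i = 0} ∪ {y | y i = 1} : Set (Fin n → I)) := by
      ext y
      simp [Cube.boundary]
    rw [this]
    refine isClosed_iUnion_of_finite fun i => ?_
    exact (isClosed_eq (continuous_apply i) continuous_const).union
      (isClosed_eq (continuous_apply i) continuous_const)
  let B0 : Set (I × (Fin n → I)) := {z | z.1 = 0}
  let B1 : Set (I × (Fin n → I)) := {z | z.1 = 1 ∨ z.2 ∈ Cube.boundary (Fin n)}
  have hB0 : IsClosed B0 := isClosed_eq continuous_fst continuous_const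
  have hB1 : IsClosed B1 :=
    (isClosed_eq continuous_fst continuous_const).union (hcb.preimage continuous_snd)
  classical
  let m : I × (Fin n → I) → E := fun z => if z.1 = 0 then g z.2 else g 0
  have hm0 : Set.EqOn m (fun z => g z.2) B0 := fun z hz => if_pos hz
  have hm1 : Set.EqOn m (fun _ => g 0) B1 := by
    intro z hz
    show (if z.1 = 0 then g z.2 else g 0) = g 0
    split_ifs with h
    · rcases hz with hz | hz
      · rw [h] at hz; exact absurd hz (by simp)
      · exact hbd _ hz
    · rfl
  have hmc : ContinuousOn m (B0 ∪ B1) := by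
    refine ContinuousOn.union_of_isClosed ?_ ?_ hB0 hB1
    · exact ((hg.comp continuous_snd).continuousOn).congr hm0
    · exact continuousOn_const.congr hm1
  have hmT : Set.MapsTo m (B0 ∪ B1) T := by
    intro z _
    show (if z.1 = 0 then g z.2 else g 0) ∈ T
    split_ifs
    · exact hT ⟨_, rfl⟩
    · exact hT ⟨_, rfl⟩
  obtain ⟨F, hF, -, hFm⟩ := hAE (I × (Fin n → I)) (B0 ∪ B1) (hB0.union hB1) m hmc hmT
  refine ⟨⟨⟨⟨fun z => π (F z), cov.continuous.comp hF⟩, ?_, ?_⟩, ?_⟩⟩
  · intro y
    show π (F (0, y)) = f y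
    rw [hFm (Or.inl rfl), hm0 (show (0, y) ∈ B0 from rfl)]
    exact hgf y
  · intro y
    show π (F (1, y)) = x
    rw [hFm (Or.inr (Or.inl rfl)), hm1 (Or.inl rfl)]
    exact hg0
  · intro t y hy
    show π (F (t, y)) = f y
    rw [hFm (Or.inr (Or.inr hy)), hm1 (Or.inr hy)]
    exact hg0.trans (f.2 _ hy).symm



end cube

section racg

variable {B : Type} [DecidableEq B] {adj : B → B → Prop} [DecidableRel adj]

/-- elements reached by an outward path -/
inductive AsphOut (Λ : LenData adj) : ℕ → RA adj → Prop
  | one : AsphOut Λ 0 1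
  | step {n : ℕ} {w : RA adj} {s : B} : AsphOut Λ n w → s ∉ Λ.In w → AsphOut Λ (n + 1) (w * gen adj s)

theorem asph_out_desc (Λ : LenData adj) : ∀ (n : ℕ) (w : RA adj) (s : B), AsphOut Λ n w → s ∈ Λ.In w →
    ∃ m, n = m + 1 ∧ AsphOut Λ m (w * gen adj s) := by
  intro n
  induction n using Nat.strong_induction_on with
  | _ n ih =>
    intro w s hw hs
    cases hw with
    | one => rw [Λ.In_one] at hs; exact absurd hs (Set.notMem_empty _)
    | @step n v t hv ht =>
      by_cases hst : s = t
      · subst hst
        refine ⟨n, rfl, ?_⟩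
        rw [mul_assoc, gen_mul_self, mul_one]
        exact hv
      · have ht' : t ∈ Λ.In (v * gen adj t) := (Λ.mem_flip v t).2 ht
        have hts : adj t s := Λ.clique _ t ht' s hs (Ne.symm hst)
        have hst' : adj s t := Λ.clique _ s hs t ht' hst
        have hsv : s ∈ Λ.In v := (Λ.comm v t s hts).1 hs
        obtain ⟨m, rfl, hm⟩ := ih n (by omega) v s hv hsv
        refine ⟨m + 1, rfl, ?_⟩
        have hts' : t ∉ Λ.In (v * gen adj s) := fun h => ht ((Λ.comm v s t hst').1 h)
        have e : v * gen adj t * gen adj s = v * gen adj s * gen adj t := by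
          rw [mul_assoc, mul_assoc, gen_comm adj hst']
        rw [e]
        exact AsphOut.step hm hts'

theorem asph_out_mul (Λ : LenData adj) (n : ℕ) (w : RA adj) (s : B) (h : AsphOut Λ n w) :
    ∃ m, AsphOut Λ m (w * gen adj s) := by
  by_cases hs : s ∈ Λ.In w
  · obtain ⟨m, -, hm⟩ := asph_out_desc Λ n w s h hs
    exact ⟨m, hm⟩
  · exact ⟨n + 1, AsphOut.step h hs⟩

/-- generators generate -/
theorem asph_closure_gen : Subgroup.closure (Set.range (gen adj)) = ⊤ := by
  have := (raM adj).toCoxeterSystem.subgroup_closure_range_simple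
  have e : (raM adj).toCoxeterSystem.simple = gen adj := by
    funext s
    simp [gen, CoxeterMatrix.toCoxeterSystem_simple]
  rwa [e] at this

theorem asph_out_all (Λ : LenData adj) (w : RA adj) : ∃ m, AsphOut Λ m w := by
  have hw : w ∈ Subgroup.closure (Set.range (gen adj)) := by rw [asph_closure_gen]; trivial
  induction hw using Subgroup.closure_induction_right with
  | one => exact ⟨0, AsphOut.one⟩
  | mul_right x hx y hy ih =>
    obtain ⟨s, rfl⟩ := hy
    obtain ⟨m, hm⟩ := ih
    exact asph_out_mul Λ m x s hm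
  | mul_inv_cancel x hx y hy ih =>
    obtain ⟨s, rfl⟩ := hy
    obtain ⟨m, hm⟩ := ih
    rw [inv_eq_of_mul_eq_one_left (gen_mul_self adj s)]
    exact asph_out_mul Λ m x s hm

/-- every nontrivial element has a descent -/
theorem asph_In_nonempty (Λ : LenData adj) (w : RA adj) (h : w ≠ 1) : (Λ.In w).Nonempty := by
  obtain ⟨m, hm⟩ := asph_out_all Λ w
  cases hm with
  | one => exact absurd rfl h
  | @step n v t hv ht => exact ⟨t, (Λ.mem_flip v t).2 ht⟩

theorem asph_len_list (Λ : LenData adj) (l : List B) (w : RA adj) :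
    Λ.ℓ (w * (l.map (gen adj)).prod) ≤ Λ.ℓ w + l.length := by
  induction l generalizing w with
  | nil => simp
  | cons s l ih =>
    rw [List.map_cons, List.prod_cons, ← mul_assoc, List.length_cons]
    have h1 := ih (w * gen adj s)
    by_cases hs : s ∈ Λ.In w
    · have := Λ.desc w s hs; omega
    · have := Λ.asc w s hs; omega

end racg



/-! ### finite checks -/

theorem asph_inner_mem : ∀ (k : Bool) (s : S), s.val < 13 → col k s ∈ Asub := by decide +kernel

theorem asph_mf_outer : ∀ m : Mir, 13 ≤ (mf m).val := by decide +kernel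

theorem asph_mirror_compat : ∀ (m : Mir) (s : S), s.val < 13 → adj (mf m) s → ∀ (k : Bool) (a : V),
    a ∈ Asub → ((mc m).testBit a.1 = true ↔ (mc m).testBit (a + col k s).1 = true) := by
  decide +kernel

theorem asph_mirror_exists : ∀ s : S, 13 ≤ s.val → ∀ a : Asub, ∃ m : Mir, mf m = s ∧ mAt m a := by
  decide +kernel

theorem asph_mirror_unique : ∀ (m n : Mir), mf m = mf n → ∀ a : Asub, mAt m a → mAt n a → m = n := by
  decide +kernel

theorem asph_no_four : ∀ s t : S, adj s t → ∀ r : S, adj s r → adj t r → ∀ q : S, adj s q → adj t q →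
    ¬ adj r q := by
  decide +kernel

theorem asph_col1 : ∀ (k : Bool) (s : S), 13 ≤ s.val → col k s ≠ 0 := by decide +kernel
theorem asph_col2 : ∀ (k : Bool) (s : S), 13 ≤ s.val → ∀ t : S, adj s t → col k s + col k t ≠ 0 := by
  decide +kernel
theorem asph_col3 : ∀ (k : Bool) (s : S), 13 ≤ s.val → ∀ t : S, adj s t → ∀ r : S, adj s r → adj t r →
    col k s + (col k t + col k r) ≠ 0 := by
  decide +kernel

theorem asph_gen_V : ∀ (k : Bool) (v : V), ∃ a b c d : Bool,
    v = (if a then col k 0 else 0) + ((if b then col k 1 else 0) + ((if c then col k 13 else 0) +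
      (if d then col k 15 else 0))) := by decide +kernel

theorem asph_madj_symm (m n : Mir) (h : madj m n) : madj n m :=
  ⟨adj_symm h.1, by rw [Nat.land_comm]; exact h.2⟩

theorem asph_madj_irrefl (m : Mir) : ¬ madj m m := fun h => adj_irrefl _ h.1

theorem asph_clique_card (R : Finset S) (hR : Clique R) : R.card ≤ 3 := by
  by_contra hc
  obtain ⟨R', hR', hc'⟩ := Finset.exists_subset_card_eq (show 4 ≤ R.card by omega)
  have hcl := hR.mono hR'
  obtain ⟨s, R1, hs, rfl, h1⟩ := Finset.card_eq_succ.1 hc'
  obtain ⟨t, r, q, htr, htq, hrq, rfl⟩ := Finset.card_eq_three.1 h1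
  have hadj : ∀ a ∈ insert s ({t, r, q} : Finset S), ∀ b ∈ insert s ({t, r, q} : Finset S),
      a ≠ b → adj a b := hcl
  simp only [Finset.mem_insert, Finset.mem_singleton, not_or] at hadj hs
  exact asph_no_four s t (hadj s (by simp) t (by simp) hs.1)
    r (hadj s (by simp) r (by simp) hs.2.1) (hadj t (by simp) r (by simp) htr)
    q (hadj s (by simp) q (by simp) hs.2.2) (hadj t (by simp) q (by simp) htq)
    (hadj r (by simp) q (by simp) hrq)

/-- a set of pairwise adjacent facets with colour sum zero contains no outer facet -/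
theorem asph_sum_ne (k : Bool) (R : Finset S) (hR : Clique R) (s : S) (hs : s ∈ R)
    (h13 : 13 ≤ s.val) : ∑ t ∈ R, col k t ≠ 0 := by
  have hR' : insert s (R.erase s) = R := Finset.insert_erase hs
  have hcard : (R.erase s).card ≤ 2 := by
    rw [Finset.card_erase_of_mem hs]
    have := asph_clique_card R hR
    omega
  rw [← hR', Finset.sum_insert (Finset.notMem_erase s R)]
  have hadj : ∀ t ∈ R.erase s, adj s t := fun t ht =>
    hR s hs t (Finset.mem_of_mem_erase ht) (Finset.ne_of_mem_erase ht).symm
  have hadj2 : ∀ t ∈ R.erase s, ∀ r ∈ R.erase s, t ≠ r → adj t r := fun t ht r hr =>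
    hR t (Finset.mem_of_mem_erase ht) r (Finset.mem_of_mem_erase hr)
  generalize R.erase s = Q at *
  interval_cases hq : Q.card
  · rw [Finset.card_eq_zero] at hq
    subst hq
    simpa using asph_col1 k s h13
  · obtain ⟨t, rfl⟩ := Finset.card_eq_one.1 hq
    rw [Finset.sum_singleton]
    exact asph_col2 k s h13 t (hadj t (by simp))
  · obtain ⟨t, r, htr, rfl⟩ := Finset.card_eq_two.1 hq
    rw [Finset.sum_pair htr]
    exact asph_col3 k s h13 t (hadj t (by simp)) r (hadj r (by simp))
      (hadj2 t (by simp) r (by simp) htr)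


/-! ### the Davis type script -/

/-- mirrors of the copy `a` carried by facets in `T` -/
def asphM (T : Finset S) (a : Asub) : Set Mir := {m | mf m ∈ T ∧ mAt m a}

theorem asphM_mono {T T' : Finset S} (h : T ⊆ T') (a : Asub) : asphM T a ⊆ asphM T' a :=
  fun _ hm => ⟨h hm.1, hm.2⟩

theorem asph_sum_mem (k : Bool) (T : Finset S) (hT : ∀ s ∈ T, s.val < 13) :
    ∑ s ∈ T, col k s ∈ Asub := sum_mem fun s hs => asph_inner_mem k s (hT s hs)

theorem asph_compat_sum (k : Bool) (m : Mir) (T : Finset S)
    (hT : ∀ s ∈ T, s.val < 13 ∧ adj (mf m) s) : ∀ a : V, a ∈ Asub →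
    ((mc m).testBit a.1 = true ↔ (mc m).testBit (a + ∑ s ∈ T, col k s).1 = true) := by
  classical
  induction T using Finset.induction_on with
  | empty => intro a _; rw [Finset.sum_empty, add_zero]
  | insert s T hs ih =>
    intro a ha
    have h1 := hT s (Finset.mem_insert_self _ _)
    rw [Finset.sum_insert hs, ← add_assoc]
    rw [asph_mirror_compat m s h1.1 h1.2 k a ha]
    exact ih (fun t ht => hT t (Finset.mem_insert_of_mem ht)) _
      (add_mem ha (asph_inner_mem k s h1.1))

theorem asphM_congr (k : Bool) {T : Finset S} (hT : Clique T) {a b : Asub}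
    (h : (a : V) - b ∈ spn k (innF T)) : asphM T a = asphM T b := by
  obtain ⟨T', hT', h'⟩ := mem_spn.1 h
  rw [Finset.mem_powerset] at hT'
  have hab : (a : V) = b + ∑ s ∈ T', col k s := by rw [h']; abel
  ext m
  have key : mf m ∈ T → (mAt m b ↔ mAt m a) := by
    intro hm
    have := asph_compat_sum k m T' (fun s hs => by
      have h1 := hT' hs
      rw [innF, Finset.mem_filter] at h1
      refine ⟨h1.2, hT _ hm s h1.1 ?_⟩
      rintro rfl
      have := asph_mf_outer m
      omega) b b.2
    rw [← hab] at this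
    exact this
  exact ⟨fun ⟨h1, h2⟩ => ⟨h1, (key h1).2 h2⟩, fun ⟨h1, h2⟩ => ⟨h1, (key h1).1 h2⟩⟩

/-- the subgroup generated by the mirrors at a point -/
def asphW (T : Finset S) (a : Asub) : Subgroup (RA madj) :=
  Subgroup.closure (gen madj '' asphM T a)

theorem asphW_mono {T T' : Finset S} (h : T ⊆ T') (a : Asub) : asphW T a ≤ asphW T' a :=
  Subgroup.closure_mono (Set.image_mono (asphM_mono h a))

/-- gluing data of the covering space -/
def asphG (k : Bool) : Gl where
  I := Asub × RA madj
  r T x y := Clique T → (x.1 : V) - (y.1 : V) ∈ spn k (innF T) ∧ x.2⁻¹ * y.2 ∈ asphW T x.1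
  equiv T := by
    refine ⟨fun x _ => ?_, fun {x y} h hT => ?_, fun {x y z} h h' hT => ?_⟩
    · rw [sub_self, inv_mul_cancel]
      exact ⟨zero_mem _, one_mem _⟩
    · obtain ⟨h1, h2⟩ := h hT
      refine ⟨by rw [← neg_sub]; exact neg_mem h1, ?_⟩
      have e : asphW T x.1 = asphW T y.1 := by unfold asphW; rw [asphM_congr k hT h1]
      rw [← e]
      have := inv_mem h2
      rwa [mul_inv_rev, inv_inv] at this
    · obtain ⟨h1, h2⟩ := h hT
      obtain ⟨h3, h4⟩ := h' hT
      refine ⟨by rw [← sub_add_sub_cancel (x.1 : V) y.1 z.1]; exact add_mem h1 h3, ?_⟩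
      have e : asphW T x.1 = asphW T y.1 := by unfold asphW; rw [asphM_congr k hT h1]
      rw [← e] at h4
      have := mul_mem h2 h4
      rwa [mul_assoc, mul_inv_cancel_left] at this
  mono h x y hxy hT := by
    obtain ⟨h1, h2⟩ := hxy (hT.mono h)
    exact ⟨spn_mono (innF_mono h) h1, asphW_mono h _ h2⟩

theorem asphG_r {k : Bool} {T : Finset S} (hT : Clique T) {x y : Asub × RA madj} :
    (asphG k).r T x y ↔ (x.1 : V) - (y.1 : V) ∈ spn k (innF T) ∧ x.2⁻¹ * y.2 ∈ asphW T x.1 :=
  ⟨fun h => h hT, fun h _ => h⟩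

theorem asph_exists_lam (k : Bool) : ∃ φ : RA madj →* Multiplicative V,
    ∀ m, φ (gen madj m) = Multiplicative.ofAdd (col k (mf m)) := by
  refine exists_hom madj (fun m => Multiplicative.ofAdd (col k (mf m))) (fun s => ?_) (fun s t _ => ?_)
  · rw [← ofAdd_add, V.add_self]; rfl
  · exact mul_comm _ _

/-- the colour homomorphism -/
noncomputable def asphHom (k : Bool) : RA madj →* Multiplicative V := (asph_exists_lam k).choose

/-- its additive version -/
noncomputable def asphLam (k : Bool) (w : RA madj) : V := Multiplicative.toAdd (asphHom k w)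

theorem asphLam_gen (k : Bool) (m : Mir) : asphLam k (gen madj m) = col k (mf m) := by
  unfold asphLam asphHom
  rw [(asph_exists_lam k).choose_spec m]
  rfl

theorem asphLam_mul (k : Bool) (w w' : RA madj) : asphLam k (w * w') = asphLam k w + asphLam k w' := by
  unfold asphLam; rw [map_mul]; rfl

theorem asphLam_one (k : Bool) : asphLam k 1 = 0 := by
  unfold asphLam; rw [map_one]; rfl

theorem asphLam_inv (k : Bool) (w : RA madj) : asphLam k w⁻¹ = - asphLam k w := by
  unfold asphLam; rw [map_inv]; rfl

theorem asphLam_list (k : Bool) (l : List Mir) :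
    asphLam k (l.map (gen madj)).prod = (l.map (fun m => col k (mf m))).sum := by
  induction l with
  | nil => simpa using asphLam_one k
  | cons m l ih => simp only [List.map_cons, List.prod_cons, List.sum_cons]; rw [asphLam_mul, asphLam_gen, ih]

theorem asph_col_mem (k : Bool) {T : Finset S} {s : S} (h : s ∈ T) : col k s ∈ spn k T :=
  mem_spn.2 ⟨{s}, by simpa using h, by simp⟩

theorem asphLam_mem (k : Bool) {T : Finset S} {a : Asub} {w : RA madj} (h : w ∈ asphW T a) :
    asphLam k w ∈ spn k T := by
  induction h using Subgroup.closure_induction with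
  | mem x hx =>
    obtain ⟨m, hm, rfl⟩ := hx
    rw [asphLam_gen]
    exact asph_col_mem k hm.1
  | one => rw [asphLam_one]; exact zero_mem _
  | mul x y hx hy ihx ihy => rw [asphLam_mul]; exact add_mem ihx ihy
  | inv x hx ihx => rw [asphLam_inv]; exact neg_mem ihx

/-- the mirrors at a point form a clique -/
theorem asphM_clique {T : Finset S} (hT : Clique T) {a : Asub} :
    ∀ m ∈ asphM T a, ∀ n ∈ asphM T a, m ≠ n → madj m n := by
  rintro m ⟨hm, hma⟩ n ⟨hn, hna⟩ hmn
  refine ⟨hT _ hm _ hn fun h => hmn (asph_mirror_unique m n h a hma hna), fun h => ?_⟩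
  have h1 : (mc m &&& mc n).testBit a.1.1 = true := by
    rw [Nat.testBit_land]
    have h2 : (mc m).testBit a.1.1 = true := hma
    have h3 : (mc n).testBit a.1.1 = true := hna
    rw [h2, h3]; rfl
  rw [h] at h1
  simp at h1

theorem asphW_list {T : Finset S} (hT : Clique T) {a : Asub} {w : RA madj} (h : w ∈ asphW T a) :
    ∃ l : List Mir, l.Nodup ∧ (∀ m ∈ l, m ∈ asphM T a) ∧ w = (l.map (gen madj)).prod := by
  classical
  have hf : (asphM T a).Finite := Set.toFinite _
  obtain ⟨l, h1, h2, h3⟩ := mem_closure_clique (adj := madj) asph_madj_symm hf.toFinset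
    (by
      intro s hs t ht hst
      exact asphM_clique hT s (hf.mem_toFinset.1 hs) t (hf.mem_toFinset.1 ht) hst) w
    (by rw [hf.coe_toFinset]; exact h)
  exact ⟨l, h1, fun m hm => hf.mem_toFinset.1 (h2 m hm), h3⟩

theorem asph_innF_out (T : Finset S) : innF T ∪ outF T = T := by
  ext s
  simp only [innF, outF, Finset.mem_union, Finset.mem_filter]
  constructor
  · rintro (h | h) <;> exact h.1
  · intro h
    by_cases h1 : s.val < 13
    · exact Or.inl ⟨h, h1⟩
    · exact Or.inr ⟨h, by omega⟩

theorem asph_innF_disj (T : Finset S) : Disjoint (innF T) (outF T) := by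
  rw [Finset.disjoint_left]
  intro s h1 h2
  simp only [innF, outF, Finset.mem_filter] at h1 h2
  omega

/-- independence of the outer colours modulo the inner ones -/
theorem asph_indep (k : Bool) {T : Finset S} (hT : Clique T) {a : Asub} {w : RA madj}
    (h : w ∈ asphW T a) (h' : asphLam k w ∈ spn k (innF T)) : w = 1 := by
  classical
  obtain ⟨l, hl, hlm, rfl⟩ := asphW_list hT h
  rw [asphLam_list] at h'
  obtain ⟨T', hT', h''⟩ := mem_spn.1 h'
  rw [Finset.mem_powerset] at hT'
  have hinj : (l.map mf).Nodup := by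
    refine (List.nodup_map_iff_inj_on hl).2 fun m hm n hn hmn => ?_
    exact asph_mirror_unique m n hmn a (hlm m hm).2 (hlm n hn).2
  have hs : (l.map (fun m => col k (mf m))).sum = ∑ s ∈ (l.map mf).toFinset, col k s := by
    rw [List.sum_toFinset _ hinj, List.map_map]
    rfl
  cases l with
  | nil => rfl
  | cons m l =>
    exfalso
    set R := ((m :: l).map mf).toFinset with hR
    have hRo : ∀ s ∈ R, 13 ≤ s.val := by
      intro s hs
      rw [hR, List.mem_toFinset, List.mem_map] at hs
      obtain ⟨n, -, rfl⟩ := hs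
      exact asph_mf_outer n
    have hRT : R ⊆ T := by
      intro s hs
      rw [hR, List.mem_toFinset, List.mem_map] at hs
      obtain ⟨n, hn, rfl⟩ := hs
      exact (hlm n hn).1
    have hdis : Disjoint R T' := by
      rw [Finset.disjoint_left]
      intro s h1 h2
      have h3 := hRo s h1
      have h4 := hT' h2
      simp only [innF, Finset.mem_filter] at h4
      omega
    have hT'T : T' ⊆ T := hT'.trans (Finset.filter_subset _ _)
    refine asph_sum_ne k (R ∪ T') (hT.mono (Finset.union_subset hRT hT'T)) (mf m) ?_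
      (asph_mf_outer m) ?_
    · rw [Finset.mem_union]
      left
      rw [hR]
      simp
    · rw [Finset.sum_union hdis, ← hs, h'']
      exact V.add_self _

/-- the map on indices -/
noncomputable def asphIdx (k : Bool) (x : (asphG k).I) : (GX k).I := (x.1 : V) + asphLam k x.2

theorem asph_neg_eq (v : V) : -v = v := rfl

theorem asphIdx_r (k : Bool) (T : Finset S) (hT : Clique T) (i j : (asphG k).I)
    (h : (asphG k).r T i j) : (GX k).r T (asphIdx k i) (asphIdx k j) := by
  obtain ⟨h1, h2⟩ := h hT
  show (i.1 : V) + asphLam k i.2 - ((j.1 : V) + asphLam k j.2) ∈ spn k T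
  have h3 := asphLam_mem k h2
  rw [asphLam_mul, asphLam_inv] at h3
  have : (i.1 : V) + asphLam k i.2 - ((j.1 : V) + asphLam k j.2)
      = ((i.1 : V) - j.1) - (-asphLam k i.2 + asphLam k j.2) := by abel
  rw [this]
  exact sub_mem (spn_mono (Finset.filter_subset _ _) h1) h3

/-- the mirror over an outer facet -/
theorem asph_lift_out (k : Bool) (T' : Finset S) (a : Asub) (T : Finset S) (h : T' ⊆ T)
    (ho : ∀ s ∈ T', 13 ≤ s.val) : ∃ w ∈ asphW T a, asphLam k w = ∑ s ∈ T', col k s := by
  classical
  induction T' using Finset.induction_on with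
  | empty => exact ⟨1, one_mem _, by rw [asphLam_one, Finset.sum_empty]⟩
  | insert s T' hs ih =>
    obtain ⟨w, hw, hw'⟩ := ih (fun t ht => h (Finset.mem_insert_of_mem ht))
      (fun t ht => ho t (Finset.mem_insert_of_mem ht))
    obtain ⟨m, hm, hma⟩ := asph_mirror_exists s (ho s (Finset.mem_insert_self _ _)) a
    refine ⟨gen madj m * w, mul_mem (Subgroup.subset_closure ⟨m, ⟨?_, hma⟩, rfl⟩) hw, ?_⟩
    · rw [hm]; exact h (Finset.mem_insert_self _ _)
    · rw [asphLam_mul, asphLam_gen, hm, hw', Finset.sum_insert hs]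

theorem asph_cover_cond (k : Bool) (T : Finset S) (hT : Clique T) (i : (asphG k).I)
    (j' : (GX k).I) (h : (GX k).r T (asphIdx k i) j') :
    ∃! j, (asphG k).r T i j ∧ asphIdx k j = j' := by
  classical
  have h' : (i.1 : V) + asphLam k i.2 - (show V from j') ∈ spn k T := h
  obtain ⟨T', hT', h2⟩ := mem_spn.1 h'
  rw [Finset.mem_powerset] at hT'
  have hsum : ∑ s ∈ T', col k s = ∑ s ∈ innF T', col k s + ∑ s ∈ outF T', col k s := by
    rw [← Finset.sum_union (asph_innF_disj T'), asph_innF_out]
  obtain ⟨w, hw, hw'⟩ := asph_lift_out k (outF T') i.1 T ((Finset.filter_subset _ _).trans hT')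
    (fun s hs => by simp only [outF, Finset.mem_filter] at hs; exact hs.2)
  have hin : ∑ s ∈ innF T', col k s ∈ Asub :=
    asph_sum_mem k _ (fun s hs => by simp only [innF, Finset.mem_filter] at hs; exact hs.2)
  have hinT : ∑ s ∈ innF T', col k s ∈ spn k (innF T) :=
    mem_spn.2 ⟨innF T', Finset.mem_powerset.2 (innF_mono hT'), rfl⟩
  let c : Asub := ⟨∑ s ∈ innF T', col k s, hin⟩
  refine ⟨(i.1 - c, i.2 * w), ⟨?_, ?_⟩, ?_⟩
  · refine (asphG_r hT).2 ⟨?_, ?_⟩
    · show (i.1 : V) - ((i.1 - c : Asub) : V) ∈ spn k (innF T)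
      have : (i.1 : V) - ((i.1 - c : Asub) : V) = c := by
        rw [AddSubgroup.coe_sub]; abel
      rw [this]; exact hinT
    · show i.2⁻¹ * (i.2 * w) ∈ asphW T i.1
      rw [inv_mul_cancel_left]; exact hw
  · show ((i.1 - c : Asub) : V) + asphLam k (i.2 * w) = j'
    rw [asphLam_mul, hw', AddSubgroup.coe_sub]
    have e : (c : V) = ∑ s ∈ innF T', col k s := rfl
    rw [e]
    rw [hsum] at h2
    have h3 : ∀ a b x y j : V, x + y = a + b - j → a - x + (b + y) = j := by
      intro a b x y j hh
      have h4 : a - x = a + x := rfl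
      have h5 : a + b - j = a + b + j := rfl
      rw [h5] at hh
      rw [h4]
      calc a + x + (b + y) = (x + y) + (a + b) := by abel
        _ = (a + b + j) + (a + b) := by rw [hh]
        _ = ((a + b) + (a + b)) + j := by abel
        _ = j := by rw [V.add_self, zero_add]
    exact h3 _ _ _ _ _ h2
  · rintro ⟨b, w'⟩ ⟨h3, h4⟩
    obtain ⟨h5, h6⟩ := (asphG_r hT).1 h3
    change (i.1 : V) - (b : V) ∈ spn k (innF T) at h5
    change i.2⁻¹ * w' ∈ asphW T i.1 at h6
    have h4' : (b : V) + asphLam k w' = (show V from j') := h4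
    -- compare with the first solution
    have h7 : w⁻¹ * (i.2⁻¹ * w') ∈ asphW T i.1 := mul_mem (inv_mem hw) h6
    have h8 : asphLam k (w⁻¹ * (i.2⁻¹ * w')) ∈ spn k (innF T) := by
      rw [asphLam_mul, asphLam_mul, asphLam_inv, asphLam_inv, hw']
      have e1 : -∑ s ∈ outF T', col k s + (-asphLam k i.2 + asphLam k w')
          = (i.1 : V) - (b : V) - ∑ s ∈ innF T', col k s := by
        have h9 : ∑ s ∈ innF T', col k s + ∑ s ∈ outF T', col k s
            = (i.1 : V) + asphLam k i.2 - ((b : V) + asphLam k w') := by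
          rw [← hsum, h2, h4']
        have h10 : ∑ s ∈ outF T', col k s
            = (i.1 : V) + asphLam k i.2 - ((b : V) + asphLam k w') - ∑ s ∈ innF T', col k s := by
          rw [← h9]; abel
        rw [h10]
        have h11 : ∀ a b x y z : V, -(a + x - (b + y) - z) + (-x + y) = a - b - z := by
          intro a b x y z
          have e : ∀ u v : V, u - v = u + v := fun _ _ => rfl
          simp only [asph_neg_eq, e]
          calc a + x + (b + y) + z + (x + y) = (x + x) + (y + y) + (a + b + z) := by abel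
            _ = a + b + z := by rw [V.add_self, V.add_self, zero_add, zero_add]
        exact h11 _ _ _ _ _
      rw [e1]
      exact sub_mem h5 hinT
    have h12 := asph_indep k hT h7 h8
    have h13 : w' = i.2 * w := by
      have : i.2⁻¹ * w' = w := by
        rw [inv_mul_eq_one] at h12
        exact h12.symm
      rw [← this, mul_inv_cancel_left]
    refine Prod.ext ?_ h13
    have h14 : (b : V) = (i.1 : V) - ∑ s ∈ innF T', col k s := by
      rw [h13, asphLam_mul, hw'] at h4'
      rw [hsum, ← h4'] at h2
      have h15 : ∀ a b x y z : V, x + y = a + z - (b + (z + y)) → b = a - x := by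
        intro a b x y z hh
        have e : ∀ u v : V, u - v = u + v := fun _ _ => rfl
        rw [e] at hh ⊢
        have e2 : x + y = a + b + y := by
          rw [hh]
          calc a + z + (b + (z + y)) = (z + z) + (a + b + y) := by abel
            _ = a + b + y := by rw [V.add_self, zero_add]
        have e3 : x = a + b := add_right_cancel e2
        rw [e3, ← add_assoc, V.add_self, zero_add]
      exact h15 _ _ _ _ _ h2
    apply Subtype.ext
    rw [h14]
    rfl

/-- the covering map -/
noncomputable def asphPi (C : Chamber) (k : Bool) : Dev C (asphG k) → Dev C (GX k) :=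
  Dev.map (asphIdx k) (asphIdx_r k)

theorem asphPi_cov (C : Chamber) (k : Bool) : IsCoveringMap (asphPi C k) :=
  Dev.isCoveringMap C _ _ _ _ fun T hT i j' h => asph_cover_cond k T hT i j' h

theorem asph_gen_surj (k : Bool) (v : V) : ∃ w : RA madj, ∃ a : Asub, (a : V) + asphLam k w = v := by
  obtain ⟨a, b, c, d, h⟩ := asph_gen_V k v
  obtain ⟨w1, -, h1⟩ := asph_lift_out k (if c then {13} else ∅) 0 Finset.univ (Finset.subset_univ _)
    (by
      intro s hs
      split_ifs at hs
      · rw [Finset.mem_singleton] at hs; subst hs; decide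
      · simp at hs)
  obtain ⟨w2, -, h2⟩ := asph_lift_out k (if d then {15} else ∅) 0 Finset.univ (Finset.subset_univ _)
    (by
      intro s hs
      split_ifs at hs
      · rw [Finset.mem_singleton] at hs; subst hs; decide
      · simp at hs)
  have h3 : (if a then col k 0 else 0) + (if b then col k 1 else 0) ∈ Asub := by
    refine add_mem ?_ ?_
    · split_ifs
      · exact asph_inner_mem k 0 (by decide)
      · exact zero_mem _
    · split_ifs
      · exact asph_inner_mem k 1 (by decide)
      · exact zero_mem _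
  refine ⟨w1 * w2, ⟨_, h3⟩, ?_⟩
  rw [asphLam_mul, h1, h2]
  have e1 : ∑ s ∈ (if c then {13} else ∅ : Finset S), col k s = if c then col k 13 else 0 := by
    split_ifs <;> simp
  have e2 : ∑ s ∈ (if d then {15} else ∅ : Finset S), col k s = if d then col k 15 else 0 := by
    split_ifs <;> simp
  rw [e1, e2, h]
  show (if a then col k 0 else 0) + (if b then col k 1 else 0) + _ = _
  rw [add_assoc]

theorem asphPi_surj (C : Chamber) (k : Bool) : Function.Surjective (asphPi C k) := by
  intro x
  obtain ⟨v, p, rfl⟩ := Dev.exists_rep x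
  obtain ⟨w, a, h⟩ := asph_gen_surj k v
  refine ⟨Dev.mk (G := asphG k) (a, w) p, ?_⟩
  show Dev.mk (G := GX k) (asphIdx k (a, w)) p = _
  have : asphIdx k (a, w) = v := h
  rw [this]


/-! ### chambers of the covering space -/

/-- the chamber `w` of the covering space -/
def asphI (C : Chamber) (k : Bool) (w : RA madj) : Dev C (GK k) → Dev C (asphG k) :=
  Dev.map (G' := asphG k) (fun a : Asub => (a, w)) (by
    intro T hT a b hab
    refine (asphG_r hT).2 ⟨hab, ?_⟩
    show w⁻¹ * w ∈ _
    rw [inv_mul_cancel]; exact one_mem _)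

theorem asphI_mk (C : Chamber) (k : Bool) (w : RA madj) (a : Asub) (p : C.P) :
    asphI C k w (Dev.mk (G := GK k) a p) = Dev.mk (G := asphG k) (a, w) p := rfl

theorem asphI_continuous (C : Chamber) (k : Bool) (w : RA madj) : Continuous (asphI C k w) :=
  Dev.continuous_map _ _

/-- the retraction to a chamber -/
def asphR (C : Chamber) (k : Bool) : Dev C (asphG k) → Dev C (GK k) :=
  Dev.map (G := asphG k) (G' := GK k) (fun x : Asub × RA madj => x.1) (by
    intro T hT a b hab
    exact ((asphG_r hT).1 hab).1)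

theorem asphR_continuous (C : Chamber) (k : Bool) : Continuous (asphR C k) :=
  Dev.continuous_map _ _

theorem asphR_I (C : Chamber) (k : Bool) (w : RA madj) (x : Dev C (GK k)) :
    asphR C k (asphI C k w x) = x := by
  obtain ⟨a, p, rfl⟩ := Dev.exists_rep x
  rfl

theorem asphI_mem (C : Chamber) (k : Bool) (w : RA madj) (A : Set (Dev C (GK k))) (b : Asub)
    (w' : RA madj) (p : C.P) : (Dev.mk (G := asphG k) (b, w') p) ∈ asphI C k w '' A ↔
    ∃ a : Asub, Dev.mk (G := GK k) a p ∈ A ∧ (asphG k).r (C.sup p) (a, w) (b, w') := by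
  constructor
  · rintro ⟨x, hx, h⟩
    obtain ⟨a, q, rfl⟩ := Dev.exists_rep x
    obtain ⟨rfl, h2⟩ := Dev.mk_eq.1 h
    exact ⟨a, hx, h2⟩
  · rintro ⟨a, ha, h⟩
    exact ⟨_, ha, Dev.mk_eq.2 ⟨rfl, h⟩⟩

theorem asphI_closed (C : Chamber) (k : Bool) (w : RA madj) {A : Set (Dev C (GK k))}
    (hA : IsClosed A) : IsClosed (asphI C k w '' A) := by
  rw [Dev.isClosed_iff]
  rintro ⟨b, w'⟩
  have : {p : C.P | Dev.mk (G := asphG k) (b, w') p ∈ asphI C k w '' A} =
      ⋃ a : Asub, ({p : C.P | Dev.mk (G := GK k) a p ∈ A} ∩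
        {p : C.P | (asphG k).r (C.sup p) (a, w) (b, w')}) := by
    ext p
    simp only [Set.mem_ofPred_eq, Set.mem_iUnion, Set.mem_inter_iff]
    exact asphI_mem C k w A b w' p
  rw [this]
  exact isClosed_iUnion_of_finite fun a => ((Dev.isClosed_iff.1 hA) a).inter (Dev.isClosed_rel _ _)

/-- the union of the chambers in a finite set -/
def asphT (C : Chamber) (k : Bool) (F : Finset (RA madj)) : Set (Dev C (asphG k)) :=
  ⋃ w ∈ F, asphI C k w '' Set.univ

theorem asphT_closed (C : Chamber) (k : Bool) (F : Finset (RA madj)) : IsClosed (asphT C k F) :=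
  isClosed_biUnion_finset fun w _ => asphI_closed C k w isClosed_univ

theorem asphT_mk (C : Chamber) (k : Bool) (F : Finset (RA madj)) (a : Asub) (w : RA madj)
    (h : w ∈ F) (p : C.P) : Dev.mk (G := asphG k) (a, w) p ∈ asphT C k F :=
  Set.mem_biUnion h ⟨_, Set.mem_univ _, asphI_mk C k w a p⟩

theorem asphT_AE (C : Chamber) (k : Bool) (Λ : LenData madj) : ∀ (n : ℕ) (F : Finset (RA madj)),
    F.card = n → F.Nonempty → (∀ w ∈ F, ∀ w', Λ.ℓ w' < Λ.ℓ w → w' ∈ F) → AE (asphT C k F) := by
  classical
  intro n
  induction n with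
  | zero =>
    intro F hF hn
    rw [Finset.card_eq_zero] at hF
    exact absurd hF hn.ne_empty
  | succ n ih =>
    intro F hF hn hlow
    obtain ⟨w, hw, hmax⟩ := Finset.exists_max_image F Λ.ℓ hn
    have hAEw : AE (asphI C k w '' Set.univ) :=
      AE.image (AE_K C k) _ (asphR C k) (asphI_continuous C k w) (asphR_continuous C k)
        (asphR_I C k w)
    by_cases hw1 : w = 1
    · have : F = {w} := by
        ext v
        rw [Finset.mem_singleton]
        constructor
        · intro hv
          have h1 := hmax v hv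
          have h2 : Λ.ℓ w = 0 := (Λ.one w).2 hw1
          have h3 : Λ.ℓ v = 0 := by omega
          rw [(Λ.one v).1 h3, hw1]
        · rintro rfl; exact hw
      rw [this]
      have e : asphT C k {w} = asphI C k w '' Set.univ := by
        unfold asphT; simp
      rw [e]
      exact hAEw
    · have hpos : 0 < Λ.ℓ w := by
        rcases Nat.eq_zero_or_pos (Λ.ℓ w) with h | h
        · exact absurd ((Λ.one w).1 h) hw1
        · exact h
      have hF' : insert w (F.erase w) = F := Finset.insert_erase hw
      have hcard : (F.erase w).card = n := by rw [Finset.card_erase_of_mem hw]; omega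
      have h1F : (1 : RA madj) ∈ F.erase w := by
        refine Finset.mem_erase.2 ⟨Ne.symm hw1, hlow w hw 1 ?_⟩
        rw [(Λ.one 1).2 rfl]; exact hpos
      have hlow' : ∀ v ∈ F.erase w, ∀ w', Λ.ℓ w' < Λ.ℓ v → w' ∈ F.erase w := by
        intro v hv w' hw'
        have hvF := Finset.mem_of_mem_erase hv
        refine Finset.mem_erase.2 ⟨?_, hlow v hvF w' hw'⟩
        rintro rfl
        have := hmax v hvF
        omega
      have e : asphT C k F = asphI C k w '' Set.univ ∪ asphT C k (F.erase w) := by
        conv_lhs => rw [← hF']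
        unfold asphT
        rw [Finset.set_biUnion_insert]
      have hfin : (Λ.In w).Finite := Set.toFinite _
      have einter : (asphI C k w '' Set.univ) ∩ asphT C k (F.erase w) =
          asphI C k w '' KC C k hfin.toFinset := by
        ext x
        obtain ⟨⟨b, w'⟩, p, rfl⟩ := Dev.exists_rep x
        constructor
        · rintro ⟨h1, h2⟩
          obtain ⟨a, -, ha⟩ := (asphI_mem C k w _ b w' p).1 h1
          obtain ⟨v, hv, hv2⟩ := Set.mem_iUnion₂.1 h2
          obtain ⟨c, -, hc⟩ := (asphI_mem C k v _ b w' p).1 hv2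
          have hr := (asphG k).trans ha ((asphG k).symm hc)
          have hcl := C.clique_sup p
          obtain ⟨-, h4⟩ := (asphG_r hcl).1 hr
          change w⁻¹ * v ∈ asphW (C.sup p) a at h4
          obtain ⟨l, hl, hlm, hle⟩ := asphW_list hcl h4
          have hv' : v = w * (l.map (gen madj)).prod := by rw [← hle, mul_inv_cancel_left]
          have hex : ∃ m ∈ l, m ∈ Λ.In w := by
            by_contra hno
            push Not at hno
            have hlen := Λ.length_clique l hl
              (fun s hs t ht hst => asphM_clique hcl s (hlm s hs) t (hlm t ht) hst) w hno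
            rw [← hv'] at hlen
            have hvF := Finset.mem_erase.1 hv
            have := hmax v hvF.2
            have hl0 : l.length = 0 := by omega
            rw [List.length_eq_zero_iff] at hl0
            subst hl0
            simp at hv'
            exact hvF.1 hv'
          obtain ⟨m, hm, hmI⟩ := hex
          refine (asphI_mem C k w _ b w' p).2 ⟨a, ⟨m, ?_, a, p, (hlm m hm).2, (hlm m hm).1, rfl⟩, ha⟩
          rw [hfin.coe_toFinset]; exact hmI
        · intro h1
          obtain ⟨a, ⟨m, hm, a', p', hma, hmp, hmk⟩, ha⟩ := (asphI_mem C k w _ b w' p).1 h1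
          obtain ⟨rfl, haa'⟩ := Dev.mk_eq.1 hmk
          rw [hfin.coe_toFinset] at hm
          refine ⟨(asphI_mem C k w _ b w' p).2 ⟨a, Set.mem_univ _, ha⟩, ?_⟩
          have hdesc := Λ.desc w m hm
          have hmF : w * gen madj m ∈ F.erase w := by
            refine Finset.mem_erase.2 ⟨?_, hlow w hw _ (by omega)⟩
            intro h
            rw [h] at hdesc
            omega
          refine Set.mem_iUnion₂.2 ⟨_, hmF, (asphI_mem C k _ _ b w' p).2 ⟨a, Set.mem_univ _, ?_⟩⟩
          have hcl := C.clique_sup p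
          refine (asphG k).trans ?_ ha
          refine (asphG_r hcl).2 ⟨?_, ?_⟩
          · show (a : V) - (a : V) ∈ _
            rw [sub_self]; exact zero_mem _
          · show (w * gen madj m)⁻¹ * w ∈ asphW (C.sup p) a
            have e1 : (w * gen madj m)⁻¹ * w = (gen madj m)⁻¹ := by
              rw [mul_inv_rev, mul_assoc, inv_mul_cancel, mul_one]
            rw [e1]
            refine inv_mem (Subgroup.subset_closure ⟨m, ?_, rfl⟩)
            have haa : (a : V) - (a' : V) ∈ spn k (innF (C.sup p)) := haa'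
            rw [asphM_congr k hcl haa]
            exact ⟨hmp, hma⟩
      rw [e]
      refine AE.union (asphI_closed C k w isClosed_univ) (asphT_closed C k _) hAEw
        (ih _ hcard ⟨1, h1F⟩ hlow') ?_
      rw [einter]
      refine AE.image (AE_KC C k _ ?_ ?_) _ (asphR C k) (asphI_continuous C k w)
        (asphR_continuous C k) (asphR_I C k w)
      · obtain ⟨s, hs⟩ := asph_In_nonempty Λ w hw1
        exact ⟨s, hfin.mem_toFinset.2 hs⟩
      · intro m hm n hn hmn
        exact Λ.clique w m (hfin.mem_toFinset.1 hm) n (hfin.mem_toFinset.1 hn) hmn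

/-- the union of the chambers of length at most `n` -/
noncomputable def asphF (Λ : LenData madj) (n : ℕ) : Finset (RA madj) := (Λ.finite_length n).toFinset

theorem mem_asphF {Λ : LenData madj} {n : ℕ} {w : RA madj} : w ∈ asphF Λ n ↔ Λ.ℓ w ≤ n := by
  unfold asphF; rw [Set.Finite.mem_toFinset]; rfl

theorem asphF_AE (C : Chamber) (k : Bool) (Λ : LenData madj) (n : ℕ) :
    AE (asphT C k (asphF Λ n)) := by
  refine asphT_AE C k Λ _ _ rfl ⟨1, mem_asphF.2 ?_⟩ ?_
  · rw [(Λ.one 1).2 rfl]; exact Nat.zero_le _
  · intro w hw w' hw'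
    rw [mem_asphF] at *
    omega

theorem asph_compact (C : Chamber) (k : Bool) (Λ : LenData madj) (K : Set (Dev C (asphG k)))
    (hK : IsCompact K) : ∃ T : Set (Dev C (asphG k)), K ⊆ T ∧ AE T := by
  let U : ℕ → Set (Dev C (asphG k)) := fun n =>
    ⋃ x ∈ {x : (Asub × RA madj) × C.P | Λ.ℓ x.1.2 ≤ n}, Dev.star (G := asphG k) x.1 x.2
  have hU : ∀ n, IsOpen (U n) := fun n => isOpen_biUnion fun x _ => Dev.isOpen_star _ _
  have hcov : K ⊆ ⋃ n, U n := by
    intro x _
    obtain ⟨⟨a, w⟩, p, rfl⟩ := Dev.exists_rep x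
    exact Set.mem_iUnion.2 ⟨Λ.ℓ w, Set.mem_biUnion (show ((a, w), p) ∈
      {x : (Asub × RA madj) × C.P | Λ.ℓ x.1.2 ≤ Λ.ℓ w} from le_refl (Λ.ℓ w))
      (Dev.self_mem_star (G := asphG k) (a, w) p)⟩
  have hmono : Monotone U := by
    intro m n hmn
    refine Set.biUnion_subset_biUnion_left ?_
    intro x hx
    exact le_trans (show Λ.ℓ x.1.2 ≤ m from hx) hmn
  obtain ⟨n, hn⟩ := hK.elim_directed_cover U hU hcov (directed_of_isDirected_le hmono)
  refine ⟨asphT C k (asphF Λ (n + 46)), hn.trans ?_, asphF_AE C k Λ _⟩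
  intro x hx
  obtain ⟨⟨⟨a, w⟩, p⟩, hw, hx⟩ := Set.mem_iUnion₂.1 hx
  have hw' : Λ.ℓ w ≤ n := hw
  obtain ⟨⟨b, v⟩, q, rfl⟩ := Dev.exists_rep x
  obtain ⟨-, h2⟩ := Dev.mem_star_mk.1 hx
  obtain ⟨-, h4⟩ := (asphG_r (C.clique_sup p)).1 h2
  change w⁻¹ * v ∈ asphW (C.sup p) a at h4
  obtain ⟨l, hl, -, hle⟩ := asphW_list (C.clique_sup p) h4
  have hv' : v = w * (l.map (gen madj)).prod := by rw [← hle, mul_inv_cancel_left]
  have h5 := asph_len_list Λ l w
  have h6 : l.length ≤ 46 := by
    have := hl.length_le_card
    rwa [Fintype.card_fin] at this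
  refine asphT_mk C k _ b v (mem_asphF.2 ?_) q
  rw [hv']
  omega

theorem aspherical_X (C : Chamber) (k : Bool) (n : ℕ) (hn : 2 ≤ n) (x : Dev C (GX k)) :
    Subsingleton (HomotopyGroup (Fin n) (Dev C (GX k)) x) := by
  obtain ⟨Λ⟩ := exists_lenData madj asph_madj_symm asph_madj_irrefl
  exact asph_of_cover (asphPi C k) (asphPi_cov C k) (asphPi_surj C k) (asph_compact C k Λ) n hn x

theorem asph_joined (C : Chamber) (k : Bool) (hP : PathConnectedSpace C.P) (i : V) (p q : C.P) :
    Joined (Dev.mk (G := GX k) i p) (Dev.mk (G := GX k) i q) :=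
  (PathConnectedSpace.joined p q).map (Dev.continuous_mk (G := GX k) i)

instance (C : Chamber) (k : Bool) : PathConnectedSpace (Dev C (GX k)) := by
  have hne : C.P.Nonempty := by
    obtain ⟨p, hp, -⟩ := C.face ∅ (by intro s hs; simp at hs)
    exact ⟨p, hp⟩
  have hP : PathConnectedSpace C.P :=
    isPathConnected_iff_pathConnectedSpace.1 (C.convex.isPathConnected hne)
  obtain ⟨p0⟩ : Nonempty C.P := hne.to_subtype
  have step : ∀ (s : S) (i : V) (p q : C.P),
      Joined (Dev.mk (G := GX k) (i + col k s) p) (Dev.mk (G := GX k) i q) := by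
    intro s i p q
    obtain ⟨r, hr⟩ := C.face'_nonempty (T := {s}) (by
      intro a ha b hb hab
      rw [Finset.mem_singleton] at ha hb
      exact absurd (ha.trans hb.symm) hab)
    have e : Dev.mk (C := C) (G := GX k) (i + col k s) r = Dev.mk (G := GX k) i r := by
      refine Dev.mk_eq.2 ⟨rfl, ?_⟩
      show i + col k s - i ∈ spn k (C.sup r)
      rw [add_sub_cancel_left]
      exact asph_col_mem k (hr (Finset.mem_singleton_self s))
    have h1 := asph_joined C k hP (i + col k s) p r
    rw [e] at h1
    exact h1.trans (asph_joined C k hP i r q)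
  have step2 : ∀ (c : Bool) (s : S) (i : V) (p q : C.P),
      Joined (Dev.mk (G := GX k) (i + if c then col k s else 0) p) (Dev.mk (G := GX k) i q) := by
    intro c s i p q
    cases c
    · simp only [Bool.false_eq_true, if_false, add_zero]
      exact asph_joined C k hP i p q
    · simp only [if_true]
      exact step s i p q
  have h0 : ∀ x : Dev C (GX k), Joined x (Dev.mk (G := GX k) (0 : V) p0) := by
    intro x
    obtain ⟨v, p, rfl⟩ := Dev.exists_rep x
    obtain ⟨a, b, c, d, h⟩ := asph_gen_V k v
    have e : v = 0 + (if a then col k 0 else 0) + (if b then col k 1 else 0) +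
        (if c then col k 13 else 0) + (if d then col k 15 else 0) := by
      rw [h, zero_add, add_assoc, add_assoc]
    rw [e]
    refine (step2 d 15 _ p p0).trans ((step2 c 13 _ p0 p0).trans ((step2 b 1 _ p0 p0).trans ?_))
    exact step2 a 0 0 p0 p0
  exact ⟨⟨Dev.mk (G := GX k) (0 : V) p0⟩, fun x y => (h0 x).trans (h0 y).symm⟩

end H30
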