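import Mathlib

/-!
# Combinatorial data: the 32 facets, their adjacency, the colour group and the two colourings,
abstract chambers and the spaces glued from copies of a chamber.
-/

set_option autoImplicit false

namespace H30

/-- the 32 facets: u_1..u_6 = 0..5, l_1..l_6 = 6..11, b = 12, p = 13..18, q = 19..24, g = 25..30, h = 31 -/
abbrev S := Fin 32

/-- neighbour masks -/
def nbL : List ℕ := [796770, 1073349, 2146698, 4293396, 8586792, 17173521, 6275, 4422, 4748, 5400,
  6704, 5217, 4032, 35127299, 70254598, 140509196, 281018392, 562036784, 1091043361, 1107566593,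
  100687874, 201375748, 402751496, 805502992, 1611005984, 3289915392, 2318417920, 2489352192,
  2831220736, 3514957824, 2735472640, 2113929216]

def nb (s : S) : ℕ := nbL.getD s.val 0

/-- adjacency of facets -/
def adj (s t : S) : Prop := (nb s).testBit t.val = true

instance : DecidableRel adj := fun s t => inferInstanceAs (Decidable (_ = true))

theorem adj_symm : ∀ {s t : S}, adj s t → adj t s := by decide
theorem adj_irrefl : ∀ s : S, ¬ adj s s := by decide

/-- a set of pairwise adjacent facets -/
def Clique (T : Finset S) : Prop := ∀ s ∈ T, ∀ t ∈ T, s ≠ t → adj s t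

instance (T : Finset S) : Decidable (Clique T) := by unfold Clique; infer_instance

theorem Clique.mono {T T' : Finset S} (h : Clique T') (hT : T ⊆ T') : Clique T :=
  fun s hs t ht => h s (hT hs) t (hT ht)

/-! ### the colour group -/

/-- the group (Z/2)^4: numbers below 16 with exclusive or -/
def V : Type := Fin 16

instance : DecidableEq V := inferInstanceAs (DecidableEq (Fin 16))
instance : Fintype V := inferInstanceAs (Fintype (Fin 16))

def V.xor (a b : V) : V := ⟨a.1 ^^^ b.1, Nat.xor_lt_two_pow (n := 4) a.2 b.2⟩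

/-- the element with the given number (mod 16) -/
def V.of (n : ℕ) : V := ⟨n % 16, Nat.mod_lt _ (by decide)⟩

instance : Add V := ⟨V.xor⟩
instance : Zero V := ⟨V.of 0⟩
instance : Neg V := ⟨id⟩

theorem V.add_def (a b : V) : a + b = V.xor a b := rfl
theorem V.zero_def : (0 : V) = V.of 0 := rfl

theorem V.add_self : ∀ a : V, a + a = 0 := by decide

instance : AddCommGroup V where
  add_assoc a b c := Fin.ext (Nat.xor_assoc _ _ _)
  zero_add := by decide
  add_zero := by decide
  nsmul := nsmulRec
  zsmul := zsmulRec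
  neg_add_cancel := by decide
  add_comm := by decide

/-- the subgroup A = {0,1,2,3} -/
def Asub : AddSubgroup V where
  carrier := {v | v.1 < 4}
  add_mem' := by decide
  zero_mem' := by decide
  neg_mem' := by decide

instance : DecidablePred (· ∈ Asub) := fun v => inferInstanceAs (Decidable (v.1 < 4))
instance : Fintype Asub := inferInstanceAs (Fintype {v // v ∈ Asub})

/-- colour tables: `false` is the colouring of X, `true` the colouring of X' -/
def colL : Bool → List ℕ
  | false => [1, 2, 3, 1, 2, 3, 1, 3, 1, 2, 3, 2, 2, 4, 4, 8, 8, 12, 12, 2, 3, 2, 2, 3, 2,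
      1, 8, 1, 4, 1, 8, 2]
  | true => [1, 2, 3, 1, 2, 3, 2, 1, 1, 3, 2, 3, 3, 4, 4, 8, 8, 12, 12, 2, 3, 2, 2, 3, 2,
      1, 8, 1, 4, 1, 8, 2]

/-- the colouring -/
def col (k : Bool) (s : S) : V := V.of ((colL k).getD s.val 0)

/-- the span of the colours of T -/
def spn (k : Bool) (T : Finset S) : AddSubgroup V where
  carrier := {v | ∃ T' ∈ T.powerset, ∑ s ∈ T', col k s = v}
  zero_mem' := ⟨∅, by simp, by simp⟩
  add_mem' := by
    rintro a b ⟨T₁, h₁, rfl⟩ ⟨T₂, h₂, rfl⟩
    refine ⟨symmDiff T₁ T₂, ?_, ?_⟩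
    · rw [Finset.mem_powerset] at *
      intro s hs
      rcases Finset.mem_symmDiff.1 hs with h | h
      · exact h₁ h.1
      · exact h₂ h.1
    · have e : ∀ T₁ T₂ : Finset S, ∑ s ∈ symmDiff T₁ T₂, col k s
          = ∑ s ∈ T₁, col k s + ∑ s ∈ T₂, col k s := by
        intro T₁ T₂
        have h1 : ∑ s ∈ T₁, col k s = ∑ s ∈ T₁ \ T₂, col k s + ∑ s ∈ T₁ ∩ T₂, col k s := by
          rw [← Finset.sum_union (Finset.disjoint_sdiff_inter T₁ T₂), Finset.sdiff_union_inter]
        have h2 : ∑ s ∈ T₂, col k s = ∑ s ∈ T₂ \ T₁, col k s + ∑ s ∈ T₁ ∩ T₂, col k s := by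
          rw [Finset.inter_comm T₁ T₂,
            ← Finset.sum_union (Finset.disjoint_sdiff_inter T₂ T₁), Finset.sdiff_union_inter]
        have h3 : ∑ s ∈ symmDiff T₁ T₂, col k s = ∑ s ∈ T₁ \ T₂, col k s + ∑ s ∈ T₂ \ T₁, col k s := by
          rw [symmDiff_def, Finset.sup_eq_union, Finset.sum_union]
          exact disjoint_sdiff_sdiff
        rw [h1, h2, h3]
        have := V.add_self (∑ s ∈ T₁ ∩ T₂, col k s)
        generalize ∑ s ∈ T₁ ∩ T₂, col k s = c at *
        generalize ∑ s ∈ T₁ \ T₂, col k s = a at *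
        generalize ∑ s ∈ T₂ \ T₁, col k s = b at *
        calc a + b = a + b + (c + c) := by rw [this, add_zero]
          _ = a + c + (b + c) := by abel
      exact e T₁ T₂
  neg_mem' := fun {x} h => h

theorem mem_spn {k : Bool} {T : Finset S} {v : V} :
    v ∈ spn k T ↔ ∃ T' ∈ T.powerset, ∑ s ∈ T', col k s = v := Iff.rfl

instance (k : Bool) (T : Finset S) : DecidablePred (· ∈ spn k T) := fun v =>
  inferInstanceAs (Decidable (∃ T' ∈ T.powerset, ∑ s ∈ T', col k s = v))

theorem spn_mono {k : Bool} {T T' : Finset S} (h : T ⊆ T') : spn k T ≤ spn k T' := by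
  rintro v ⟨R, hR, rfl⟩
  exact ⟨R, Finset.mem_powerset.2 ((Finset.mem_powerset.1 hR).trans h), rfl⟩

/-- inner facets u, l, b -/
def innF (T : Finset S) : Finset S := T.filter (fun s => s.val < 13)
/-- outer facets p, q, g, h -/
def outF (T : Finset S) : Finset S := T.filter (fun s => 13 ≤ s.val)

theorem innF_mono {T T' : Finset S} (h : T ⊆ T') : innF T ⊆ innF T' := Finset.filter_subset_filter _ h
theorem outF_mono {T T' : Finset S} (h : T ⊆ T') : outF T ⊆ outF T' := Finset.filter_subset_filter _ h

/-! ### chambers and glued spaces -/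

/-- the ambient vector space of Lorentz geometry -/
abbrev L := ℝ × EuclideanSpace ℝ (Fin 3)

/-- A chamber: a compact convex set with 32 faces, face sets nonempty exactly for cliques. -/
structure Chamber where
  P : Set L
  α : S → L →ₗ[ℝ] ℝ
  compact : IsCompact P
  convex : Convex ℝ P
  nonneg : ∀ s, ∀ p ∈ P, 0 ≤ α s p
  face : ∀ T, Clique T → ∃ p ∈ P, ∀ s, α s p = 0 ↔ s ∈ T
  clique : ∀ p ∈ P, ∀ s t, α s p = 0 → α t p = 0 → s ≠ t → adj s t

open Classical in
/-- the set of facets containing p -/
noncomputable def Chamber.sup (C : Chamber) (p : C.P) : Finset S :=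
  Finset.univ.filter (fun s => C.α s p.1 = 0)

/-- gluing data: index set of the copies, and for each set of facets which copies are glued -/
structure Gl where
  I : Type
  r : Finset S → I → I → Prop
  equiv : ∀ T, Equivalence (r T)
  mono : ∀ {T T' : Finset S}, T ⊆ T' → ∀ {i j : I}, r T i j → r T' i j

/-- the equivalence relation on the disjoint union of the copies -/
def devSetoid (C : Chamber) (G : Gl) : Setoid ((_ : G.I) × C.P) where
  r x y := x.2 = y.2 ∧ G.r (C.sup x.2) x.1 y.1
  iseqv := by
    constructor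
    · intro x; exact ⟨rfl, (G.equiv _).refl _⟩
    · rintro ⟨i, p⟩ ⟨j, q⟩ ⟨h, h'⟩
      obtain rfl : p = q := h
      exact ⟨rfl, (G.equiv _).symm h'⟩
    · rintro ⟨i, p⟩ ⟨j, q⟩ ⟨l, r⟩ ⟨h, h'⟩ ⟨h1, h1'⟩
      obtain rfl : p = q := h
      obtain rfl : p = r := h1
      exact ⟨rfl, (G.equiv _).trans h' h1'⟩

/-- the space glued from copies of the chamber -/
def Dev (C : Chamber) (G : Gl) : Type := Quotient (devSetoid C G)

instance (C : Chamber) (G : Gl) : TopologicalSpace (Dev C G) :=
  inferInstanceAs (TopologicalSpace (Quotient (devSetoid C G)))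

/-- gluing data of X (k = false) and X' (k = true): copies indexed by V -/
def GX (k : Bool) : Gl where
  I := V
  r T i j := i - j ∈ spn k T
  equiv T := by
    refine ⟨fun i => ?_, fun {i j} h => ?_, fun {i j l} h h' => ?_⟩
    · rw [sub_self]; exact zero_mem _
    · rw [← neg_sub]; exact neg_mem h
    · rw [← sub_add_sub_cancel i j l]; exact add_mem h h'
  mono h _ _ hij := spn_mono h hij

/-- gluing data of the piece K: copies indexed by A, only inner facets glue -/
def GK (k : Bool) : Gl where
  I := Asub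
  r T i j := (i : V) - (j : V) ∈ spn k (innF T)
  equiv T := by
    refine ⟨fun i => ?_, fun {i j} h => ?_, fun {i j l} h h' => ?_⟩
    · rw [sub_self]; exact zero_mem _
    · rw [← neg_sub]; exact neg_mem h
    · rw [← sub_add_sub_cancel (i : V) j l]; exact add_mem h h'
  mono h _ _ hij := spn_mono (innF_mono h) hij

end H30
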