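import Pool.Agent.Helper30_Alex.Base

/-!
# Basic facts on the glued spaces `Dev C G`
-/

set_option autoImplicit false

namespace H30

namespace Chamber

variable (C : Chamber)

theorem mem_sup {p : C.P} {s : S} : s ∈ C.sup p ↔ C.α s p.1 = 0 := by
  classical
  simp [Chamber.sup]

theorem clique_sup (p : C.P) : Clique (C.sup p) := by
  intro s hs t ht hst
  exact C.clique p.1 p.2 s t (C.mem_sup.1 hs) (C.mem_sup.1 ht) hst

theorem continuous_α (s : S) : Continuous (fun p : C.P => C.α s p.1) :=
  (LinearMap.continuous_of_finiteDimensional (C.α s)).comp continuous_subtype_val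

/-- the closed face belonging to a set of facets -/
def face' (T : Finset S) : Set C.P := {p | T ⊆ C.sup p}

theorem mem_face' {T : Finset S} {p : C.P} : p ∈ C.face' T ↔ ∀ s ∈ T, C.α s p.1 = 0 := by
  unfold face'
  constructor
  · intro h s hs; exact C.mem_sup.1 (h hs)
  · intro h s hs; exact C.mem_sup.2 (h s hs)

theorem isClosed_face' (T : Finset S) : IsClosed (C.face' T) := by
  have : C.face' T = ⋂ s ∈ T, {p : C.P | C.α s p.1 = 0} := by
    ext p; simp [C.mem_face']
  rw [this]
  exact isClosed_biInter fun s _ => isClosed_eq (C.continuous_α s) continuous_const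

theorem isOpen_sup_subset (T : Finset S) : IsOpen {p : C.P | C.sup p ⊆ T} := by
  have : {p : C.P | C.sup p ⊆ T} = ⋂ s ∈ (Finset.univ \ T : Finset S), {p : C.P | C.α s p.1 ≠ 0} := by
    ext p
    simp only [Set.mem_ofPred_eq, Set.mem_iInter, Finset.mem_sdiff, Finset.mem_univ, true_and]
    constructor
    · intro h s hs h0
      exact hs (h (C.mem_sup.2 h0))
    · intro h s hs
      by_contra hT
      exact h s hT (C.mem_sup.1 hs)
  rw [this]
  refine isOpen_biInter_finset fun s _ => ?_
  exact isOpen_ne_fun (C.continuous_α s) continuous_const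

theorem face'_empty : C.face' ∅ = Set.univ := by ext p; simp [face']

theorem face'_inter (T T' : Finset S) : C.face' T ∩ C.face' T' = C.face' (T ∪ T') := by
  ext p; simp [face', Finset.union_subset_iff]

theorem face'_mono {T T' : Finset S} (h : T ⊆ T') : C.face' T' ⊆ C.face' T :=
  fun _ hp => h.trans hp

theorem face'_nonempty {T : Finset S} (h : Clique T) : (C.face' T).Nonempty := by
  obtain ⟨p, hp, h'⟩ := C.face T h
  exact ⟨⟨p, hp⟩, C.mem_face'.2 fun s hs => (h' s).2 hs⟩

theorem face'_eq_empty {T : Finset S} (h : ¬ Clique T) : C.face' T = ∅ := by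
  by_contra h'
  obtain ⟨p, hp⟩ := Set.nonempty_iff_ne_empty.2 h'
  exact h ((C.clique_sup p).mono hp)

/-- there is a point with exactly the given clique -/
theorem exists_sup_eq {T : Finset S} (h : Clique T) : ∃ p : C.P, C.sup p = T := by
  obtain ⟨p, hp, h'⟩ := C.face T h
  refine ⟨⟨p, hp⟩, ?_⟩
  ext s
  rw [C.mem_sup]
  exact h' s

/-- a face as a subset of the ambient vector space is convex -/
theorem convex_face (T : Finset S) : Convex ℝ ((↑) '' C.face' T : Set L) := by
  have : ((↑) '' C.face' T : Set L) = C.P ∩ ⋂ s ∈ T, {p : L | C.α s p = 0} := by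
    ext p
    simp only [Set.mem_image, Subtype.exists, exists_and_right, exists_eq_right, Set.mem_inter_iff,
      Set.mem_iInter, Set.mem_ofPred_eq]
    constructor
    · rintro ⟨hp, h⟩
      exact ⟨hp, C.mem_face'.1 h⟩
    · rintro ⟨hp, h⟩
      exact ⟨hp, C.mem_face'.2 h⟩
  rw [this]
  refine C.convex.inter (convex_iInter₂ fun s _ => ?_)
  intro x hx y hy a b _ _ _
  simp only [Set.mem_ofPred_eq, map_add, map_smul, smul_eq_mul] at *
  rw [hx, hy]; ring

instance : CompactSpace C.P := isCompact_iff_compactSpace.1 C.compact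

end Chamber

theorem Gl.refl (G : Gl) (T : Finset S) (i : G.I) : G.r T i i := (G.equiv T).refl i
theorem Gl.symm (G : Gl) {T : Finset S} {i j : G.I} (h : G.r T i j) : G.r T j i := (G.equiv T).symm h
theorem Gl.trans (G : Gl) {T : Finset S} {i j l : G.I} (h : G.r T i j) (h' : G.r T j l) : G.r T i l :=
  (G.equiv T).trans h h'

namespace Dev

variable {C : Chamber} {G : Gl}

/-- the point `p` in the copy `i` -/
def mk (i : G.I) (p : C.P) : Dev C G := Quotient.mk (devSetoid C G) ⟨i, p⟩

theorem mk_eq {i j : G.I} {p q : C.P} :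
    (mk i p : Dev C G) = mk j q ↔ p = q ∧ G.r (C.sup p) i j := by
  unfold mk
  exact Quotient.eq

theorem ind {motive : Dev C G → Prop} (h : ∀ (i : G.I) (p : C.P), motive (mk i p)) (x : Dev C G) :
    motive x := Quotient.ind (fun a => h a.1 a.2) x

theorem exists_rep (x : Dev C G) : ∃ (i : G.I) (p : C.P), mk i p = x :=
  ind (motive := fun x => ∃ (i : G.I) (p : C.P), mk i p = x) (fun i p => ⟨i, p, rfl⟩) x

theorem continuous_mk (i : G.I) : Continuous (mk i : C.P → Dev C G) :=
  continuous_quotient_mk'.comp (continuous_sigmaMk (σ := fun _ : G.I => C.P) (i := i))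

theorem continuous_iff {Z : Type*} [TopologicalSpace Z] {f : Dev C G → Z} :
    Continuous f ↔ ∀ i, Continuous (fun p => f (mk i p)) := by
  constructor
  · intro h i; exact h.comp (continuous_mk i)
  · intro h
    have h1 : Continuous (fun a : (_ : G.I) × C.P => f (Quotient.mk (devSetoid C G) a)) :=
      continuous_sigma fun i => h i
    exact isQuotientMap_quotient_mk'.continuous_iff.2 h1

theorem isOpen_iff {U : Set (Dev C G)} : IsOpen U ↔ ∀ i, IsOpen {p : C.P | mk i p ∈ U} := by
  have h : IsOpen U ↔ IsOpen ((Quotient.mk (devSetoid C G)) ⁻¹' U) :=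
    (isQuotientMap_quotient_mk' (s := devSetoid C G)).isOpen_preimage.symm
  rw [h, isOpen_sigma_iff]
  rfl

theorem isClosed_iff {U : Set (Dev C G)} : IsClosed U ↔ ∀ i, IsClosed {p : C.P | mk i p ∈ U} := by
  simp only [← isOpen_compl_iff]
  rw [isOpen_iff]
  rfl

/-- the projection to the chamber -/
def pr : Dev C G → C.P := Quotient.lift (fun a : (_ : G.I) × C.P => a.2) (fun _ _ h => h.1)

@[simp] theorem pr_mk (i : G.I) (p : C.P) : pr (mk i p : Dev C G) = p := rfl

theorem continuous_pr : Continuous (pr : Dev C G → C.P) :=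
  continuous_iff.2 fun _ => continuous_id

theorem mk_injective (i : G.I) : Function.Injective (mk i : C.P → Dev C G) :=
  fun p q h => by simpa using congrArg pr h

/-- maps out of a glued space -/
def lift {Z : Type*} (f : G.I → C.P → Z)
    (h : ∀ i j p, G.r (C.sup p) i j → f i p = f j p) : Dev C G → Z :=
  Quotient.lift (fun a : (_ : G.I) × C.P => f a.1 a.2) (by
    rintro ⟨i, p⟩ ⟨j, q⟩ ⟨h1, h2⟩
    obtain rfl : p = q := h1
    exact h i j p h2)

@[simp] theorem lift_mk {Z : Type*} (f : G.I → C.P → Z)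
    (h : ∀ i j p, G.r (C.sup p) i j → f i p = f j p) (i : G.I) (p : C.P) :
    lift f h (mk i p) = f i p := rfl

theorem continuous_lift {Z : Type*} [TopologicalSpace Z] (f : G.I → C.P → Z)
    (h : ∀ i j p, G.r (C.sup p) i j → f i p = f j p) (hf : ∀ i, Continuous (f i)) :
    Continuous (lift f h : Dev C G → Z) := continuous_iff.2 hf

/-- the set of points of the chamber where two copies are glued is closed -/
theorem isClosed_rel (i j : G.I) : IsClosed {p : C.P | G.r (C.sup p) i j} := by
  classical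
  have : {p : C.P | G.r (C.sup p) i j} = ⋃ T ∈ {T : Finset S | G.r T i j}, C.face' T := by
    ext p
    simp only [Set.mem_ofPred_eq, Set.mem_iUnion, exists_prop]
    constructor
    · intro h; exact ⟨_, h, (Finset.Subset.refl _ : C.sup p ⊆ C.sup p)⟩
    · rintro ⟨T, hT, hp⟩; exact G.mono hp hT
  rw [this]
  exact (Set.toFinite _).isClosed_biUnion fun T _ => C.isClosed_face' T

theorem isClosed_image_mk (i : G.I) {A : Set C.P} (hA : IsClosed A) :
    IsClosed (mk i '' A : Set (Dev C G)) := by
  rw [isClosed_iff]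
  intro j
  have : {p : C.P | (mk j p : Dev C G) ∈ mk i '' A} = A ∩ {p | G.r (C.sup p) i j} := by
    ext p
    constructor
    · rintro ⟨q, hq, h⟩
      obtain ⟨rfl, h'⟩ := mk_eq.1 h
      exact ⟨hq, h'⟩
    · rintro ⟨hp, h⟩
      exact ⟨p, hp, mk_eq.2 ⟨rfl, h⟩⟩
  rw [this]
  exact hA.inter (isClosed_rel i j)

theorem isClosedEmbedding_mk (i : G.I) : Topology.IsClosedEmbedding (mk i : C.P → Dev C G) := by
  refine ⟨⟨⟨?_⟩, mk_injective i⟩, ?_⟩
  · apply le_antisymm
    · exact (continuous_mk i).le_induced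
    · intro U hU
      exact ⟨pr ⁻¹' U, hU.preimage continuous_pr, by ext p; simp⟩
  · rw [← Set.image_univ]; exact isClosed_image_mk i isClosed_univ

instance [Finite G.I] : CompactSpace (Dev C G) := by
  constructor
  have : (Set.univ : Set (Dev C G)) = ⋃ i, Set.range (mk i) := by
    ext x
    obtain ⟨i, p, rfl⟩ := exists_rep x
    simp only [Set.mem_univ, Set.mem_iUnion, true_iff]
    exact ⟨i, p, rfl⟩
  rw [this]
  exact isCompact_iUnion fun i => isCompact_range (continuous_mk i)

/-- the open star of a point -/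
def star (i : G.I) (p : C.P) : Set (Dev C G) :=
  {x | ∃ j q, x = mk j q ∧ C.sup q ⊆ C.sup p ∧ G.r (C.sup p) i j}

theorem mem_star_mk {i j : G.I} {p q : C.P} :
    (mk j q : Dev C G) ∈ star i p ↔ C.sup q ⊆ C.sup p ∧ G.r (C.sup p) i j := by
  constructor
  · rintro ⟨j', q', h, h1, h2⟩
    obtain ⟨rfl, h'⟩ := mk_eq.1 h
    exact ⟨h1, G.trans h2 (G.symm (G.mono h1 h'))⟩
  · rintro ⟨h1, h2⟩; exact ⟨j, q, rfl, h1, h2⟩

theorem self_mem_star (i : G.I) (p : C.P) : (mk i p : Dev C G) ∈ star i p :=
  mem_star_mk.2 ⟨Finset.Subset.refl _, G.refl _ _⟩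

theorem isOpen_star (i : G.I) (p : C.P) : IsOpen (star i p : Set (Dev C G)) := by
  rw [isOpen_iff]
  intro j
  by_cases h : G.r (C.sup p) i j
  · have : {q : C.P | (mk j q : Dev C G) ∈ star i p} = {q | C.sup q ⊆ C.sup p} := by
      ext q; simp [mem_star_mk, h]
    rw [this]; exact C.isOpen_sup_subset _
  · have : {q : C.P | (mk j q : Dev C G) ∈ star i p} = ∅ := by
      ext q; simp [mem_star_mk, h]
    rw [this]; exact isOpen_empty

/-- the map induced by a map of index sets -/
def map {G' : Gl} (h : G.I → G'.I) (hr : ∀ T, Clique T → ∀ i j, G.r T i j → G'.r T (h i) (h j)) :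
    Dev C G → Dev C G' :=
  lift (fun i p => mk (h i) p) (fun i j p hij => mk_eq.2 ⟨rfl, hr _ (C.clique_sup p) _ _ hij⟩)

@[simp] theorem map_mk {G' : Gl} (h : G.I → G'.I)
    (hr : ∀ T, Clique T → ∀ i j, G.r T i j → G'.r T (h i) (h j)) (i : G.I) (p : C.P) :
    (map h hr : Dev C G → Dev C G') (mk i p) = mk (h i) p := rfl

theorem continuous_map {G' : Gl} (h : G.I → G'.I)
    (hr : ∀ T, Clique T → ∀ i j, G.r T i j → G'.r T (h i) (h j)) :
    Continuous (map h hr : Dev C G → Dev C G') :=
  continuous_lift _ _ fun i => continuous_mk (h i)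

end Dev

end H30
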