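import Pool.Agent.Helper30_Alex.AE
import Pool.Agent.Helper30_Alex.Dev

/-!
# Unions of cells that are absolute extensors (PART 8b)
-/

set_option autoImplicit false

namespace H30

/-- the 46 mirrors of the piece K: facet of the mirror -/
def mfL : List ℕ := [13, 14, 15, 16, 17, 18, 19, 19, 20, 20, 21, 21, 22, 22, 23, 23, 24, 24,
  25, 25, 25, 25, 26, 26, 26, 26, 27, 27, 27, 27, 28, 28, 28, 28, 29, 29, 29, 29, 30, 30, 30, 30,
  31, 31, 31, 31]
/-- ... and the coset of the mirror, as a 4 bit mask -/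
def mcL : List ℕ := [15, 15, 15, 15, 15, 15, 3, 12, 5, 10, 9, 6, 3, 12, 5, 10, 9, 6,
  1, 2, 4, 8, 1, 2, 4, 8, 1, 2, 4, 8, 1, 2, 4, 8, 1, 2, 4, 8, 1, 2, 4, 8, 1, 2, 4, 8]

/-- mirrors -/
abbrev Mir := Fin 46

def mf (m : Mir) : S := Fin.ofNat 32 (mfL.getD m.val 0)
def mc (m : Mir) : ℕ := mcL.getD m.val 0

/-- the copy `a` of the chamber carries a part of the mirror `m` -/
def mAt (m : Mir) (a : Asub) : Prop := (mc m).testBit a.1.1 = true

instance (m : Mir) (a : Asub) : Decidable (mAt m a) := inferInstanceAs (Decidable (_ = true))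

/-- adjacency of mirrors -/
def madj (m n : Mir) : Prop := adj (mf m) (mf n) ∧ mc m &&& mc n ≠ 0

instance : DecidableRel madj := fun _ _ => inferInstanceAs (Decidable (_ ∧ _))

/-- the part of K lying in the mirrors of a set -/
def KC (C : Chamber) (k : Bool) (Q : Set Mir) : Set (Dev C (GK k)) :=
  {x | ∃ m ∈ Q, ∃ a : Asub, ∃ p : C.P, mAt m a ∧ mf m ∈ C.sup p ∧ x = Dev.mk (G := GK k) a p}

namespace Cells

/-! ### masks -/

/-- the set of facets with a given mask -/
def toF (M : ℕ) : Finset S := Finset.univ.filter (fun s : S => M.testBit s.val = true)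

theorem mem_toF {M : ℕ} {s : S} : s ∈ toF M ↔ M.testBit s.val = true := by simp [toF]

theorem toF_or (M N : ℕ) : toF (M ||| N) = toF M ∪ toF N := by
  ext s
  rw [Finset.mem_union, mem_toF, mem_toF, mem_toF, Nat.testBit_or, Bool.or_eq_true]

theorem toF_sub {M N : ℕ} (h : (M &&& N == M) = true) : toF M ⊆ toF N := by
  have h' : M &&& N = M := by simpa using h
  intro s hs
  rw [mem_toF] at hs ⊢
  rw [← h', Nat.testBit_and, Bool.and_eq_true] at hs
  exact hs.2

theorem toF_zero : toF 0 = ∅ := by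
  ext s
  rw [mem_toF]
  simp

theorem and_eq_zero_iff {M N : ℕ} : M &&& N = 0 ↔ ∀ i, ¬ (M.testBit i = true ∧ N.testBit i = true) := by
  constructor
  · intro h i hi
    have h1 : (M &&& N).testBit i = true := by
      rw [Nat.testBit_and, hi.1, hi.2]; rfl
    rw [h, Nat.zero_testBit] at h1
    exact absurd h1 (by decide)
  · intro h
    apply Nat.eq_of_testBit_eq
    intro i
    rw [Nat.zero_testBit, Nat.testBit_and]
    by_contra hc
    rw [Bool.not_eq_false, Bool.and_eq_true] at hc
    exact h i hc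

theorem and_two_pow_zero {M s : ℕ} : M &&& 2 ^ s = 0 ↔ M.testBit s = false := by
  rw [and_eq_zero_iff]
  constructor
  · intro h
    by_contra hc
    rw [Bool.not_eq_false] at hc
    exact h s ⟨hc, by simp⟩
  · rintro h i ⟨h1, h2⟩
    rw [Nat.testBit_two_pow] at h2
    have : s = i := by simpa using h2
    rw [← this, h] at h1
    exact absurd h1 (by decide)

/-- (bit of a facet, mask of the facets not adjacent to it) -/
def cnb : List (ℕ × ℕ) :=
  [(1, 4294170524), (2, 4293893944), (4, 4292820593), (8, 4290673891), (16, 4286380487), (32,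
  4277793742), (64, 4294960956), (128, 4294962745), (256, 4294962291), (512, 4294961383),
  (1024, 4294959567), (2048, 4294960030), (4096, 4294959167), (8192, 4259831804), (16384,
  4224696313), (32768, 4154425331), (65536, 4013883367), (131072, 3732799439), (262144,
  3203661790), (524288, 3186876414), (1048576, 4193230845), (2097152, 4091494395), (4194304,
  3888021495), (8388608, 3481075695), (16777216, 2667184095), (33554432, 971497471), (67108864,
  1909440511), (134217728, 1671397375), (268435456, 1195311103), (536870912, 243138559),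
  (1073741824, 485752831), (2147483648, 33554431)]

theorem cnb_spec : ∀ e ∈ cnb, e.2 < 2 ^ 32 ∧ ∃ s : S, e.1 = 2 ^ s.val ∧
    ∀ t : S, (e.2.testBit t.val = true ↔ (t ≠ s ∧ ¬ adj s t)) := by decide

theorem cnb_all : ∀ s : S, ∃ e ∈ cnb, e.1 = 2 ^ s.val := by decide

/-- test for a clique -/
def cliqueM (M : ℕ) : Bool := cnb.all fun e => (M &&& e.1 == 0) || (M &&& e.2 == 0)

theorem cliqueM_iff {M : ℕ} : cliqueM M = true ↔ Clique (toF M) := by
  unfold cliqueM
  rw [List.all_eq_true]
  constructor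
  · intro h s hs t ht hst
    rw [mem_toF] at hs ht
    obtain ⟨e, he, he1⟩ := cnb_all s
    obtain ⟨_, s', hs', hs2⟩ := cnb_spec e he
    have hss : s = s' := by
      rw [he1] at hs'
      exact Fin.ext (Nat.pow_right_injective (le_refl 2) hs')
    subst hss
    have h1 := h e he
    rw [Bool.or_eq_true, beq_iff_eq, beq_iff_eq, he1, and_two_pow_zero] at h1
    rcases h1 with h1 | h1
    · rw [hs] at h1; exact absurd h1 (by decide)
    · rw [and_eq_zero_iff] at h1
      have h2 := h1 t.val
      rw [hs2 t] at h2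
      by_contra hc
      exact h2 ⟨ht, Ne.symm hst, hc⟩
  · intro h e he
    obtain ⟨hlt, s, hs, hs2⟩ := cnb_spec e he
    rw [Bool.or_eq_true, beq_iff_eq, beq_iff_eq, hs, and_two_pow_zero]
    by_cases hM : M.testBit s.val = true
    · right
      rw [and_eq_zero_iff]
      rintro i ⟨h1, h2⟩
      by_cases hi : i < 32
      · have h3 := (hs2 ⟨i, hi⟩).1 h2
        exact h3.2 (h s (mem_toF.2 hM) ⟨i, hi⟩ (mem_toF.2 h1) (Ne.symm h3.1))
      · rw [Nat.testBit_lt_two_pow (lt_of_lt_of_le hlt (Nat.pow_le_pow_right (by norm_num) (not_lt.1 hi)))] at h2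
        exact absurd h2 (by decide)
    · left
      simpa using hM

/-! ### unions of faces of the chamber -/

/-- the union of the faces with masks in the list -/
def U (C : Chamber) (L : List ℕ) : Set C.P := {p | ∃ M ∈ L, p ∈ C.face' (toF M)}

variable (C : Chamber)

theorem U_cons (m : ℕ) (L : List ℕ) : U C (m :: L) = C.face' (toF m) ∪ U C L := by
  ext p
  simp [U]

theorem U_nil : U C [] = ∅ := by
  ext p
  simp [U]

theorem isClosed_U (L : List ℕ) : IsClosed (U C L) := by
  induction L with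
  | nil => rw [U_nil]; exact isClosed_empty
  | cons m L ih => rw [U_cons]; exact (C.isClosed_face' _).union ih

theorem ae_face {T : Finset S} (h : Clique T) : AE (C.face' T) :=
  AE.convex_subtype (C.isClosed_face' T).isCompact (C.convex_face T) (C.face'_nonempty h)

/-- certificates -/
inductive Ct : Type
  | nil : Ct
  | cons (m : ℕ) (s r : Ct) : Ct

/-- the checker for unions of faces -/
def fck : Ct → List ℕ → List ℕ → Bool
  | .nil, prev, L => (!prev.isEmpty) &&
      L.all (fun M => (!cliqueM M) || prev.any (fun m => m &&& M == m))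
  | .cons m s r, prev, L => cliqueM m && L.any (fun M => M &&& m == M) &&
      (prev.isEmpty || fck s [] (prev.map (fun t => t ||| m))) && fck r (m :: prev) L

theorem fck_sound : ∀ (ct : Ct) (prev L : List ℕ), fck ct prev L = true →
    (prev = [] ∨ AE (U C prev)) → (∀ m ∈ prev, ∃ M ∈ L, toF M ⊆ toF m) → AE (U C L) := by
  intro ct
  induction ct with
  | nil =>
    intro prev L h h1 h2
    unfold fck at h
    rw [Bool.and_eq_true, List.all_eq_true] at h
    have h3 : prev ≠ [] := by
      intro h0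
      rw [h0] at h
      exact absurd h.1 (by decide)
    rcases h1 with h1 | h1
    · exact absurd h1 h3
    have : U C L = U C prev := by
      ext p
      constructor
      · rintro ⟨M, hM, hp⟩
        have h4 := h.2 M hM
        rw [Bool.or_eq_true, Bool.not_eq_true', List.any_eq_true] at h4
        rcases h4 with h4 | ⟨m, hm, h4⟩
        · exfalso
          have h5 : ¬ Clique (toF M) := by
            rw [← cliqueM_iff, h4]; decide
          exact h5 ((C.clique_sup p).mono hp)
        · exact ⟨m, hm, (toF_sub h4).trans hp⟩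
      · rintro ⟨m, hm, hp⟩
        obtain ⟨M, hM, hMm⟩ := h2 m hm
        exact ⟨M, hM, hMm.trans hp⟩
    rw [this]
    exact h1
  | cons m s r ihs ihr =>
    intro prev L h h1 h2
    unfold fck at h
    rw [Bool.and_eq_true, Bool.and_eq_true, Bool.and_eq_true, List.any_eq_true, Bool.or_eq_true] at h
    obtain ⟨⟨⟨hc, ⟨M, hM, hMm⟩⟩, hs⟩, hr⟩ := h
    apply ihr (m :: prev) L hr
    · right
      have hm : AE (C.face' (toF m)) := ae_face C (cliqueM_iff.1 hc)
      rcases h1 with h1 | h1
      · rw [h1, U_cons, U_nil, Set.union_empty]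
        exact hm
      · rw [U_cons]
        by_cases hp : prev = []
        · rw [hp, U_nil, Set.union_empty]
          exact hm
        · rcases hs with hs | hs
          · rw [List.isEmpty_iff] at hs
            exact absurd hs hp
          · apply AE.union (C.isClosed_face' _) (isClosed_U C prev) hm h1
            have h3 := ihs [] _ hs (Or.inl rfl) (by intro m hm; exact absurd hm (List.not_mem_nil))
            have h4 : C.face' (toF m) ∩ U C prev = U C (prev.map (fun t => t ||| m)) := by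
              ext p
              constructor
              · rintro ⟨hp1, t, ht, hp2⟩
                refine ⟨t ||| m, List.mem_map.2 ⟨t, ht, rfl⟩, ?_⟩
                rw [toF_or]
                exact Finset.union_subset hp2 hp1
              · rintro ⟨N, hN, hp1⟩
                obtain ⟨t, ht, rfl⟩ := List.mem_map.1 hN
                rw [toF_or] at hp1
                exact ⟨Finset.union_subset_right hp1, t, ht, Finset.union_subset_left hp1⟩
            rw [h4]
            exact h3
    · intro m' hm'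
      rcases List.mem_cons.1 hm' with h3 | h3
      · subst h3
        exact ⟨M, hM, toF_sub hMm⟩
      · exact h2 m' h3

/-! ### colours -/

/-- (mask, colour sum) of the cliques of inner facets -/
def inC0 : List (ℕ × ℕ) :=
  [(0, 0), (1, 1), (2, 2), (4, 3), (8, 1), (16, 2), (32, 3), (64, 1), (128, 3), (256, 1), (512,
  2), (1024, 3), (2048, 2), (4096, 2), (3, 3), (33, 2), (65, 0), (2049, 3), (6, 1), (66, 3),
  (130, 1), (12, 2), (132, 0), (260, 2), (24, 3), (264, 0), (520, 3), (48, 1), (528, 0), (1040,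
  1), (1056, 0), (2080, 1), (192, 2), (2112, 3), (4160, 3), (384, 2), (4224, 1), (768, 3),
  (4352, 3), (1536, 1), (4608, 0), (3072, 1), (5120, 1), (6144, 0), (67, 2), (2081, 0), (2113,
  2), (134, 2), (194, 0), (268, 3), (388, 1), (536, 1), (776, 2), (1072, 2), (1552, 3), (3104,
  2), (4288, 0), (6208, 1), (4480, 0), (4864, 1), (5632, 3), (7168, 3)]

/-- (mask, colour sum) of the cliques of inner facets -/
def inC1 : List (ℕ × ℕ) :=
  [(0, 0), (1, 1), (2, 2), (4, 3), (8, 1), (16, 2), (32, 3), (64, 2), (128, 1), (256, 1), (512,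
  3), (1024, 2), (2048, 3), (4096, 3), (3, 3), (33, 2), (65, 3), (2049, 2), (6, 1), (66, 0),
  (130, 3), (12, 2), (132, 2), (260, 2), (24, 3), (264, 0), (520, 2), (48, 1), (528, 1), (1040,
  0), (1056, 1), (2080, 0), (192, 3), (2112, 1), (4160, 1), (384, 0), (4224, 2), (768, 2),
  (4352, 2), (1536, 1), (4608, 0), (3072, 1), (5120, 1), (6144, 0), (67, 1), (2081, 1), (2113,
  0), (134, 0), (194, 1), (268, 3), (388, 3), (536, 0), (776, 3), (1072, 3), (1552, 3), (3104,
  2), (4288, 0), (6208, 2), (4480, 3), (4864, 1), (5632, 2), (7168, 2)]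

def rho0 : List (List ℕ) :=
  [[0], [1, 8, 64, 256, 6, 130, 48, 1040, 2080, 4224, 1536, 3072, 5120], [2, 16, 512, 2048,
  4096, 33, 12, 260, 192, 384], [4, 32, 128, 1024, 3, 2049, 66, 24, 520, 2112, 4160, 768,
  4352]]

def rho1 : List (List ℕ) :=
  [[0], [1, 8, 128, 256, 6, 48, 528, 1056, 2112, 4160, 1536, 3072, 5120], [2, 16, 64, 1024, 33,
  2049, 12, 132, 260, 520, 4224, 768, 4352], [4, 32, 512, 2048, 4096, 3, 65, 130, 24, 192]]

def inCs (k : Bool) : List (ℕ × ℕ) := if k then inC1 else inC0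
def rho (k : Bool) (d : ℕ) : List ℕ := (if k then rho1 else rho0).getD d []

theorem V_add_of : ∀ a b : Fin 16, (V.of (a.val ^^^ b.val)) = V.of a.val + V.of b.val := by decide

theorem inCs_lt : ∀ k : Bool, ∀ e ∈ inCs k, e.2 < 4 ∧ e.1 < 8192 := by decide

theorem inCs_zero : ∀ k : Bool, (0, 0) ∈ inCs k := by decide

theorem inCs_step : ∀ k : Bool, ∀ e ∈ inCs k, ∀ s : Fin 13, e.1.testBit s.val = false →
    (e.1 &&& (cnb.getD s.val (0, 0)).2 = 0) →
    (e.1 ||| 2 ^ s.val, e.2 ^^^ ((colL k).getD s.val 0)) ∈ inCs k := by decide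

theorem cnb_getD : ∀ s : S, ∀ t : S, ((cnb.getD s.val (0, 0)).2.testBit t.val = true ↔
    (t ≠ s ∧ ¬ adj s t)) := by decide

theorem cnb_getD_lt : ∀ s : S, (cnb.getD s.val (0, 0)).2 < 2 ^ 32 := by decide

theorem col_lt : ∀ k : Bool, ∀ s : Fin 13, ((colL k).getD s.val 0) < 4 := by decide

theorem rho_ok : ∀ k : Bool, ∀ e ∈ inCs k, ∃ R ∈ rho k e.2, (R &&& e.1 == R) = true := by decide

theorem rho_sum : ∀ k : Bool, ∀ d : Fin 4, ∀ R ∈ rho k d.val, R < 8192 ∧
    ∑ s ∈ toF R, col k s = V.of d.val := by decide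

/-- inner cliques are in the list -/
theorem mem_inCs (k : Bool) (T : Finset S) (hT : Clique T) (hi : ∀ s ∈ T, s.val < 13) :
    ∃ e ∈ inCs k, toF e.1 = T ∧ ∑ s ∈ T, col k s = V.of e.2 := by
  classical
  induction T using Finset.induction_on with
  | empty => exact ⟨(0, 0), inCs_zero k, toF_zero, by rw [Finset.sum_empty]; exact V.zero_def⟩
  | insert s T hs ih =>
    obtain ⟨e, he, he1, he2⟩ := ih (hT.mono (Finset.subset_insert s T))
      (fun t ht => hi t (Finset.mem_insert_of_mem ht))
    have hs13 : s.val < 13 := hi s (Finset.mem_insert_self s T)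
    have hbit : e.1.testBit s.val = false := by
      by_contra hc
      rw [Bool.not_eq_false] at hc
      apply hs
      rw [← he1, mem_toF]
      exact hc
    have hand : e.1 &&& (cnb.getD s.val (0, 0)).2 = 0 := by
      rw [and_eq_zero_iff]
      rintro i ⟨h1, h2⟩
      by_cases hi' : i < 32
      · have h3 := (cnb_getD s ⟨i, hi'⟩).1 h2
        have h4 : (⟨i, hi'⟩ : S) ∈ T := by rw [← he1, mem_toF]; exact h1
        exact h3.2 (hT s (Finset.mem_insert_self s T) _ (Finset.mem_insert_of_mem h4) (Ne.symm h3.1))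
      · rw [Nat.testBit_lt_two_pow (lt_of_lt_of_le (cnb_getD_lt s)
          (Nat.pow_le_pow_right (by norm_num) (not_lt.1 hi')))] at h2
        exact absurd h2 (by decide)
    refine ⟨_, inCs_step k e he ⟨s.val, hs13⟩ hbit hand, ?_, ?_⟩
    · simp only
      rw [toF_or, he1]
      ext t
      rw [Finset.mem_union, Finset.mem_insert, mem_toF, Nat.testBit_two_pow]
      constructor
      · rintro (h | h)
        · exact Or.inr h
        · left
          have : s.val = t.val := by simpa using h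
          exact (Fin.ext this).symm
      · rintro (h | h)
        · right; simp [h]
        · exact Or.inl h
    · rw [Finset.sum_insert hs, he2]
      have h1 := (inCs_lt k e he).1
      have h2 : (colL k).getD s.val 0 < 4 := col_lt k ⟨s.val, hs13⟩
      have h3 := V_add_of ⟨(colL k).getD s.val 0, by omega⟩ ⟨e.2, by omega⟩
      simp only at h3
      rw [Nat.xor_comm] at h3
      rw [h3]
      rfl

theorem V_of_self (v : V) : V.of v.1 = v := Fin.ext (Nat.mod_eq_of_lt v.2)

theorem V_sub (a b : V) : a - b = V.of (a.1 ^^^ b.1) := by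
  have h : a - b = a + b := by
    rw [sub_eq_add_neg]; rfl
  rw [h, ← V_of_self a, ← V_of_self b]
  have := V_add_of a b
  rw [V_of_self, V_of_self] at this ⊢
  exact this.symm

theorem V_of_inj {a b : ℕ} (ha : a < 16) (hb : b < 16) (h : V.of a = V.of b) : a = b := by
  have h1 : a % 16 = b % 16 := congrArg Fin.val h
  rwa [Nat.mod_eq_of_lt ha, Nat.mod_eq_of_lt hb] at h1

/-- when two copies are glued -/
theorem rel_iff (k : Bool) (T : Finset S) (hT : Clique T) (a b : Asub) :
    (GK k).r T a b ↔ ∃ R ∈ rho k (a.1.1 ^^^ b.1.1), toF R ⊆ T := by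
  have ha : a.1.1 < 4 := a.2
  have hb : b.1.1 < 4 := b.2
  have hx : a.1.1 ^^^ b.1.1 < 4 := Nat.xor_lt_two_pow (n := 2) ha hb
  constructor
  · intro h
    have h' : (a : V) - (b : V) ∈ spn k (innF T) := h
    obtain ⟨T', hT', hsum⟩ := mem_spn.1 h'
    rw [Finset.mem_powerset] at hT'
    have hsub : T' ⊆ T := hT'.trans (Finset.filter_subset _ _)
    obtain ⟨e, he, he1, he2⟩ := mem_inCs k T' (hT.mono hsub)
      (fun s hs => (Finset.mem_filter.1 (hT' hs)).2)
    rw [he2, V_sub] at hsum
    have h1 := (inCs_lt k e he).1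
    have h2 : e.2 = a.1.1 ^^^ b.1.1 := V_of_inj (by omega) (by omega) hsum
    obtain ⟨R, hR, hR'⟩ := rho_ok k e he
    rw [h2] at hR
    refine ⟨R, hR, (toF_sub hR').trans ?_⟩
    rw [he1]
    exact hsub
  · rintro ⟨R, hR, hRT⟩
    obtain ⟨h1, h2⟩ := rho_sum k ⟨a.1.1 ^^^ b.1.1, hx⟩ R hR
    show (a : V) - (b : V) ∈ spn k (innF T)
    rw [V_sub, ← h2]
    apply mem_spn.2
    refine ⟨toF R, ?_, rfl⟩
    rw [Finset.mem_powerset]
    intro s hs
    apply Finset.mem_filter.2
    refine ⟨hRT hs, ?_⟩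
    by_contra hc
    rw [mem_toF, Nat.testBit_lt_two_pow (lt_of_lt_of_le h1
      (Nat.pow_le_pow_right (by norm_num) (not_lt.1 hc) : 2 ^ 13 ≤ 2 ^ s.val))] at hs
    exact absurd hs (by decide)

/-! ### unions of cells -/

/-- copies by number -/
def as (a : ℕ) : Asub := ⟨V.of (a % 4), by
  have : a % 4 < 4 := Nat.mod_lt _ (by norm_num)
  show (a % 4) % 16 < 4
  omega⟩

theorem as_val {a : ℕ} (h : a < 4) : (as a).1.1 = a := by
  show (a % 4) % 16 = a
  omega

theorem as_self (a : Asub) : as a.1.1 = a := by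
  apply Subtype.ext
  apply Fin.ext
  exact as_val a.2

/-- the union of the cells in a list -/
def W (k : Bool) (l : List (ℕ × ℕ)) : Set (Dev C (GK k)) :=
  {x | ∃ e ∈ l, x ∈ (Dev.mk (G := GK k) (as e.2)) '' C.face' (toF e.1)}

theorem W_cons (k : Bool) (e : ℕ × ℕ) (l : List (ℕ × ℕ)) :
    W C k (e :: l) = (Dev.mk (G := GK k) (as e.2)) '' C.face' (toF e.1) ∪ W C k l := by
  ext x
  simp only [W, List.mem_cons, Set.mem_ofPred_eq, Set.mem_union]
  constructor
  · rintro ⟨e', h | h, hx⟩
    · subst h; exact Or.inl hx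
    · exact Or.inr ⟨e', h, hx⟩
  · rintro (h | ⟨e', h, hx⟩)
    · exact ⟨e, Or.inl rfl, h⟩
    · exact ⟨e', Or.inr h, hx⟩

theorem W_nil (k : Bool) : W C k [] = ∅ := by
  ext x
  simp [W]

theorem isClosed_W (k : Bool) (l : List (ℕ × ℕ)) : IsClosed (W C k l) := by
  induction l with
  | nil => rw [W_nil]; exact isClosed_empty
  | cons e l ih =>
    rw [W_cons]
    exact (Dev.isClosed_image_mk _ (C.isClosed_face' _)).union ih

/-- the faces where a cell meets other cells -/
def meet (k : Bool) (T a : ℕ) (l : List (ℕ × ℕ)) : List ℕ :=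
  l.flatMap fun x => (rho k (a ^^^ x.2)).map fun R => T ||| (x.1 ||| R)

theorem inter_W (k : Bool) (T a : ℕ) (ha : a < 4) (l : List (ℕ × ℕ)) (hl : ∀ e ∈ l, e.2 < 4) :
    (Dev.mk (G := GK k) (as a)) '' C.face' (toF T) ∩ W C k l =
      (Dev.mk (G := GK k) (as a)) '' U C (meet k T a l) := by
  ext x
  constructor
  · rintro ⟨⟨p, hp, rfl⟩, e, he, q, hq, hqp⟩
    obtain ⟨rfl, hr⟩ := Dev.mk_eq.1 hqp
    have hr' := (GK k).symm hr
    rw [rel_iff k _ (C.clique_sup q), as_val ha, as_val (hl e he)] at hr'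
    obtain ⟨R, hR, hRs⟩ := hr'
    refine ⟨q, ⟨T ||| (e.1 ||| R), ?_, ?_⟩, rfl⟩
    · exact List.mem_flatMap.2 ⟨e, he, List.mem_map.2 ⟨R, hR, rfl⟩⟩
    · show toF _ ⊆ C.sup q
      rw [toF_or, toF_or]
      exact Finset.union_subset hp (Finset.union_subset hq hRs)
  · rintro ⟨p, ⟨M, hM, hp⟩, rfl⟩
    obtain ⟨e, he, hM'⟩ := List.mem_flatMap.1 hM
    obtain ⟨R, hR, rfl⟩ := List.mem_map.1 hM'
    have hp' : toF (T ||| (e.1 ||| R)) ⊆ C.sup p := hp
    rw [toF_or, toF_or] at hp'
    have h1 : toF T ⊆ C.sup p := Finset.union_subset_left hp'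
    have h2 := Finset.union_subset_right hp'
    have h3 : toF e.1 ⊆ C.sup p := Finset.union_subset_left h2
    have h4 : toF R ⊆ C.sup p := Finset.union_subset_right h2
    refine ⟨⟨p, h1, rfl⟩, e, he, p, h3, ?_⟩
    apply Dev.mk_eq.2
    refine ⟨rfl, (GK k).symm ?_⟩
    rw [rel_iff k _ (C.clique_sup p), as_val ha, as_val (hl e he)]
    exact ⟨R, hR, h4⟩

/-- the checker for unions of cells -/
def gck (k : Bool) : List (ℕ × ℕ × Ct) → List (ℕ × ℕ) → Bool
  | [], prev => !prev.isEmpty
  | (T, a, s) :: r, prev => cliqueM T && decide (a < 4) &&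
      (prev.isEmpty || fck s [] (meet k T a prev)) && gck k r ((T, a) :: prev)

/-- the list of the cells, in reverse order -/
def rv : List (ℕ × ℕ × Ct) → List (ℕ × ℕ) → List (ℕ × ℕ)
  | [], prev => prev
  | (T, a, _) :: r, prev => rv r ((T, a) :: prev)

theorem gck_sound (k : Bool) : ∀ (l : List (ℕ × ℕ × Ct)) (prev : List (ℕ × ℕ)),
    gck k l prev = true → (∀ e ∈ prev, e.2 < 4) → (prev = [] ∨ AE (W C k prev)) →
    AE (W C k (rv l prev)) := by
  intro l
  induction l with
  | nil =>
    intro prev h _ h1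
    unfold gck at h
    rcases h1 with h1 | h1
    · rw [h1] at h; exact absurd h (by decide)
    · exact h1
  | cons e r ih =>
    obtain ⟨T, a, s⟩ := e
    intro prev h h0 h1
    unfold gck at h
    rw [Bool.and_eq_true, Bool.and_eq_true, Bool.and_eq_true, Bool.or_eq_true, decide_eq_true_eq] at h
    obtain ⟨⟨⟨hc, ha⟩, hs⟩, hr⟩ := h
    unfold rv
    apply ih _ hr
    · intro e he
      rcases List.mem_cons.1 he with he | he
      · rw [he]; exact ha
      · exact h0 e he
    · right
      have hm : AE ((Dev.mk (G := GK k) (as a)) '' C.face' (toF T)) :=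
        (ae_face C (cliqueM_iff.1 hc)).image _ Dev.pr (Dev.continuous_mk _) Dev.continuous_pr
          (fun _ => rfl)
      rw [W_cons]
      by_cases hp : prev = []
      · rw [hp, W_nil, Set.union_empty]
        exact hm
      · rcases h1 with h1 | h1
        · exact absurd h1 hp
        rcases hs with hs | hs
        · rw [List.isEmpty_iff] at hs
          exact absurd hs hp
        · apply AE.union (Dev.isClosed_image_mk _ (C.isClosed_face' _)) (isClosed_W C k prev) hm h1
          rw [inter_W C k T a ha prev h0]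
          exact (fck_sound C s [] _ hs (Or.inl rfl)
            (by intro m hm; exact absurd hm (List.not_mem_nil))).image _ Dev.pr
              (Dev.continuous_mk _) Dev.continuous_pr (fun _ => rfl)

/-! ### certificates -/

def cK0 : List (ℕ × ℕ × Ct) :=
  [(0, 0, .nil), (0, 1, (.cons 1 .nil (.cons 64 (.cons 65 .nil .nil) (.cons 130 (.cons 194 .nil
  .nil) (.cons 6 (.cons 134 .nil .nil) (.cons 2080 (.cons 2081 .nil .nil) (.cons 4224 (.cons
  4288 .nil .nil) (.cons 256 (.cons 4480 .nil .nil) (.cons 8 (.cons 264 .nil .nil) (.cons 3072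
  (.cons 3104 .nil .nil) (.cons 5120 (.cons 7168 .nil .nil) (.cons 1536 (.cons 5632 .nil .nil)
  (.cons 1040 (.cons 1552 .nil .nil) (.cons 48 (.cons 1072 .nil .nil) .nil)))))))))))))), (0,
  2, (.cons 2 .nil (.cons 4 (.cons 6 .nil .nil) (.cons 128 (.cons 130 .nil (.cons 132 (.cons
  134 .nil .nil) .nil)) (.cons 4096 (.cons 4224 .nil .nil) (.cons 512 (.cons 4608 .nil .nil)
  (.cons 16 (.cons 528 .nil .nil) (.cons 2048 (.cons 6144 .nil .nil) (.cons 1024 (.cons 1040
  .nil (.cons 1536 (.cons 1552 .nil .nil) (.cons 5120 (.cons 5632 .nil .nil) (.cons 3072 (.cons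
  7168 .nil .nil) .nil)))) (.cons 32 (.cons 48 .nil (.cons 1056 (.cons 1072 .nil .nil) (.cons
  2080 (.cons 3104 .nil .nil) .nil))) .nil)))))))))), (0, 3, (.cons 1 .nil (.cons 32 (.cons 33
  .nil .nil) (.cons 1024 (.cons 1056 .nil .nil) (.cons 2 (.cons 3 .nil .nil) (.cons 4 (.cons 6
  .nil .nil) (.cons 128 (.cons 130 .nil (.cons 132 (.cons 134 .nil .nil) .nil)) (.cons 16
  (.cons 48 .nil (.cons 1040 (.cons 1072 .nil .nil) .nil)) (.cons 512 (.cons 528 .nil (.cons
  1536 (.cons 1552 .nil .nil) .nil)) (.cons 2048 (.cons 2049 .nil (.cons 2080 (.cons 2081 .nil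
  .nil) (.cons 3072 (.cons 3104 .nil .nil) .nil))) (.cons 64 (.cons 65 .nil (.cons 66 (.cons 67
  .nil .nil) (.cons 192 (.cons 194 .nil .nil) (.cons 2112 (.cons 2113 .nil .nil) .nil))))
  (.cons 4096 (.cons 4160 .nil (.cons 4224 (.cons 4288 .nil .nil) (.cons 6144 (.cons 6208 .nil
  .nil) (.cons 5120 (.cons 7168 .nil .nil) (.cons 4608 (.cons 5632 .nil .nil) .nil))))) (.cons
  256 (.cons 260 .nil (.cons 384 (.cons 388 .nil .nil) (.cons 4352 (.cons 4480 .nil .nil)
  (.cons 768 (.cons 4864 .nil .nil) .nil)))) (.cons 8 (.cons 12 .nil (.cons 264 (.cons 268 .nil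
  .nil) (.cons 520 (.cons 776 .nil .nil) (.cons 24 (.cons 536 .nil .nil) .nil))))
  .nil))))))))))))))]

def cK1 : List (ℕ × ℕ × Ct) :=
  [(0, 0, .nil), (0, 1, (.cons 1 .nil (.cons 2112 (.cons 2113 .nil .nil) (.cons 4160 (.cons
  6208 .nil .nil) (.cons 128 (.cons 4288 .nil .nil) (.cons 256 (.cons 384 .nil .nil) (.cons 8
  (.cons 264 .nil .nil) (.cons 6 (.cons 134 .nil .nil) (.cons 528 (.cons 536 .nil .nil) (.cons
  1536 (.cons 1552 .nil .nil) (.cons 5120 (.cons 5632 .nil .nil) (.cons 3072 (.cons 7168 .nil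
  .nil) (.cons 1056 (.cons 3104 .nil .nil) (.cons 48 (.cons 1072 .nil .nil) .nil)))))))))))))),
  (0, 2, (.cons 2 .nil (.cons 64 (.cons 66 .nil .nil) (.cons 4 (.cons 6 .nil .nil) (.cons 2048
  (.cons 2112 .nil .nil) (.cons 1024 (.cons 3072 .nil .nil) (.cons 16 (.cons 1040 .nil .nil)
  (.cons 32 (.cons 48 .nil (.cons 1056 (.cons 1072 .nil .nil) (.cons 2080 (.cons 3104 .nil
  .nil) .nil))) (.cons 512 (.cons 528 .nil (.cons 1536 (.cons 1552 .nil .nil) .nil)) (.cons
  4096 (.cons 4160 .nil (.cons 6144 (.cons 6208 .nil .nil) (.cons 5120 (.cons 7168 .nil .nil)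
  (.cons 4608 (.cons 5632 .nil .nil) .nil)))) .nil)))))))))), (0, 3, (.cons 1 .nil (.cons 32
  (.cons 33 .nil .nil) (.cons 1024 (.cons 1056 .nil .nil) (.cons 2 (.cons 3 .nil .nil) (.cons 4
  (.cons 6 .nil .nil) (.cons 128 (.cons 130 .nil (.cons 132 (.cons 134 .nil .nil) .nil)) (.cons
  16 (.cons 48 .nil (.cons 1040 (.cons 1072 .nil .nil) .nil)) (.cons 512 (.cons 528 .nil (.cons
  1536 (.cons 1552 .nil .nil) .nil)) (.cons 2048 (.cons 2049 .nil (.cons 2080 (.cons 2081 .nil
  .nil) (.cons 3072 (.cons 3104 .nil .nil) .nil))) (.cons 64 (.cons 65 .nil (.cons 66 (.cons 67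
  .nil .nil) (.cons 192 (.cons 194 .nil .nil) (.cons 2112 (.cons 2113 .nil .nil) .nil))))
  (.cons 4096 (.cons 4160 .nil (.cons 4224 (.cons 4288 .nil .nil) (.cons 6144 (.cons 6208 .nil
  .nil) (.cons 5120 (.cons 7168 .nil .nil) (.cons 4608 (.cons 5632 .nil .nil) .nil))))) (.cons
  256 (.cons 260 .nil (.cons 384 (.cons 388 .nil .nil) (.cons 4352 (.cons 4480 .nil .nil)
  (.cons 768 (.cons 4864 .nil .nil) .nil)))) (.cons 8 (.cons 12 .nil (.cons 264 (.cons 268 .nil
  .nil) (.cons 520 (.cons 776 .nil .nil) (.cons 24 (.cons 536 .nil .nil) .nil))))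
  .nil))))))))))))))]

def tb0 : List (ℕ × ℕ × List (ℕ × ℕ × Ct)) :=
  [(8192, 15, [(8192, 0, .nil), (8192, 1, (.cons 8193 .nil .nil)), (8192, 2, (.cons 8194 .nil
  .nil)), (8192, 3, (.cons 8193 .nil (.cons 8194 (.cons 8195 .nil .nil) .nil)))]), (16384, 15,
  [(16384, 0, .nil), (16384, 1, (.cons 16390 .nil .nil)), (16384, 2, (.cons 16386 .nil (.cons
  16388 (.cons 16390 .nil .nil) .nil))), (16384, 3, (.cons 16386 .nil (.cons 16388 (.cons 16390
  .nil .nil) .nil)))]), (32768, 15, [(32768, 0, .nil), (32768, 1, (.cons 32776 .nil .nil)),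
  (32768, 2, (.cons 32772 .nil .nil)), (32768, 3, (.cons 32772 .nil (.cons 32776 (.cons 32780
  .nil .nil) .nil)))]), (65536, 15, [(65536, 0, .nil), (65536, 1, (.cons 65544 .nil .nil)),
  (65536, 2, (.cons 65552 .nil .nil)), (65536, 3, (.cons 65544 .nil (.cons 65552 (.cons 65560
  .nil .nil) .nil)))]), (131072, 15, [(131072, 0, .nil), (131072, 1, (.cons 131120 .nil .nil)),
  (131072, 2, (.cons 131088 .nil (.cons 131104 (.cons 131120 .nil .nil) .nil))), (131072, 3,
  (.cons 131088 .nil (.cons 131104 (.cons 131120 .nil .nil) .nil)))]), (262144, 15, [(262144,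
  0, .nil), (262144, 1, (.cons 262145 .nil .nil)), (262144, 2, (.cons 262176 .nil .nil)),
  (262144, 3, (.cons 262145 .nil (.cons 262176 (.cons 262177 .nil .nil) .nil)))]), (524288, 3,
  [(524288, 0, .nil), (524288, 1, (.cons 524289 .nil .nil))]), (524288, 12, [(524288, 2, .nil),
  (524288, 3, (.cons 524289 .nil .nil))]), (1048576, 5, [(1048576, 0, .nil), (1048576, 2,
  (.cons 1048578 .nil .nil))]), (1048576, 10, [(1048576, 1, .nil), (1048576, 3, (.cons 1048578
  .nil .nil))]), (2097152, 9, [(2097152, 0, .nil), (2097152, 3, (.cons 2097156 .nil .nil))]),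
  (2097152, 6, [(2097152, 1, .nil), (2097152, 2, (.cons 2097156 .nil .nil))]), (4194304, 3,
  [(4194304, 0, .nil), (4194304, 1, (.cons 4194312 .nil .nil))]), (4194304, 12, [(4194304, 2,
  .nil), (4194304, 3, (.cons 4194312 .nil .nil))]), (8388608, 5, [(8388608, 0, .nil), (8388608,
  2, (.cons 8388624 .nil .nil))]), (8388608, 10, [(8388608, 1, .nil), (8388608, 3, (.cons
  8388624 .nil .nil))]), (16777216, 9, [(16777216, 0, .nil), (16777216, 3, (.cons 16777248 .nil
  .nil))]), (16777216, 6, [(16777216, 1, .nil), (16777216, 2, (.cons 16777248 .nil .nil))]),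
  (532480, 3, [(532480, 0, .nil), (532480, 1, (.cons 532481 .nil .nil))]), (532480, 12,
  [(532480, 2, .nil), (532480, 3, (.cons 532481 .nil .nil))]), (1056768, 5, [(1056768, 0,
  .nil), (1056768, 2, (.cons 1056770 .nil .nil))]), (1056768, 10, [(1056768, 1, .nil),
  (1056768, 3, (.cons 1056770 .nil .nil))]), (1064960, 5, [(1064960, 0, .nil), (1064960, 2,
  (.cons 1064962 .nil .nil))]), (1064960, 10, [(1064960, 1, .nil), (1064960, 3, (.cons 1064962
  .nil .nil))]), (2113536, 9, [(2113536, 0, .nil), (2113536, 3, (.cons 2113540 .nil .nil))]),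
  (2113536, 6, [(2113536, 1, .nil), (2113536, 2, (.cons 2113540 .nil .nil))]), (2129920, 9,
  [(2129920, 0, .nil), (2129920, 3, (.cons 2129924 .nil .nil))]), (2129920, 6, [(2129920, 1,
  .nil), (2129920, 2, (.cons 2129924 .nil .nil))]), (4227072, 3, [(4227072, 0, .nil), (4227072,
  1, (.cons 4227080 .nil .nil))]), (4227072, 12, [(4227072, 2, .nil), (4227072, 3, (.cons
  4227080 .nil .nil))]), (4259840, 3, [(4259840, 0, .nil), (4259840, 1, (.cons 4259848 .nil
  .nil))]), (4259840, 12, [(4259840, 2, .nil), (4259840, 3, (.cons 4259848 .nil .nil))]),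
  (8454144, 5, [(8454144, 0, .nil), (8454144, 2, (.cons 8454160 .nil .nil))]), (8454144, 10,
  [(8454144, 1, .nil), (8454144, 3, (.cons 8454160 .nil .nil))]), (8519680, 5, [(8519680, 0,
  .nil), (8519680, 2, (.cons 8519696 .nil .nil))]), (8519680, 10, [(8519680, 1, .nil),
  (8519680, 3, (.cons 8519696 .nil .nil))]), (16908288, 9, [(16908288, 0, .nil), (16908288, 3,
  (.cons 16908320 .nil .nil))]), (16908288, 6, [(16908288, 1, .nil), (16908288, 2, (.cons
  16908320 .nil .nil))]), (786432, 3, [(786432, 0, .nil), (786432, 1, (.cons 786433 .nil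
  .nil))]), (786432, 12, [(786432, 2, .nil), (786432, 3, (.cons 786433 .nil .nil))]),
  (17039360, 9, [(17039360, 0, .nil), (17039360, 3, (.cons 17039392 .nil .nil))]), (17039360,
  6, [(17039360, 1, .nil), (17039360, 2, (.cons 17039392 .nil .nil))])]

def tb1 : List (ℕ × ℕ × List (ℕ × ℕ × Ct)) :=
  [(8192, 15, [(8192, 0, .nil), (8192, 1, (.cons 8193 .nil .nil)), (8192, 2, (.cons 8194 .nil
  .nil)), (8192, 3, (.cons 8193 .nil (.cons 8194 (.cons 8195 .nil .nil) .nil)))]), (16384, 15,
  [(16384, 0, .nil), (16384, 1, (.cons 16390 .nil .nil)), (16384, 2, (.cons 16386 .nil (.cons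
  16388 (.cons 16390 .nil .nil) .nil))), (16384, 3, (.cons 16386 .nil (.cons 16388 (.cons 16390
  .nil .nil) .nil)))]), (32768, 15, [(32768, 0, .nil), (32768, 1, (.cons 32776 .nil .nil)),
  (32768, 2, (.cons 32772 .nil .nil)), (32768, 3, (.cons 32772 .nil (.cons 32776 (.cons 32780
  .nil .nil) .nil)))]), (65536, 15, [(65536, 0, .nil), (65536, 1, (.cons 65544 .nil .nil)),
  (65536, 2, (.cons 65552 .nil .nil)), (65536, 3, (.cons 65544 .nil (.cons 65552 (.cons 65560
  .nil .nil) .nil)))]), (131072, 15, [(131072, 0, .nil), (131072, 1, (.cons 131120 .nil .nil)),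
  (131072, 2, (.cons 131088 .nil (.cons 131104 (.cons 131120 .nil .nil) .nil))), (131072, 3,
  (.cons 131088 .nil (.cons 131104 (.cons 131120 .nil .nil) .nil)))]), (262144, 15, [(262144,
  0, .nil), (262144, 1, (.cons 262145 .nil .nil)), (262144, 2, (.cons 262176 .nil .nil)),
  (262144, 3, (.cons 262145 .nil (.cons 262176 (.cons 262177 .nil .nil) .nil)))]), (524288, 3,
  [(524288, 0, .nil), (524288, 1, (.cons 524289 .nil .nil))]), (524288, 12, [(524288, 2, .nil),
  (524288, 3, (.cons 524289 .nil .nil))]), (1048576, 5, [(1048576, 0, .nil), (1048576, 2,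
  (.cons 1048578 .nil .nil))]), (1048576, 10, [(1048576, 1, .nil), (1048576, 3, (.cons 1048578
  .nil .nil))]), (2097152, 9, [(2097152, 0, .nil), (2097152, 3, (.cons 2097156 .nil .nil))]),
  (2097152, 6, [(2097152, 1, .nil), (2097152, 2, (.cons 2097156 .nil .nil))]), (4194304, 3,
  [(4194304, 0, .nil), (4194304, 1, (.cons 4194312 .nil .nil))]), (4194304, 12, [(4194304, 2,
  .nil), (4194304, 3, (.cons 4194312 .nil .nil))]), (8388608, 5, [(8388608, 0, .nil), (8388608,
  2, (.cons 8388624 .nil .nil))]), (8388608, 10, [(8388608, 1, .nil), (8388608, 3, (.cons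
  8388624 .nil .nil))]), (16777216, 9, [(16777216, 0, .nil), (16777216, 3, (.cons 16777248 .nil
  .nil))]), (16777216, 6, [(16777216, 1, .nil), (16777216, 2, (.cons 16777248 .nil .nil))]),
  (532480, 3, [(532480, 0, .nil), (532480, 1, (.cons 532481 .nil .nil))]), (532480, 12,
  [(532480, 2, .nil), (532480, 3, (.cons 532481 .nil .nil))]), (1056768, 5, [(1056768, 0,
  .nil), (1056768, 2, (.cons 1056770 .nil .nil))]), (1056768, 10, [(1056768, 1, .nil),
  (1056768, 3, (.cons 1056770 .nil .nil))]), (1064960, 5, [(1064960, 0, .nil), (1064960, 2,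
  (.cons 1064962 .nil .nil))]), (1064960, 10, [(1064960, 1, .nil), (1064960, 3, (.cons 1064962
  .nil .nil))]), (2113536, 9, [(2113536, 0, .nil), (2113536, 3, (.cons 2113540 .nil .nil))]),
  (2113536, 6, [(2113536, 1, .nil), (2113536, 2, (.cons 2113540 .nil .nil))]), (2129920, 9,
  [(2129920, 0, .nil), (2129920, 3, (.cons 2129924 .nil .nil))]), (2129920, 6, [(2129920, 1,
  .nil), (2129920, 2, (.cons 2129924 .nil .nil))]), (4227072, 3, [(4227072, 0, .nil), (4227072,
  1, (.cons 4227080 .nil .nil))]), (4227072, 12, [(4227072, 2, .nil), (4227072, 3, (.cons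
  4227080 .nil .nil))]), (4259840, 3, [(4259840, 0, .nil), (4259840, 1, (.cons 4259848 .nil
  .nil))]), (4259840, 12, [(4259840, 2, .nil), (4259840, 3, (.cons 4259848 .nil .nil))]),
  (8454144, 5, [(8454144, 0, .nil), (8454144, 2, (.cons 8454160 .nil .nil))]), (8454144, 10,
  [(8454144, 1, .nil), (8454144, 3, (.cons 8454160 .nil .nil))]), (8519680, 5, [(8519680, 0,
  .nil), (8519680, 2, (.cons 8519696 .nil .nil))]), (8519680, 10, [(8519680, 1, .nil),
  (8519680, 3, (.cons 8519696 .nil .nil))]), (16908288, 9, [(16908288, 0, .nil), (16908288, 3,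
  (.cons 16908320 .nil .nil))]), (16908288, 6, [(16908288, 1, .nil), (16908288, 2, (.cons
  16908320 .nil .nil))]), (786432, 3, [(786432, 0, .nil), (786432, 1, (.cons 786433 .nil
  .nil))]), (786432, 12, [(786432, 2, .nil), (786432, 3, (.cons 786433 .nil .nil))]),
  (17039360, 9, [(17039360, 0, .nil), (17039360, 3, (.cons 17039392 .nil .nil))]), (17039360,
  6, [(17039360, 1, .nil), (17039360, 2, (.cons 17039392 .nil .nil))])]


def cK (k : Bool) : List (ℕ × ℕ × Ct) := if k then cK1 else cK0
def tb (k : Bool) : List (ℕ × ℕ × List (ℕ × ℕ × Ct)) := if k then tb1 else tb0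

theorem cK_ok : ∀ k : Bool, gck k (cK k) [] = true := by decide

theorem cK_all : ∀ k : Bool, ∀ a : Fin 4, (0, a.val) ∈ rv (cK k) [] := by decide

/-- an entry of the table is correct -/
def entOk (k : Bool) (e : ℕ × ℕ × List (ℕ × ℕ × Ct)) : Bool :=
  gck k e.2.2 [] && (rv e.2.2 []).all (fun x => x.1 == e.1 && (e.2.1).testBit x.2) &&
    [0, 1, 2, 3].all (fun a => !(e.2.1).testBit a || (rv e.2.2 []).contains (e.1, a))

theorem tb_ok : ∀ k : Bool, ((tb k).all (entOk k)) = true := by decide

/-- the cells over a face, for the copies in a given set -/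
theorem ae_ent (k : Bool) {T c : ℕ} (h : ∃ e ∈ tb k, e.1 = T ∧ e.2.1 = c) :
    AE {x : Dev C (GK k) | ∃ a : Asub, ∃ p : C.P, c.testBit a.1.1 = true ∧ toF T ⊆ C.sup p ∧
      x = Dev.mk (G := GK k) a p} := by
  obtain ⟨e, he, rfl, rfl⟩ := h
  have h1 := List.all_eq_true.1 (tb_ok k) e he
  unfold entOk at h1
  rw [Bool.and_eq_true, Bool.and_eq_true, List.all_eq_true, List.all_eq_true] at h1
  obtain ⟨⟨h2, h3⟩, h4⟩ := h1
  have h5 := gck_sound C k e.2.2 [] h2 (by intro e he; exact absurd he (List.not_mem_nil)) (Or.inl rfl)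
  have h6 : {x : Dev C (GK k) | ∃ a : Asub, ∃ p : C.P, (e.2.1).testBit a.1.1 = true ∧
      toF e.1 ⊆ C.sup p ∧ x = Dev.mk (G := GK k) a p} = W C k (rv e.2.2 []) := by
    ext x
    constructor
    · rintro ⟨a, p, ha, hp, rfl⟩
      have ha4 : a.1.1 < 4 := a.2
      have hmem : a.1.1 ∈ [0, 1, 2, 3] := by
        simp only [List.mem_cons, List.mem_nil_iff, or_false]
        omega
      have h7 := h4 _ hmem
      rw [Bool.or_eq_true, ha, List.contains_iff_mem] at h7
      rcases h7 with h7 | h7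
      · exact absurd h7 (by decide)
      · refine ⟨_, h7, p, hp, ?_⟩
        simp only
        rw [as_self]
    · rintro ⟨x', hx', p, hp, rfl⟩
      have h7 := h3 x' hx'
      rw [Bool.and_eq_true, beq_iff_eq] at h7
      have h8 : x'.2 < 4 ∨ ¬ x'.2 < 4 := em _
      refine ⟨as x'.2, p, ?_, ?_, rfl⟩
      · rcases h8 with h8 | h8
        · rw [as_val h8]; exact h7.2
        · exfalso
          have key : ∀ (l : List (ℕ × ℕ × Ct)) (prev : List (ℕ × ℕ)), gck k l prev = true →
              (∀ e ∈ prev, e.2 < 4) → ∀ e ∈ rv l prev, e.2 < 4 := by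
            intro l
            induction l with
            | nil => intro prev _ h e he; exact h e he
            | cons y r ih =>
              obtain ⟨T, a, s⟩ := y
              intro prev hg h0 e he
              unfold gck at hg
              rw [Bool.and_eq_true, Bool.and_eq_true, Bool.and_eq_true, decide_eq_true_eq] at hg
              unfold rv at he
              refine ih _ hg.2 ?_ e he
              intro e' he'
              rcases List.mem_cons.1 he' with he' | he'
              · rw [he']; exact hg.1.1.2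
              · exact h0 e' he'
          exact h8 (key _ _ h2 (by intro e he; exact absurd he (List.not_mem_nil)) x' hx')
      · rw [← h7.1]; exact hp
  rw [h6]
  exact h5

/-! ### unions of families -/

theorem ae_biUnion {Y ι : Type} [TopologicalSpace Y] [DecidableEq ι] (Q : Finset ι)
    (hQ : Q.Nonempty) : ∀ (A : ι → Set Y), (∀ i, IsClosed (A i)) →
    (∀ Q' ⊆ Q, Q'.Nonempty → AE (⋂ i ∈ Q', A i)) → AE (⋃ i ∈ Q, A i) := by
  induction Q using Finset.induction_on with
  | empty => exact absurd hQ Finset.not_nonempty_empty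
  | insert a Q ha ih =>
    intro A hA h
    rcases Q.eq_empty_or_nonempty with rfl | hne
    · have := h {a} (by simp) (Finset.singleton_nonempty a)
      simpa using this
    · rw [Finset.set_biUnion_insert]
      apply AE.union (hA a) ((Finset.finite_toSet Q).isClosed_biUnion fun i _ => hA i)
      · have := h {a} (by simp) (Finset.singleton_nonempty a)
        simpa using this
      · exact ih hne A hA fun Q' hQ' hn => h Q' (hQ'.trans (Finset.subset_insert a Q)) hn
      · rw [Set.inter_iUnion₂]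
        apply ih hne (fun i => A a ∩ A i) (fun i => (hA a).inter (hA i))
        intro Q' hQ' hn
        have h1 := h (insert a Q') (Finset.insert_subset_insert a hQ') (Finset.insert_nonempty _ _)
        have h2 : (⋂ i ∈ Q', A a ∩ A i) = ⋂ i ∈ insert a Q', A i := by
          rw [Finset.set_biInter_insert]
          ext x
          simp only [Set.mem_iInter, Set.mem_inter_iff]
          constructor
          · intro hx
            obtain ⟨i, hi⟩ := hn
            exact ⟨(hx i hi).1, fun j hj => (hx j hj).2⟩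
          · intro hx i hi
            exact ⟨hx.1, hx.2 i hi⟩
        rw [h2]
        exact h1

/-! ### mirrors -/

theorem mc_inv : ∀ k : Bool, ∀ m : Mir, ∀ s : Fin 13,
    adj (mf m) ⟨s.val, lt_trans s.2 (by norm_num)⟩ → ∀ v : Fin 4,
    ((mc m).testBit (v.val ^^^ (colL k).getD s.val 0) = (mc m).testBit v.val) := by decide

theorem mf_ge : ∀ m : Mir, 13 ≤ (mf m).val := by decide

/-- mirrors are invariant under the gluing of the copies along the inner facets adjacent to them -/
theorem mAt_inv (k : Bool) (m : Mir) (T : Finset S) (hT : Clique T) (hm : mf m ∈ T) (a b : Asub)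
    (h : (GK k).r T a b) : mAt m a → mAt m b := by
  classical
  have h' : (a : V) - (b : V) ∈ spn k (innF T) := h
  obtain ⟨T', hT', hsum⟩ := mem_spn.1 h'
  rw [Finset.mem_powerset] at hT'
  have key : ∀ T'' : Finset S, T'' ⊆ innF T → ∀ v : V, v.1 < 4 →
      ((v + ∑ s ∈ T'', col k s).1 < 4 ∧
        (mc m).testBit (v + ∑ s ∈ T'', col k s).1 = (mc m).testBit v.1) := by
    intro T''
    induction T'' using Finset.induction_on with
    | empty => intro _ v hv; rw [Finset.sum_empty, add_zero]; exact ⟨hv, rfl⟩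
    | insert s R hs ih =>
      intro hR v hv
      have hsT := Finset.mem_filter.1 (hR (Finset.mem_insert_self s R))
      have hs13 : s.val < 13 := hsT.2
      have hadj : adj (mf m) s := by
        apply hT _ hm _ hsT.1
        intro h0
        have := mf_ge m
        rw [h0] at this
        omega
      have hc := col_lt k ⟨s.val, hs13⟩
      simp only at hc
      have e1 : v + col k s = V.of (v.1 ^^^ (colL k).getD s.val 0) := by
        have h3 := V_add_of v ⟨(colL k).getD s.val 0, by omega⟩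
        simp only at h3
        rw [h3, V_of_self]
        rfl
      have hx : v.1 ^^^ (colL k).getD s.val 0 < 4 := Nat.xor_lt_two_pow (n := 2) hv hc
      have e2 : (v + col k s).1 = v.1 ^^^ (colL k).getD s.val 0 := by
        rw [e1]
        show (v.1 ^^^ (colL k).getD s.val 0) % 16 = _
        omega
      have e3 := ih ((Finset.subset_insert s R).trans hR) (v + col k s) (by rw [e2]; exact hx)
      rw [Finset.sum_insert hs, ← add_assoc]
      refine ⟨e3.1, e3.2.trans ?_⟩
      rw [e2]
      exact mc_inv k m ⟨s.val, hs13⟩ hadj ⟨v.1, hv⟩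
  intro hma
  have h1 := key T' hT' b.1 b.2
  rw [hsum] at h1
  have h2 : (b : V) + ((a : V) - (b : V)) = a := by abel
  rw [h2] at h1
  show (mc m).testBit b.1.1 = true
  rw [← h1.2]
  exact hma

/-- the intersection of mirrors -/
theorem inter_mirrors (k : Bool) (Q : Finset Mir) (_hn : Q.Nonempty) :
    (⋂ m ∈ Q, KC C k {m}) = {x : Dev C (GK k) | ∃ a : Asub, ∃ p : C.P, (∀ m ∈ Q, mAt m a) ∧
      (∀ m ∈ Q, mf m ∈ C.sup p) ∧ x = Dev.mk (G := GK k) a p} := by
  ext x
  simp only [Set.mem_iInter]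
  constructor
  · intro h
    obtain ⟨a, p, rfl⟩ := Dev.exists_rep x
    refine ⟨a, p, ?_, ?_, rfl⟩
    · intro m hm
      obtain ⟨m', hm', b, q, h1, h2, h3⟩ := h m hm
      have hmm : m' = m := hm'
      subst hmm
      obtain ⟨rfl, hr⟩ := Dev.mk_eq.1 h3
      exact mAt_inv k m' _ (C.clique_sup p) h2 b a ((GK k).symm hr) h1
    · intro m hm
      obtain ⟨m', hm', b, q, h1, h2, h3⟩ := h m hm
      have hmm : m' = m := hm'
      subst hmm
      obtain ⟨rfl, hr⟩ := Dev.mk_eq.1 h3
      exact h2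
  · rintro ⟨a, p, h1, h2, rfl⟩ m hm
    exact ⟨m, rfl, a, p, h1 m hm, h2 m hm, rfl⟩

theorem mc_single : ∀ m : Mir, 25 ≤ (mf m).val → ∃ a0 : Fin 4, mc m = 2 ^ a0.val := by decide

theorem no_triple : ∀ f g h : S, 13 ≤ f.val → f.val < 25 → 13 ≤ g.val → g.val < 25 → adj f g →
    13 ≤ h.val → h.val < 25 → adj f h → ¬ adj g h := by decide

theorem tb_single : ∀ k : Bool, ∀ m : Mir, (mf m).val < 25 →
    ∃ e ∈ tb k, e.1 = 2 ^ (mf m).val ∧ e.2.1 = mc m := by decide

theorem tb_pair : ∀ k : Bool, ∀ m n : Mir, (mf m).val < 25 → (mf n).val < 25 → madj m n →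
    ∃ e ∈ tb k, e.1 = 2 ^ (mf m).val ||| 2 ^ (mf n).val ∧ e.2.1 = mc m &&& mc n := by decide

theorem toF_two_pow (s : S) : toF (2 ^ s.val) = {s} := by
  ext t
  rw [mem_toF, Nat.testBit_two_pow, Finset.mem_singleton]
  constructor
  · intro h
    have : s.val = t.val := by simpa using h
    exact (Fin.ext this).symm
  · intro h; simp [h]

theorem ae_inter (k : Bool) (Q : Finset Mir) (hn : Q.Nonempty)
    (hQ : ∀ m ∈ Q, ∀ n ∈ Q, m ≠ n → madj m n) :
    AE {x : Dev C (GK k) | ∃ a : Asub, ∃ p : C.P, (∀ m ∈ Q, mAt m a) ∧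
      (∀ m ∈ Q, mf m ∈ C.sup p) ∧ x = Dev.mk (G := GK k) a p} := by
  classical
  by_cases hbig : ∃ m0 ∈ Q, 25 ≤ (mf m0).val
  · obtain ⟨m0, hm0, h25⟩ := hbig
    obtain ⟨a0, ha0⟩ := mc_single m0 h25
    have hmAt0 : ∀ a : Asub, mAt m0 a ↔ a = as a0.val := by
      intro a
      show (mc m0).testBit a.1.1 = true ↔ _
      rw [ha0, Nat.testBit_two_pow]
      constructor
      · intro h
        have h1 : a0.val = a.1.1 := by simpa using h
        rw [h1, as_self]
      · intro h
        rw [h, as_val a0.2]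
        simp
    have hall : ∀ m ∈ Q, mAt m (as a0.val) := by
      intro m hm
      by_cases hmm : m = m0
      · rw [hmm, hmAt0]
      · have h1 := (hQ m0 hm0 m hm (Ne.symm hmm)).2
        show (mc m).testBit (as a0.val).1.1 = true
        rw [as_val a0.2]
        rw [ha0, Nat.and_comm, Ne, and_two_pow_zero] at h1
        simpa using h1
    have hcl : Clique (Q.image mf) := by
      intro s hs t ht hst
      obtain ⟨m, hm, rfl⟩ := Finset.mem_image.1 hs
      obtain ⟨n, hn', rfl⟩ := Finset.mem_image.1 ht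
      exact (hQ m hm n hn' (fun h => hst (by rw [h]))).1
    have h1 := (ae_face C hcl).image (Dev.mk (G := GK k) (as a0.val)) Dev.pr (Dev.continuous_mk _)
      Dev.continuous_pr (fun _ => rfl)
    have h2 : {x : Dev C (GK k) | ∃ a : Asub, ∃ p : C.P, (∀ m ∈ Q, mAt m a) ∧
        (∀ m ∈ Q, mf m ∈ C.sup p) ∧ x = Dev.mk (G := GK k) a p} =
        (Dev.mk (G := GK k) (as a0.val)) '' C.face' (Q.image mf) := by
      ext x
      constructor
      · rintro ⟨a, p, ha, hp, rfl⟩
        have h3 := (hmAt0 a).1 (ha m0 hm0)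
        refine ⟨p, ?_, by rw [h3]⟩
        intro s hs
        obtain ⟨m, hm, rfl⟩ := Finset.mem_image.1 hs
        exact hp m hm
      · rintro ⟨p, hp, rfl⟩
        exact ⟨as a0.val, p, hall, fun m hm => hp (Finset.mem_image_of_mem mf hm), rfl⟩
    rw [h2]
    exact h1
  · push Not at hbig
    obtain ⟨m1, hm1⟩ := hn
    by_cases hone : ∀ m ∈ Q, m = m1
    · have h1 := ae_ent C k (tb_single k m1 (hbig m1 hm1))
      have h2 : {x : Dev C (GK k) | ∃ a : Asub, ∃ p : C.P, (∀ m ∈ Q, mAt m a) ∧
          (∀ m ∈ Q, mf m ∈ C.sup p) ∧ x = Dev.mk (G := GK k) a p} =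
          {x : Dev C (GK k) | ∃ a : Asub, ∃ p : C.P, (mc m1).testBit a.1.1 = true ∧
            toF (2 ^ (mf m1).val) ⊆ C.sup p ∧ x = Dev.mk (G := GK k) a p} := by
        ext x
        constructor
        · rintro ⟨a, p, ha, hp, rfl⟩
          refine ⟨a, p, ha m1 hm1, ?_, rfl⟩
          rw [toF_two_pow, Finset.singleton_subset_iff]
          exact hp m1 hm1
        · rintro ⟨a, p, ha, hp, rfl⟩
          rw [toF_two_pow, Finset.singleton_subset_iff] at hp
          exact ⟨a, p, fun m hm => by rw [hone m hm]; exact ha, fun m hm => by rw [hone m hm]; exact hp,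
            rfl⟩
      rw [h2]
      exact h1
    · push Not at hone
      obtain ⟨m2, hm2, hm21⟩ := hone
      have hadj := hQ m1 hm1 m2 hm2 (Ne.symm hm21)
      have htwo : ∀ m ∈ Q, m = m1 ∨ m = m2 := by
        intro m hm
        by_contra hc
        push Not at hc
        have e1 := hQ m1 hm1 m hm (Ne.symm hc.1)
        have e2 := hQ m2 hm2 m hm (Ne.symm hc.2)
        exact no_triple (mf m1) (mf m2) (mf m) (mf_ge m1) (hbig m1 hm1) (mf_ge m2) (hbig m2 hm2)
          hadj.1 (mf_ge m) (hbig m hm) e1.1 e2.1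
      have h1 := ae_ent C k (tb_pair k m1 m2 (hbig m1 hm1) (hbig m2 hm2) hadj)
      have h2 : {x : Dev C (GK k) | ∃ a : Asub, ∃ p : C.P, (∀ m ∈ Q, mAt m a) ∧
          (∀ m ∈ Q, mf m ∈ C.sup p) ∧ x = Dev.mk (G := GK k) a p} =
          {x : Dev C (GK k) | ∃ a : Asub, ∃ p : C.P, (mc m1 &&& mc m2).testBit a.1.1 = true ∧
            toF (2 ^ (mf m1).val ||| 2 ^ (mf m2).val) ⊆ C.sup p ∧
            x = Dev.mk (G := GK k) a p} := by
        ext x
        constructor
        · rintro ⟨a, p, ha, hp, rfl⟩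
          refine ⟨a, p, ?_, ?_, rfl⟩
          · rw [Nat.testBit_and, Bool.and_eq_true]
            exact ⟨ha m1 hm1, ha m2 hm2⟩
          · rw [toF_or, toF_two_pow, toF_two_pow]
            exact Finset.union_subset (Finset.singleton_subset_iff.2 (hp m1 hm1))
              (Finset.singleton_subset_iff.2 (hp m2 hm2))
        · rintro ⟨a, p, ha, hp, rfl⟩
          rw [Nat.testBit_and, Bool.and_eq_true] at ha
          rw [toF_or, toF_two_pow, toF_two_pow] at hp
          have p1 := Finset.singleton_subset_iff.1 (Finset.union_subset_left hp)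
          have p2 := Finset.singleton_subset_iff.1 (Finset.union_subset_right hp)
          refine ⟨a, p, ?_, ?_, rfl⟩
          · intro m hm
            rcases htwo m hm with h | h
            · rw [h]; exact ha.1
            · rw [h]; exact ha.2
          · intro m hm
            rcases htwo m hm with h | h
            · rw [h]; exact p1
            · rw [h]; exact p2
      rw [h2]
      exact h1

theorem KC_union (k : Bool) (Q : Finset Mir) :
    KC C k (Q : Set Mir) = ⋃ m ∈ Q, KC C k {m} := by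
  ext x
  simp only [Set.mem_iUnion]
  constructor
  · rintro ⟨m, hm, a, p, h⟩
    exact ⟨m, hm, m, rfl, a, p, h⟩
  · rintro ⟨m, hm, m', hm', a, p, h⟩
    have : m' = m := hm'
    subst this
    exact ⟨m', hm, a, p, h⟩

theorem isClosed_KC1 (k : Bool) (m : Mir) : IsClosed (KC C k {m}) := by
  have : KC C k {m} = ⋃ a ∈ {a : Asub | mAt m a}, (Dev.mk (G := GK k) a) '' C.face' {mf m} := by
    ext x
    simp only [Set.mem_iUnion]
    constructor
    · rintro ⟨m', hm', a, p, h1, h2, rfl⟩
      have : m' = m := hm'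
      subst this
      exact ⟨a, h1, p, Finset.singleton_subset_iff.2 h2, rfl⟩
    · rintro ⟨a, h1, p, h2, rfl⟩
      exact ⟨m, rfl, a, p, h1, Finset.singleton_subset_iff.1 h2, rfl⟩
  rw [this]
  exact (Set.toFinite _).isClosed_biUnion fun a _ =>
    Dev.isClosed_image_mk (G := GK k) a (C.isClosed_face' _)

end Cells

open Cells in
/-- the piece K is an absolute extensor -/
theorem AE_K (C : Chamber) (k : Bool) : AE (Set.univ : Set (Dev C (GK k))) := by
  have h := gck_sound C k (cK k) [] (cK_ok k) (by intro e he; exact absurd he (List.not_mem_nil))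
    (Or.inl rfl)
  have h1 : W C k (rv (cK k) []) = Set.univ := by
    rw [Set.eq_univ_iff_forall]
    intro x
    obtain ⟨a, p, rfl⟩ := Dev.exists_rep x
    have ha : a.1.1 < 4 := a.2
    refine ⟨(0, a.1.1), cK_all k ⟨a.1.1, ha⟩, p, ?_, ?_⟩
    · show toF 0 ⊆ C.sup p
      rw [toF_zero]
      exact Finset.empty_subset _
    · exact congrArg (fun b : Asub => (Dev.mk (G := GK k) b p : Dev C (GK k))) (as_self a)
  rw [h1] at h
  exact h

open Cells in
/-- unions of mirrors over a nonempty clique of mirrors are absolute extensors -/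
theorem AE_KC (C : Chamber) (k : Bool) (Q : Finset Mir) (hn : Q.Nonempty)
    (hQ : ∀ m ∈ Q, ∀ n ∈ Q, m ≠ n → madj m n) : AE (KC C k Q) := by
  rw [KC_union]
  apply ae_biUnion Q hn _ (isClosed_KC1 C k)
  intro Q' hQ' hn'
  rw [inter_mirrors C k Q' hn']
  exact ae_inter C k Q' hn' fun m hm n hn'' hmn => hQ m (hQ' hm) n (hQ' hn'') hmn

open Cells in
theorem isClosed_KC (C : Chamber) (k : Bool) (Q : Finset Mir) : IsClosed (KC C k Q) := by
  rw [KC_union]
  exact (Finset.finite_toSet Q).isClosed_biUnion fun m _ => isClosed_KC1 C k m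

end H30
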