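import Pool.Agent.Helper30_Alex.Hyp1

/-!
# Hyperbolic 3-space: coordinates, four point comparison, Hausdorff dimension (PART 3)
-/

set_option autoImplicit false

namespace H30

/-- the Lorentz form as a bilinear map -/
noncomputable def hyp2_B : L →ₗ[ℝ] L →ₗ[ℝ] ℝ :=
  LinearMap.mk₂ ℝ Bf
    (fun x y z => by simp only [Bf, Prod.snd_add, Prod.fst_add, inner_add_left]; ring)
    (fun c x z => by
      simp only [Bf, Prod.smul_snd, Prod.smul_fst, smul_eq_mul, real_inner_smul_left]; ring)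
    (fun x y z => by simp only [Bf, Prod.snd_add, Prod.fst_add, inner_add_right]; ring)
    (fun c x z => by
      simp only [Bf, Prod.smul_snd, Prod.smul_fst, smul_eq_mul, real_inner_smul_right]; ring)

theorem hyp2_B_apply (x y : L) : hyp2_B x y = Bf x y := rfl

/-- the coordinates of a vector in a frame -/
noncomputable def hyp2_c {p : H3} (F : Frame p) (x : L) : EuclideanSpace ℝ (Fin 3) :=
  WithLp.toLp 2 (fun i => Bf x (F.e i))

theorem hyp2_c_apply {p : H3} (F : Frame p) (x : L) (i : Fin 3) : hyp2_c F x i = Bf x (F.e i) := rfl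

theorem hyp2_inner {p : H3} (F : Frame p) (x y : L) :
    inner ℝ (hyp2_c F x) (hyp2_c F y) = Bf x y + Bf x p.v * Bf y p.v := by
  have h1 : inner ℝ (hyp2_c F x) (hyp2_c F y) = ∑ i, Bf x (F.e i) * Bf y (F.e i) := by
    rw [PiLp.inner_apply]
    refine Finset.sum_congr rfl fun i _ => ?_
    rw [hyp2_c_apply, hyp2_c_apply]
    exact mul_comm _ _
  have h2 : Bf x y = -(Bf y p.v) * Bf x p.v + ∑ i, Bf y (F.e i) * Bf x (F.e i) := by
    conv_lhs => rw [F.expand y]
    rw [← hyp2_B_apply, map_add, map_smul, map_sum, smul_eq_mul, hyp2_B_apply]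
    congr 1
    refine Finset.sum_congr rfl fun i _ => ?_
    rw [map_smul, smul_eq_mul, hyp2_B_apply]
  rw [h1, h2]
  have h3 : ∑ i, Bf x (F.e i) * Bf y (F.e i) = ∑ i, Bf y (F.e i) * Bf x (F.e i) :=
    Finset.sum_congr rfl fun i _ => mul_comm _ _
  rw [h3]; ring

theorem hyp2_inner_H3 {p : H3} (F : Frame p) (x y : H3) :
    inner ℝ (hyp2_c F x.v) (hyp2_c F y.v) =
      Real.cosh (dist p x) * Real.cosh (dist p y) - Real.cosh (dist x y) := by
  rw [hyp2_inner, dist_comm p x, dist_comm p y, H3.cosh_dist, H3.cosh_dist, H3.cosh_dist]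
  ring

theorem hyp2_norm_H3 {p : H3} (F : Frame p) (x : H3) :
    ‖hyp2_c F x.v‖ = Real.sinh (dist p x) := by
  have h1 : ‖hyp2_c F x.v‖ ^ 2 = Real.sinh (dist p x) ^ 2 := by
    rw [← real_inner_self_eq_norm_sq, hyp2_inner_H3, dist_self, Real.cosh_zero, Real.sinh_sq]
    ring
  have h2 : 0 ≤ Real.sinh (dist p x) := Real.sinh_nonneg_iff.2 dist_nonneg
  exact (pow_left_inj₀ (norm_nonneg _) h2 two_ne_zero).1 h1

theorem hyp2_exists_frame (p : H3) : Nonempty (Frame p) := by
  obtain ⟨F, _⟩ := Frame.exists_ext p ∅ (fun _ => 0) (fun i hi => absurd hi (Finset.notMem_empty i))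
    (fun i hi => absurd hi (Finset.notMem_empty i)) (fun i hi => absurd hi (Finset.notMem_empty i))
  exact ⟨F⟩

theorem hyp2_compAngle {p : H3} (F : Frame p) (x y : H3) :
    compAngle 1 (dist p x) (dist p y) (dist x y) =
      InnerProductGeometry.angle (hyp2_c F x.v) (hyp2_c F y.v) := by
  unfold compAngle InnerProductGeometry.angle
  rw [hyp2_inner_H3, hyp2_norm_H3, hyp2_norm_H3, one_mul, one_mul, one_mul]

theorem hyp2_angle_sum (u v w : EuclideanSpace ℝ (Fin 3)) :
    InnerProductGeometry.angle u v + InnerProductGeometry.angle v w +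
      InnerProductGeometry.angle w u ≤ 2 * Real.pi := by
  have h1 := InnerProductGeometry.angle_le_angle_add_angle w (-v) u
  rw [InnerProductGeometry.angle_neg_right, InnerProductGeometry.angle_neg_left,
    InnerProductGeometry.angle_comm w v, InnerProductGeometry.angle_comm v u] at h1
  linarith

theorem H3.curvGE : CurvGE 1 H3 := by
  intro p x y z _ _ _
  obtain ⟨F⟩ := hyp2_exists_frame p
  rw [hyp2_compAngle F x y, hyp2_compAngle F y z, hyp2_compAngle F z x]
  exact hyp2_angle_sum _ _ _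

/-- the point with the given coordinates, as a vector -/
noncomputable def hyp2_pt {p : H3} (F : Frame p) (c : EuclideanSpace ℝ (Fin 3)) : L :=
  Real.sqrt (1 + ‖c‖ ^ 2) • p.v + ∑ i, c i • F.e i

theorem hyp2_pt_p {p : H3} (F : Frame p) (c : EuclideanSpace ℝ (Fin 3)) :
    Bf (hyp2_pt F c) p.v = -Real.sqrt (1 + ‖c‖ ^ 2) := by
  unfold hyp2_pt
  rw [← hyp2_B_apply, map_add, map_smul, map_sum, LinearMap.add_apply, LinearMap.smul_apply,
    LinearMap.sum_apply, hyp2_B_apply, p.norm_eq, smul_eq_mul]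
  have : ∑ i, (hyp2_B (c i • F.e i)) p.v = 0 := by
    refine Finset.sum_eq_zero fun i _ => ?_
    rw [map_smul, LinearMap.smul_apply, hyp2_B_apply, F.tang, smul_zero]
  rw [this]; ring

theorem hyp2_pt_e {p : H3} (F : Frame p) (c : EuclideanSpace ℝ (Fin 3)) (j : Fin 3) :
    Bf (hyp2_pt F c) (F.e j) = c j := by
  unfold hyp2_pt
  rw [← hyp2_B_apply, map_add, map_smul, map_sum, LinearMap.add_apply, LinearMap.smul_apply,
    LinearMap.sum_apply, hyp2_B_apply, Bf_comm p.v, F.tang, smul_zero, zero_add]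
  rw [Finset.sum_eq_single j]
  · rw [map_smul, LinearMap.smul_apply, hyp2_B_apply, F.unit, smul_eq_mul, mul_one]
  · intro i _ hij
    rw [map_smul, LinearMap.smul_apply, hyp2_B_apply, F.orth i j hij, smul_zero]
  · intro h; exact absurd (Finset.mem_univ j) h

theorem hyp2_c_pt {p : H3} (F : Frame p) (c : EuclideanSpace ℝ (Fin 3)) :
    hyp2_c F (hyp2_pt F c) = c := by
  ext i
  rw [hyp2_c_apply, hyp2_pt_e]

theorem hyp2_pt_norm {p : H3} (F : Frame p) (c : EuclideanSpace ℝ (Fin 3)) :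
    Bf (hyp2_pt F c) (hyp2_pt F c) = -1 := by
  have h1 := hyp2_inner F (hyp2_pt F c) (hyp2_pt F c)
  rw [hyp2_c_pt, real_inner_self_eq_norm_sq, hyp2_pt_p] at h1
  have h2 : Real.sqrt (1 + ‖c‖ ^ 2) * Real.sqrt (1 + ‖c‖ ^ 2) = 1 + ‖c‖ ^ 2 :=
    Real.mul_self_sqrt (by positivity)
  linarith

theorem hyp2_pt_pos {p : H3} (F : Frame p) (c : EuclideanSpace ℝ (Fin 3)) :
    0 < (hyp2_pt F c).1 := by
  have hn := hyp2_pt_norm F c
  have hp := hyp2_pt_p F c
  set x := hyp2_pt F c with hx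
  by_contra hneg
  have h1 : x.1 ≠ 0 := by
    intro h
    have h2 : 0 ≤ inner ℝ x.2 x.2 := real_inner_self_nonneg
    have h3 : inner ℝ x.2 x.2 - x.1 * x.1 = -1 := hn
    rw [h] at h3
    linarith
  have h2 : x.1 < 0 := lt_of_le_of_ne (not_lt.1 hneg) h1
  have h3 : Bf (-x) (-x) = -1 := by
    rw [← hn]; simp only [Bf, Prod.snd_neg, Prod.fst_neg, inner_neg_neg]; ring
  have h4 : 0 < (-x).1 := by rw [Prod.fst_neg]; linarith
  have h5 := H3.one_le ⟨-x, h3, h4⟩ p
  have h6 : Bf (-x) p.v = - Bf x p.v := by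
    simp only [Bf, Prod.snd_neg, Prod.fst_neg, inner_neg_left]; ring
  rw [h6, hp] at h5
  have h7 := Real.sqrt_nonneg (1 + ‖c‖ ^ 2)
  linarith

/-- the point with the given coordinates -/
noncomputable def hyp2_inv {p : H3} (F : Frame p) (c : EuclideanSpace ℝ (Fin 3)) : H3 :=
  ⟨hyp2_pt F c, hyp2_pt_norm F c, hyp2_pt_pos F c⟩

theorem hyp2_left {p : H3} (F : Frame p) (x : H3) : hyp2_inv F (hyp2_c F x.v) = x := by
  apply H3.ext'
  show hyp2_pt F (hyp2_c F x.v) = x.v
  conv_rhs => rw [F.expand x.v]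
  unfold hyp2_pt
  have h1 : Real.sqrt (1 + ‖hyp2_c F x.v‖ ^ 2) = -Bf x.v p.v := by
    have h2 : 1 + ‖hyp2_c F x.v‖ ^ 2 = (-Bf x.v p.v) ^ 2 := by
      rw [← real_inner_self_eq_norm_sq, hyp2_inner, x.norm_eq]; ring
    rw [h2]
    exact Real.sqrt_sq (zero_le_one.trans (H3.one_le x p))
  rw [h1]
  rfl

theorem hyp2_continuous_c {p : H3} (F : Frame p) :
    Continuous (fun x : H3 => hyp2_c F x.v) := by
  have hv : Continuous H3.v := H3.isClosedEmbedding_v.continuous
  have h1 : Continuous (fun x : L => hyp2_c F x) := by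
    unfold hyp2_c Bf
    fun_prop
  exact h1.comp hv

theorem hyp2_continuous_inv {p : H3} (F : Frame p) : Continuous (hyp2_inv F) := by
  rw [H3.isClosedEmbedding_v.isInducing.continuous_iff]
  show Continuous (fun c => hyp2_pt F c)
  unfold hyp2_pt
  fun_prop

/-- the frame coordinates as a homeomorphism -/
noncomputable def hyp2_homeo {p : H3} (F : Frame p) : H3 ≃ₜ EuclideanSpace ℝ (Fin 3) where
  toFun x := hyp2_c F x.v
  invFun c := hyp2_inv F c
  left_inv x := hyp2_left F x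
  right_inv c := hyp2_c_pt F c
  continuous_toFun := hyp2_continuous_c F
  continuous_invFun := hyp2_continuous_inv F

/-- the coordinates of a frame are a homeomorphism of hyperbolic space with R^3 -/
theorem Frame.coord {p : H3} (F : Frame p) :
    ∃ c : H3 ≃ₜ EuclideanSpace ℝ (Fin 3), (∀ x i, c x i = Bf x.v (F.e i)) ∧ c p = 0 ∧
      ∀ x, ‖c x‖ = Real.sinh (dist x p) := by
  refine ⟨hyp2_homeo F, fun x i => rfl, ?_, fun x => ?_⟩
  · ext i
    show Bf p.v (F.e i) = 0
    rw [Bf_comm, F.tang]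
  · rw [dist_comm]; exact hyp2_norm_H3 F x

theorem hyp2_c_sub {p : H3} (F : Frame p) (x y : L) :
    hyp2_c F (x - y) = hyp2_c F x - hyp2_c F y := by
  ext i
  show Bf (x - y) (F.e i) = Bf x (F.e i) - Bf y (F.e i)
  rw [← hyp2_B_apply, map_sub]; rfl

theorem hyp2_sub_sq {p : H3} (F : Frame p) (x y : H3) :
    ‖hyp2_c F x.v - hyp2_c F y.v‖ ^ 2 =
      (2 * Real.sinh (dist x y / 2)) ^ 2 + (Real.cosh (dist x p) - Real.cosh (dist y p)) ^ 2 := by
  rw [← hyp2_c_sub, ← real_inner_self_eq_norm_sq, hyp2_inner]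
  have h1 : Bf (x.v - y.v) (x.v - y.v) = (2 * Real.sinh (dist x y / 2)) ^ 2 := by
    have h2 : Bf (x.v - y.v) (x.v - y.v) = -2 + 2 * Real.cosh (dist x y) := by
      rw [H3.cosh_dist, ← hyp2_B_apply]
      simp only [map_sub, LinearMap.sub_apply, hyp2_B_apply]
      rw [x.norm_eq, y.norm_eq, Bf_comm y.v x.v]; ring
    rw [h2]
    have h3 : Real.cosh (dist x y) = 1 + 2 * Real.sinh (dist x y / 2) ^ 2 := by
      have h4 := Real.cosh_two_mul (dist x y / 2)
      have h5 := Real.cosh_sq (dist x y / 2)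
      rw [h5, show 2 * (dist x y / 2) = dist x y by ring] at h4
      linarith
    rw [h3]; ring
  have h2 : Bf (x.v - y.v) p.v = -(Real.cosh (dist x p) - Real.cosh (dist y p)) := by
    rw [H3.cosh_dist, H3.cosh_dist, ← hyp2_B_apply, map_sub, LinearMap.sub_apply,
      hyp2_B_apply, hyp2_B_apply]
    ring
  rw [h1, h2]; ring

theorem hyp2_dist_le {p : H3} (F : Frame p) (x y : H3) :
    dist x y ≤ ‖hyp2_c F x.v - hyp2_c F y.v‖ := by
  have h1 := hyp2_sub_sq F x y
  have h2 : dist x y / 2 ≤ Real.sinh (dist x y / 2) :=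
    Real.self_le_sinh_iff.2 (by positivity)
  have h0 : 0 ≤ dist x y := dist_nonneg
  have h3 : dist x y ^ 2 ≤ ‖hyp2_c F x.v - hyp2_c F y.v‖ ^ 2 := by
    rw [h1]
    nlinarith [sq_nonneg (Real.cosh (dist x p) - Real.cosh (dist y p))]
  exact (pow_le_pow_iff_left₀ h0 (norm_nonneg _) two_ne_zero).1 h3

theorem hyp2_lipschitz {p : H3} (F : Frame p) : LipschitzWith 1 (hyp2_inv F) := by
  refine LipschitzWith.of_dist_le_mul fun c c' => ?_
  have h := hyp2_dist_le F (hyp2_inv F c) (hyp2_inv F c')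
  have h1 : hyp2_c F (hyp2_inv F c).v = c := hyp2_c_pt F c
  have h2 : hyp2_c F (hyp2_inv F c').v = c' := hyp2_c_pt F c'
  rw [h1, h2] at h
  rw [NNReal.coe_one, one_mul, dist_eq_norm]
  exact h

theorem hyp2_dimH_E3 : dimH (Set.univ : Set (EuclideanSpace ℝ (Fin 3))) = 3 := by
  rw [Real.dimH_univ_eq_finrank, finrank_euclideanSpace, Fintype.card_fin]
  norm_num

theorem H3.dimH_le : dimH (Set.univ : Set H3) ≤ 3 := by
  obtain ⟨F⟩ := hyp2_exists_frame H3.o
  have h1 : Set.range (hyp2_inv F) = Set.univ :=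
    Set.range_eq_univ.2 fun x => ⟨hyp2_c F x.v, hyp2_left F x⟩
  rw [← h1, ← hyp2_dimH_E3]
  exact (hyp2_lipschitz F).dimH_range_le

theorem hyp2_cosh_sub (r a b : ℝ) (ha : a ∈ Set.Icc 0 r) (hb : b ∈ Set.Icc 0 r) :
    |Real.cosh a - Real.cosh b| ≤ Real.sinh r * |a - b| := by
  have h := Convex.norm_image_sub_le_of_norm_deriv_le (f := Real.cosh) (s := Set.Icc 0 r)
    (C := Real.sinh r) (x := b) (y := a) (fun x _ => Real.differentiable_cosh x)
    (fun x hx => by
      rw [Real.deriv_cosh, Real.norm_eq_abs, abs_of_nonneg (Real.sinh_nonneg_iff.2 hx.1)]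
      exact Real.sinh_le_sinh.2 hx.2) (convex_Icc 0 r) hb ha
  exact h

theorem hyp2_sinh_le (r t : ℝ) (ht : t ∈ Set.Icc 0 r) : Real.sinh t ≤ Real.cosh r * t := by
  have h := Convex.norm_image_sub_le_of_norm_deriv_le (f := Real.sinh) (s := Set.Icc 0 r)
    (C := Real.cosh r) (x := 0) (y := t) (fun x _ => Real.differentiable_sinh x)
    (fun x hx => by
      rw [Real.deriv_sinh, Real.norm_eq_abs, abs_of_nonneg (Real.cosh_pos x).le,
        Real.cosh_le_cosh, abs_of_nonneg hx.1, abs_of_nonneg (hx.1.trans hx.2)]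
      exact hx.2) (convex_Icc 0 r) ⟨le_refl 0, ht.1.trans ht.2⟩ ht
  rw [Real.sinh_zero, sub_zero, sub_zero, Real.norm_eq_abs, Real.norm_eq_abs,
    abs_of_nonneg (Real.sinh_nonneg_iff.2 ht.1), abs_of_nonneg ht.1] at h
  exact h

theorem hyp2_le_dist {p : H3} (F : Frame p) (r : ℝ) (x y : H3) (hx : x ∈ Metric.ball p r)
    (hy : y ∈ Metric.ball p r) :
    ‖hyp2_c F x.v - hyp2_c F y.v‖ ≤ Real.exp r * dist x y := by
  have hx' : dist x p < r := hx
  have hy' : dist y p < r := hy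
  have hr : 0 < r := dist_nonneg.trans_lt hx'
  have h1 := hyp2_sub_sq F x y
  have h2 : Real.sinh (dist x y / 2) ≤ Real.cosh r * (dist x y / 2) := by
    apply hyp2_sinh_le
    refine ⟨by positivity, ?_⟩
    have := dist_triangle_right x y p
    linarith
  have h3 : |Real.cosh (dist x p) - Real.cosh (dist y p)| ≤ Real.sinh r * dist x y := by
    refine (hyp2_cosh_sub r _ _ ⟨dist_nonneg, hx'.le⟩ ⟨dist_nonneg, hy'.le⟩).trans ?_
    refine mul_le_mul_of_nonneg_left ?_ (Real.sinh_nonneg_iff.2 hr.le)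
    rw [abs_le]
    have h4 := dist_triangle x y p
    have h5 := dist_triangle y x p
    rw [dist_comm y x] at h5
    constructor <;> linarith
  have h0 : 0 ≤ dist x y := dist_nonneg
  have h6 : 0 ≤ Real.sinh (dist x y / 2) := Real.sinh_nonneg_iff.2 (by positivity)
  have h7 : 0 ≤ Real.sinh r := Real.sinh_nonneg_iff.2 hr.le
  have h8 : 0 ≤ Real.cosh r := (Real.cosh_pos r).le
  have h9 : ‖hyp2_c F x.v - hyp2_c F y.v‖ ^ 2 ≤ (Real.exp r * dist x y) ^ 2 := by
    rw [h1]
    have ha : (2 * Real.sinh (dist x y / 2)) ^ 2 ≤ (Real.cosh r * dist x y) ^ 2 :=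
      pow_le_pow_left₀ (by positivity) (by linarith) 2
    have hb : (Real.cosh (dist x p) - Real.cosh (dist y p)) ^ 2 ≤ (Real.sinh r * dist x y) ^ 2 := by
      rw [← sq_abs (Real.cosh (dist x p) - Real.cosh (dist y p))]
      exact pow_le_pow_left₀ (abs_nonneg _) h3 2
    have hc : Real.exp r = Real.cosh r + Real.sinh r := (Real.cosh_add_sinh r).symm
    rw [hc]
    nlinarith [mul_nonneg (mul_nonneg h8 h7) (sq_nonneg (dist x y))]
  exact (pow_le_pow_iff_left₀ (norm_nonneg _) (by positivity) two_ne_zero).1 h9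

theorem H3.le_dimH_ball (p : H3) (r : ℝ) (hr : 0 < r) : 3 ≤ dimH (Metric.ball p r) := by
  obtain ⟨F⟩ := hyp2_exists_frame p
  have h1 : LipschitzOnWith ⟨Real.exp r, (Real.exp_pos r).le⟩ (hyp2_homeo F) (Metric.ball p r) := by
    refine LipschitzOnWith.of_dist_le_mul fun x hx y hy => ?_
    rw [dist_eq_norm]
    exact hyp2_le_dist F r x y hx hy
  refine le_trans ?_ h1.dimH_image_le
  have h2 : IsOpen (hyp2_homeo F '' Metric.ball p r) :=
    (hyp2_homeo F).isOpenMap _ Metric.isOpen_ball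
  have h3 : (interior (hyp2_homeo F '' Metric.ball p r)).Nonempty := by
    rw [h2.interior_eq]
    exact ⟨_, p, Metric.mem_ball_self hr, rfl⟩
  rw [Real.dimH_of_nonempty_interior h3, finrank_euclideanSpace, Fintype.card_fin]
  norm_num

end H30
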