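import Pool.Agent.Helper30_Alex.Quot
import Pool.Agent.Helper30_Alex.Hyp2

/-!
# Local structure of quotients of hyperbolic 3-space (PART 7)
-/

set_option autoImplicit false

namespace H30

abbrev E3 := EuclideanSpace ℝ (Fin 3)

/-- the relation x ~ -x on R^3 -/
def negSetoid : Setoid E3 where
  r x y := x = y ∨ x = -y
  iseqv := ⟨fun _ => Or.inl rfl, fun {x y} h => h.elim (fun h => Or.inl h.symm)
    (fun h => Or.inr (by rw [h, neg_neg])), fun {x y z} h h' => by
      rcases h with rfl | rfl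
      · exact h'
      · rcases h' with rfl | rfl
        · exact Or.inr rfl
        · exact Or.inl (neg_neg _)⟩

/-- the open cone over the projective plane: R^3 modulo the antipodal map -/
def ConeRP2 : Type := Quotient negSetoid

instance : TopologicalSpace ConeRP2 := inferInstanceAs (TopologicalSpace (Quotient negSetoid))

/-- `x` has an open neighbourhood homeomorphic to R^3 -/
def MfdPt (X : Type) [TopologicalSpace X] (x : X) : Prop :=
  ∃ U : Set X, IsOpen U ∧ x ∈ U ∧ Nonempty (U ≃ₜ E3)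

/-- `x` has an open neighbourhood homeomorphic to the open cone over the projective plane -/
def ConePt (X : Type) [TopologicalSpace X] (x : X) : Prop :=
  ∃ U : Set X, IsOpen U ∧ x ∈ U ∧ Nonempty (U ≃ₜ ConeRP2)

variable {G : Type} [Group G] [MulAction G H3] [PDAct G H3]

/-- a point is determined by its coordinates -/
theorem chart_inj {p : H3} (F : Frame p) (y z : H3)
    (h : ∀ i, Bf y.v (F.e i) = Bf z.v (F.e i)) : y = z := by
  obtain ⟨c, hc, -, -⟩ := F.coord
  apply c.injective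
  ext i
  rw [hc, hc, h]

/-- a parametrisation of a ball of hyperbolic space by R^3, radial in the coordinates -/
theorem chart_psi (p : H3) (F : Frame p) (r : ℝ) (hr : 0 < r) :
    ∃ (ψ : E3 → H3) (lam : E3 → ℝ), Topology.IsOpenEmbedding ψ ∧
      Set.range ψ = Metric.ball p r ∧ (∀ x y : E3, ‖x‖ = ‖y‖ → lam x = lam y) ∧
      ∀ x i, Bf (ψ x).v (F.e i) = lam x * x i := by
  obtain ⟨c, hc, hcp, hnorm⟩ := F.coord
  set ρ := Real.sinh r with hρ
  have hρ0 : 0 < ρ := Real.sinh_pos_iff.2 hr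
  have hu : Topology.IsOpenEmbedding
      (OpenPartialHomeomorph.univUnitBall : OpenPartialHomeomorph E3 E3) :=
    OpenPartialHomeomorph.univUnitBall.isOpenEmbedding rfl
  have hrange : Set.range (OpenPartialHomeomorph.univUnitBall : OpenPartialHomeomorph E3 E3) =
      Metric.ball (0 : E3) 1 := by
    rw [← Set.image_univ]
    exact OpenPartialHomeomorph.univUnitBall.image_source_eq_target
  refine ⟨fun x => c.symm (Homeomorph.smulOfNeZero ρ hρ0.ne'
    ((OpenPartialHomeomorph.univUnitBall : OpenPartialHomeomorph E3 E3) x)),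
    fun x => ρ * (√(1 + ‖x‖ ^ 2))⁻¹, ?_, ?_, ?_, ?_⟩
  · exact c.symm.isOpenEmbedding.comp ((Homeomorph.smulOfNeZero ρ hρ0.ne').isOpenEmbedding.comp hu)
  · ext y
    rw [Metric.mem_ball]
    have e1 : dist y p < r ↔ ‖c y‖ < ρ := by
      rw [hnorm, hρ, Real.sinh_lt_sinh]
    rw [e1]
    constructor
    · rintro ⟨x, rfl⟩
      have hx : (OpenPartialHomeomorph.univUnitBall : OpenPartialHomeomorph E3 E3) x ∈
          Metric.ball (0 : E3) 1 := by rw [← hrange]; exact ⟨x, rfl⟩
      rw [Homeomorph.apply_symm_apply]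
      change ‖ρ • (OpenPartialHomeomorph.univUnitBall : OpenPartialHomeomorph E3 E3) x‖ < ρ
      rw [norm_smul, Real.norm_of_nonneg hρ0.le]
      rw [mem_ball_zero_iff] at hx
      nlinarith
    · intro hy
      have hy2 : ρ⁻¹ • c y ∈ Metric.ball (0 : E3) 1 := by
        rw [mem_ball_zero_iff, norm_smul, norm_inv, Real.norm_of_nonneg hρ0.le,
          inv_mul_lt_iff₀ hρ0, mul_one]
        exact hy
      rw [← hrange] at hy2
      obtain ⟨x, hx⟩ := hy2
      refine ⟨x, ?_⟩
      simp only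
      rw [hx]
      apply c.injective
      rw [Homeomorph.apply_symm_apply]
      change ρ • (ρ⁻¹ • c y) = c y
      rw [smul_inv_smul₀ hρ0.ne']
  · intro x y hxy
    simp only [hxy]
  · intro x i
    rw [← hc, Homeomorph.apply_symm_apply]
    change (ρ • (OpenPartialHomeomorph.univUnitBall : OpenPartialHomeomorph E3 E3) x) i = _
    rw [OpenPartialHomeomorph.univUnitBall_apply, smul_smul]
    rfl

omit [MulAction G H3] [PDAct G H3] in
theorem chart_quot {A Y Y' : Type} [TopologicalSpace A] [TopologicalSpace Y] [TopologicalSpace Y']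
    (f : A → Y) (f' : A → Y') (hf : Topology.IsQuotientMap f) (hf' : Topology.IsQuotientMap f')
    (h : ∀ x y, f x = f y ↔ f' x = f' y) : Nonempty (Y ≃ₜ Y') := by
  have e : Setoid.ker f = Setoid.ker f' := by
    ext x y
    exact h x y
  have e2 : ∀ s s' : Setoid A, s = s' → Nonempty (Quotient s ≃ₜ Quotient s') := by
    rintro s _ rfl
    exact ⟨Homeomorph.refl _⟩
  obtain ⟨φ⟩ := e2 _ _ e
  have hF : Topology.IsQuotientMap (⟨f, hf.continuous⟩ : C(A, Y)) := hf
  have hF' : Topology.IsQuotientMap (⟨f', hf'.continuous⟩ : C(A, Y')) := hf'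
  exact ⟨(hF.homeomorph.symm.trans φ).trans hF'.homeomorph⟩

/-- a neighbourhood of an orbit as a quotient of R^3 by the stabiliser -/
theorem chart_gen (p : H3) (F : Frame p) :
    ∃ (U : Set (QS G H3)) (f : E3 → U) (ψ : E3 → H3) (lam : E3 → ℝ), IsOpen U ∧ QS.mk G p ∈ U ∧
      Topology.IsQuotientMap f ∧ Function.Injective ψ ∧
      (∀ x y : E3, ‖x‖ = ‖y‖ → lam x = lam y) ∧
      (∀ x i, Bf (ψ x).v (F.e i) = lam x * x i) ∧
      ∀ x y, f x = f y ↔ ∃ g : G, g • p = p ∧ g • ψ x = ψ y := by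
  obtain ⟨r, hr, hball⟩ := QS.exists_ball (G := G) p
  obtain ⟨ψ, lam, hψ, hrange, hlam, hco⟩ := chart_psi p F r hr
  have hmem : ∀ x, ψ x ∈ Metric.ball p r := fun x => by rw [← hrange]; exact ⟨x, rfl⟩
  refine ⟨QS.mk G '' Metric.ball p r, fun x => ⟨QS.mk G (ψ x), ψ x, hmem x, rfl⟩, ψ, lam,
    QS.isOpenMap_mk _ Metric.isOpen_ball, ⟨p, Metric.mem_ball_self hr, rfl⟩, ?_, hψ.injective,
    hlam, hco, ?_⟩
  · have hcont : Continuous (fun x => QS.mk G (ψ x)) := QS.continuous_mk.comp hψ.continuous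
    apply IsOpenMap.isQuotientMap
    · intro V hV
      have hV2 : IsOpen ((fun x => QS.mk G (ψ x)) '' V) := by
        have h1 : (fun x => QS.mk G (ψ x)) '' V = QS.mk G '' (ψ '' V) := by
          rw [Set.image_image]
        rw [h1]
        exact QS.isOpenMap_mk _ (hψ.isOpenMap _ hV)
      refine isOpen_induced_iff.2 ⟨_, hV2, ?_⟩
      ext a
      constructor
      · rintro ⟨x, hx, hxa⟩
        exact ⟨x, hx, Subtype.ext hxa⟩
      · rintro ⟨x, hx, rfl⟩
        exact ⟨x, hx, rfl⟩
    · exact hcont.subtype_mk _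
    · rintro ⟨_, y, hy, rfl⟩
      rw [← hrange] at hy
      obtain ⟨x, rfl⟩ := hy
      exact ⟨x, rfl⟩
  · intro x y
    refine Iff.trans ?_ (hball _ (hmem x) _ (hmem y))
    exact ⟨fun h => congrArg Subtype.val h, fun h => Subtype.ext h⟩

/-- trivial stabiliser -/
theorem chart_triv (p : H3) (h : ∀ g : G, g • p = p → ∀ y : H3, g • y = y) :
    MfdPt (QS G H3) (QS.mk G p) := by
  obtain ⟨F, -⟩ := Frame.exists_ext p ∅ (fun _ => 0) (by simp) (by simp) (by simp)
  obtain ⟨U, f, ψ, lam, hU, hp, hf, hinj, -, -, hiff⟩ := chart_gen (G := G) p F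
  refine ⟨U, hU, hp, chart_quot f (id : E3 → E3) hf Topology.IsQuotientMap.id fun x y => ?_⟩
  rw [hiff]
  constructor
  · rintro ⟨g, hg, hxy⟩
    rw [h g hg] at hxy
    exact hinj hxy
  · intro hxy
    have hxy' : x = y := hxy
    exact ⟨1, one_smul _ _, by rw [one_smul, hxy']⟩

/-- the map of R^3 to itself that identifies the points related by the rotation by pi -/
noncomputable def rotQ (x : E3) : E3 := !₂[x 0 ^ 2 - x 1 ^ 2, 2 * x 0 * x 1, x 2]

omit [MulAction G H3] [PDAct G H3] in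
theorem rotQ_quot : Topology.IsQuotientMap rotQ := by
  have hcont : Continuous rotQ := by
    unfold rotQ
    fun_prop
  have hprop : IsProperMap rotQ := by
    rw [isProperMap_iff_tendsto_cocompact]
    refine ⟨hcont, ?_⟩
    rw [← Metric.cobounded_eq_cocompact, ← tendsto_norm_atTop_iff_cobounded]
    have h1 : Filter.Tendsto (fun x : E3 => ‖x‖ - 1) (Bornology.cobounded E3) Filter.atTop :=
      Filter.tendsto_atTop_add_const_right _ _ tendsto_norm_cobounded_atTop
    refine Filter.tendsto_atTop_mono (fun x => ?_) h1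
    have hx : ‖x‖ ^ 2 = x 0 ^ 2 + x 1 ^ 2 + x 2 ^ 2 := by
      rw [EuclideanSpace.norm_sq_eq, Fin.sum_univ_three]
      simp [sq_abs]
    have hq : ‖rotQ x‖ ^ 2 = (x 0 ^ 2 + x 1 ^ 2) ^ 2 + x 2 ^ 2 := by
      rw [EuclideanSpace.norm_sq_eq, Fin.sum_univ_three]
      simp only [rotQ, Real.norm_eq_abs, sq_abs]
      simp
      ring
    have h2 : ‖x‖ ^ 2 ≤ ‖rotQ x‖ ^ 2 + 1 := by
      rw [hx, hq]
      nlinarith [sq_nonneg (x 0 ^ 2 + x 1 ^ 2 - 1), sq_nonneg (x 0), sq_nonneg (x 1)]
    have h3 : ‖x‖ ^ 2 ≤ (‖rotQ x‖ + 1) ^ 2 := by nlinarith [norm_nonneg (rotQ x)]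
    have h4 := abs_le_of_sq_le_sq h3 (by positivity)
    have h5 := le_abs_self ‖x‖
    linarith [h4, abs_of_nonneg (norm_nonneg x)]
  apply hprop.isClosedMap.isQuotientMap hcont
  intro y
  obtain ⟨z, hz⟩ := IsSquare.sq (⟨y 0, y 1⟩ : ℂ) |>.elim fun _ _ => (IsAlgClosed.exists_pow_nat_eq (⟨y 0, y 1⟩ : ℂ) (n := 2) (by norm_num))
  refine ⟨!₂[z.re, z.im, y 2], ?_⟩
  have hre := congrArg Complex.re hz
  have him := congrArg Complex.im hz
  rw [sq, Complex.mul_re] at hre
  rw [sq, Complex.mul_im] at him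
  ext i
  fin_cases i
  · simp [rotQ]
    simp at hre
    linarith
  · simp [rotQ]
    simp at him
    linarith
  · simp [rotQ]


omit [MulAction G H3] [PDAct G H3] in
theorem rotQ_iff (x y : E3) :
    rotQ x = rotQ y ↔ y = x ∨ (y 0 = -x 0 ∧ y 1 = -x 1 ∧ y 2 = x 2) := by
  constructor
  · intro h
    have h0 : x 0 ^ 2 - x 1 ^ 2 = y 0 ^ 2 - y 1 ^ 2 := by
      have := congrArg (fun v : E3 => v 0) h
      simpa [rotQ] using this
    have h1 : x 0 * x 1 = y 0 * y 1 := by
      have := congrArg (fun v : E3 => v 1) h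
      simp [rotQ] at this
      linarith
    have h2 : x 2 = y 2 := by
      have := congrArg (fun v : E3 => v 2) h
      simpa [rotQ] using this
    have hz : (⟨x 0, x 1⟩ : ℂ) ^ 2 = (⟨y 0, y 1⟩ : ℂ) ^ 2 := by
      apply Complex.ext
      · rw [sq, sq, Complex.mul_re, Complex.mul_re]
        simp only
        linarith
      · rw [sq, sq, Complex.mul_im, Complex.mul_im]
        simp only
        linarith
    rcases sq_eq_sq_iff_eq_or_eq_neg.1 hz with h | h
    · left
      have e0 := congrArg Complex.re h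
      have e1 := congrArg Complex.im h
      simp only at e0 e1
      ext i
      fin_cases i
      · exact e0.symm
      · exact e1.symm
      · exact h2.symm
    · right
      have e0 := congrArg Complex.re h
      have e1 := congrArg Complex.im h
      simp only [Complex.neg_re, Complex.neg_im] at e0 e1
      exact ⟨by linarith, by linarith, h2.symm⟩
  · rintro (rfl | ⟨h0, h1, h2⟩)
    · rfl
    · ext i
      fin_cases i
      · simp [rotQ, h0, h1]
      · simp [rotQ, h0, h1]
      · simp [rotQ, h2]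

/-- the stabiliser acts through a rotation by pi -/
theorem chart_rot (p : H3) (F : Frame p) (g₀ : G) (h₀ : g₀ • p = p)
    (hc : ∀ y : H3, Bf (g₀ • y).v (F.e 0) = -Bf y.v (F.e 0) ∧
      Bf (g₀ • y).v (F.e 1) = -Bf y.v (F.e 1) ∧ Bf (g₀ • y).v (F.e 2) = Bf y.v (F.e 2))
    (h : ∀ g : G, g • p = p → (∀ y : H3, g • y = y) ∨ (∀ y : H3, g • y = g₀ • y)) :
    MfdPt (QS G H3) (QS.mk G p) := by
  obtain ⟨U, f, ψ, lam, hU, hp, hf, hinj, hlam, hco, hiff⟩ := chart_gen (G := G) p F
  refine ⟨U, hU, hp, chart_quot f rotQ hf rotQ_quot fun x y => ?_⟩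
  rw [hiff, rotQ_iff]
  have key : ∀ x : E3, g₀ • ψ x = ψ !₂[-x 0, -x 1, x 2] := by
    intro x
    apply chart_inj F
    intro i
    have hn : lam !₂[-x 0, -x 1, x 2] = lam x := by
      apply hlam
      rw [EuclideanSpace.norm_eq, EuclideanSpace.norm_eq, Fin.sum_univ_three, Fin.sum_univ_three]
      simp
    obtain ⟨c0, c1, c2⟩ := hc (ψ x)
    rw [hco, hn]
    fin_cases i
    · refine c0.trans ?_
      rw [hco]
      simp
    · refine c1.trans ?_
      rw [hco]
      simp
    · refine c2.trans ?_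
      rw [hco]
      simp
  constructor
  · rintro ⟨g, hg, hxy⟩
    rcases h g hg with h1 | h1
    · left
      rw [h1] at hxy
      exact (hinj hxy).symm
    · right
      rw [h1, key] at hxy
      have e := (hinj hxy).symm
      rw [e]
      simp
  · rintro (rfl | ⟨h0, h1, h2⟩)
    · exact ⟨1, one_smul _ _, one_smul _ _⟩
    · refine ⟨g₀, h₀, ?_⟩
      rw [key]
      congr 1
      ext i
      fin_cases i
      · simp [h0]
      · simp [h1]
      · simp [h2]

/-- the stabiliser acts through the point inversion -/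
theorem chart_inv (p : H3) (F : Frame p) (g₀ : G) (h₀ : g₀ • p = p)
    (hc : ∀ y : H3, ∀ i, Bf (g₀ • y).v (F.e i) = -Bf y.v (F.e i))
    (h : ∀ g : G, g • p = p → (∀ y : H3, g • y = y) ∨ (∀ y : H3, g • y = g₀ • y)) :
    ConePt (QS G H3) (QS.mk G p) := by
  obtain ⟨U, f, ψ, lam, hU, hp, hf, hinj, hlam, hco, hiff⟩ := chart_gen (G := G) p F
  have hq : Topology.IsQuotientMap (Quotient.mk negSetoid : E3 → ConeRP2) :=
    isQuotientMap_quotient_mk'
  refine ⟨U, hU, hp, chart_quot f (Quotient.mk negSetoid : E3 → ConeRP2) hf hq fun x y => ?_⟩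
  rw [hiff]
  have key : ∀ x : E3, g₀ • ψ x = ψ (-x) := by
    intro x
    apply chart_inj F
    intro i
    rw [hc, hco, hco, hlam (-x) x (norm_neg x)]
    simp
  have hrel : (Quotient.mk negSetoid x : ConeRP2) = Quotient.mk negSetoid y ↔ x = y ∨ x = -y :=
    Quotient.eq (r := negSetoid)
  refine Iff.trans ?_ hrel.symm
  constructor
  · rintro ⟨g, hg, hxy⟩
    rcases h g hg with h1 | h1
    · left
      rw [h1] at hxy
      exact hinj hxy
    · right
      rw [h1, key] at hxy
      rw [← hinj hxy, neg_neg]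
  · rintro (rfl | rfl)
    · exact ⟨1, one_smul _ _, one_smul _ _⟩
    · exact ⟨g₀, h₀, by rw [key, neg_neg]⟩

end H30
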