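import Pool.Agent.Helper30_Alex.Cells

/-!
# X and X' are homotopy equivalent (PART 8c)
-/

set_option autoImplicit false

namespace H30

/-- chamberwise extension of compatible families of maps -/
theorem heq_ext {I : Type} [Finite I] {W : Type} [MetricSpace W] {Y : Type} [TopologicalSpace Y]
    (hY : AE (Set.univ : Set Y)) (R : I → I → Set W) (hR : ∀ i j, IsClosed (R i j))
    (hsymm : ∀ i j w, w ∈ R i j → w ∈ R j i)
    (htrans : ∀ i j l w, w ∈ R i j → w ∈ R j l → w ∈ R i l) (B : Set W) (hB : IsClosed B)
    (f : I → W → Y) (hf : ∀ i, ContinuousOn (f i) B)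
    (hc : ∀ i j, ∀ w ∈ B, w ∈ R i j → f i w = f j w) :
    ∃ F : I → W → Y, (∀ i, Continuous (F i)) ∧ (∀ i j w, w ∈ R i j → F i w = F j w) ∧
      ∀ i, Set.EqOn (F i) (f i) B := by
  classical
  have key : ∀ J : Finset I, ∃ F : I → W → Y, (∀ i ∈ J, Continuous (F i)) ∧
      (∀ i ∈ J, ∀ j ∈ J, ∀ w, w ∈ R i j → F i w = F j w) ∧ ∀ i ∈ J, Set.EqOn (F i) (f i) B := by
    intro J
    induction J using Finset.induction_on with
    | empty => exact ⟨f, by simp, by simp, by simp⟩
    | insert a J ha ih =>
      obtain ⟨F, hF1, hF2, hF3⟩ := ih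
      let B' : Set W := B ∪ ⋃ b ∈ J, R a b
      have hB' : IsClosed B' :=
        hB.union (J.finite_toSet.isClosed_biUnion fun b _ => hR a b)
      let g : W → Y := fun w => if h : ∃ b ∈ J, w ∈ R a b then F h.choose w else f a w
      have g1 : ∀ b ∈ J, Set.EqOn g (F b) (R a b) := by
        intro b hb w hw
        have h : ∃ b ∈ J, w ∈ R a b := ⟨b, hb, hw⟩
        have hg : g w = F h.choose w := by simp only [g, dif_pos h]
        rw [hg]
        exact hF2 _ h.choose_spec.1 _ hb w
          (htrans _ _ _ _ (hsymm _ _ _ h.choose_spec.2) hw)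
      have g2 : Set.EqOn g (f a) B := by
        intro w hw
        by_cases h : ∃ b ∈ J, w ∈ R a b
        · have hg : g w = F h.choose w := by simp only [g, dif_pos h]
          rw [hg, hF3 _ h.choose_spec.1 hw]
          exact hc _ _ w hw (hsymm _ _ _ h.choose_spec.2)
        · simp only [g, dif_neg h]
      have g3 : ∀ J' : Finset I, J' ⊆ J → ContinuousOn g (B ∪ ⋃ b ∈ J', R a b) := by
        intro J'
        induction J' using Finset.induction_on with
        | empty =>
          intro _
          simp only [Finset.notMem_empty, Set.iUnion_of_empty, Set.iUnion_empty, Set.union_empty]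
          exact (hf a).congr g2
        | insert c J' _ ih =>
          intro hJ'
          have hcJ : c ∈ J := hJ' (Finset.mem_insert_self _ _)
          have e : B ∪ ⋃ b ∈ insert c J', R a b = R a c ∪ (B ∪ ⋃ b ∈ J', R a b) := by
            ext w
            simp only [Finset.mem_insert, Set.iUnion_iUnion_eq_or_left, Set.mem_union]
            tauto
          rw [e]
          refine ContinuousOn.union_of_isClosed ?_ (ih fun x hx => hJ' (Finset.mem_insert_of_mem hx))
            (hR a c) (hB.union (J'.finite_toSet.isClosed_biUnion fun b _ => hR a b))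
          exact ((hF1 c hcJ).continuousOn).congr (g1 c hcJ)
      obtain ⟨Fa, hFa1, -, hFa3⟩ := hY W B' hB' g (g3 J (Finset.Subset.refl _)) (fun _ _ => trivial)
      have hFaB : Set.EqOn Fa (f a) B := fun w hw => (hFa3 (Or.inl hw)).trans (g2 hw)
      have hFaR : ∀ b ∈ J, Set.EqOn Fa (F b) (R a b) := by
        intro b hb w hw
        have : w ∈ B' := Or.inr (Set.mem_biUnion hb hw)
        exact (hFa3 this).trans (g1 b hb hw)
      refine ⟨fun i => if i = a then Fa else F i, ?_, ?_, ?_⟩
      · intro i hi
        by_cases hia : i = a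
        · simp only [hia, if_true]; exact hFa1
        · simp only [hia, if_false]
          exact hF1 i ((Finset.mem_insert.1 hi).resolve_left hia)
      · intro i hi j hj w hw
        by_cases hia : i = a <;> by_cases hja : j = a
        · simp only [hia, hja]
        · simp only [hia, hja, if_true, if_false]
          exact hFaR j ((Finset.mem_insert.1 hj).resolve_left hja) (hia ▸ hw)
        · simp only [hia, hja, if_true, if_false]
          exact (hFaR i ((Finset.mem_insert.1 hi).resolve_left hia)
            (hsymm _ _ _ (hja ▸ hw))).symm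
        · simp only [hia, hja, if_false]
          exact hF2 i ((Finset.mem_insert.1 hi).resolve_left hia) j
            ((Finset.mem_insert.1 hj).resolve_left hja) w hw
      · intro i hi
        by_cases hia : i = a
        · simp only [hia, if_true]; exact hFaB
        · simp only [hia, if_false]
          exact hF3 i ((Finset.mem_insert.1 hi).resolve_left hia)
  cases nonempty_fintype I
  obtain ⟨F, h1, h2, h3⟩ := key Finset.univ
  exact ⟨F, fun i => h1 i (Finset.mem_univ _), fun i j w hw => h2 i (Finset.mem_univ _) j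
    (Finset.mem_univ _) w hw, fun i => h3 i (Finset.mem_univ _)⟩

/-- continuity of maps out of a product with a glued space with finitely many copies -/
theorem heq_continuous_prod {C : Chamber} {G : Gl} [Finite G.I] {Z Y : Type*} [TopologicalSpace Z]
    [TopologicalSpace Y] (f : Z × Dev C G → Y)
    (hf : ∀ i, Continuous (fun x : Z × C.P => f (x.1, Dev.mk i x.2))) : Continuous f := by
  let e : G.I → Z × C.P → Z × Dev C G := fun i => Prod.map id (Dev.mk i)
  have he : ∀ i, Topology.IsClosedEmbedding (e i) := fun i =>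
    Topology.IsClosedEmbedding.id.prodMap (Dev.isClosedEmbedding_mk i)
  have hcov : ⋃ i, Set.range (e i) = Set.univ := by
    ext ⟨z, x⟩
    obtain ⟨i, p, rfl⟩ := Dev.exists_rep x
    simp only [Set.mem_iUnion, Set.mem_univ, iff_true]
    exact ⟨i, ⟨z, p⟩, rfl⟩
  refine (locallyFinite_of_finite _).continuous hcov (fun i => (he i).isClosed_range) fun i => ?_
  rw [continuousOn_iff_continuous_domRestrict]
  have h1 : Continuous (fun y : Set.range (e i) => (f ∘ e i) ((he i).toIsEmbedding.toHomeomorph.symm y)) :=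
    (hf i).comp (he i).toIsEmbedding.toHomeomorph.symm.continuous
  refine h1.congr fun y => ?_
  obtain ⟨y, x, rfl⟩ := y
  have : (he i).toIsEmbedding.toHomeomorph.symm ⟨e i x, ⟨x, rfl⟩⟩ = x := by
    apply (he i).toIsEmbedding.toHomeomorph.injective
    simp
  simp only [Set.domRestrict_apply]
  rw [this]; rfl

/-! ### the colour group -/

/-- the A-component -/
def va (g : V) : Asub := ⟨V.of (g.1 % 4), by
  show (g.1 % 4) % 16 < 4
  omega⟩

/-- the U-component -/
def vt (g : V) : V := g - va g

theorem va_add_vt (g : V) : (va g : V) + vt g = g := by unfold vt; abel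
theorem va_add : ∀ (b : Asub) (g : V), va ((b : V) + vt g) = b := by decide
theorem vt_add : ∀ (b : Asub) (g : V), vt ((b : V) + vt g) = vt g := by decide
theorem vt_eq : ∀ g g' : V, g - g' ∈ Asub → vt g = vt g' := by decide
theorem va_sub (g g' : V) (h : vt g = vt g') : (va g : V) - va g' = g - g' := by
  have h1 := va_add_vt g
  have h2 := va_add_vt g'
  rw [← h] at h2
  calc (va g : V) - va g' = (va g + vt g) - (va g' + vt g) := by abel
    _ = g - g' := by rw [h1, h2]

theorem spn_congr {k k' : Bool} {T : Finset S} (h : ∀ s ∈ T, col k s = col k' s) :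
    spn k T = spn k' T := by
  have key : ∀ {k k' : Bool}, (∀ s ∈ T, col k s = col k' s) → spn k T ≤ spn k' T := by
    rintro k k' h v ⟨T', hT', rfl⟩
    refine ⟨T', hT', Finset.sum_congr rfl fun s hs => (h s (Finset.mem_powerset.1 hT' hs)).symm⟩
  exact le_antisymm (key h) (key fun s hs => (h s hs).symm)

theorem col_near_outer : ∀ s t : S, adj s t → 13 ≤ t.val → col false s = col true s := by decide
theorem col_outer : ∀ t : S, 13 ≤ t.val → col false t = col true t := by decide
theorem col_inner : ∀ (k : Bool) (s : S), s.val < 13 → col k s ∈ Asub := by decide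

theorem col_eq_of_outer {T : Finset S} (hT : Clique T) {t : S} (ht : t ∈ T) (h : 13 ≤ t.val)
    (k k' : Bool) : ∀ s ∈ T, col k s = col k' s := by
  have h0 : ∀ s ∈ T, col false s = col true s := by
    intro s hs
    by_cases hst : s = t
    · rw [hst]; exact col_outer t h
    · exact col_near_outer s t (hT s hs t ht hst) h
  intro s hs
  cases k <;> cases k'
  · rfl
  · exact h0 s hs
  · exact (h0 s hs).symm
  · rfl

theorem innF_eq {T : Finset S} (h : ∀ t ∈ T, ¬ 13 ≤ t.val) : innF T = T := by
  unfold innF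
  exact Finset.filter_true_of_mem fun t ht => by have := h t ht; omega

theorem spn_le_Asub (k : Bool) (T : Finset S) : spn k (innF T) ≤ Asub := by
  rintro v ⟨T', hT', rfl⟩
  refine sum_mem fun s hs => col_inner k s ?_
  have := Finset.mem_powerset.1 hT' hs
  exact (Finset.mem_filter.1 this).2

/-- the union of the outer facets -/
def Dout (C : Chamber) : Set C.P := {p | ∃ t ∈ C.sup p, 13 ≤ t.val}

theorem isClosed_Dout (C : Chamber) : IsClosed (Dout C) := by
  have : Dout C = ⋃ t ∈ {t : S | 13 ≤ t.val}, C.face' {t} := by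
    ext p
    simp only [Dout, Chamber.face', Set.mem_iUnion, Set.mem_ofPred_eq,
      Finset.singleton_subset_iff, exists_prop]
    exact ⟨fun ⟨t, h1, h2⟩ => ⟨t, h2, h1⟩, fun ⟨t, h1, h2⟩ => ⟨t, h2, h1⟩⟩
  rw [this]
  exact (Set.toFinite _).isClosed_biUnion fun t _ => C.isClosed_face' _

/-! ### the maps between the pieces -/

instance : Finite (GK false).I := inferInstanceAs (Finite Asub)
instance (k : Bool) : Finite (GK k).I := inferInstanceAs (Finite Asub)
instance (k : Bool) : Finite (GX k).I := inferInstanceAs (Finite V)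

section

variable (C : Chamber)

/-- the point `p` in the copy `a` of the piece -/
abbrev kmk (k : Bool) (a : Asub) (p : C.P) : Dev C (GK k) := Dev.mk (G := GK k) a p
/-- the point `p` in the copy `g` of the space -/
abbrev xmk (k : Bool) (g : V) (p : C.P) : Dev C (GX k) := Dev.mk (G := GX k) g p

theorem kmk_eq_outer {k k' : Bool} {a b : Asub} {p : C.P} (hp : p ∈ Dout C)
    (h : (GK k).r (C.sup p) a b) : kmk C k' a p = kmk C k' b p := by
  obtain ⟨t, ht, h13⟩ := hp
  refine Dev.mk_eq.2 ⟨rfl, ?_⟩
  have h1 : spn k (innF (C.sup p)) = spn k' (innF (C.sup p)) :=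
    spn_congr fun s hs => col_eq_of_outer (C.clique_sup p) ht h13 k k' s (Finset.mem_filter.1 hs).1
  show (a : V) - (b : V) ∈ spn k' (innF (C.sup p))
  rw [← h1]; exact h

/-- the map between the two pieces -/
theorem heq_F (k k' : Bool) : ∃ F : Dev C (GK k) → Dev C (GK k'), Continuous F ∧
    ∀ a, ∀ p ∈ Dout C, F (kmk C k a p) = kmk C k' a p := by
  obtain ⟨F, h1, h2, h3⟩ := heq_ext (I := Asub) (W := C.P) (AE_K C k')
    (fun a b => {p | (GK k).r (C.sup p) a b}) (fun a b => Dev.isClosed_rel (G := GK k) a b)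
    (fun a b p h => (GK k).symm h) (fun a b c p h h' => (GK k).trans h h') (Dout C)
    (isClosed_Dout C) (fun a p => kmk C k' a p) (fun a => (Dev.continuous_mk _).continuousOn)
    (fun a b p hp hab => kmk_eq_outer C hp hab)
  exact ⟨Dev.lift F fun a b p h => h2 a b p h, Dev.continuous_lift _ _ h1,
    fun a p hp => h3 a hp⟩

/-- homotopy rel outer facets between two self-maps of the piece which are the identity there -/
theorem heq_H (k : Bool) (φ : Dev C (GK k) → Dev C (GK k)) (hφ : Continuous φ)
    (hD : ∀ a, ∀ p ∈ Dout C, φ (kmk C k a p) = kmk C k a p) :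
    ∃ H : unitInterval × Dev C (GK k) → Dev C (GK k), Continuous H ∧ (∀ x, H (0, x) = φ x) ∧
      (∀ x, H (1, x) = x) ∧ ∀ t a, ∀ p ∈ Dout C, H (t, kmk C k a p) = kmk C k a p := by
  classical
  let B : Set (unitInterval × C.P) := {w | w.1 = 0} ∪ ({w | w.1 = 1} ∪ {w | w.2 ∈ Dout C})
  have c0 : IsClosed {w : unitInterval × C.P | w.1 = 0} :=
    isClosed_eq continuous_fst continuous_const
  have c1 : IsClosed {w : unitInterval × C.P | w.1 = 1} :=
    isClosed_eq continuous_fst continuous_const
  have c2 : IsClosed {w : unitInterval × C.P | w.2 ∈ Dout C} :=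
    (isClosed_Dout C).preimage continuous_snd
  let f : Asub → unitInterval × C.P → Dev C (GK k) := fun a w =>
    if w.1 = 0 then φ (kmk C k a w.2) else kmk C k a w.2
  have f0 : ∀ a, Set.EqOn (f a) (fun w => φ (kmk C k a w.2)) {w | w.1 = 0} := by
    intro a w hw
    exact if_pos hw
  have f1 : ∀ a, Set.EqOn (f a) (fun w => kmk C k a w.2) ({w | w.1 = 1} ∪ {w | w.2 ∈ Dout C}) := by
    intro a w hw
    by_cases h : w.1 = 0
    · rcases hw with hw | hw
      · exact absurd (hw.symm.trans h) (by simp)
      · show (if w.1 = 0 then φ (kmk C k a w.2) else kmk C k a w.2) = _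
        rw [if_pos h]; exact hD a _ hw
    · exact if_neg h
  have hf : ∀ a, ContinuousOn (f a) B := by
    intro a
    refine ContinuousOn.union_of_isClosed ?_ ?_ c0 (c1.union c2)
    · exact (((hφ.comp (Dev.continuous_mk _)).comp continuous_snd).continuousOn).congr (f0 a)
    · exact (((Dev.continuous_mk _).comp continuous_snd).continuousOn).congr (f1 a)
  obtain ⟨F, h1, h2, h3⟩ := heq_ext (I := Asub) (W := unitInterval × C.P) (AE_K C k)
    (fun a b => {w | (GK k).r (C.sup w.2) a b})
    (fun a b => (Dev.isClosed_rel (G := GK k) a b).preimage continuous_snd)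
    (fun a b p h => (GK k).symm h) (fun a b c p h h' => (GK k).trans h h') B
    (c0.union (c1.union c2)) f hf (by
      intro a b w _ hab
      have : kmk C k a w.2 = kmk C k b w.2 := Dev.mk_eq.2 ⟨rfl, hab⟩
      simp only [f, this])
  let H : unitInterval × Dev C (GK k) → Dev C (GK k) := fun w =>
    Dev.lift (fun a p => F a (w.1, p)) (fun a b p h => h2 a b (w.1, p) h) w.2
  refine ⟨H, ?_, ?_, ?_, ?_⟩
  · exact heq_continuous_prod H fun a => h1 a
  · intro x
    obtain ⟨a, p, rfl⟩ := Dev.exists_rep x
    have hB : ((0 : unitInterval), p) ∈ B := Or.inl rfl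
    exact (h3 a hB).trans (f0 a rfl)
  · intro x
    obtain ⟨a, p, rfl⟩ := Dev.exists_rep x
    have hB : ((1 : unitInterval), p) ∈ B := Or.inr (Or.inl rfl)
    exact (h3 a hB).trans (f1 a (Or.inl rfl))
  · intro t a p hp
    have hB : (t, p) ∈ B := Or.inr (Or.inr hp)
    exact (h3 a hB).trans (f1 a (Or.inr hp))

/-- the inclusion of the piece at `t` -/
def kap (k : Bool) (t : V) : Dev C (GK k) → Dev C (GX k) :=
  Dev.lift (fun (a : Asub) p => xmk C k ((a : V) + t) p) (fun (a b : Asub) p h => Dev.mk_eq.2 ⟨rfl, by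
    show ((a : V) + t) - ((b : V) + t) ∈ spn k (C.sup p)
    rw [add_sub_add_right_eq_sub]
    exact spn_mono (Finset.filter_subset _ _) h⟩)

theorem kap_mk (k : Bool) (t : V) (a : Asub) (p : C.P) :
    kap C k t (kmk C k a p) = xmk C k ((a : V) + t) p := rfl

theorem continuous_kap (k : Bool) (t : V) : Continuous (kap C k t) :=
  Dev.continuous_lift _ _ fun _ => Dev.continuous_mk _

/-- a family of maps of the piece that is the identity over the outer facets glues -/
theorem heq_compat {k k' : Bool} (F : Dev C (GK k) → Dev C (GK k'))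
    (hF : ∀ a, ∀ p ∈ Dout C, F (kmk C k a p) = kmk C k' a p) (g g' : V) (p : C.P)
    (h : (GX k).r (C.sup p) g g') :
    kap C k' (vt g) (F (kmk C k (va g) p)) = kap C k' (vt g') (F (kmk C k (va g') p)) := by
  by_cases hp : p ∈ Dout C
  · rw [hF _ p hp, hF _ p hp, kap_mk, kap_mk, va_add_vt, va_add_vt]
    obtain ⟨t, ht, h13⟩ := hp
    refine Dev.mk_eq.2 ⟨rfl, ?_⟩
    have h1 : spn k (C.sup p) = spn k' (C.sup p) :=
      spn_congr fun s hs => col_eq_of_outer (C.clique_sup p) ht h13 k k' s hs
    show g - g' ∈ spn k' (C.sup p)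
    rw [← h1]; exact h
  · have hin : innF (C.sup p) = C.sup p := innF_eq fun t ht h13 => hp ⟨t, ht, h13⟩
    have h' : g - g' ∈ spn k (innF (C.sup p)) := by rw [hin]; exact h
    have h1 : vt g = vt g' := vt_eq g g' (spn_le_Asub k _ h')
    have h2 : kmk C k (va g) p = kmk C k (va g') p := Dev.mk_eq.2 ⟨rfl, by
      show (va g : V) - va g' ∈ spn k (innF (C.sup p))
      rw [va_sub g g' h1]; exact h'⟩
    rw [h1, h2]

/-- the induced map -/
def heqMap {k k' : Bool} (F : Dev C (GK k) → Dev C (GK k'))
    (hF : ∀ a, ∀ p ∈ Dout C, F (kmk C k a p) = kmk C k' a p) : Dev C (GX k) → Dev C (GX k') :=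
  Dev.lift (fun g p => kap C k' (vt g) (F (kmk C k (va g) p))) (heq_compat C F hF)

theorem heqMap_kap {k k' : Bool} (F : Dev C (GK k) → Dev C (GK k'))
    (hF : ∀ a, ∀ p ∈ Dout C, F (kmk C k a p) = kmk C k' a p) (g : V) (x : Dev C (GK k)) :
    heqMap C F hF (kap C k (vt g) x) = kap C k' (vt g) (F x) := by
  have key : ∀ (a : Asub) (p : C.P),
      heqMap C F hF (kap C k (vt g) (kmk C k a p)) = kap C k' (vt g) (F (kmk C k a p)) := by
    intro a p
    show kap C k' (vt ((a : V) + vt g)) (F (kmk C k (va ((a : V) + vt g)) p)) = _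
    rw [va_add, vt_add]
  exact Dev.ind (motive := fun x => heqMap C F hF (kap C k (vt g) x) = kap C k' (vt g) (F x)) key x

theorem continuous_heqMap {k k' : Bool} (F : Dev C (GK k) → Dev C (GK k'))
    (hF : ∀ a, ∀ p ∈ Dout C, F (kmk C k a p) = kmk C k' a p) (hc : Continuous F) :
    Continuous (heqMap C F hF) :=
  Dev.continuous_lift _ _ fun _ => (continuous_kap C k' _).comp (hc.comp (Dev.continuous_mk _))

/-- compositions are homotopic to the identity -/
theorem heq_inv {k k' : Bool} (F : Dev C (GK k) → Dev C (GK k'))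
    (hF : ∀ a, ∀ p ∈ Dout C, F (kmk C k a p) = kmk C k' a p) (hFc : Continuous F)
    (F' : Dev C (GK k') → Dev C (GK k))
    (hF' : ∀ a, ∀ p ∈ Dout C, F' (kmk C k' a p) = kmk C k a p) (hFc' : Continuous F') :
    ((⟨heqMap C F' hF', continuous_heqMap C F' hF' hFc'⟩ : C(Dev C (GX k'), Dev C (GX k))).comp
      (⟨heqMap C F hF, continuous_heqMap C F hF hFc⟩ : C(Dev C (GX k), Dev C (GX k')))).Homotopic
      (ContinuousMap.id _) := by
  obtain ⟨H, h1, h2, h3, h4⟩ := heq_H C k (fun x => F' (F x)) (hFc'.comp hFc)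
    (fun a p hp => by
      show F' (F (kmk C k a p)) = _
      rw [hF a p hp, hF' a p hp])
  let J : unitInterval × Dev C (GX k) → Dev C (GX k) := fun w =>
    heqMap C (fun x => H (w.1, x)) (fun a p hp => h4 w.1 a p hp) w.2
  have hJ : Continuous J := by
    refine heq_continuous_prod J fun g => ?_
    show Continuous fun x : unitInterval × C.P =>
      kap C k (vt g) (H (x.1, kmk C k (va g) x.2))
    exact (continuous_kap C k _).comp (h1.comp (continuous_fst.prodMk
      ((Dev.continuous_mk _).comp continuous_snd)))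
  have k0 : ∀ (g : V) (p : C.P), J (0, xmk C k g p) =
      heqMap C F' hF' (heqMap C F hF (xmk C k g p)) := by
    intro g p
    show kap C k (vt g) (H (0, kmk C k (va g) p)) =
      heqMap C F' hF' (kap C k' (vt g) (F (kmk C k (va g) p)))
    rw [h2, heqMap_kap]
  have k1 : ∀ (g : V) (p : C.P), J (1, xmk C k g p) = xmk C k g p := by
    intro g p
    show kap C k (vt g) (H (1, kmk C k (va g) p)) = xmk C k g p
    rw [h3, kap_mk, va_add_vt]
  refine ⟨⟨⟨J, hJ⟩, ?_, ?_⟩⟩
  · exact fun x => Dev.ind (motive := fun x => J (0, x) = heqMap C F' hF' (heqMap C F hF x)) k0 x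
  · exact fun x => Dev.ind (motive := fun x => J (1, x) = x) k1 x

end

theorem heq_X (C : Chamber) :
    Nonempty (ContinuousMap.HomotopyEquiv (Dev C (GX false)) (Dev C (GX true))) := by
  obtain ⟨F, hFc, hF⟩ := heq_F C false true
  obtain ⟨F', hFc', hF'⟩ := heq_F C true false
  exact ⟨⟨⟨heqMap C F hF, continuous_heqMap C F hF hFc⟩,
    ⟨heqMap C F' hF', continuous_heqMap C F' hF' hFc'⟩,
    heq_inv C F hF hFc F' hF' hFc', heq_inv C F' hF' hFc' F hF hFc⟩⟩

end H30
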