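import Pool.Agent.Helper30_Alex.Inv

/-!
# Two-sheeted coverings near a punctured manifold point have a section (case (A))
-/

set_option autoImplicit false

namespace H30

namespace InvA

/-- complement of the closed negative half axis -/
def Ap : Set E3 := {x | ¬ (x 0 = 0 ∧ x 1 = 0 ∧ x 2 ≤ 0)}
/-- complement of the closed positive half axis -/
def Am : Set E3 := {x | ¬ (x 0 = 0 ∧ x 1 = 0 ∧ 0 ≤ x 2)}

theorem isOpen_Ap : IsOpen Ap := by
  have hc : ∀ i : Fin 3, Continuous (fun x : E3 => x i) := fun i => by fun_prop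
  have h : IsClosed {x : E3 | x 0 = 0 ∧ x 1 = 0 ∧ x 2 ≤ 0} :=
    (isClosed_eq (hc 0) continuous_const).inter
      ((isClosed_eq (hc 1) continuous_const).inter (isClosed_le (hc 2) continuous_const))
  exact h.isOpen_compl

theorem isOpen_Am : IsOpen Am := by
  have hc : ∀ i : Fin 3, Continuous (fun x : E3 => x i) := fun i => by fun_prop
  have h : IsClosed {x : E3 | x 0 = 0 ∧ x 1 = 0 ∧ 0 ≤ x 2} :=
    (isClosed_eq (hc 0) continuous_const).inter
      ((isClosed_eq (hc 1) continuous_const).inter (isClosed_le continuous_const (hc 2)))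
  exact h.isOpen_compl

/-- unit vectors -/
noncomputable def ez : E3 := EuclideanSpace.single 2 1
noncomputable def ex : E3 := EuclideanSpace.single 0 1

theorem ez0 : ez 0 = 0 := by simp [ez]
theorem ez1 : ez 1 = 0 := by simp [ez]
theorem ez2 : ez 2 = 1 := by simp [ez]
theorem ex0 : ex 0 = 1 := by simp [ex]

theorem star_Ap : StarConvex ℝ ez Ap := by
  intro y hy a b ha hb hab h
  obtain ⟨h0, h1, h2⟩ := h
  have e0 : (a • ez + b • y) 0 = b * y 0 := by
    rw [PiLp.add_apply, PiLp.smul_apply, PiLp.smul_apply, ez0, smul_eq_mul, smul_eq_mul]; ring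
  have e1 : (a • ez + b • y) 1 = b * y 1 := by
    rw [PiLp.add_apply, PiLp.smul_apply, PiLp.smul_apply, ez1, smul_eq_mul, smul_eq_mul]; ring
  have e2 : (a • ez + b • y) 2 = a + b * y 2 := by
    rw [PiLp.add_apply, PiLp.smul_apply, PiLp.smul_apply, ez2, smul_eq_mul, smul_eq_mul]; ring
  rw [e0] at h0
  rw [e1] at h1
  rw [e2] at h2
  have hb0 : b ≠ 0 := by
    rintro rfl
    rw [zero_mul] at h2
    linarith
  have hbp : 0 < b := lt_of_le_of_ne hb (Ne.symm hb0)
  refine hy ⟨(mul_eq_zero.1 h0).resolve_left hb0, (mul_eq_zero.1 h1).resolve_left hb0, ?_⟩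
  by_contra hc
  push Not at hc
  have := mul_pos hbp hc
  linarith

theorem star_Am : StarConvex ℝ (-ez) Am := by
  intro y hy a b ha hb hab h
  obtain ⟨h0, h1, h2⟩ := h
  have e0 : (a • (-ez) + b • y) 0 = b * y 0 := by
    rw [PiLp.add_apply, PiLp.smul_apply, PiLp.smul_apply, PiLp.neg_apply, ez0, smul_eq_mul,
      smul_eq_mul]; ring
  have e1 : (a • (-ez) + b • y) 1 = b * y 1 := by
    rw [PiLp.add_apply, PiLp.smul_apply, PiLp.smul_apply, PiLp.neg_apply, ez1, smul_eq_mul,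
      smul_eq_mul]; ring
  have e2 : (a • (-ez) + b • y) 2 = -a + b * y 2 := by
    rw [PiLp.add_apply, PiLp.smul_apply, PiLp.smul_apply, PiLp.neg_apply, ez2, smul_eq_mul,
      smul_eq_mul]; ring
  rw [e0] at h0
  rw [e1] at h1
  rw [e2] at h2
  have hb0 : b ≠ 0 := by
    rintro rfl
    rw [zero_mul] at h2
    linarith
  have hbp : 0 < b := lt_of_le_of_ne hb (Ne.symm hb0)
  refine hy ⟨(mul_eq_zero.1 h0).resolve_left hb0, (mul_eq_zero.1 h1).resolve_left hb0, ?_⟩
  by_contra hc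
  push Not at hc
  have := mul_neg_of_pos_of_neg hbp hc
  linarith

theorem ex_Ap : ex ∈ Ap := fun h => by
  have := h.1
  rw [ex0] at this
  exact one_ne_zero this

theorem ex_Am : ex ∈ Am := fun h => by
  have := h.1
  rw [ex0] at this
  exact one_ne_zero this

/-- the axis -/
def axis : Submodule ℝ E3 :=
  LinearMap.ker ({ toFun := fun x => (x 0, x 1)
                   map_add' := fun _ _ => rfl
                   map_smul' := fun _ _ => rfl } : E3 →ₗ[ℝ] ℝ × ℝ)

theorem mem_axis (x : E3) : x ∈ axis ↔ x 0 = 0 ∧ x 1 = 0 := by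
  unfold axis
  rw [LinearMap.mem_ker]
  exact Prod.mk_eq_zero

theorem conn_axis : IsConnected ((axis : Set E3)ᶜ) := by
  apply isConnected_compl_of_one_lt_codim
  have hs : Function.Surjective ({ toFun := fun x => (x 0, x 1)
                                   map_add' := fun _ _ => rfl
                                   map_smul' := fun _ _ => rfl } : E3 →ₗ[ℝ] ℝ × ℝ) := by
    rintro ⟨a, b⟩
    refine ⟨WithLp.toLp 2 ![a, b, 0], ?_⟩
    rfl
  have e := LinearMap.quotKerEquivOfSurjective _ hs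
  have h1 := e.rank_eq
  unfold axis
  rw [h1, rank_prod', Module.rank_self]
  exact_mod_cast (by norm_num : (1 : ℕ) < 1 + 1)

theorem inter_eq : Ap ∩ Am = (axis : Set E3)ᶜ := by
  ext x
  rw [Set.mem_compl_iff, SetLike.mem_coe, mem_axis]
  constructor
  · rintro ⟨h1, h2⟩ ⟨h3, h4⟩
    rcases le_total (x 2) 0 with h | h
    · exact h1 ⟨h3, h4, h⟩
    · exact h2 ⟨h3, h4, h⟩
  · intro h
    exact ⟨fun h1 => h ⟨h1.1, h1.2.1⟩, fun h1 => h ⟨h1.1, h1.2.1⟩⟩

theorem union_eq (x : E3) (hx : x ≠ 0) : x ∈ Ap ∨ x ∈ Am := by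
  by_contra h
  push Not at h
  obtain ⟨h1, h2⟩ := h
  have h1' : x 0 = 0 ∧ x 1 = 0 ∧ x 2 ≤ 0 := not_not.1 h1
  have h2' : x 0 = 0 ∧ x 1 = 0 ∧ 0 ≤ x 2 := not_not.1 h2
  apply hx
  ext i
  fin_cases i
  · exact h1'.1
  · exact h1'.2.1
  · exact le_antisymm h1'.2.2 h2'.2.2

theorem zero_notMem_Ap : (0 : E3) ∉ Ap := fun h => h ⟨rfl, rfl, le_refl _⟩
theorem zero_notMem_Am : (0 : E3) ∉ Am := fun h => h ⟨rfl, rfl, le_refl _⟩

variable {Y E : Type} [TopologicalSpace Y] [TopologicalSpace E]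

theorem lift_exists {s : Set Y} (q : E → Y) (hq : IsCoveringMapOn q s) (ι : C(E3, Y))
    (A : Set E3) (hA : IsOpen A) (a : E3) (hstar : StarConvex ℝ a A) (hex : ex ∈ A)
    (hι : ∀ x ∈ A, ι x ∈ s) (e₀ : E) (he : q e₀ = ι ex) :
    ∃ F : C(A, E), F ⟨ex, hex⟩ = e₀ ∧ ∀ x : A, q (F x) = ι x := by
  have h1 : ContractibleSpace A := hstar.contractibleSpace ⟨ex, hex⟩
  have h2 : LocallyPathConnectedSpace A := hA.locallyPathConnectedSpace
  obtain ⟨F, ⟨hF1, hF2⟩, _⟩ := hq.existsUnique_continuousMap_lifts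
    (ι.comp ⟨Subtype.val, continuous_subtype_val⟩ : C(A, Y)) (a₀ := ⟨ex, hex⟩) (e₀ := e₀) he
    (fun x => hι x x.2)
  exact ⟨F, hF1, fun x => congrFun hF2 x⟩

theorem section_punctured {s : Set Y} (q : E → Y) (hq : IsCoveringMapOn q s) (ι : C(E3, Y))
    (hι : ∀ x, x ≠ 0 → ι x ∈ s) (e₀ : E) (he : q e₀ = ι ex) :
    ∃ σ : E3 → E, ContinuousOn σ {0}ᶜ ∧ ∀ x, x ≠ 0 → q (σ x) = ι x := by
  classical
  obtain ⟨Fp, hFp, hqp⟩ := lift_exists q hq ι Ap isOpen_Ap ez star_Ap ex_Ap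
    (fun x hx => hι x (fun h => zero_notMem_Ap (h ▸ hx))) e₀ he
  obtain ⟨Fm, hFm, hqm⟩ := lift_exists q hq ι Am isOpen_Am (-ez) star_Am ex_Am
    (fun x hx => hι x (fun h => zero_notMem_Am (h ▸ hx))) e₀ he
  -- the two lifts agree on the intersection
  have hagree : ∀ x (h1 : x ∈ Ap) (h2 : x ∈ Am), Fp ⟨x, h1⟩ = Fm ⟨x, h2⟩ := by
    have hconn : PreconnectedSpace (Ap ∩ Am : Set E3) := by
      rw [← isPreconnected_iff_preconnectedSpace, inter_eq]
      exact conn_axis.isPreconnected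
    have hs : ∀ x : (Ap ∩ Am : Set E3), ι x ∈ s := fun x =>
      hι x (fun h => zero_notMem_Ap (h ▸ x.2.1))
    let g₁ : (Ap ∩ Am : Set E3) → q ⁻¹' s := fun x =>
      ⟨Fp ⟨x, x.2.1⟩, by rw [Set.mem_preimage, hqp]; exact hs x⟩
    let g₂ : (Ap ∩ Am : Set E3) → q ⁻¹' s := fun x =>
      ⟨Fm ⟨x, x.2.2⟩, by rw [Set.mem_preimage, hqm]; exact hs x⟩
    have h1 : Continuous g₁ := Continuous.subtype_mk
      (Fp.continuous.comp (Continuous.subtype_mk continuous_subtype_val _)) _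
    have h2 : Continuous g₂ := Continuous.subtype_mk
      (Fm.continuous.comp (Continuous.subtype_mk continuous_subtype_val _)) _
    have h3 : s.restrictPreimage q ∘ g₁ = s.restrictPreimage q ∘ g₂ := by
      ext x
      show q (Fp ⟨x, x.2.1⟩) = q (Fm ⟨x, x.2.2⟩)
      rw [hqp, hqm]
    have h4 := hq.isCoveringMap_restrictPreimage.eq_of_comp_eq h1 h2 h3 ⟨ex, ex_Ap, ex_Am⟩
      (Subtype.ext (hFp.trans hFm.symm))
    intro x hx1 hx2
    exact congrArg Subtype.val (congrFun h4 ⟨x, hx1, hx2⟩)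
  let σ : E3 → E := fun x => if h : x ∈ Ap then Fp ⟨x, h⟩ else
    if h' : x ∈ Am then Fm ⟨x, h'⟩ else e₀
  have hσp : ∀ x (h : x ∈ Ap), σ x = Fp ⟨x, h⟩ := fun x h => dif_pos h
  have hσm : ∀ x (h : x ∈ Am), σ x = Fm ⟨x, h⟩ := by
    intro x h
    by_cases h1 : x ∈ Ap
    · rw [hσp x h1, hagree x h1 h]
    · show (if h : x ∈ Ap then Fp ⟨x, h⟩ else if h' : x ∈ Am then Fm ⟨x, h'⟩ else e₀) = _
      rw [dif_neg h1, dif_pos h]
  have hcp : ContinuousOn σ Ap := by
    rw [continuousOn_iff_continuous_domRestrict]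
    have : Ap.domRestrict σ = Fp := by
      ext x
      exact hσp x x.2
    rw [this]
    exact Fp.continuous
  have hcm : ContinuousOn σ Am := by
    rw [continuousOn_iff_continuous_domRestrict]
    have : Am.domRestrict σ = Fm := by
      ext x
      exact hσm x x.2
    rw [this]
    exact Fm.continuous
  refine ⟨σ, ?_, ?_⟩
  · intro x hx
    rcases union_eq x hx with h | h
    · exact (hcp.continuousAt (isOpen_Ap.mem_nhds h)).continuousWithinAt
    · exact (hcm.continuousAt (isOpen_Am.mem_nhds h)).continuousWithinAt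
  · intro x hx
    rcases union_eq x hx with h | h
    · rw [hσp x h, hqp]
    · rw [hσm x h, hqm]

end InvA

theorem inv_mfd {Y : Type} [TopologicalSpace Y] (z z2 : Y) (hz : MfdPt Y z) (hne : z ≠ z2)
    (E : Type) [TopologicalSpace E] (q : E → Y) (hq : IsCoveringMapOn q {z, z2}ᶜ)
    (h2 : ∀ y, y ≠ z → y ≠ z2 → (q ⁻¹' {y}).ncard = 2) :
    ∃ N : Set Y, IsOpen N ∧ z ∈ N ∧ ∃ σ : Y → E, ContinuousOn σ (N \ {z, z2}) ∧
      ∀ y ∈ N \ {z, z2}, q (σ y) = y := by
  classical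
  obtain ⟨U, hU, hzU, ⟨g⟩⟩ := hz
  -- a radius such that the ball around `z` misses `z2`
  obtain ⟨r, hr, hr2⟩ : ∃ r : ℝ, 0 < r ∧ ∀ h : z2 ∈ U, r ≤ dist (g ⟨z2, h⟩) (g ⟨z, hzU⟩) := by
    by_cases h : z2 ∈ U
    · refine ⟨dist (g ⟨z2, h⟩) (g ⟨z, hzU⟩), ?_, fun _ => le_refl _⟩
      rw [dist_pos]
      intro h1
      exact hne (congrArg Subtype.val (g.injective h1)).symm
    · exact ⟨1, one_pos, fun h' => absurd h' h⟩
  set c := g ⟨z, hzU⟩ with hc
  let B := OpenPartialHomeomorph.univBall (E := E3) c r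
  let ι : C(E3, Y) := ⟨fun x => (g.symm (B x) : Y), continuous_subtype_val.comp
    (g.symm.continuous.comp (OpenPartialHomeomorph.continuous_univBall c r))⟩
  have hB : ∀ x, B x ∈ Metric.ball c r := by
    intro x
    have := B.map_source (x := x) (by rw [OpenPartialHomeomorph.univBall_source]; trivial)
    rwa [OpenPartialHomeomorph.univBall_target c hr] at this
  have hB0 : B 0 = c := OpenPartialHomeomorph.univBall_apply_zero c r
  have hBl : ∀ x, B.symm (B x) = x := fun x => B.left_inv (by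
    rw [OpenPartialHomeomorph.univBall_source]; trivial)
  have hBr : ∀ x ∈ Metric.ball c r, B (B.symm x) = x := fun x hx => B.right_inv (by
    rw [OpenPartialHomeomorph.univBall_target c hr]; exact hx)
  have hι0 : ι 0 = z := by
    show (g.symm (B 0) : Y) = z
    rw [hB0, hc, g.symm_apply_apply]
  have hιz : ∀ x, x ≠ 0 → ι x ≠ z := by
    intro x hx h
    have h1 : g.symm (B x) = ⟨z, hzU⟩ := Subtype.ext h
    have h3 : B x = B 0 := by rw [hB0, hc, ← h1, g.apply_symm_apply]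
    exact hx (by rw [← hBl x, h3, hBl])
  have hιz2 : ∀ x, ι x ≠ z2 := by
    intro x h
    have hU2 : z2 ∈ U := h ▸ (g.symm (B x)).2
    have h1 : g.symm (B x) = ⟨z2, hU2⟩ := Subtype.ext h
    have h3 : B x = g ⟨z2, hU2⟩ := by rw [← h1, g.apply_symm_apply]
    have h4 := hB x
    rw [h3] at h4
    exact absurd (hr2 hU2) (not_le.2 h4)
  have hιs : ∀ x, x ≠ 0 → ι x ∈ ({z, z2} : Set Y)ᶜ := by
    intro x hx h
    rcases h with h | h
    · exact hιz x hx h
    · exact hιz2 x h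
  have hex0 : InvA.ex ≠ 0 := by
    intro h
    have := InvA.ex0
    rw [h] at this
    exact zero_ne_one this
  have hfib : (q ⁻¹' {ι InvA.ex}).Nonempty := by
    by_contra hcon
    have h3 := h2 (ι InvA.ex) (hιz _ hex0) (hιz2 _)
    rw [Set.not_nonempty_iff_eq_empty.1 hcon, Set.ncard_empty] at h3
    exact absurd h3 (by norm_num)
  obtain ⟨e₀, he₀⟩ := hfib
  obtain ⟨σ, hσ1, hσ2⟩ := InvA.section_punctured q hq ι hιs e₀ he₀
  -- the neighbourhood
  let N : Set Y := Subtype.val '' (g ⁻¹' Metric.ball c r)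
  have hN : IsOpen N := hU.isOpenMap_subtype_val _ (Metric.isOpen_ball.preimage g.continuous)
  have hzN : z ∈ N := ⟨⟨z, hzU⟩, Metric.mem_ball_self hr, rfl⟩
  refine ⟨N, hN, hzN, fun y => if h : y ∈ U then σ (B.symm (g ⟨y, h⟩)) else e₀, ?_, ?_⟩
  · have hNU : ∀ y ∈ N, y ∈ U := by
      rintro _ ⟨y, _, rfl⟩
      exact y.2
    rw [continuousOn_iff_continuous_domRestrict]
    have hcc : Continuous (fun y : (N \ {z, z2} : Set Y) =>
        σ (B.symm (g ⟨y.1, hNU y.1 y.2.1⟩))) := by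
      have hc1 : Continuous (fun y : (N \ {z, z2} : Set Y) => g ⟨y.1, hNU y.1 y.2.1⟩) :=
        g.continuous.comp (Continuous.subtype_mk continuous_subtype_val _)
      have hc1' : ∀ y : (N \ {z, z2} : Set Y), g ⟨y.1, hNU y.1 y.2.1⟩ ∈ Metric.ball c r := by
        rintro ⟨y, ⟨y', hy', rfl⟩, hy2⟩
        exact hy'
      have hc2 : Continuous (fun y : (N \ {z, z2} : Set Y) =>
          B.symm (g ⟨y.1, hNU y.1 y.2.1⟩)) :=
        (OpenPartialHomeomorph.continuousOn_univBall_symm c r).comp_continuous hc1 hc1'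
      refine hσ1.comp_continuous hc2 ?_
      rintro y h0
      have h1 := hBr _ (hc1' y)
      have h0' : B.symm (g ⟨y.1, hNU y.1 y.2.1⟩) = 0 := h0
      rw [h0', hB0, hc] at h1
      have h3 := congrArg Subtype.val (g.injective h1)
      exact y.2.2 (Or.inl h3.symm)
    refine hcc.congr fun y => ?_
    show σ (B.symm (g ⟨y.1, hNU y.1 y.2.1⟩)) =
      if h : y.1 ∈ U then σ (B.symm (g ⟨y.1, h⟩)) else e₀
    rw [dif_pos (hNU y.1 y.2.1)]
  · rintro _ ⟨⟨y, hy, rfl⟩, hy2⟩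
    have hyU : (y : Y) ∈ U := y.2
    show q (if h : (y : Y) ∈ U then σ (B.symm (g ⟨y, h⟩)) else e₀) = y
    rw [dif_pos hyU]
    have hne0 : B.symm (g y) ≠ 0 := by
      intro h0
      have h1 := hBr _ hy
      rw [h0, hB0, hc] at h1
      have h3 := congrArg Subtype.val (g.injective h1)
      exact hy2 (Or.inl h3.symm)
    rw [hσ2 _ hne0]
    show (g.symm (B (B.symm (g y))) : Y) = y
    rw [hBr _ hy, g.symm_apply_apply]

end H30
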