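import Pool.Agent.Helper30_Alex.InvCert
import Pool.Agent.Helper30_Alex.InvA

/-!
# X' does not have the invariant: the singular case
-/

set_option autoImplicit false

namespace H30

open Topology

/-! ### coverings over contractible spaces -/

/-- two disjoint lifts over a space contracting to a point -/
theorem invn_lifts {E A D : Type} [TopologicalSpace E] [TopologicalSpace A] [TopologicalSpace D]
    {q : E → A} (hq : IsCoveringMap q) (h : C(unitInterval × D, D)) (x₀ : D)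
    (h0 : ∀ x, h (0, x) = x₀) (h1 : ∀ x, h (1, x) = x) (f : C(D, A)) (e₀ e₁ : E) (hne : e₀ ≠ e₁)
    (he₀ : q e₀ = f x₀) (he₁ : q e₁ = f x₀) :
    ∃ g₀ g₁ : C(D, E), (∀ x, q (g₀ x) = f x) ∧ (∀ x, q (g₁ x) = f x) ∧ ∀ x, g₀ x ≠ g₁ x := by
  let H : C(unitInterval × D, A) := f.comp h
  have H0 : ∀ a, H (0, a) = q (ContinuousMap.const D e₀ a) := by
    intro a
    show f (h (0, a)) = q e₀
    rw [h0, he₀]
  have H1 : ∀ a, H (0, a) = q (ContinuousMap.const D e₁ a) := by
    intro a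
    show f (h (0, a)) = q e₁
    rw [h0, he₁]
  let L₀ := hq.liftHomotopy H (ContinuousMap.const D e₀) H0
  let L₁ := hq.liftHomotopy H (ContinuousMap.const D e₁) H1
  have l0 : ∀ t a, q (L₀ (t, a)) = H (t, a) := fun t a =>
    congrFun (hq.liftHomotopy_lifts H (ContinuousMap.const D e₀) H0) (t, a)
  have l1 : ∀ t a, q (L₁ (t, a)) = H (t, a) := fun t a =>
    congrFun (hq.liftHomotopy_lifts H (ContinuousMap.const D e₁) H1) (t, a)
  refine ⟨L₀.comp ⟨fun x => (1, x), by fun_prop⟩, L₁.comp ⟨fun x => (1, x), by fun_prop⟩,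
    fun x => ?_, fun x => ?_, fun x hx => ?_⟩
  · show q (L₀ (1, x)) = f x
    rw [l0]; show f (h (1, x)) = f x; rw [h1]
  · show q (L₁ (1, x)) = f x
    rw [l1]; show f (h (1, x)) = f x; rw [h1]
  · have c0 : Continuous fun t : unitInterval => L₀ (t, x) := by fun_prop
    have c1 : Continuous fun t : unitInterval => L₁ (t, x) := by fun_prop
    have h3 : (fun t : unitInterval => L₀ (t, x)) = fun t => L₁ (t, x) :=
      hq.eq_of_comp_eq c0 c1 (by ext t; simp only [Function.comp]; rw [l0, l1]) 1 hx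
    have h4 : L₀ (0, x) = L₁ (0, x) := congrFun h3 0
    apply hne
    have h5 : L₀ (0, x) = e₀ := hq.liftHomotopy_zero H (ContinuousMap.const D e₀) H0 x
    have h6 : L₁ (0, x) = e₁ := hq.liftHomotopy_zero H (ContinuousMap.const D e₁) H1 x
    rw [← h5, ← h6]; exact h4

/-! ### segments in the chamber -/

section seg

variable (C : Chamber)

/-- the point dividing the segment from `x` to `p` -/
def seg (x p : C.P) (t : unitInterval) : C.P :=
  ⟨(1 - t.1) • x.1 + t.1 • p.1, C.convex x.2 p.2 (by linarith [t.2.2]) t.2.1 (by ring)⟩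

theorem seg_zero (x p : C.P) : seg C x p 0 = x := Subtype.ext (by simp [seg])
theorem seg_one (x p : C.P) : seg C x p 1 = p := Subtype.ext (by simp [seg])

theorem continuous_seg (x : C.P) : Continuous fun z : unitInterval × C.P => seg C x z.2 z.1 := by
  unfold seg
  refine Continuous.subtype_mk ?_ _
  fun_prop

theorem seg_α (x p : C.P) (t : unitInterval) (s : S) :
    C.α s (seg C x p t).1 = (1 - t.1) * C.α s x.1 + t.1 * C.α s p.1 := by
  simp [seg]

theorem sup_seg_lt (x p : C.P) (t : unitInterval) (ht : t ≠ 1) : C.sup (seg C x p t) ⊆ C.sup x := by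
  intro s hs
  rw [C.mem_sup, seg_α] at hs
  rw [C.mem_sup]
  have h1 : 0 < 1 - t.1 := by
    have h2 : t.1 ≤ 1 := t.2.2
    have h3 : t.1 ≠ 1 := fun h => ht (Subtype.ext h)
    have := lt_of_le_of_ne h2 h3
    linarith
  have h2 := C.nonneg s x.1 x.2
  have h3 := C.nonneg s p.1 p.2
  have h4 : 0 ≤ t.1 := t.2.1
  have h5 := mul_nonneg h1.le h2
  have h6 := mul_nonneg h4 h3
  have h7 : (1 - t.1) * C.α s x.1 = 0 := by linarith
  rcases mul_eq_zero.1 h7 with h | h
  · exact absurd h h1.ne'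
  · exact h

theorem subset_sup_seg (T : Finset S) (x p : C.P) (t : unitInterval) (hx : T ⊆ C.sup x)
    (hp : T ⊆ C.sup p) : T ⊆ C.sup (seg C x p t) := by
  intro s hs
  rw [C.mem_sup, seg_α, C.mem_sup.1 (hx hs), C.mem_sup.1 (hp hs)]
  ring

end seg

/-- the point `p` in the copy `g` -/
abbrev ymk (C : Chamber) (g : V) (p : C.P) : Dev C (GX true) := Dev.mk (G := GX true) g p

theorem ymk_eq {C : Chamber} {g g' : V} {p p' : C.P} :
    ymk C g p = ymk C g' p' ↔ p = p' ∧ g - g' ∈ spn true (C.sup p) := Dev.mk_eq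

theorem ct_mem_spn {T : Finset S} {f : S} (hf : f ∈ T) : ct f ∈ spn true T :=
  ⟨{f}, Finset.mem_powerset.2 (Finset.singleton_subset_iff.2 hf), by simp⟩

theorem ymk_step {C : Chamber} (g : V) (p : C.P) (f : S) (hf : f ∈ C.sup p) :
    ymk C (g + ct f) p = ymk C g p :=
  ymk_eq.2 ⟨rfl, by rw [add_sub_cancel_left]; exact ct_mem_spn hf⟩

theorem tri_mem : ∀ n, (tri n).1 ∈ singT n ∧ (tri n).2.1 ∈ singT n ∧ (tri n).2.2 ∈ singT n := by
  decide
theorem tri_sum : ∀ n, ct (tri n).1 + ct (tri n).2.1 + ct (tri n).2.2 = 0 := by decide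
theorem tri_adj : ∀ n, adj (tri n).1 (tri n).2.1 ∧ adj (tri n).1 (tri n).2.2 ∧
    adj (tri n).2.1 (tri n).2.2 := by decide
theorem tri_ne : ∀ n, ct (tri n).1 ≠ ct (tri n).2.1 ∧ ct (tri n).1 ≠ ct (tri n).2.2 ∧
    ct (tri n).2.1 ≠ ct (tri n).2.2 ∧ ct (tri n).1 ≠ 0 ∧ ct (tri n).2.1 ≠ 0 ∧
    ct (tri n).2.2 ≠ 0 := by decide
theorem mem_singT : ∀ n, ∀ f ∈ singT n, f = (tri n).1 ∨ f = (tri n).2.1 ∨ f = (tri n).2.2 := by
  decide
theorem singT_card : ∀ n, (singT n).card = 3 := by decide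
theorem spn_singT : ∀ n, ∀ v : V, v ∈ Asub ↔
    (v = 0 ∨ v = ct (tri n).1 ∨ v = ct (tri n).2.1 ∨ v = ct (tri n).2.2) := by decide
theorem spn_singT_Asub : ∀ n, ∀ v ∈ spn true (singT n), v ∈ Asub := by
  rintro n v ⟨T', hT', rfl⟩
  refine sum_mem fun f hf => ?_
  have hf' := Finset.mem_powerset.1 hT' hf
  rw [spn_singT n]
  rcases mem_singT n f hf' with rfl | rfl | rfl
  · right; left; rfl
  · right; right; left; rfl
  · right; right; right; rfl

/-! ### a two-sheeted covering of an open part containing all points of low depth -/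

section main

variable (C : Chamber) (A : Set (Dev C (GX true))) {E : Type} [TopologicalSpace E] (q : E → A)
  (hq : IsCoveringMap q) (h2 : ∀ y : A, (q ⁻¹' {y}).ncard = 2)
  (hA : ∀ (g : V) (p : C.P), (C.sup p).card ≤ 2 → ymk C g p ∈ A)

include h2 in
theorem invn_two (a b c : E) (hab : q a = q b) (hac : q a = q c) (h1 : a ≠ b) (h3 : a ≠ c) :
    b = c := by
  obtain ⟨u, v, _, hset⟩ := Set.ncard_eq_two.1 (h2 (q a))
  have ha : a ∈ q ⁻¹' {q a} := rfl
  have hb : b ∈ q ⁻¹' {q a} := hab.symm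
  have hc : c ∈ q ⁻¹' {q a} := hac.symm
  rw [hset] at ha hb hc
  rcases ha with rfl | ha <;> rcases hb with rfl | hb <;> rcases hc with rfl | hc
  · exact absurd rfl h1
  · exact absurd rfl h1
  · exact absurd rfl h3
  · exact hb.trans hc.symm
  · rfl
  · exact absurd (ha.trans hc.symm) h3
  · exact absurd (ha.trans hb.symm) h1
  · exact absurd (ha.trans hb.symm) h1

include hq h2 hA in
theorem invn_exists_lifts (g : V) : ∃ l : ZMod 2 → C.P → E,
    (∀ ε, ContinuousOn (l ε) {p | ymk C g p ∈ A}) ∧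
    (∀ ε p (hp : ymk C g p ∈ A), q (l ε p) = ⟨ymk C g p, hp⟩) ∧
    ∀ p, ymk C g p ∈ A → l 0 p ≠ l 1 p := by
  classical
  obtain ⟨x₀, hx₀⟩ := C.exists_sup_eq (T := ∅) (by intro s hs; simp at hs)
  have hx₀A : ymk C g x₀ ∈ A := hA g x₀ (by rw [hx₀]; simp)
  let D : Type := {p : C.P // ymk C g p ∈ A}
  have hmem : ∀ z : unitInterval × D, ymk C g (seg C x₀ z.2.1 z.1) ∈ A := by
    rintro ⟨t, p, hp⟩
    by_cases ht : t = 1
    · subst ht
      show ymk C g (seg C x₀ p 1) ∈ A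
      rw [seg_one]; exact hp
    · apply hA
      have := sup_seg_lt C x₀ p t ht
      rw [hx₀, Finset.subset_empty] at this
      show (C.sup (seg C x₀ p t)).card ≤ 2
      rw [this]; simp
  let h : C(unitInterval × D, D) := ⟨fun z => ⟨seg C x₀ z.2.1 z.1, hmem z⟩, by
    refine Continuous.subtype_mk ?_ _
    exact (continuous_seg C x₀).comp (continuous_fst.prodMk
      (continuous_subtype_val.comp continuous_snd))⟩
  let f : C(D, A) := ⟨fun p => ⟨ymk C g p.1, p.2⟩, by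
    refine Continuous.subtype_mk ?_ _
    exact (Dev.continuous_mk _).comp continuous_subtype_val⟩
  obtain ⟨u, v, huv, hset⟩ := Set.ncard_eq_two.1 (h2 (f ⟨x₀, hx₀A⟩))
  have hu : q u = f ⟨x₀, hx₀A⟩ := by
    have : u ∈ q ⁻¹' {f ⟨x₀, hx₀A⟩} := by rw [hset]; simp
    exact this
  have hv : q v = f ⟨x₀, hx₀A⟩ := by
    have : v ∈ q ⁻¹' {f ⟨x₀, hx₀A⟩} := by rw [hset]; simp
    exact this
  obtain ⟨g₀, g₁, a1, a2, a3⟩ := invn_lifts hq h ⟨x₀, hx₀A⟩
    (fun x => Subtype.ext (seg_zero C x₀ x.1)) (fun x => Subtype.ext (seg_one C x₀ x.1)) f u v huv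
    hu hv
  let l : ZMod 2 → C.P → E := fun ε p =>
    if hp : ymk C g p ∈ A then (if ε = 0 then g₀ ⟨p, hp⟩ else g₁ ⟨p, hp⟩) else u
  have l0 : ∀ p (hp : ymk C g p ∈ A), l 0 p = g₀ ⟨p, hp⟩ := by
    intro p hp; simp only [l, dif_pos hp, if_true]
  have l1 : ∀ p (hp : ymk C g p ∈ A), l 1 p = g₁ ⟨p, hp⟩ := by
    intro p hp; simp only [l, dif_pos hp, one_ne_zero, if_false]
  have hε : ∀ ε : ZMod 2, ε = 0 ∨ ε = 1 := by decide
  refine ⟨l, fun ε => ?_, fun ε p hp => ?_, fun p hp => ?_⟩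
  · rw [continuousOn_iff_continuous_domRestrict]
    rcases hε ε with rfl | rfl
    · exact g₀.continuous.congr fun p => (l0 p.1 p.2).symm
    · exact g₁.continuous.congr fun p => (l1 p.1 p.2).symm
  · rcases hε ε with rfl | rfl
    · rw [l0 p hp]; exact a1 _
    · rw [l1 p hp]; exact a2 _
  · rw [l0 p hp, l1 p hp]; exact a3 _

include hA in
theorem invn_preconn (g : V) (T : Finset S) (hT : Clique T) (hc : T.card ≤ 2) :
    IsPreconnected {p : C.P | T ⊆ C.sup p ∧ ymk C g p ∈ A} := by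
  obtain ⟨x, hx⟩ := C.exists_sup_eq hT
  refine isPreconnected_of_forall x fun p hp => ?_
  refine ⟨Set.range fun t : unitInterval => seg C x p t, ?_, ⟨0, seg_zero C x p⟩,
    ⟨1, seg_one C x p⟩, ?_⟩
  · rintro _ ⟨t, rfl⟩
    refine ⟨subset_sup_seg C T x p t (by rw [hx]) hp.1, ?_⟩
    by_cases ht : t = 1
    · subst ht
      show ymk C g (seg C x p 1) ∈ A
      rw [seg_one]; exact hp.2
    · apply hA
      have := sup_seg_lt C x p t ht
      rw [hx] at this
      exact (Finset.card_le_card this).trans hc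
  · apply isPreconnected_range
    exact (continuous_seg C x).comp (continuous_id.prodMk continuous_const)

/-- data of lifts -/
structure Lifts where
  l : V → ZMod 2 → C.P → E
  cont : ∀ g ε, ContinuousOn (l g ε) {p | ymk C g p ∈ A}
  lift : ∀ g ε p (hp : ymk C g p ∈ A), q (l g ε p) = ⟨ymk C g p, hp⟩
  ne : ∀ g p, ymk C g p ∈ A → l g 0 p ≠ l g 1 p

include hq h2 hA in
theorem exists_Lifts : Nonempty (Lifts C A q) := by
  choose l h1 h3 h4 using invn_exists_lifts C A q hq h2 hA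
  exact ⟨⟨l, h1, h3, h4⟩⟩

variable {C A q}

theorem Lifts.inj (Λ : Lifts C A q) {g : V} {p : C.P} (hp : ymk C g p ∈ A) {ε ε' : ZMod 2}
    (h : Λ.l g ε p = Λ.l g ε' p) : ε = ε' := by
  have hε : ∀ ε : ZMod 2, ε = 0 ∨ ε = 1 := by decide
  rcases hε ε with rfl | rfl <;> rcases hε ε' with rfl | rfl
  · rfl
  · exact absurd h (Λ.ne g p hp)
  · exact absurd h.symm (Λ.ne g p hp)
  · rfl

include hq h2 hA in
/-- the transition function -/
theorem Lifts.exists_c (Λ : Lifts C A q) (f : S) (g : V) : ∃ c : ZMod 2, ∀ p : C.P, f ∈ C.sup p →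
    ymk C g p ∈ A → ∀ ε, Λ.l g ε p = Λ.l (g + ct f) (ε + c) p := by
  classical
  have hε : ∀ ε : ZMod 2, ε = 0 ∨ ε = 1 := by decide
  have h11 : (1 : ZMod 2) + 1 = 0 := by decide
  have hcl : Clique ({f} : Finset S) := by
    intro s hs t ht hst
    rw [Finset.mem_singleton] at hs ht
    exact absurd (hs.trans ht.symm) hst
  let Z : Set C.P := {p : C.P | {f} ⊆ C.sup p ∧ ymk C g p ∈ A}
  have hZ : IsPreconnected Z := invn_preconn C A hA g {f} hcl (by simp)
  have hZf : ∀ p ∈ Z, f ∈ C.sup p := fun p hp => Finset.singleton_subset_iff.1 hp.1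
  have hZ1 : ∀ p ∈ Z, ymk C g p ∈ A := fun p hp => hp.2
  have hZ2 : ∀ p ∈ Z, ymk C (g + ct f) p ∈ A := by
    intro p hp
    rw [ymk_step g p f (hZf p hp)]; exact hp.2
  have hq' : ∀ p ∈ Z, ∀ ε ε', q (Λ.l g ε p) = q (Λ.l (g + ct f) ε' p) := by
    intro p hp ε ε'
    rw [Λ.lift g ε p (hZ1 p hp), Λ.lift (g + ct f) ε' p (hZ2 p hp)]
    exact Subtype.ext (ymk_step g p f (hZf p hp)).symm
  by_cases hex : ∃ p ∈ Z, Λ.l g 0 p = Λ.l (g + ct f) 0 p
  · obtain ⟨a, haZ, ha⟩ := hex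
    have h3 : Set.EqOn (Λ.l g 0) (Λ.l (g + ct f) 0) Z :=
      hq.eqOn_of_comp_eqOn hZ ((Λ.cont g 0).mono hZ1) ((Λ.cont (g + ct f) 0).mono hZ2)
        (fun p hp => hq' p hp 0 0) haZ ha
    refine ⟨0, fun p hf hp ε => ?_⟩
    have hpZ : p ∈ Z := ⟨Finset.singleton_subset_iff.2 hf, hp⟩
    have h4 := h3 hpZ
    rw [add_zero]
    rcases hε ε with rfl | rfl
    · exact h4
    · exact invn_two C A q h2 (Λ.l g 0 p) _ _
        (by rw [Λ.lift g 0 p hp, Λ.lift g 1 p hp]) (hq' p hpZ 0 1) (Λ.ne g p hp)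
        (by rw [h4]; exact Λ.ne _ p (hZ2 p hpZ))
  · refine ⟨1, fun p hf hp ε => ?_⟩
    have hpZ : p ∈ Z := ⟨Finset.singleton_subset_iff.2 hf, hp⟩
    have h4 : Λ.l g 0 p ≠ Λ.l (g + ct f) 0 p := fun h => hex ⟨p, hpZ, h⟩
    have h5 : Λ.l g 0 p = Λ.l (g + ct f) 1 p :=
      (invn_two C A q h2 (Λ.l (g + ct f) 0 p) _ _
        (by rw [Λ.lift _ 0 p (hZ2 p hpZ), Λ.lift _ 1 p (hZ2 p hpZ)]) (hq' p hpZ 0 0).symm
        (Λ.ne _ p (hZ2 p hpZ)) (Ne.symm h4)).symm
    rcases hε ε with rfl | rfl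
    · rw [zero_add]; exact h5
    · rw [h11]
      exact invn_two C A q h2 (Λ.l g 0 p) _ _
        (by rw [Λ.lift g 0 p hp, Λ.lift g 1 p hp]) (hq' p hpZ 0 0) (Λ.ne g p hp) h4

include hq h2 hA in
theorem Lifts.exists_rel (Λ : Lifts C A q) : ∃ c : S → V → ZMod 2, Rel c ∧
    (∀ f g (p : C.P), f ∈ C.sup p → ymk C g p ∈ A → ∀ ε,
      Λ.l g ε p = Λ.l (g + ct f) (ε + c f g) p) ∧
    ∀ n g (p : C.P), C.sup p = singT n → ymk C g p ∈ A → RR c n g = 0 := by
  choose c hc using Λ.exists_c hq h2 hA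
  have hcl1 : ∀ f : S, Clique ({f} : Finset S) := by
    intro f s hs t ht hst
    rw [Finset.mem_singleton] at hs ht
    exact absurd (hs.trans ht.symm) hst
  have hsym : ∀ f g, c f (g + ct f) = c f g := by
    intro f g
    obtain ⟨p, hp⟩ := C.exists_sup_eq (hcl1 f)
    have hf : f ∈ C.sup p := by rw [hp]; simp
    have hpA : ∀ g, ymk C g p ∈ A := fun g => hA g p (by rw [hp]; simp)
    have h3 := hc f g p hf (hpA g) 0
    have h4 := hc f (g + ct f) p hf (hpA _) (0 + c f g)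
    rw [add_assoc g, V.add_self, add_zero] at h4
    have h5 := Λ.inj (hpA g) (h3.trans h4)
    have key : ∀ a b : ZMod 2, 0 = 0 + a + b → b = a := by decide
    exact key _ _ h5
  have hcl2 : ∀ f f' : S, adj f f' → Clique ({f, f'} : Finset S) := by
    intro f f' ha s hs t ht hst
    rw [Finset.mem_insert, Finset.mem_singleton] at hs ht
    rcases hs with rfl | rfl <;> rcases ht with rfl | rfl
    · exact absurd rfl hst
    · exact ha
    · exact adj_symm ha
    · exact absurd rfl hst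
  refine ⟨c, ⟨hsym, ?_, ?_⟩, hc, ?_⟩
  · intro f f' ha _ g
    obtain ⟨p, hp⟩ := C.exists_sup_eq (hcl2 f f' ha)
    have hf : f ∈ C.sup p := by rw [hp]; simp
    have hf' : f' ∈ C.sup p := by rw [hp]; simp
    have hpA : ∀ g, ymk C g p ∈ A := fun g => hA g p (by rw [hp]; exact Finset.card_le_two)
    have h3 := hc f g p hf (hpA g) 0
    have h4 := hc f' (g + ct f) p hf' (hpA _) (0 + c f g)
    have h5 := hc f (g + ct f + ct f') p hf (hpA _) (0 + c f g + c f' (g + ct f))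
    have h6 := hc f' (g + ct f + ct f' + ct f) p hf' (hpA _)
      (0 + c f g + c f' (g + ct f) + c f (g + ct f + ct f'))
    have e1 : g + ct f + ct f' + ct f + ct f' = g := by
      calc g + ct f + ct f' + ct f + ct f' = g + (ct f + ct f) + (ct f' + ct f') := by abel
        _ = g := by rw [V.add_self, V.add_self, add_zero, add_zero]
    rw [e1] at h6
    have h7 := Λ.inj (hpA g) (h3.trans (h4.trans (h5.trans h6)))
    have e2 : c f (g + ct f + ct f') = c f (g + ct f') := by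
      rw [add_right_comm, hsym]
    have e3 : c f' (g + ct f + ct f' + ct f) = c f' g := by
      rw [show g + ct f + ct f' + ct f = g + (ct f + ct f) + ct f' by abel, V.add_self, add_zero,
        hsym]
    rw [e2, e3] at h7
    have key : ∀ a b c d : ZMod 2, 0 = 0 + a + b + c + d → a + b + c + d = 0 := by decide
    exact key _ _ _ _ h7
  · intro f f' ha hcol g
    obtain ⟨p, hp⟩ := C.exists_sup_eq (hcl2 f f' ha)
    have hf : f ∈ C.sup p := by rw [hp]; simp
    have hf' : f' ∈ C.sup p := by rw [hp]; simp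
    have hpA : ∀ g, ymk C g p ∈ A := fun g => hA g p (by rw [hp]; exact Finset.card_le_two)
    have h3 := hc f g p hf (hpA g) 0
    have h4 := hc f' g p hf' (hpA g) 0
    rw [← hcol] at h4
    have h5 := Λ.inj (hpA _) (h3.symm.trans h4)
    simpa using h5
  · intro n g p hp hpA
    have m1 : (tri n).1 ∈ C.sup p := by rw [hp]; exact (tri_mem n).1
    have m2 : (tri n).2.1 ∈ C.sup p := by rw [hp]; exact (tri_mem n).2.1
    have m3 : (tri n).2.2 ∈ C.sup p := by rw [hp]; exact (tri_mem n).2.2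
    have e0 : ct (tri n).1 + ct (tri n).2.1 + ct (tri n).2.2 = 0 := tri_sum n
    have a1 : ymk C (g + ct (tri n).1) p ∈ A := by rw [ymk_step _ _ _ m1]; exact hpA
    have a2 : ymk C (g + ct (tri n).1 + ct (tri n).2.1) p ∈ A := by
      rw [ymk_step _ _ _ m2]; exact a1
    have h3 := hc _ g p m1 hpA 0
    have h4 := hc _ _ p m2 a1 (0 + c (tri n).1 g)
    have h5 := hc _ _ p m3 a2 (0 + c (tri n).1 g + c (tri n).2.1 (g + ct (tri n).1))
    have e1 : g + ct (tri n).1 + ct (tri n).2.1 + ct (tri n).2.2 = g := by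
      rw [add_assoc, add_assoc, ← add_assoc (ct (tri n).1), e0, add_zero]
    rw [e1] at h5
    have h7 := Λ.inj hpA (h3.trans (h4.trans h5))
    have key : ∀ a b c : ZMod 2, 0 = 0 + a + b + c → a + b + c = 0 := by decide
    exact key _ _ _ h7

/-- the vertex relation makes the transition function a coboundary on the coset -/
theorem exists_beta (c : S → V → ZMod 2) (hc : Rel c) (n : Fin 4) (g₀ : V) (hR : RR c n g₀ = 0) :
    ∃ β : V → ZMod 2, ∀ a ∈ Asub, ∀ f ∈ singT n,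
      β (g₀ + a + ct f) = β (g₀ + a) + c f (g₀ + a) := by
  obtain ⟨n1, n2, n3, z1, z2, z3⟩ := tri_ne n
  obtain ⟨d1, d2, d3⟩ := tri_adj n
  have hsum := tri_sum n
  have hs := mem_singT n
  have hA := spn_singT n
  unfold RR at hR
  generalize (tri n).1 = f1 at *
  generalize (tri n).2.1 = f2 at *
  generalize (tri n).2.2 = f3 at *
  have s12 : ct f1 + ct f2 = ct f3 := by
    have := V.add_self (ct f3)
    calc ct f1 + ct f2 = ct f1 + ct f2 + (ct f3 + ct f3) := by rw [this, add_zero]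
      _ = ct f1 + ct f2 + ct f3 + ct f3 := by abel
      _ = ct f3 := by rw [hsum, zero_add]
  have s13 : ct f1 + ct f3 = ct f2 := by
    rw [← s12, ← add_assoc, V.add_self, zero_add]
  have s23 : ct f2 + ct f3 = ct f1 := by
    rw [← s12, add_comm (ct f1), ← add_assoc, V.add_self, zero_add]
  have s21 : ct f2 + ct f1 = ct f3 := by rw [add_comm]; exact s12
  have s31 : ct f3 + ct f1 = ct f2 := by rw [add_comm]; exact s13
  have s32 : ct f3 + ct f2 = ct f1 := by rw [add_comm]; exact s23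
  let β' : V → ZMod 2 := fun v =>
    if v = 0 then 0 else if v = ct f1 then c f1 g₀ else if v = ct f2 then c f2 g₀ else c f3 g₀
  have b0 : β' 0 = 0 := by simp only [β', if_true]
  have b1 : β' (ct f1) = c f1 g₀ := by simp only [β', if_neg z1, if_true]
  have b2 : β' (ct f2) = c f2 g₀ := by simp only [β', if_neg z2, if_neg (Ne.symm n1), if_true]
  have b3 : β' (ct f3) = c f3 g₀ := by
    simp only [β', if_neg z3, if_neg (Ne.symm n2), if_neg (Ne.symm n3)]
  -- relations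
  have y1 := hc.sym f1 g₀
  have y2 := hc.sym f2 g₀
  have y3 := hc.sym f3 g₀
  have r12 := hc.edge f1 f2 d1 n1 g₀
  have r13 := hc.edge f1 f3 d2 n2 g₀
  have r23 := hc.edge f2 f3 d3 n3 g₀
  have t1 : c f1 (g₀ + ct f3) = c f1 (g₀ + ct f2) := by
    rw [← s21, ← add_assoc, hc.sym]
  have t2 : c f2 (g₀ + ct f3) = c f2 (g₀ + ct f1) := by
    rw [← s12, ← add_assoc, hc.sym]
  have t3 : c f3 (g₀ + ct f2) = c f3 (g₀ + ct f1) := by
    rw [← s13, ← add_assoc, hc.sym]
  have hR' : c f1 g₀ + c f2 (g₀ + ct f1) + c f3 g₀ = 0 := by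
    rw [add_assoc g₀, s12, hc.sym] at hR; exact hR
  refine ⟨fun v => β' (v - g₀), fun a ha f hf => ?_⟩
  show β' (g₀ + a + ct f - g₀) = β' (g₀ + a - g₀) + c f (g₀ + a)
  rw [show g₀ + a + ct f - g₀ = a + ct f by abel, add_sub_cancel_left]
  have key1 : ∀ x : ZMod 2, 0 = x + x := by decide
  rcases (hA a).1 ha with h | h | h | h <;> rcases hs f hf with h' | h' | h' <;> rw [h, h'] <;>
    clear h h'
  · rw [zero_add, add_zero, b0, b1, zero_add]
  · rw [zero_add, add_zero, b0, b2, zero_add]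
  · rw [zero_add, add_zero, b0, b3, zero_add]
  · rw [V.add_self, b0, b1, y1]; exact key1 _
  · rw [s12, b3, b1]
    generalize c f1 g₀ = x1 at *; generalize c f2 (g₀ + ct f1) = x2 at *
    generalize c f3 g₀ = x3 at *
    revert hR'; clear * -; revert x1 x2 x3; decide
  · rw [s13, b2, b1]
    rw [t1] at r13
    generalize c f1 g₀ = x1 at *; generalize c f2 (g₀ + ct f1) = x2 at *
    generalize c f3 g₀ = x3 at *; generalize c f2 g₀ = x4 at *
    generalize c f3 (g₀ + ct f1) = x5 at *; generalize c f1 (g₀ + ct f2) = x6 at *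
    revert hR' r12 r13; clear * -; revert x1 x2 x3 x4 x5 x6; decide
  · rw [s21, b3, b2]
    generalize c f1 g₀ = x1 at *; generalize c f2 (g₀ + ct f1) = x2 at *
    generalize c f3 g₀ = x3 at *; generalize c f2 g₀ = x4 at *
    generalize c f1 (g₀ + ct f2) = x6 at *
    revert hR' r12; clear * -; revert x1 x2 x3 x4 x6; decide
  · rw [V.add_self, b0, b2, y2]; exact key1 _
  · rw [s23, b1, b2, t3]
    rw [t1] at r13
    rw [t2, t3] at r23
    generalize c f1 g₀ = x1 at *; generalize c f2 (g₀ + ct f1) = x2 at *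
    generalize c f3 g₀ = x3 at *; generalize c f2 g₀ = x4 at *
    generalize c f3 (g₀ + ct f1) = x5 at *; generalize c f1 (g₀ + ct f2) = x6 at *
    revert hR' r12 r13 r23; clear * -; revert x1 x2 x3 x4 x5 x6; decide
  · rw [s31, b2, b3, t1]
    rw [t1] at r13
    generalize c f1 g₀ = x1 at *; generalize c f2 (g₀ + ct f1) = x2 at *
    generalize c f3 g₀ = x3 at *; generalize c f2 g₀ = x4 at *
    generalize c f3 (g₀ + ct f1) = x5 at *; generalize c f1 (g₀ + ct f2) = x6 at *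
    revert hR' r12 r13; clear * -; revert x1 x2 x3 x4 x5 x6; decide
  · rw [s32, b1, b3, t2]
    generalize c f1 g₀ = x1 at *; generalize c f2 (g₀ + ct f1) = x2 at *
    generalize c f3 g₀ = x3 at *
    revert hR'; clear * -; revert x1 x2 x3; decide
  · rw [V.add_self, b0, b3, y3]; exact key1 _

include hA in
/-- well-definedness of the section near the vertex -/
theorem Lifts.wd (Λ : Lifts C A q) (c : S → V → ZMod 2)
    (hcl : ∀ f g (p : C.P), f ∈ C.sup p → ymk C g p ∈ A → ∀ ε,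
      Λ.l g ε p = Λ.l (g + ct f) (ε + c f g) p)
    (n : Fin 4) (g₀ : V) (β : V → ZMod 2)
    (hβ : ∀ a ∈ Asub, ∀ f ∈ singT n, β (g₀ + a + ct f) = β (g₀ + a) + c f (g₀ + a))
    (p : C.P) (hp : C.sup p ⊆ singT n) (T : Finset S) (hT : T ⊆ C.sup p) (a : V) (ha : a ∈ Asub)
    (hA' : ymk C (g₀ + a) p ∈ A) :
    Λ.l (g₀ + a) (β (g₀ + a)) p = Λ.l (g₀ + a + ∑ f ∈ T, ct f) (β (g₀ + a + ∑ f ∈ T, ct f)) p := by
  classical
  have _ := hA
  induction T using Finset.induction_on with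
  | empty => simp
  | insert f T hf ih =>
    have hT' : T ⊆ C.sup p := fun x hx => hT (Finset.mem_insert_of_mem hx)
    have hfp : f ∈ C.sup p := hT (Finset.mem_insert_self _ _)
    have ih' := ih hT'
    have hsum : ∑ x ∈ T, ct x ∈ Asub := by
      refine sum_mem fun x hx => spn_singT_Asub n _ (ct_mem_spn (hp (hT' hx)))
    have e1 : g₀ + a + ∑ x ∈ T, ct x = g₀ + (a + ∑ x ∈ T, ct x) := add_assoc _ _ _
    have e2 : g₀ + a + ∑ x ∈ insert f T, ct x = g₀ + (a + ∑ x ∈ T, ct x) + ct f := by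
      rw [Finset.sum_insert hf]; abel
    have hA2 : ymk C (g₀ + (a + ∑ x ∈ T, ct x)) p ∈ A := by
      have : ymk C (g₀ + (a + ∑ x ∈ T, ct x)) p = ymk C (g₀ + a) p := by
        refine ymk_eq.2 ⟨rfl, ?_⟩
        rw [show g₀ + (a + ∑ x ∈ T, ct x) - (g₀ + a) = ∑ x ∈ T, ct x by abel]
        exact ⟨T, Finset.mem_powerset.2 hT', rfl⟩
      rw [this]; exact hA'
    rw [ih', e2, hβ _ (add_mem ha hsum) f (hp hfp), e1]
    exact hcl f _ p hfp hA2 _

end main

theorem clique_singT : ∀ n : Fin 4, Clique (singT n) := by decide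

theorem singT_inj : ∀ n n' : Fin 4, singT n = singT n' → n = n' := by decide

/-- the section near a singular vertex -/
theorem inv_sing (C : Chamber) (n₀ n₁ : Fin 4) (g₀ g₁ : V) (p₀ p₁ : C.P)
    (hp₀ : C.sup p₀ = singT n₀) (hp₁ : C.sup p₁ = singT n₁) (hne : ymk C g₀ p₀ ≠ ymk C g₁ p₁)
    {E : Type} [TopologicalSpace E] (q : E → Dev C (GX true))
    (hq : IsCoveringMapOn q {ymk C g₀ p₀, ymk C g₁ p₁}ᶜ)
    (h2 : ∀ y, y ≠ ymk C g₀ p₀ → y ≠ ymk C g₁ p₁ → (q ⁻¹' {y}).ncard = 2) :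
    ∃ N : Set (Dev C (GX true)), IsOpen N ∧ ymk C g₀ p₀ ∈ N ∧ ∃ σ : Dev C (GX true) → E,
      ContinuousOn σ (N \ {ymk C g₀ p₀, ymk C g₁ p₁}) ∧
      ∀ y ∈ N \ {ymk C g₀ p₀, ymk C g₁ p₁}, q (σ y) = y := by
  classical
  let A : Set (Dev C (GX true)) := {ymk C g₀ p₀, ymk C g₁ p₁}ᶜ
  have hmemA : ∀ y, y ∈ A ↔ y ≠ ymk C g₀ p₀ ∧ y ≠ ymk C g₁ p₁ := by
    intro y
    simp only [A, Set.mem_compl_iff, Set.mem_insert_iff, Set.mem_singleton_iff, not_or]
  have hq' : IsCoveringMap (A.restrictPreimage q) := hq.isCoveringMap_restrictPreimage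
  have h2' : ∀ y : A, ((A.restrictPreimage q) ⁻¹' {y}).ncard = 2 := by
    rintro ⟨y, hy⟩
    have h3 := h2 y ((hmemA y).1 hy).1 ((hmemA y).1 hy).2
    have h4 : Subtype.val '' ((A.restrictPreimage q) ⁻¹' {⟨y, hy⟩}) = q ⁻¹' {y} := by
      ext e
      constructor
      · rintro ⟨⟨e, he⟩, h, rfl⟩
        exact congrArg Subtype.val h
      · intro h
        have hey : q e = y := h
        exact ⟨⟨e, by show q e ∈ A; rw [hey]; exact hy⟩, Subtype.ext hey, rfl⟩
    rw [← h4, Set.ncard_image_of_injective _ Subtype.val_injective] at h3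
    exact h3
  have hA : ∀ (g : V) (p : C.P), (C.sup p).card ≤ 2 → ymk C g p ∈ A := by
    intro g p hc
    rw [hmemA]
    constructor
    · intro h
      rw [(ymk_eq.1 h).1, hp₀, singT_card] at hc
      omega
    · intro h
      rw [(ymk_eq.1 h).1, hp₁, singT_card] at hc
      omega
  obtain ⟨Λ⟩ := exists_Lifts C A _ hq' h2' hA
  obtain ⟨c, hc, hcl, hRR⟩ := Λ.exists_rel hq' h2' hA
  have hR0 : RR c n₀ g₀ = 0 := by
    by_cases hcase : n₀ = n₁ ∧ g₁ - g₀ ∈ Asub
    · -- a third point of the same face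
      obtain ⟨hn, hg⟩ := hcase
      have hpne : p₀ ≠ p₁ := by
        intro h
        apply hne
        refine ymk_eq.2 ⟨h, ?_⟩
        rw [hp₀]
        have h5 : g₀ - g₁ ∈ Asub := by rw [← neg_sub]; exact neg_mem hg
        rcases (spn_singT n₀ _).1 h5 with h6 | h6 | h6 | h6
        · rw [h6]; exact zero_mem _
        · rw [h6]; exact ct_mem_spn (tri_mem n₀).1
        · rw [h6]; exact ct_mem_spn (tri_mem n₀).2.1
        · rw [h6]; exact ct_mem_spn (tri_mem n₀).2.2
      have ht1 : (1 / 2 : ℝ) ∈ Set.Icc (0 : ℝ) 1 := by constructor <;> norm_num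
      let τ : unitInterval := ⟨1 / 2, ht1⟩
      have hτ : τ ≠ 1 := by
        intro h
        have := congrArg Subtype.val h
        norm_num [τ] at this
      have hs1 : C.sup (seg C p₀ p₁ τ) = singT n₀ := by
        apply Finset.Subset.antisymm
        · rw [← hp₀]; exact sup_seg_lt C p₀ p₁ τ hτ
        · exact subset_sup_seg C _ p₀ p₁ τ (by rw [hp₀]) (by rw [hp₁, hn])
      have hval : (seg C p₀ p₁ τ).1 = (1 - (1 / 2 : ℝ)) • p₀.1 + (1 / 2 : ℝ) • p₁.1 := rfl
      have hv0 : seg C p₀ p₁ τ ≠ p₀ := by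
        intro h
        apply hpne
        have h5 := congrArg Subtype.val h
        rw [hval] at h5
        apply Subtype.ext
        have h6 : (1 / 2 : ℝ) • p₁.1 = (1 / 2 : ℝ) • p₀.1 := by
          have h7 : (1 / 2 : ℝ) • p₁.1 = p₀.1 - (1 - (1 / 2 : ℝ)) • p₀.1 :=
            eq_sub_of_add_eq' h5
          rw [h7]; module
        exact (smul_right_injective _ (by norm_num : (1 / 2 : ℝ) ≠ 0) h6).symm
      have hv1 : seg C p₀ p₁ τ ≠ p₁ := by
        intro h
        apply hpne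
        have h5 := congrArg Subtype.val h
        rw [hval] at h5
        apply Subtype.ext
        have h6 : (1 / 2 : ℝ) • p₀.1 = (1 / 2 : ℝ) • p₁.1 := by
          have h7 : (1 - (1 / 2 : ℝ)) • p₀.1 = p₁.1 - (1 / 2 : ℝ) • p₁.1 :=
            eq_sub_of_add_eq h5
          calc (1 / 2 : ℝ) • p₀.1 = (1 - (1 / 2 : ℝ)) • p₀.1 := by norm_num
            _ = p₁.1 - (1 / 2 : ℝ) • p₁.1 := h7
            _ = (1 / 2 : ℝ) • p₁.1 := by module
        exact smul_right_injective _ (by norm_num : (1 / 2 : ℝ) ≠ 0) h6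
      refine hRR n₀ g₀ _ hs1 ?_
      rw [hmemA]
      exact ⟨fun h => hv0 (ymk_eq.1 h).1, fun h => hv1 (ymk_eq.1 h).1⟩
    · refine hc.main n₀ n₁ g₀ g₁ ?_ fun n g h3 h4 => ?_
      · by_cases hn : n₀ = n₁
        · exact Or.inr fun h => hcase ⟨hn, h⟩
        · exact Or.inl hn
      · have hcln : Clique (singT n) := clique_singT n
        obtain ⟨p, hp⟩ := C.exists_sup_eq hcln
        refine hRR n g p hp ?_
        rw [hmemA]
        constructor
        · intro h
          obtain ⟨h5, h6⟩ := ymk_eq.1 h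
          rw [h5, hp₀] at hp
          rw [h5, hp₀] at h6
          rcases h3 with h3 | h3
          · exact h3 (singT_inj _ _ hp).symm
          · exact h3 (spn_singT_Asub _ _ h6)
        · intro h
          obtain ⟨h5, h6⟩ := ymk_eq.1 h
          rw [h5, hp₁] at hp
          rw [h5, hp₁] at h6
          rcases h4 with h4 | h4
          · exact h4 (singT_inj _ _ hp).symm
          · exact h4 (spn_singT_Asub _ _ h6)
  obtain ⟨β, hβ⟩ := exists_beta c hc n₀ g₀ hR0
  -- a default point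
  obtain ⟨x₀, hx₀⟩ := C.exists_sup_eq (T := ∅) (by intro s hs; simp at hs)
  let e₀ : E := (Λ.l 0 0 x₀).1
  let Good : Dev C (GX true) → V × C.P → Prop := fun y x =>
    y = ymk C x.1 x.2 ∧ C.sup x.2 ⊆ singT n₀ ∧ x.1 - g₀ ∈ Asub
  let σ : Dev C (GX true) → E := fun y =>
    if h : ∃ x, Good y x then (Λ.l h.choose.1 (β h.choose.1) h.choose.2).1 else e₀
  have hσ : ∀ (g : V) (p : C.P), C.sup p ⊆ singT n₀ → g - g₀ ∈ Asub → ymk C g p ∈ A →
      σ (ymk C g p) = (Λ.l g (β g) p).1 := by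
    intro g p hp hg hpA
    have h : ∃ x, Good (ymk C g p) x := ⟨(g, p), rfl, hp, hg⟩
    have h3 : σ (ymk C g p) = (Λ.l h.choose.1 (β h.choose.1) h.choose.2).1 := dif_pos h
    rw [h3]
    obtain ⟨h4, h5, h6⟩ := h.choose_spec
    generalize h.choose = x at *
    obtain ⟨g', p'⟩ := x
    obtain ⟨h7, h8⟩ := ymk_eq.1 h4
    obtain rfl : p = p' := h7
    obtain ⟨T, hT, hT2⟩ := h8
    have h9 := Λ.wd hA c hcl n₀ g₀ β hβ p hp T (Finset.mem_powerset.1 hT) (g' - g₀) h6 (by
      rw [add_sub_cancel]; rw [← h4]; exact hpA)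
    have e1 : g₀ + (g' - g₀) = g' := by abel
    have e2 : g' + ∑ f ∈ T, ct f = g := by
      show g' + ∑ f ∈ T, col true f = g
      rw [hT2]
      show g' + (g - g') = g
      abel
    rw [e1, e2] at h9
    exact congrArg Subtype.val h9
  have hstar : ∀ (g : V) (p : C.P), (ymk C g p) ∈ (Dev.star (G := GX true) g₀ p₀ : Set _) →
      C.sup p ⊆ singT n₀ ∧ g - g₀ ∈ Asub := by
    intro g p h
    obtain ⟨h3, h4⟩ := Dev.mem_star_mk.1 h
    rw [hp₀] at h3 h4
    refine ⟨h3, ?_⟩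
    have h5 : g₀ - g ∈ Asub := spn_singT_Asub n₀ _ h4
    rw [← neg_sub]; exact neg_mem h5
  refine ⟨Dev.star (G := GX true) g₀ p₀, Dev.isOpen_star _ _, Dev.self_mem_star _ _, σ, ?_, ?_⟩
  · rw [continuousOn_iff_continuous_domRestrict]
    let O : Set (Dev C (GX true)) :=
      Dev.star (G := GX true) g₀ p₀ \ {ymk C g₀ p₀, ymk C g₁ p₁}
    let F : V → Set O := fun g => {y | g - g₀ ∈ Asub ∧ y.1 ∈ Set.range (ymk C g)}
    have hFc : ∀ g, IsClosed (F g) := by
      intro g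
      by_cases hg : g - g₀ ∈ Asub
      · have : F g = Subtype.val ⁻¹' (Set.range (ymk C g)) := by
          ext y; exact ⟨fun h => h.2, fun h => ⟨hg, h⟩⟩
        rw [this]
        exact (Dev.isClosedEmbedding_mk (G := GX true) g).isClosed_range.preimage
          continuous_subtype_val
      · have : F g = ∅ := by
          ext y; exact ⟨fun h => hg h.1, fun h => h.elim⟩
        rw [this]; exact isClosed_empty
    have hcov : ⋃ g, F g = Set.univ := by
      ext y
      simp only [Set.mem_iUnion, Set.mem_univ, iff_true]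
      obtain ⟨y, hy⟩ := y
      have key : ∀ (g : V) (p : C.P) (hy : ymk C g p ∈ O), ∃ g', (⟨ymk C g p, hy⟩ : O) ∈ F g' :=
        fun g p hy => ⟨g, (hstar g p hy.1).2, ⟨p, rfl⟩⟩
      obtain ⟨g, p, rfl⟩ := Dev.exists_rep y
      exact key g p hy
    have hfin : Finite V := inferInstance
    refine (locallyFinite_of_finite F).continuous hcov hFc fun g => ?_
    have h3 : Set.EqOn (O.domRestrict σ) (fun y => (Λ.l g (β g) (Dev.pr y.1)).1) (F g) := by
      rintro ⟨y, hy⟩ ⟨hg, p, rfl⟩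
      have hy' : ymk C g p ∈ A := hy.2
      exact hσ g p (hstar g p hy.1).1 hg hy'
    refine ContinuousOn.congr ?_ h3
    refine continuous_subtype_val.comp_continuousOn ?_
    refine (Λ.cont g (β g)).comp ((Dev.continuous_pr.comp continuous_subtype_val).continuousOn) ?_
    rintro ⟨y, hy⟩ ⟨_, p, rfl⟩
    exact hy.2
  · intro y hy
    have key : ∀ (g : V) (p : C.P),
        ymk C g p ∈ (Dev.star (G := GX true) g₀ p₀ \ {ymk C g₀ p₀, ymk C g₁ p₁} : Set _) →
        q (σ (ymk C g p)) = ymk C g p := by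
      intro g p hy
      have hy' : ymk C g p ∈ A := hy.2
      rw [hσ g p (hstar g p hy.1).1 (hstar g p hy.1).2 hy']
      exact congrArg Subtype.val (Λ.lift g (β g) p hy')
    obtain ⟨g, p, rfl⟩ := Dev.exists_rep y
    exact key g p hy

/-- X' does not have the invariant -/
theorem not_inv_true (C : Chamber)
    (hm : ∀ (p : C.P) (i : V), (∀ n, C.sup p ≠ singT n) →
      MfdPt (Dev C (GX true)) (Dev.mk (G := GX true) i p)) : ¬ Inv (Dev C (GX true)) := by
  rintro ⟨s, t, hst, E, _, q, hq, h2, h3⟩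
  have key : ∀ (g₀ : V) (p₀ : C.P) (g₁ : V) (p₁ : C.P), ymk C g₀ p₀ ≠ ymk C g₁ p₁ →
      IsCoveringMapOn q {ymk C g₀ p₀, ymk C g₁ p₁}ᶜ →
      (∀ y, y ≠ ymk C g₀ p₀ → y ≠ ymk C g₁ p₁ → (q ⁻¹' {y}).ncard = 2) →
      (∀ z, z = ymk C g₀ p₀ ∨ z = ymk C g₁ p₁ → ∀ N : Set (Dev C (GX true)), IsOpen N → z ∈ N →
      ¬ ∃ σ : Dev C (GX true) → E, ContinuousOn σ (N \ {ymk C g₀ p₀, ymk C g₁ p₁}) ∧
        ∀ y ∈ N \ {ymk C g₀ p₀, ymk C g₁ p₁}, q (σ y) = y) → False := by
    intro g₀ p₀ g₁ p₁ hst hq h2 h3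
    by_cases hs : ∀ n, C.sup p₀ ≠ singT n
    · obtain ⟨N, hN, hz, hσ⟩ := inv_mfd (ymk C g₀ p₀) (ymk C g₁ p₁) (hm p₀ g₀ hs) hst E q hq h2
      exact h3 _ (Or.inl rfl) N hN hz hσ
    · by_cases ht : ∀ n, C.sup p₁ ≠ singT n
      · have hpair : ({ymk C g₀ p₀, ymk C g₁ p₁} : Set (Dev C (GX true))) =
            {ymk C g₁ p₁, ymk C g₀ p₀} := Set.pair_comm _ _
        obtain ⟨N, hN, hz, hσ⟩ := inv_mfd (ymk C g₁ p₁) (ymk C g₀ p₀) (hm p₁ g₁ ht)
          (Ne.symm hst) E q (by rw [← hpair]; exact hq) (fun y h1 h2' => h2 y h2' h1)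
        rw [← hpair] at hσ
        exact h3 _ (Or.inr rfl) N hN hz hσ
      · push Not at hs ht
        obtain ⟨n₀, hn₀⟩ := hs
        obtain ⟨n₁, hn₁⟩ := ht
        obtain ⟨N, hN, hz, hσ⟩ := inv_sing C n₀ n₁ g₀ g₁ p₀ p₁ hn₀ hn₁ hst q hq h2
        exact h3 _ (Or.inl rfl) N hN hz hσ
  obtain ⟨g₀, p₀, rfl⟩ := Dev.exists_rep s
  obtain ⟨g₁, p₁, rfl⟩ := Dev.exists_rep t
  exact key g₀ p₀ g₁ p₁ hst hq h2 h3

end H30
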