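import Pool.Agent.Helper30_Alex.Space
import Pool.Agent.Helper30_Alex.HEq
import Pool.Agent.Helper30_Alex.Asph
import Pool.Agent.Helper30_Alex.InvN

/-!
# The theorem
-/

set_option autoImplicit false

namespace H30

/-- An Alexandrov space: complete, locally compact length space of finite Hausdorff dimension with
curvature bounded below (by some real number, without loss of generality by `-κ^2 < 0`). -/
structure IsAlexandrov (X : Type) [MetricSpace X] : Prop where
  complete : CompleteSpace X
  locallyCompact : LocallyCompactSpace X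
  length : LengthSpace X
  dim_finite : dimH (Set.univ : Set X) < ⊤
  curv : ∃ κ : ℝ, 0 < κ ∧ CurvGE κ X

/-- Closed connected aspherical Alexandrov space of dimension three: compact, connected, every
point has a neighbourhood homeomorphic to R^3 or to the open cone over the projective plane (so
the boundary is empty), and all homotopy groups from the second on vanish. -/
structure IsClosedAspherical3 (X : Type) [MetricSpace X] : Prop where
  alex : IsAlexandrov X
  dim : dimH (Set.univ : Set X) = 3
  compact : CompactSpace X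
  pathConnected : PathConnectedSpace X
  no_boundary : ∀ x : X, MfdPt X x ∨ ConePt X x
  aspherical : ∀ (n : ℕ), 2 ≤ n → ∀ x : X, Subsingleton (HomotopyGroup (Fin n) X x)

/-! ### transport along homeomorphisms -/

open scoped Topology.Homotopy in
theorem final_hgroup {X Y : Type} [TopologicalSpace X] [TopologicalSpace Y] (e : X ≃ₜ Y) (n : ℕ)
    (x : X) (h : Subsingleton (HomotopyGroup (Fin n) X x)) :
    Subsingleton (HomotopyGroup (Fin n) Y (e x)) := by
  let φ : C(Y, X) := ⟨e.symm, e.symm.continuous⟩
  let ψ : C(X, Y) := ⟨e, e.continuous⟩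
  let T : GenLoop (Fin n) Y (e x) → GenLoop (Fin n) X x := fun f =>
    ⟨φ.comp f.1, fun y hy => by
      show e.symm (f y) = x
      rw [GenLoop.boundary f y hy, e.symm_apply_apply]⟩
  have hT : ∀ f : GenLoop (Fin n) Y (e x), ψ.comp (T f).1 = f.1 := by
    intro f
    ext y
    exact e.apply_symm_apply _
  refine ⟨fun a b => ?_⟩
  induction a using Quotient.inductionOn with
  | _ f =>
  induction b using Quotient.inductionOn with
  | _ g =>
  apply Quotient.sound
  have h1 : (Quotient.mk (GenLoop.Homotopic.setoid (Fin n) x) (T f)) =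
      Quotient.mk (GenLoop.Homotopic.setoid (Fin n) x) (T g) := Subsingleton.elim
        (α := HomotopyGroup (Fin n) X x) _ _
  obtain ⟨H⟩ := Quotient.exact h1
  have H2 := H.compContinuousMap ψ
  rw [hT, hT] at H2
  exact ⟨H2⟩

noncomputable def final_heq {X Y : Type} [TopologicalSpace X] [TopologicalSpace Y] (e : X ≃ₜ Y) :
    ContinuousMap.HomotopyEquiv X Y := e.toHomotopyEquiv

/-! ### the base point has trivial stabiliser -/

theorem final_triv (k : Bool) (g : Gam k) (h : g • H3.o = H3.o) (y : H3) : g • y = y := by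
  obtain ⟨γ, hγ⟩ := g
  have hg : γ • H3.o = H3.o := h
  have h0 : ∀ s, 0 < al s H3.o.v := fun s => tile_al_o s
  obtain ⟨_, h3⟩ := strict_PiH H3.o H3.o (fun s => (h0 s).le) (fun s => (h0 s).le) γ hg
  have h4 : {s | al s H3.o.v = 0} = (∅ : Set S) := by
    ext s
    exact ⟨fun h => absurd h (h0 s).ne', fun h => h.elim⟩
  rw [h4, Set.image_empty, Subgroup.closure_empty, Subgroup.mem_bot] at h3
  show γ • y = y
  rw [h3, one_smul]

/-! ### vertices are unique -/

theorem final_vertex (x y : H3) (s t r : S) (h12 : adj s t) (h13 : adj s r) (h23 : adj t r)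
    (hx : al s x.v = 0 ∧ al t x.v = 0 ∧ al r x.v = 0)
    (hy : al s y.v = 0 ∧ al t y.v = 0 ∧ al r y.v = 0) : x = y := by
  obtain ⟨F, hF⟩ := Frame.exists_ext x Finset.univ ![pol.e s, pol.e t, pol.e r]
    (by
      intro i _
      fin_cases i
      · exact pol.unit s
      · exact pol.unit t
      · exact pol.unit r)
    (by
      intro i _ j _ hij
      fin_cases i <;> fin_cases j
      · exact absurd rfl hij
      · exact pol.near s t h12
      · exact pol.near s r h13
      · exact pol.near t s (adj_symm h12)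
      · exact absurd rfl hij
      · exact pol.near t r h23
      · exact pol.near r s (adj_symm h13)
      · exact pol.near r t (adj_symm h23)
      · exact absurd rfl hij)
    (by
      intro i _
      fin_cases i
      · exact space_unit x s hx.1
      · exact space_unit x t hx.2.1
      · exact space_unit x r hx.2.2)
  have h0 : ∀ i, Bf y.v (F.e i) = 0 := by
    have key : ∀ i : Fin 3, i = 0 ∨ i = 1 ∨ i = 2 := by decide
    intro i
    rcases key i with rfl | rfl | rfl
    · rw [hF 0 (Finset.mem_univ _), Bf_comm]; exact space_unit y s hy.1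
    · rw [hF 1 (Finset.mem_univ _), Bf_comm]; exact space_unit y t hy.2.1
    · rw [hF 2 (Finset.mem_univ _), Bf_comm]; exact space_unit y r hy.2.2
  have h1 : y.v = (-Bf y.v x.v) • x.v := by
    conv_lhs => rw [F.expand y.v]
    simp only [h0, zero_smul, Finset.sum_const_zero, add_zero]
  have h2 : (-Bf y.v x.v) * (-Bf y.v x.v) = 1 := by
    have h3 := y.norm_eq
    rw [h1, ← Bl_apply, map_smul, map_smul, LinearMap.smul_apply, Bl_apply, x.norm_eq,
      smul_eq_mul, smul_eq_mul] at h3
    linarith
  have h3 := H3.one_le y x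
  have h4 : -Bf y.v x.v = 1 := by nlinarith
  apply H3.ext'
  rw [h1, h4, one_smul]

theorem final_vertex_chamber (C : Chamber) (ν : C.P → H3) (h2 : Function.Injective ν)
    (h4 : ∀ (p : C.P) (s : S), C.α s p.1 = 0 ↔ al s (ν p).v = 0) (p q : C.P)
    (hc : 3 ≤ (C.sup p).card) (h : C.sup p ⊆ C.sup q) : p = q := by
  obtain ⟨T, hT, hT3⟩ := Finset.exists_subset_card_eq hc
  obtain ⟨s, t, r, hst, hsr, htr, rfl⟩ := Finset.card_eq_three.1 hT3
  have hs : s ∈ C.sup p := hT (by simp)
  have ht : t ∈ C.sup p := hT (by simp)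
  have hr : r ∈ C.sup p := hT (by simp)
  have hcl := C.clique_sup p
  apply h2
  refine final_vertex _ _ s t r (hcl s hs t ht hst) (hcl s hs r hr hsr) (hcl t ht r hr htr) ?_ ?_
  · exact ⟨(h4 p s).1 (C.mem_sup.1 hs), (h4 p t).1 (C.mem_sup.1 ht), (h4 p r).1 (C.mem_sup.1 hr)⟩
  · exact ⟨(h4 q s).1 (C.mem_sup.1 (h hs)), (h4 q t).1 (C.mem_sup.1 (h ht)),
      (h4 q r).1 (C.mem_sup.1 (h hr))⟩

theorem final_data : ∃ C : Chamber,
    (∀ p q : C.P, 3 ≤ (C.sup p).card → C.sup p ⊆ C.sup q → p = q) ∧ ∀ k : Bool, ∃ e : Dev C (GX k) ≃ₜ Xs k, ∃ ν : C.P → H3,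
    (∀ p, ν p ∈ PiH) ∧ (∀ (p : C.P) (s : S), C.α s p.1 = 0 ↔ al s (ν p).v = 0) ∧
    ∀ (w : RA adj) (p : C.P),
      e (Dev.mk (G := GX k) (Multiplicative.toAdd (colHom k w)) p) = QS.mk (Gam k) (w • ν p) := by
  obtain ⟨C, ν, h1, h2, h3, h4⟩ := exists_chamber
  refine ⟨C, final_vertex_chamber C ν h2 h4, fun k => ?_⟩
  obtain ⟨e, he⟩ := homeo_dev C ν h1 h2 h3 h4 k
  exact ⟨e, ν, fun p => h3 ▸ Set.mem_range_self p, h4, he⟩

theorem final_closed (k : Bool) : IsClosedAspherical3 (Xs k) := by
  obtain ⟨C, hu, hC⟩ := final_data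
  obtain ⟨e, ν, hν, h4, he⟩ := hC k
  have hfin : Finite (GX k).I := inferInstanceAs (Finite V)
  have hcpt : CompactSpace (Xs k) := e.compactSpace
  have hdim : dimH (Set.univ : Set (Xs k)) = 3 :=
    le_antisymm (QS.dimH_le.trans H3.dimH_le)
      (QS.le_dimH 3 H3.o (fun g hg y => final_triv k g hg y)
        (fun r hr => H3.le_dimH_ball H3.o r hr))
  refine
    { alex :=
        { complete := inferInstance
          locallyCompact := inferInstance
          length := (QS.geodSpace H3.geodSpace).lengthSpace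
          dim_finite := by rw [hdim]; exact ENNReal.ofNat_lt_top
          curv := ⟨1, one_pos, QS.curvGE one_pos H3.curvGE⟩ }
      dim := hdim
      compact := hcpt
      pathConnected := e.surjective.pathConnectedSpace e.continuous
      no_boundary := mfd_or_cone k
      aspherical := fun n hn x => ?_ }
  have h := final_hgroup e n (e.symm x) (aspherical_X C k n hn (e.symm x))
  rwa [e.apply_symm_apply] at h

theorem final' : Nonempty (ContinuousMap.HomotopyEquiv (Xs false) (Xs true)) ∧
    IsEmpty (Xs false ≃ₜ Xs true) := by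
  refine ⟨?_, ?_⟩
  · obtain ⟨C, hu, hC⟩ := final_data
    obtain ⟨e, _⟩ := hC false
    obtain ⟨e', _⟩ := hC true
    obtain ⟨f⟩ := heq_X C
    exact ⟨(final_heq e.symm).trans (f.trans (final_heq e'))⟩
  · refine ⟨fun E => ?_⟩
    obtain ⟨C, hu, hC⟩ := final_data
    obtain ⟨e, _⟩ := hC false
    obtain ⟨e', ν, hν, h4, he'⟩ := hC true
    have hI : Inv (Dev C (GX true)) := (inv_X C fun p q hp hq => hu p q (by rw [hp]; decide) (by rw [hp, hq])).homeo ((e.trans E).trans e'.symm)
    refine not_inv_true C (fun p i hp => ?_) hI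
    obtain ⟨w, hw⟩ := space_colHom_surj true i
    subst hw
    have h1 : MfdPt (Xs true) (QS.mk (Gam true) (w • ν p)) := by
      refine mfd_X' w (ν p) (hν p) fun n hn => hp n ?_
      ext s
      rw [C.mem_sup, h4 p s, hn s]
    have h2 := space_mfd_homeo e'.symm _ h1
    rw [← he' w p, e'.symm_apply_apply] at h2
    exact h2

end H30
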