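import Pool.Agent.Helper30_Alex.HypM

/-!
# Hyperbolic 3-space: topology, properness, geodesics (PART 2)
-/

set_option autoImplicit false

open Filter Topology

namespace H30

theorem hyp1_cosh (x y : H3) : Bf y.v x.v = -Real.cosh (dist x y) := by
  rw [H3.cosh_dist, Bf_comm, neg_neg]

theorem hyp1_perp_eq (x y : H3) :
    y.v = hypM_perp x y.v + Real.cosh (dist x y) • x.v := by
  unfold hypM_perp
  rw [hyp1_cosh, neg_smul]
  abel

theorem hyp1_perp_self (x y : H3) :
    Bf (hypM_perp x y.v) (hypM_perp x y.v) = Real.sinh (dist x y) ^ 2 := by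
  rw [hypM_perp_Bf, y.norm_eq, hyp1_cosh]
  have := Real.cosh_sq (dist x y)
  linarith [sq (Real.cosh (dist x y))]

theorem hyp1_norm_perp (x y : H3) :
    ‖hypM_perp x y.v‖ ≤ x.v.1 * Real.sinh (dist x y) := by
  have hs : 0 ≤ Real.sinh (dist x y) := Real.sinh_nonneg_iff.2 dist_nonneg
  have h1 := hypM_lower x _ (hypM_perp_orth x y.v)
  have h2 := hypM_nonneg x _ (hypM_perp_orth x y.v)
  rw [hypM_Bf_self] at h2
  rw [hyp1_perp_self, ← mul_pow] at h1
  have h3 : ‖(hypM_perp x y.v).2‖ ≤ x.v.1 * Real.sinh (dist x y) :=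
    le_of_sq_le_sq h1 (mul_nonneg x.pos.le hs)
  have h4 : ‖(hypM_perp x y.v).1‖ ≤ ‖(hypM_perp x y.v).2‖ := by
    rw [Real.norm_eq_abs]
    refine abs_le_of_sq_le_sq ?_ (norm_nonneg _)
    linarith
  exact max_le (h4.trans h3) h3

theorem hyp1_norm_sub_le (x y : H3) :
    ‖y.v - x.v‖ ≤ x.v.1 * Real.sinh (dist x y) + (Real.cosh (dist x y) - 1) * ‖x.v‖ := by
  have h1 : y.v - x.v = hypM_perp x y.v + (Real.cosh (dist x y) - 1) • x.v := by
    conv_lhs => rw [hyp1_perp_eq x y]
    rw [sub_smul, one_smul]
    abel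
  rw [h1]
  refine (norm_add_le _ _).trans (add_le_add (hyp1_norm_perp x y) ?_)
  rw [norm_smul, Real.norm_eq_abs, abs_of_nonneg]
  linarith [Real.one_le_cosh (dist x y)]

theorem hyp1_continuous_v : Continuous H3.v := by
  rw [continuous_iff_continuousAt]
  intro x
  rw [ContinuousAt, tendsto_iff_norm_sub_tendsto_zero]
  have h1 : Tendsto (fun y : H3 => dist x y) (𝓝 x) (𝓝 0) := by
    have : Continuous (fun y : H3 => dist x y) := by fun_prop
    have h := this.tendsto x
    rwa [dist_self] at h
  have h2 : Tendsto (fun d : ℝ => x.v.1 * Real.sinh d + (Real.cosh d - 1) * ‖x.v‖) (𝓝 0)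
      (𝓝 0) := by
    have : Continuous (fun d : ℝ => x.v.1 * Real.sinh d + (Real.cosh d - 1) * ‖x.v‖) := by
      have h3 := Real.continuous_sinh
      have h4 := Real.continuous_cosh
      fun_prop
    have h := this.tendsto 0
    simpa using h
  exact squeeze_zero (fun y => norm_nonneg _) (fun y => hyp1_norm_sub_le x y) (h2.comp h1)

theorem hyp1_continuous_Bf : Continuous (fun p : L × L => Bf p.1 p.2) := by
  unfold Bf
  fun_prop

theorem hyp1_isInducing_v : Topology.IsInducing H3.v := by
  rw [Topology.isInducing_iff_nhds]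
  intro x
  apply le_antisymm
  · exact (hyp1_continuous_v.tendsto x).le_comap
  · have hg : Continuous (fun u : L => Real.arcosh (max 1 (-Bf u x.v))) := by
      refine Real.continuousOn_arcosh.comp_continuous ?_ (fun u => Set.mem_Ici.2 (le_max_left _ _))
      have h1 : Continuous (fun u : L => Bf u x.v) :=
        hyp1_continuous_Bf.comp (continuous_id.prodMk continuous_const)
      exact continuous_const.max h1.neg
    have h1 : Tendsto (fun y : H3 => dist y x) (comap H3.v (𝓝 x.v)) (𝓝 0) := by
      have h2 : (fun y : H3 => dist y x) =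
          (fun u : L => Real.arcosh (max 1 (-Bf u x.v))) ∘ H3.v := by
        funext y
        show dist y x = Real.arcosh (max 1 (-Bf y.v x.v))
        rw [max_eq_right (H3.one_le y x), H3.dist_def]
      have h3 := hg.tendsto x.v
      rw [max_eq_right (H3.one_le x x), x.norm_eq, neg_neg, Real.arcosh_zero] at h3
      rw [h2]
      exact h3.comp tendsto_comap
    exact tendsto_iff_dist_tendsto_zero.2 h1

theorem hyp1_range_v : Set.range H3.v = {u : L | Bf u u = -1 ∧ 0 ≤ u.1} := by
  ext u
  constructor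
  · rintro ⟨x, rfl⟩
    exact ⟨x.norm_eq, x.pos.le⟩
  · rintro ⟨h1, h2⟩
    refine ⟨⟨u, h1, lt_of_le_of_ne h2 ?_⟩, rfl⟩
    intro h0
    rw [hypM_Bf_self, ← h0] at h1
    have := sq_nonneg ‖u.2‖
    norm_num at h1
    linarith

theorem H3.isClosedEmbedding_v : Topology.IsClosedEmbedding H3.v := by
  refine ⟨⟨hyp1_isInducing_v, fun x y h => H3.ext' h⟩, ?_⟩
  rw [hyp1_range_v]
  refine IsClosed.inter (isClosed_eq ?_ continuous_const) (isClosed_le continuous_const
    continuous_fst)
  exact hyp1_continuous_Bf.comp (continuous_id.prodMk continuous_id)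

instance : ProperSpace H3 := by
  refine ⟨fun x r => ?_⟩
  rcases lt_or_ge r 0 with hr | hr
  · rw [Metric.closedBall_eq_empty.2 hr]
    exact isCompact_empty
  · have hsub : Metric.closedBall x r ⊆ H3.v ⁻¹' (Metric.closedBall x.v
        (x.v.1 * Real.sinh r + (Real.cosh r - 1) * ‖x.v‖)) := by
      intro y hy
      have hy' : dist x y ≤ r := by
        rw [dist_comm]
        exact hy
      show dist y.v x.v ≤ _
      rw [dist_eq_norm]
      refine (hyp1_norm_sub_le x y).trans (add_le_add (mul_le_mul_of_nonneg_left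
        (Real.sinh_le_sinh.2 hy') x.pos.le) (mul_le_mul_of_nonneg_right ?_ (norm_nonneg _)))
      have : Real.cosh (dist x y) ≤ Real.cosh r := by
        rw [Real.cosh_le_cosh, abs_of_nonneg dist_nonneg, abs_of_nonneg hr]
        exact hy'
      linarith
    exact (H3.isClosedEmbedding_v.isCompact_preimage (isCompact_closedBall _ _)).of_isClosed_subset
      Metric.isClosed_closedBall hsub

/-- linear maps preserving the form act isometrically -/
theorem H3.dist_map (g : L →ₗ[ℝ] L) (hg : ∀ x y, Bf (g x) (g y) = Bf x y) (x y x' y' : H3)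
    (hx : x'.v = g x.v) (hy : y'.v = g y.v) : dist x' y' = dist x y := by
  rw [H3.dist_def, H3.dist_def, hx, hy, hg]

theorem hyp1_first_pos (x : H3) (u : L) (h : Bf u u = -1) (h' : Bf u x.v < 0) : 0 < u.1 := by
  by_contra hn
  push Not at hn
  have h0 : u.1 ≠ 0 := by
    intro h0
    rw [hypM_Bf_self, h0] at h
    have := sq_nonneg ‖u.2‖
    norm_num at h
    linarith
  have h1 : 0 < (-u).1 := by
    rw [Prod.fst_neg]
    exact neg_pos.2 (lt_of_le_of_ne hn h0)
  have h2 : Bf (-u) (-u) = -1 := by
    rw [hypM_Bf_neg_left, hypM_Bf_neg_right, neg_neg, h]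
  have h3 := H3.one_le ⟨-u, h2, h1⟩ x
  simp only at h3
  rw [hypM_Bf_neg_left, neg_neg] at h3
  linarith

theorem hyp1_exp_Bf (x : H3) (u : L) (hu : Bf u u = 1) (hx : Bf u x.v = 0) (s t : ℝ) :
    Bf (Real.cosh s • x.v + Real.sinh s • u) (Real.cosh t • x.v + Real.sinh t • u) =
      -Real.cosh (s - t) := by
  simp only [hypM_Bf_add_left, hypM_Bf_add_right, hypM_Bf_smul_left, hypM_Bf_smul_right]
  rw [x.norm_eq, hu, Bf_comm x.v u, hx, Real.cosh_sub]
  ring

/-- the geodesic starting at `x` in the direction `u` -/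
noncomputable def hyp1_exp (x : H3) (u : L) (hu : Bf u u = 1) (hx : Bf u x.v = 0) (t : ℝ) : H3 :=
  ⟨Real.cosh t • x.v + Real.sinh t • u, by
    rw [hyp1_exp_Bf x u hu hx, sub_self, Real.cosh_zero], by
    refine hyp1_first_pos x _ (by rw [hyp1_exp_Bf x u hu hx, sub_self, Real.cosh_zero]) ?_
    have h := hyp1_exp_Bf x u hu hx t 0
    rw [Real.cosh_zero, Real.sinh_zero, one_smul, zero_smul, add_zero, sub_zero] at h
    rw [h]
    exact neg_neg_of_pos (Real.cosh_pos t)⟩

theorem hyp1_exp_v (x : H3) (u : L) (hu : Bf u u = 1) (hx : Bf u x.v = 0) (t : ℝ) :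
    (hyp1_exp x u hu hx t).v = Real.cosh t • x.v + Real.sinh t • u := rfl

theorem hyp1_exp_dist (x : H3) (u : L) (hu : Bf u u = 1) (hx : Bf u x.v = 0) (s t : ℝ) :
    dist (hyp1_exp x u hu hx s) (hyp1_exp x u hu hx t) = |s - t| := by
  rw [H3.dist_def, hyp1_exp_v, hyp1_exp_v, hyp1_exp_Bf x u hu hx, neg_neg, ← Real.cosh_abs,
    Real.arcosh_cosh (abs_nonneg _)]

theorem H3.geodSpace : GeodSpace H3 := by
  intro x y
  by_cases hxy : x = y
  · subst hxy
    exact ⟨fun _ => x, rfl, rfl, fun s _ t _ => by rw [dist_self, mul_zero]⟩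
  · have hd : 0 < dist x y := dist_pos.2 hxy
    have hs : 0 < Real.sinh (dist x y) := Real.sinh_pos_iff.2 hd
    have hu : Bf ((Real.sinh (dist x y))⁻¹ • hypM_perp x y.v)
        ((Real.sinh (dist x y))⁻¹ • hypM_perp x y.v) = 1 := by
      rw [hypM_Bf_smul_left, hypM_Bf_smul_right, hyp1_perp_self]
      field_simp
    have hx : Bf ((Real.sinh (dist x y))⁻¹ • hypM_perp x y.v) x.v = 0 := by
      rw [hypM_Bf_smul_left, hypM_perp_orth, mul_zero]
    refine ⟨fun t => hyp1_exp x _ hu hx (t * dist x y), ?_, ?_, ?_⟩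
    · apply H3.ext'
      simp only
      rw [hyp1_exp_v, zero_mul, Real.cosh_zero, Real.sinh_zero, one_smul, zero_smul, add_zero]
    · apply H3.ext'
      simp only
      rw [hyp1_exp_v, one_mul, smul_smul, mul_inv_cancel₀ hs.ne', one_smul]
      conv_rhs => rw [hyp1_perp_eq x y]
      rw [add_comm]
    · intro s _ t _
      simp only
      rw [hyp1_exp_dist, ← sub_mul, abs_mul, abs_of_pos hd]

/-- orthonormal frame at a point, consisting of three unit vectors orthogonal to it -/
structure Frame (p : H3) where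
  e : Fin 3 → L
  unit : ∀ i, Bf (e i) (e i) = 1
  orth : ∀ i j, i ≠ j → Bf (e i) (e j) = 0
  tang : ∀ i, Bf (e i) p.v = 0

/-- the form as a linear functional in the first argument -/
noncomputable def hyp1_lin (c : L) : L →ₗ[ℝ] ℝ where
  toFun x := Bf x c
  map_add' x y := hypM_Bf_add_left x y c
  map_smul' r x := hypM_Bf_smul_left r x c

theorem hyp1_lin_apply (c x : L) : hyp1_lin c x = Bf x c := rfl

theorem hyp1_Bf_sum_left {ι : Type} (s : Finset ι) (f : ι → L) (c : L) :
    Bf (∑ i ∈ s, f i) c = ∑ i ∈ s, Bf (f i) c := by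
  rw [← hyp1_lin_apply, map_sum]
  rfl

theorem hyp1_finrank : Module.finrank ℝ L = 4 := by
  rw [Module.finrank_prod, Module.finrank_self, finrank_euclideanSpace_fin]

theorem hyp1_linInd {ι : Type} [Fintype ι] (v : ι → L) (h0 : ∀ i, Bf (v i) (v i) ≠ 0)
    (h : ∀ i j, i ≠ j → Bf (v i) (v j) = 0) : LinearIndependent ℝ v := by
  rw [Fintype.linearIndependent_iff]
  intro g hg i
  have h1 : Bf (∑ j, g j • v j) (v i) = g i * Bf (v i) (v i) := by
    rw [hyp1_Bf_sum_left, Finset.sum_eq_single i]
    · rw [hypM_Bf_smul_left]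
    · intro j _ hj
      rw [hypM_Bf_smul_left, h j i hj, mul_zero]
    · intro hi
      exact absurd (Finset.mem_univ i) hi
  rw [hg] at h1
  have h2 : Bf (0 : L) (v i) = 0 := by
    rw [← hyp1_lin_apply, map_zero]
  rw [h2] at h1
  rcases mul_eq_zero.1 h1.symm with h3 | h3
  · exact h3
  · exact absurd h3 (h0 i)

theorem hyp1_card_le {ι : Type} [Fintype ι] (v : ι → L) (h0 : ∀ i, Bf (v i) (v i) ≠ 0)
    (h : ∀ i j, i ≠ j → Bf (v i) (v j) = 0) : Fintype.card ι ≤ 4 := by
  have h1 := (hyp1_linInd v h0 h).fintype_card_le_finrank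
  rwa [hyp1_finrank] at h1

/-- a positive semidefinite fact: on the orthogonal complement of a point of hyperbolic space the
form is positive definite -/
theorem H3.pos_of_orth (p : H3) (x : L) (h : Bf x p.v = 0) (hx : x ≠ 0) : 0 < Bf x x :=
  lt_of_le_of_ne (hypM_nonneg p x h) fun h0 => hx (hypM_eq_zero p x h h0.symm)

/-- expansion of a vector in a frame -/
theorem Frame.expand {p : H3} (F : Frame p) (x : L) :
    x = (-Bf x p.v) • p.v + ∑ i, Bf x (F.e i) • F.e i := by
  by_contra hne
  set w : L := x - ((-Bf x p.v) • p.v + ∑ i, Bf x (F.e i) • F.e i) with hw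
  have hw0 : w ≠ 0 := fun h => hne (sub_eq_zero.1 h)
  have h1 : Bf w p.v = 0 := by
    rw [hw, hypM_Bf_sub_left, hypM_Bf_add_left, hypM_Bf_smul_left, p.norm_eq, hyp1_Bf_sum_left]
    have : ∑ i, Bf (Bf x (F.e i) • F.e i) p.v = 0 :=
      Finset.sum_eq_zero fun i _ => by rw [hypM_Bf_smul_left, F.tang, mul_zero]
    rw [this]
    ring
  have h2 : ∀ i, Bf w (F.e i) = 0 := by
    intro i
    rw [hw, hypM_Bf_sub_left, hypM_Bf_add_left, hypM_Bf_smul_left, Bf_comm p.v, F.tang,
      hyp1_Bf_sum_left, Finset.sum_eq_single i]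
    · rw [hypM_Bf_smul_left, F.unit]
      ring
    · intro j _ hj
      rw [hypM_Bf_smul_left, F.orth j i hj, mul_zero]
    · intro hi
      exact absurd (Finset.mem_univ i) hi
  have h3 := H3.pos_of_orth p w h1 hw0
  have h4 := hyp1_card_le (ι := Fin 3 ⊕ Bool) (fun k => match k with
    | Sum.inl i => F.e i
    | Sum.inr false => p.v
    | Sum.inr true => w) (by
      rintro (i | i)
      · simp only
        rw [F.unit]
        norm_num
      · cases i
        · simp only
          rw [p.norm_eq]
          norm_num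
        · simp only
          exact h3.ne') (by
      rintro (i | i) (j | j) hij
      · simp only
        exact F.orth i j fun h => hij (congrArg _ h)
      · cases j
        · simp only
          exact F.tang i
        · simp only
          rw [Bf_comm]
          exact h2 i
      · cases i
        · simp only
          rw [Bf_comm]
          exact F.tang j
        · simp only
          exact h2 j
      · cases i <;> cases j
        · exact absurd rfl hij
        · simp only
          rw [Bf_comm]
          exact h1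
        · simp only
          exact h1
        · exact absurd rfl hij)
  simp at h4

/-- a further unit vector -/
theorem hyp1_exists_unit (p : H3) (J : Finset (Fin 3)) (f : Fin 3 → L) (hJ : ∃ i, i ∉ J) :
    ∃ w : L, Bf w w = 1 ∧ Bf w p.v = 0 ∧ ∀ i ∈ J, Bf w (f i) = 0 := by
  classical
  obtain ⟨i0, hi0⟩ := hJ
  let Φ : L →ₗ[ℝ] (Fin 3 → ℝ) :=
    LinearMap.pi fun j => if j ∈ J then hyp1_lin (f j) else hyp1_lin p.v
  have hker : LinearMap.ker Φ ≠ ⊥ := by
    apply LinearMap.ker_ne_bot_of_finrank_lt
    rw [hyp1_finrank, Module.finrank_fin_fun]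
    norm_num
  obtain ⟨w, hw, hw0⟩ := (Submodule.ne_bot_iff _).1 hker
  have hw' : ∀ j, (if j ∈ J then hyp1_lin (f j) else hyp1_lin p.v) w = 0 := by
    intro j
    have := congrFun (LinearMap.mem_ker.1 hw) j
    exact this
  have h1 : Bf w p.v = 0 := by
    have := hw' i0
    rw [if_neg hi0] at this
    exact this
  have h2 : ∀ i ∈ J, Bf w (f i) = 0 := by
    intro i hi
    have := hw' i
    rw [if_pos hi] at this
    exact this
  have h3 := H3.pos_of_orth p w h1 hw0
  refine ⟨(Real.sqrt (Bf w w))⁻¹ • w, ?_, ?_, fun i hi => ?_⟩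
  · rw [hypM_Bf_smul_left, hypM_Bf_smul_right, ← mul_assoc, ← mul_inv,
      Real.mul_self_sqrt h3.le, inv_mul_cancel₀ h3.ne']
  · rw [hypM_Bf_smul_left, h1, mul_zero]
  · rw [hypM_Bf_smul_left, h2 i hi, mul_zero]

/-- an orthonormal system at `p` can be completed to a frame -/
theorem Frame.exists_ext (p : H3) (J : Finset (Fin 3)) (f : Fin 3 → L)
    (h1 : ∀ i ∈ J, Bf (f i) (f i) = 1) (h2 : ∀ i ∈ J, ∀ j ∈ J, i ≠ j → Bf (f i) (f j) = 0)
    (h3 : ∀ i ∈ J, Bf (f i) p.v = 0) : ∃ F : Frame p, ∀ i ∈ J, F.e i = f i := by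
  classical
  induction hn : Jᶜ.card using Nat.strong_induction_on generalizing J f with
  | _ n ih =>
    by_cases hJ : ∃ i, i ∉ J
    · obtain ⟨w, hw1, hw2, hw3⟩ := hyp1_exists_unit p J f hJ
      obtain ⟨i0, hi0⟩ := hJ
      have hne : ∀ i ∈ J, i ≠ i0 := fun i hi h => hi0 (h ▸ hi)
      obtain ⟨F, hF⟩ := ih ((insert i0 J)ᶜ.card) (by
          rw [← hn]
          apply Finset.card_lt_card
          rw [Finset.compl_ssubset_compl]
          exact Finset.ssubset_insert hi0) (insert i0 J) (Function.update f i0 w) (by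
          intro i hi
          rcases Finset.mem_insert.1 hi with rfl | hi
          · rw [Function.update_self]
            exact hw1
          · rw [Function.update_of_ne (hne i hi)]
            exact h1 i hi) (by
          intro i hi j hj hij
          rcases Finset.mem_insert.1 hi with hi' | hi'
          · rcases Finset.mem_insert.1 hj with hj' | hj'
            · exact absurd (hi'.trans hj'.symm) hij
            · rw [hi', Function.update_self, Function.update_of_ne (hne j hj')]
              exact hw3 j hj'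
          · rcases Finset.mem_insert.1 hj with hj' | hj'
            · rw [hj', Function.update_self, Function.update_of_ne (hne i hi'), Bf_comm]
              exact hw3 i hi'
            · rw [Function.update_of_ne (hne i hi'), Function.update_of_ne (hne j hj')]
              exact h2 i hi' j hj' hij) (by
          intro i hi
          rcases Finset.mem_insert.1 hi with rfl | hi
          · rw [Function.update_self]
            exact hw2
          · rw [Function.update_of_ne (hne i hi)]
            exact h3 i hi) rfl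
      refine ⟨F, fun i hi => ?_⟩
      rw [hF i (Finset.mem_insert_of_mem hi), Function.update_of_ne (hne i hi)]
    · push Not at hJ
      exact ⟨⟨f, fun i => h1 i (hJ i), fun i j hij => h2 i (hJ i) j (hJ j) hij,
        fun i => h3 i (hJ i)⟩, fun i _ => rfl⟩

end H30
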