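import Pool.Agent.Helper30_Alex.Base

/-!
# Hyperbolic 3-space (hyperboloid model) and comparison angles (PART 2: prove the three sorries)
-/

set_option autoImplicit false

namespace H30

/-- the Lorentz form -/
noncomputable def Bf (x y : L) : ℝ := inner ℝ x.2 y.2 - x.1 * y.1

theorem Bf_comm (x y : L) : Bf x y = Bf y x := by
  unfold Bf; rw [real_inner_comm, mul_comm]

/-- hyperbolic 3-space -/
structure H3 where
  v : L
  norm_eq : Bf v v = -1
  pos : 0 < v.1

theorem H3.ext' {x y : H3} (h : x.v = y.v) : x = y := by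
  cases x; cases y; simp only [H3.mk.injEq] at *; exact h

/-! ### comparison angles -/

/-- The angle opposite to `c` in a triangle with sides `a, b, c` in the hyperbolic plane of
curvature `-κ^2`. -/
noncomputable def compAngle (κ a b c : ℝ) : ℝ :=
  Real.arccos ((Real.cosh (κ * a) * Real.cosh (κ * b) - Real.cosh (κ * c)) /
    (Real.sinh (κ * a) * Real.sinh (κ * b)))

/-- Curvature bounded below by `-κ^2`, in the form of the four point comparison: for every point
`p` and points `x, y, z` different from `p` the three comparison angles at `p` add up to at most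
`2π`. -/
def CurvGE (κ : ℝ) (X : Type) [MetricSpace X] : Prop :=
  ∀ p x y z : X, x ≠ p → y ≠ p → z ≠ p →
    compAngle κ (dist p x) (dist p y) (dist x y) + compAngle κ (dist p y) (dist p z) (dist y z) +
      compAngle κ (dist p z) (dist p x) (dist z x) ≤ 2 * Real.pi

/-- Length space: any two points can be joined by curves whose length is arbitrarily close to the
distance of the points. -/
def LengthSpace (X : Type) [MetricSpace X] : Prop :=
  ∀ x y : X, ∀ ε : ℝ, 0 < ε → ∃ γ : Path x y,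
    eVariationOn (γ : unitInterval → X) Set.univ ≤ ENNReal.ofReal (dist x y + ε)

/-- Geodesic space: any two points are joined by a constant speed shortest curve. -/
def GeodSpace (X : Type) [MetricSpace X] : Prop :=
  ∀ x y : X, ∃ γ : ℝ → X, γ 0 = x ∧ γ 1 = y ∧
    ∀ s ∈ Set.Icc (0 : ℝ) 1, ∀ t ∈ Set.Icc (0 : ℝ) 1, dist (γ s) (γ t) = |s - t| * dist x y

/-! ### the metric of hyperbolic space -/

theorem hypM_Bf_add_left (a b c : L) : Bf (a + b) c = Bf a c + Bf b c := by
  unfold Bf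
  rw [Prod.snd_add, Prod.fst_add, inner_add_left]
  ring

theorem hypM_Bf_smul_left (r : ℝ) (a c : L) : Bf (r • a) c = r * Bf a c := by
  unfold Bf
  rw [Prod.smul_snd, Prod.smul_fst, real_inner_smul_left, smul_eq_mul]
  ring

theorem hypM_Bf_add_right (a b c : L) : Bf a (b + c) = Bf a b + Bf a c := by
  rw [Bf_comm, hypM_Bf_add_left, Bf_comm b, Bf_comm c]

theorem hypM_Bf_smul_right (r : ℝ) (a c : L) : Bf a (r • c) = r * Bf a c := by
  rw [Bf_comm, hypM_Bf_smul_left, Bf_comm]

theorem hypM_Bf_neg_left (a c : L) : Bf (-a) c = -Bf a c := by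
  have h := hypM_Bf_smul_left (-1) a c
  rw [neg_one_smul] at h
  rw [h]
  ring

theorem hypM_Bf_neg_right (a c : L) : Bf a (-c) = -Bf a c := by
  rw [Bf_comm, hypM_Bf_neg_left, Bf_comm]

theorem hypM_Bf_sub_left (a b c : L) : Bf (a - b) c = Bf a c - Bf b c := by
  rw [sub_eq_add_neg, hypM_Bf_add_left, hypM_Bf_neg_left, sub_eq_add_neg]

theorem hypM_Bf_sub_right (a b c : L) : Bf a (b - c) = Bf a b - Bf a c := by
  rw [sub_eq_add_neg, hypM_Bf_add_right, hypM_Bf_neg_right, sub_eq_add_neg]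

theorem hypM_Bf_self (a : L) : Bf a a = ‖a.2‖ ^ 2 - a.1 ^ 2 := by
  unfold Bf
  rw [real_inner_self_eq_norm_sq]
  ring

theorem hypM_norm_sq (x : H3) : ‖x.v.2‖ ^ 2 = x.v.1 ^ 2 - 1 := by
  have h := x.norm_eq
  rw [hypM_Bf_self] at h
  linarith

/-- a lower bound of the form on the orthogonal complement of a point -/
theorem hypM_lower (p : H3) (x : L) (h : Bf x p.v = 0) : ‖x.2‖ ^ 2 ≤ p.v.1 ^ 2 * Bf x x := by
  have h1 : inner ℝ x.2 p.v.2 = x.1 * p.v.1 := by
    unfold Bf at h
    linarith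
  have h2 := abs_real_inner_le_norm x.2 p.v.2
  have h3 : (x.1 * p.v.1) ^ 2 ≤ ‖x.2‖ ^ 2 * ‖p.v.2‖ ^ 2 := by
    rw [← h1, ← sq_abs, ← mul_pow]
    exact pow_le_pow_left₀ (abs_nonneg _) h2 2
  rw [hypM_norm_sq] at h3
  rw [hypM_Bf_self]
  nlinarith

theorem hypM_nonneg (p : H3) (x : L) (h : Bf x p.v = 0) : 0 ≤ Bf x x := by
  have h1 := hypM_lower p x h
  have h2 : 0 < p.v.1 ^ 2 := pow_pos p.pos 2
  by_contra h3
  push Not at h3
  have h4 : p.v.1 ^ 2 * Bf x x < 0 := mul_neg_of_pos_of_neg h2 h3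
  have h5 : 0 ≤ ‖x.2‖ ^ 2 := sq_nonneg _
  linarith

theorem hypM_eq_zero (p : H3) (x : L) (h : Bf x p.v = 0) (h0 : Bf x x = 0) : x = 0 := by
  have h1 := hypM_lower p x h
  rw [h0, mul_zero] at h1
  have h2 : ‖x.2‖ ^ 2 = 0 := le_antisymm h1 (sq_nonneg _)
  have h3 : x.2 = 0 := by
    have := pow_eq_zero_iff (n := 2) (by norm_num) |>.1 h2
    exact norm_eq_zero.1 this
  rw [hypM_Bf_self, h2] at h0
  have h4 : x.1 = 0 := by
    have : x.1 ^ 2 = 0 := by linarith
    exact pow_eq_zero_iff (n := 2) (by norm_num) |>.1 this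
  exact Prod.ext h4 h3

/-- Cauchy-Schwarz on the orthogonal complement of a point -/
theorem hypM_cs (p : H3) (u w : L) (hu : Bf u p.v = 0) (hw : Bf w p.v = 0) :
    Bf u w ^ 2 ≤ Bf u u * Bf w w := by
  by_cases h0 : Bf w w = 0
  · have h1 := hypM_eq_zero p w hw h0
    subst h1
    have h2 : Bf u 0 = 0 := by
      have := hypM_Bf_smul_right 0 u 0
      rw [zero_smul, zero_mul] at this
      exact this
    rw [h2, h0]
    norm_num
  · have hpos : 0 < Bf w w := lt_of_le_of_ne (hypM_nonneg p w hw) (Ne.symm h0)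
    have h1 := hypM_nonneg p (Bf w w • u - Bf u w • w) (by
      rw [hypM_Bf_sub_left, hypM_Bf_smul_left, hypM_Bf_smul_left, hu, hw]
      ring)
    simp only [hypM_Bf_sub_left, hypM_Bf_sub_right, hypM_Bf_smul_left, hypM_Bf_smul_right] at h1
    rw [Bf_comm w u] at h1
    have h2 : 0 ≤ Bf w w * (Bf w w * Bf u u - Bf u w ^ 2) := by
      nlinarith
    have h3 : 0 ≤ Bf w w * Bf u u - Bf u w ^ 2 := by
      by_contra h4
      push Not at h4
      have := mul_neg_of_pos_of_neg hpos h4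
      linarith
    linarith

/-- the component of `x` orthogonal to `p` -/
noncomputable def hypM_perp (p : H3) (x : L) : L := x + Bf x p.v • p.v

theorem hypM_perp_orth (p : H3) (x : L) : Bf (hypM_perp p x) p.v = 0 := by
  unfold hypM_perp
  rw [hypM_Bf_add_left, hypM_Bf_smul_left, p.norm_eq]
  ring

theorem hypM_perp_Bf (p : H3) (x y : L) :
    Bf (hypM_perp p x) (hypM_perp p y) = Bf x y + Bf x p.v * Bf y p.v := by
  unfold hypM_perp
  simp only [hypM_Bf_add_left, hypM_Bf_add_right, hypM_Bf_smul_left, hypM_Bf_smul_right]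
  rw [p.norm_eq, Bf_comm p.v y]
  ring

theorem H3.one_le (x y : H3) : 1 ≤ -Bf x.v y.v := by
  have h1 := hypM_norm_sq x
  have h2 := hypM_norm_sq y
  have h3 := real_inner_le_norm x.v.2 y.v.2
  have h4 : 1 + ‖x.v.2‖ * ‖y.v.2‖ ≤ x.v.1 * y.v.1 := by
    have hx := x.pos
    have hy := y.pos
    have h5 : (1 + ‖x.v.2‖ * ‖y.v.2‖) ^ 2 ≤ (x.v.1 * y.v.1) ^ 2 := by
      have e : (x.v.1 * y.v.1) ^ 2 = (1 + ‖x.v.2‖ ^ 2) * (1 + ‖y.v.2‖ ^ 2) := by
        rw [h1, h2]
        ring
      rw [e]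
      nlinarith [sq_nonneg (‖x.v.2‖ - ‖y.v.2‖)]
    exact le_of_sq_le_sq h5 (mul_pos hx hy).le
  unfold Bf
  linarith

theorem H3.dist_self' (x : H3) : Real.arcosh (-Bf x.v x.v) = 0 := by
  rw [x.norm_eq, neg_neg, Real.arcosh_zero]

theorem H3.dist_tri (x y z : H3) :
    Real.arcosh (-Bf x.v z.v) ≤ Real.arcosh (-Bf x.v y.v) + Real.arcosh (-Bf y.v z.v) := by
  have ha := Real.arcosh_nonneg (H3.one_le x y)
  have hb := Real.arcosh_nonneg (H3.one_le y z)
  have hca := Real.cosh_arcosh (H3.one_le x y)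
  have hcb := Real.cosh_arcosh (H3.one_le y z)
  set a := Real.arcosh (-Bf x.v y.v) with hadef
  set b := Real.arcosh (-Bf y.v z.v) with hbdef
  have hsa := Real.sinh_nonneg_iff.2 ha
  have hsb := Real.sinh_nonneg_iff.2 hb
  have hu := hypM_cs y (hypM_perp y x.v) (hypM_perp y z.v) (hypM_perp_orth y _)
    (hypM_perp_orth y _)
  rw [hypM_perp_Bf, hypM_perp_Bf, hypM_perp_Bf, x.norm_eq, z.norm_eq] at hu
  have e1 : Bf x.v y.v = -Real.cosh a := by rw [hca]; ring
  have e2 : Bf z.v y.v = -Real.cosh b := by rw [hcb, Bf_comm]; ring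
  rw [e1, e2] at hu
  have s1 := Real.cosh_sq a
  have s2 := Real.cosh_sq b
  have h1 : (Bf x.v z.v + Real.cosh a * Real.cosh b) ^ 2 ≤ (Real.sinh a * Real.sinh b) ^ 2 := by
    have e3 : (-1 + -Real.cosh a * -Real.cosh a) * (-1 + -Real.cosh b * -Real.cosh b) =
        (Real.sinh a * Real.sinh b) ^ 2 := by
      have e4 : -1 + -Real.cosh a * -Real.cosh a = Real.sinh a ^ 2 := by linarith [s1, sq (Real.cosh a)]
      have e5 : -1 + -Real.cosh b * -Real.cosh b = Real.sinh b ^ 2 := by linarith [s2, sq (Real.cosh b)]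
      rw [e4, e5]
      ring
    rw [e3] at hu
    have e6 : Bf x.v z.v + -Real.cosh a * -Real.cosh b =
        Bf x.v z.v + Real.cosh a * Real.cosh b := by ring
    rw [e6] at hu
    exact hu
  have h2 : -(Bf x.v z.v + Real.cosh a * Real.cosh b) ≤ Real.sinh a * Real.sinh b := by
    have := abs_le_of_sq_le_sq' h1 (mul_nonneg hsa hsb)
    linarith [this.1]
  have h3 : -Bf x.v z.v ≤ Real.cosh (a + b) := by
    rw [Real.cosh_add]
    linarith
  calc Real.arcosh (-Bf x.v z.v) ≤ Real.arcosh (Real.cosh (a + b)) := by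
        rw [Real.arcosh_le_arcosh (by linarith [H3.one_le x z]) (Real.cosh_pos _)]
        exact h3
    _ = a + b := Real.arcosh_cosh (add_nonneg ha hb)

theorem H3.eq_of_dist (x y : H3) (h : Real.arcosh (-Bf x.v y.v) = 0) : x = y := by
  rw [Real.arcosh_eq_zero_iff (H3.one_le x y)] at h
  have h1 : Bf (x.v - y.v) y.v = 0 := by
    rw [hypM_Bf_sub_left, y.norm_eq]
    linarith
  have h2 : Bf (x.v - y.v) (x.v - y.v) = 0 := by
    rw [hypM_Bf_sub_right, h1, hypM_Bf_sub_left, x.norm_eq, Bf_comm y.v]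
    linarith
  exact H3.ext' (sub_eq_zero.1 (hypM_eq_zero y _ h1 h2))

noncomputable instance : MetricSpace H3 where
  dist x y := Real.arcosh (-Bf x.v y.v)
  dist_self := H3.dist_self'
  dist_comm x y := by rw [Bf_comm]
  dist_triangle := H3.dist_tri
  eq_of_dist_eq_zero {x y} := H3.eq_of_dist x y

theorem H3.dist_def (x y : H3) : dist x y = Real.arcosh (-Bf x.v y.v) := rfl

theorem H3.cosh_dist (x y : H3) : Real.cosh (dist x y) = -Bf x.v y.v := by
  rw [H3.dist_def, Real.cosh_arcosh (H3.one_le x y)]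

/-- the base point -/
noncomputable def H3.o : H3 := ⟨(1, 0), by simp [Bf], by simp⟩

end H30
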