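import Pool.Agent.Helper30_Alex.Cover
import Pool.Agent.Helper30_Alex.Chart

/-!
# X and X' are not homeomorphic (PARTS 10, 11)
-/

set_option autoImplicit false

namespace H30

/-- The invariant: there are two points and a two-sheeted covering of their complement which has
no section near either of the two points. -/
def Inv (Y : Type) [TopologicalSpace Y] : Prop :=
  ∃ s t : Y, s ≠ t ∧ ∃ (E : Type) (_ : TopologicalSpace E) (q : E → Y),
    IsCoveringMapOn q {s, t}ᶜ ∧ (∀ y, y ≠ s → y ≠ t → (q ⁻¹' {y}).ncard = 2) ∧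
    ∀ z, z = s ∨ z = t → ∀ N : Set Y, IsOpen N → z ∈ N →
      ¬ ∃ σ : Y → E, ContinuousOn σ (N \ {s, t}) ∧ ∀ y ∈ N \ {s, t}, q (σ y) = y


/-! ### the two-sheeted covering on the X side -/

theorem Inv.homeo {Y Y' : Type} [TopologicalSpace Y] [TopologicalSpace Y'] (e : Y ≃ₜ Y')
    (h : Inv Y) : Inv Y' := by
  obtain ⟨s, t, hst, E, _, q, hq, hc, hn⟩ := h
  refine ⟨e s, e t, fun h => hst (e.injective h), E, inferInstance, fun x => e (q x), ?_, ?_, ?_⟩
  · have h1 := hq.homeomorph_comp e
    have h2 : e.symm ⁻¹' {s, t}ᶜ = {e s, e t}ᶜ := by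
      rw [← e.image_eq_preimage_symm, Set.image_compl_eq e.bijective, Set.image_pair]
    rw [h2] at h1
    exact h1
  · intro y hy1 hy2
    have h1 := hc (e.symm y) (fun h => hy1 (by rw [← h, e.apply_symm_apply]))
      (fun h => hy2 (by rw [← h, e.apply_symm_apply]))
    have h2 : (fun x => e (q x)) ⁻¹' {y} = q ⁻¹' {e.symm y} := by
      ext x
      simp only [Set.mem_preimage, Set.mem_singleton_iff]
      constructor
      · intro h; rw [← h, e.symm_apply_apply]
      · intro h; rw [h, e.apply_symm_apply]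
    rw [h2]; exact h1
  · intro z hz N hN hzN
    rintro ⟨σ, hσ, hσ2⟩
    have key : ∀ y, y ∈ (e ⁻¹' N) \ {s, t} → e y ∈ N \ {e s, e t} := by
      rintro y ⟨h1, h2⟩
      refine ⟨h1, fun h => h2 ?_⟩
      rcases h with h | h
      · exact Or.inl (e.injective h)
      · exact Or.inr (e.injective h)
    refine hn (e.symm z) ?_ (e ⁻¹' N) (hN.preimage e.continuous)
      (by show e (e.symm z) ∈ N; rw [e.apply_symm_apply]; exact hzN) ⟨fun y => σ (e y), ?_, ?_⟩
    · rcases hz with rfl | rfl
      · left; rw [e.symm_apply_apply]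
      · right; rw [e.symm_apply_apply]
    · exact hσ.comp e.continuous.continuousOn key
    · intro y hy
      exact e.injective (hσ2 (e y) (key y hy))

/-- the subgroup of order 8 -/
def ixG : AddSubgroup V where
  carrier := {v | v.1 < 8}
  add_mem' := by decide
  zero_mem' := by decide
  neg_mem' := by decide

instance : DecidablePred (· ∈ ixG) := fun v => inferInstanceAs (Decidable (v.1 < 8))

/-- the vertex -/
def ixV : Finset S := {1, 6, 7}

theorem ix_clique : Clique ixV := by decide +kernel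

theorem ix_nb : ∀ s : S, adj 1 s → col false s ∈ ixG := by decide +kernel

theorem ix_col1 : col false 1 ∈ ixG := by decide +kernel

theorem ix_no4 : ∀ s : S, adj 1 s → adj 6 s → ¬ adj 7 s := by decide +kernel

theorem ix_indep2 : ∀ s : S, adj 1 s → col false s ≠ col false 1 := by decide +kernel

theorem ix_col1_ne : col false 1 ≠ 0 := by decide +kernel

theorem ix_indep3 : ∀ s : S, adj 1 s → ∀ t : S, adj 1 t → adj s t →
    col false s + col false t = col false 1 → (s = 6 ∧ t = 7) ∨ (s = 7 ∧ t = 6) := by decide +kernel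

theorem ix_noFour : ∀ s t : S, adj s t → ∀ r : S, adj s r → adj t r → ∀ q : S, adj s q → adj t q →
    ¬ adj r q := by
  decide +kernel

theorem ix_card (R : Finset S) (hR : Clique R) : R.card ≤ 3 := by
  by_contra hc
  obtain ⟨R', hR', hc'⟩ := Finset.exists_subset_card_eq (show 4 ≤ R.card by omega)
  have hcl := hR.mono hR'
  obtain ⟨s, R1, hs, rfl, h1⟩ := Finset.card_eq_succ.1 hc'
  obtain ⟨t, r, q, htr, htq, hrq, rfl⟩ := Finset.card_eq_three.1 h1
  have hadj : ∀ a ∈ insert s ({t, r, q} : Finset S), ∀ b ∈ insert s ({t, r, q} : Finset S),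
      a ≠ b → adj a b := hcl
  simp only [Finset.mem_insert, Finset.mem_singleton, not_or] at hadj hs
  exact ix_noFour s t (hadj s (by simp) t (by simp) hs.1)
    r (hadj s (by simp) r (by simp) hs.2.1) (hadj t (by simp) r (by simp) htr)
    q (hadj s (by simp) q (by simp) hs.2.2) (hadj t (by simp) q (by simp) htq)
    (hadj r (by simp) q (by simp) hrq)

/-- a clique containing the vertex is the vertex -/
theorem ix_sup {T : Finset S} (hT : Clique T) (h : ixV ⊆ T) : T = ixV := by
  have h1 := ix_card T hT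
  have h2 : ixV.card = 3 := by decide
  exact (Finset.eq_of_subset_of_card_le h (by omega)).symm

/-- the colour of u2 is not in the span of the other colours of a clique, except at the vertex -/
theorem ix_indep {T : Finset S} (hT : Clique T) (h1 : (1 : S) ∈ T) (hv : ¬ ixV ⊆ T) :
    col false 1 ∉ spn false (T.erase 1) := by
  intro h
  obtain ⟨R, hR, hs⟩ := mem_spn.1 h
  rw [Finset.mem_powerset] at hR
  have hc := ix_card T hT
  have hc2 : R.card ≤ 2 := by
    have := Finset.card_le_card hR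
    rw [Finset.card_erase_of_mem h1] at this
    omega
  have hadj : ∀ t ∈ R, adj 1 t := fun t ht =>
    hT 1 h1 t (Finset.mem_of_mem_erase (hR ht)) (Finset.ne_of_mem_erase (hR ht)).symm
  have hadj2 : ∀ t ∈ R, ∀ r ∈ R, t ≠ r → adj t r := fun t ht r hr =>
    hT t (Finset.mem_of_mem_erase (hR ht)) r (Finset.mem_of_mem_erase (hR hr))
  have hRT : R ⊆ T := hR.trans (Finset.erase_subset _ _)
  interval_cases hq : R.card
  · rw [Finset.card_eq_zero] at hq
    subst hq
    rw [Finset.sum_empty] at hs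
    exact ix_col1_ne hs.symm
  · obtain ⟨t, rfl⟩ := Finset.card_eq_one.1 hq
    rw [Finset.sum_singleton] at hs
    exact ix_indep2 t (hadj t (by simp)) hs
  · obtain ⟨t, r, htr, rfl⟩ := Finset.card_eq_two.1 hq
    rw [Finset.sum_pair htr] at hs
    have h3 := ix_indep3 t (hadj t (by simp)) r (hadj r (by simp)) (hadj2 t (by simp) r (by simp) htr) hs
    apply hv
    have ht := hRT (show t ∈ ({t, r} : Finset S) by simp)
    have hr := hRT (show r ∈ ({t, r} : Finset S) by simp)
    intro s hs'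
    simp only [ixV, Finset.mem_insert, Finset.mem_singleton] at hs'
    rcases h3 with ⟨rfl, rfl⟩ | ⟨rfl, rfl⟩ <;> rcases hs' with rfl | rfl | rfl <;> assumption

theorem ix_spn_G {T : Finset S} (hT : Clique T) (h1 : (1 : S) ∈ T) {v : V}
    (hv : v ∈ spn false T) : v ∈ ixG := by
  obtain ⟨R, hR, rfl⟩ := mem_spn.1 hv
  refine sum_mem fun s hs => ?_
  by_cases h : 1 = s
  · subst h; exact ix_col1
  · exact ix_nb s (hT 1 h1 s (Finset.mem_powerset.1 hR hs) h)

theorem ix_split {T : Finset S} {v : V} (hv : v ∈ spn false T) :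
    v ∈ spn false (T.erase 1) ∨ v + col false 1 ∈ spn false (T.erase 1) := by
  obtain ⟨R, hR, rfl⟩ := mem_spn.1 hv
  rw [Finset.mem_powerset] at hR
  by_cases h : (1 : S) ∈ R
  · right
    refine mem_spn.2 ⟨R.erase 1, Finset.mem_powerset.2 (Finset.erase_subset_erase _ hR), ?_⟩
    have h2 := Finset.add_sum_erase R (col false) h
    rw [← h2]
    have h3 := V.add_self (col false 1)
    calc ∑ s ∈ R.erase 1, col false s = (col false 1 + col false 1) + ∑ s ∈ R.erase 1, col false s := by
          rw [h3, zero_add]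
      _ = col false 1 + ∑ s ∈ R.erase 1, col false s + col false 1 := by abel
  · left
    refine mem_spn.2 ⟨R, Finset.mem_powerset.2 fun s hs => Finset.mem_erase.2 ⟨?_, hR hs⟩, rfl⟩
    rintro rfl
    exact h hs

/-- additivity of the sign -/
theorem ix_add {T : Finset S} {a b : V} (ha : a ∈ spn false T) (hb : b ∈ spn false T) :
    (a + b ∈ spn false (T.erase 1)) ↔
      (a ∈ spn false (T.erase 1) ↔ b ∈ spn false (T.erase 1)) := by
  by_cases h1 : a ∈ spn false (T.erase 1)
  · rw [(spn false (T.erase 1)).add_mem_cancel_left h1]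
    exact ⟨fun h => ⟨fun _ => h, fun _ => h1⟩, fun h => h.1 h1⟩
  · by_cases h2 : b ∈ spn false (T.erase 1)
    · rw [(spn false (T.erase 1)).add_mem_cancel_right h2]
      exact ⟨fun h => absurd h h1, fun h => h.2 h2⟩
    · have h3 := (ix_split ha).resolve_left h1
      have h4 := (ix_split hb).resolve_left h2
      have h5 := add_mem h3 h4
      have h6 : a + col false 1 + (b + col false 1) = a + b := by
        calc a + col false 1 + (b + col false 1) = a + b + (col false 1 + col false 1) := by abel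
          _ = a + b := by rw [V.add_self, add_zero]
      rw [h6] at h5
      exact ⟨fun _ => ⟨fun h => absurd h h1, fun h => absurd h h2⟩, fun _ => h5⟩

/-- no change of sheet -/
def ixC (T : Finset S) (g v : V) : Prop := (1 : S) ∈ T → g ∈ ixG → v ∈ spn false (T.erase 1)

/-- the relation at a clique -/
def ixR (T : Finset S) (x y : V × Bool) : Prop :=
  x.1 - y.1 ∈ spn false T ∧ ((ixV ⊆ T ∧ x.1 ∈ ixG) ∨ (x.2 = y.2 ↔ ixC T x.1 (x.1 - y.1)))

theorem ixR_G {T : Finset S} (hT : Clique T) (h1 : (1 : S) ∈ T) {x y : V}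
    (h : x - y ∈ spn false T) : x ∈ ixG ↔ y ∈ ixG := by
  have h2 := ix_spn_G hT h1 h
  constructor
  · intro hx
    have := sub_mem hx h2
    rwa [sub_sub_cancel] at this
  · intro hy
    have := add_mem h2 hy
    rwa [sub_add_cancel] at this

theorem ixC_symm {T : Finset S} (hT : Clique T) {g g' : V} (h : g - g' ∈ spn false T) :
    ixC T g (g - g') ↔ ixC T g' (g' - g) := by
  unfold ixC
  refine forall_congr' fun h1 => ?_
  rw [ixR_G hT h1 h]
  have : g' - g = g - g' := by
    rw [← neg_sub]; rfl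
  rw [this]

theorem ixC_trans {T : Finset S} (hT : Clique T) {g g' g'' : V} (h : g - g' ∈ spn false T)
    (h' : g' - g'' ∈ spn false T) :
    ixC T g (g - g'') ↔ (ixC T g (g - g') ↔ ixC T g' (g' - g'')) := by
  unfold ixC
  by_cases h1 : (1 : S) ∈ T
  · have h2 := ixR_G hT h1 h
    by_cases h3 : g ∈ ixG
    · have h4 := h2.1 h3
      have h5 := ix_add h h'
      rw [sub_add_sub_cancel] at h5
      simp only [h1, h3, h4, true_imp_iff]
      exact h5
    · have h4 : g' ∉ ixG := fun h => h3 (h2.2 h)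
      simp [h3, h4]
  · simp [h1]

theorem ixR_symm {T : Finset S} (hT : Clique T) {x y : V × Bool} (h : ixR T x y) : ixR T y x := by
  obtain ⟨h1, h2⟩ := h
  have h1' : y.1 - x.1 ∈ spn false T := by rw [← neg_sub]; exact neg_mem h1
  refine ⟨h1', ?_⟩
  rcases h2 with ⟨h2, h3⟩ | h2
  · left
    exact ⟨h2, (ixR_G hT (h2 (by decide)) h1).1 h3⟩
  · right
    rw [← ixC_symm hT h1, ← h2]
    exact eq_comm

theorem ixR_trans {T : Finset S} (hT : Clique T) {x y z : V × Bool} (h : ixR T x y)
    (h' : ixR T y z) : ixR T x z := by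
  obtain ⟨h1, h2⟩ := h
  obtain ⟨h3, h4⟩ := h'
  have h5 : x.1 - z.1 ∈ spn false T := by
    rw [← sub_add_sub_cancel x.1 y.1 z.1]; exact add_mem h1 h3
  refine ⟨h5, ?_⟩
  rcases h2 with ⟨h2, h2'⟩ | h2
  · exact Or.inl ⟨h2, h2'⟩
  · rcases h4 with ⟨h4, h4'⟩ | h4
    · exact Or.inl ⟨h4, (ixR_G hT (h4 (by decide)) h1).2 h4'⟩
    · right
      rw [ixC_trans hT h1 h3, ← h2, ← h4]
      have hB : ∀ a b c : Bool, (a = c ↔ (a = b ↔ b = c)) := by decide
      exact hB x.2 y.2 z.2

theorem ixR_mono {T T' : Finset S} (hT' : Clique T') (h : T ⊆ T') {x y : V × Bool}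
    (hxy : ixR T x y) : ixR T' x y := by
  obtain ⟨h1, h2⟩ := hxy
  refine ⟨spn_mono h h1, ?_⟩
  by_cases hb : ixV ⊆ T' ∧ x.1 ∈ ixG
  · exact Or.inl hb
  · right
    have h2 : x.2 = y.2 ↔ ixC T x.1 (x.1 - y.1) :=
      h2.resolve_left fun ⟨h3, h4⟩ => hb ⟨h3.trans h, h4⟩
    rw [h2]
    unfold ixC
    by_cases hx : x.1 ∈ ixG
    · have hb' : ¬ ixV ⊆ T' := fun h => hb ⟨h, hx⟩
      by_cases h1T : (1 : S) ∈ T
      · simp only [h1T, h h1T, hx, true_imp_iff]
        constructor
        · intro h3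
          exact spn_mono (Finset.erase_subset_erase _ h) h3
        · intro h3
          rcases ix_split h1 with h4 | h4
          · exact h4
          · exfalso
            have h5 := spn_mono (k := false) (Finset.erase_subset_erase 1 h) h4
            have h6 := sub_mem h5 h3
            rw [add_sub_cancel_left] at h6
            exact ix_indep hT' (h h1T) hb' h6
      · simp only [h1T, hx, true_imp_iff, false_imp_iff, true_iff]
        intro h1T'
        refine spn_mono ?_ h1
        intro s hs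
        refine Finset.mem_erase.2 ⟨?_, h hs⟩
        rintro rfl
        exact h1T hs
    · simp [hx]

/-- gluing data of the covering -/
def ixGl : Gl where
  I := V × Bool
  r T x y := Clique T → ixR T x y
  equiv T := by
    refine ⟨fun x _ => ?_, fun {x y} h hT => ?_, fun {x y z} h h' hT => ?_⟩
    · refine ⟨by rw [sub_self]; exact zero_mem _, Or.inr ?_⟩
      unfold ixC
      rw [sub_self]
      exact ⟨fun _ _ _ => zero_mem _, fun _ => rfl⟩
    · exact ixR_symm hT (h hT)
    · exact ixR_trans hT (h hT) (h' hT)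
  mono h x y hxy hT := ixR_mono hT h (hxy (hT.mono h))

theorem ixGl_r {T : Finset S} (hT : Clique T) {x y : V × Bool} : ixGl.r T x y ↔ ixR T x y :=
  ⟨fun h => h hT, fun h _ => h⟩

theorem ix_unique {T : Finset S} (x : V × Bool) (hb : ¬ (ixV ⊆ T ∧ x.1 ∈ ixG)) (j' : V)
    (h : x.1 - j' ∈ spn false T) : ∃! y : V × Bool, ixR T x y ∧ y.1 = j' := by
  classical
  by_cases hc : ixC T x.1 (x.1 - j')
  · refine ⟨(j', x.2), ⟨⟨h, Or.inr ⟨fun _ => hc, fun _ => rfl⟩⟩, rfl⟩, ?_⟩
    rintro ⟨g, e⟩ ⟨⟨h1, h2⟩, rfl⟩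
    have h3 := (h2.resolve_left hb).2 hc
    exact Prod.ext rfl h3.symm
  · refine ⟨(j', !x.2), ⟨⟨h, Or.inr ⟨fun h5 => absurd h5 (by simp), fun h5 => absurd h5 hc⟩⟩, rfl⟩, ?_⟩
    rintro ⟨g, e⟩ ⟨⟨h1, h2⟩, rfl⟩
    have h3 : ¬ (x.2 = e) := fun h5 => hc ((h2.resolve_left hb).1 h5)
    have hB : ∀ a b : Bool, ¬ (a = b) → b = !a := by decide
    exact Prod.ext rfl (hB _ _ h3)

/-- the covering map -/
def ixQ (C : Chamber) : Dev C ixGl → Dev C (GX false) :=
  Dev.map (G := ixGl) (G' := GX false) (fun x : V × Bool => x.1)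
    (fun _ hT _ _ h => ((ixGl_r hT).1 h).1)

theorem ix_span_V : ∀ v : V, v ∈ spn false ixV ↔ v ∈ Asub := by decide +kernel

theorem ix_G_cases : ∀ v : V, v ∈ ixG → v - 0 ∈ Asub ∨ v - V.of 4 ∈ Asub := by decide +kernel


/-- a point outside the two singular points is not bad -/
theorem ix_good (C : Chamber)
    (hv : ∀ p q : C.P, C.sup p = {1, 6, 7} → C.sup q = {1, 6, 7} → p = q)
    (v0 : C.P) (hv0 : C.sup v0 = ixV) (i : V) (p : C.P)
    (hs : (Dev.mk (G := GX false) i p : Dev C (GX false)) ≠ Dev.mk (G := GX false) (0 : V) v0)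
    (ht : (Dev.mk (G := GX false) i p : Dev C (GX false)) ≠ Dev.mk (G := GX false) (V.of 4) v0) :
    ¬ (ixV ⊆ C.sup p ∧ i ∈ ixG) := by
  rintro ⟨h1, h2⟩
  have h3 : C.sup p = ixV := ix_sup (C.clique_sup p) h1
  have h4 : p = v0 := hv p v0 h3 hv0
  subst h4
  rcases ix_G_cases i h2 with h5 | h5
  · exact hs (Dev.mk_eq.2 ⟨rfl, by rw [h3]; exact (ix_span_V _).2 h5⟩)
  · exact ht (Dev.mk_eq.2 ⟨rfl, by rw [h3]; exact (ix_span_V _).2 h5⟩)

theorem ixQ_mk (C : Chamber) (x : V × Bool) (p : C.P) :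
    ixQ C (Dev.mk (G := ixGl) x p) = Dev.mk (G := GX false) x.1 p := rfl

/-- the points over a given point -/
theorem ixQ_fib (C : Chamber) (i : V) (p : C.P) (hg : ¬ (ixV ⊆ C.sup p ∧ i ∈ ixG))
    (x : Dev C ixGl) (hx : ixQ C x = Dev.mk (G := GX false) i p) :
    ∃ e : Bool, x = Dev.mk (G := ixGl) ((i, e) : V × Bool) p := by
  obtain ⟨j, p', rfl⟩ := Dev.exists_rep x
  obtain ⟨h1, h2⟩ := Dev.mk_eq.1 ((ixQ_mk C j p').symm.trans hx)
  subst h1
  have hT := C.clique_sup p'
  have h2' : j.1 - i ∈ spn false (C.sup p') := h2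
  have hb : ¬ (ixV ⊆ C.sup p' ∧ j.1 ∈ ixG) := by
    rintro ⟨h3, h4⟩
    exact hg ⟨h3, (ixR_G hT (h3 (by decide)) h2').1 h4⟩
  obtain ⟨⟨j', e⟩, ⟨h3, h4⟩, -⟩ := ix_unique j hb i h2'
  subst h4
  exact ⟨e, Dev.mk_eq.2 ⟨rfl, (ixGl_r hT).2 h3⟩⟩

/-- the two points over a given point differ -/
theorem ixQ_ne (C : Chamber) (i : V) (p : C.P) (hg : ¬ (ixV ⊆ C.sup p ∧ i ∈ ixG)) :
    (Dev.mk (G := ixGl) ((i, false) : V × Bool) p : Dev C ixGl) ≠
      Dev.mk (G := ixGl) ((i, true) : V × Bool) p := by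
  intro h
  have hT := C.clique_sup p
  have h1 : ixR (C.sup p) (i, false) (i, true) := (ixGl_r hT).1 (Dev.mk_eq.1 h).2
  have h0 : ixR (C.sup p) (i, false) (i, false) := (ixGl_r hT).1 (ixGl.refl _ _)
  have h2 : (i : V) - i ∈ spn false (C.sup p) := h0.1
  obtain ⟨y, -, hy⟩ := ix_unique (T := C.sup p) (i, false) hg i h2
  have h3 := hy _ ⟨h1, rfl⟩
  have h4 := hy _ ⟨h0, rfl⟩
  have h5 : ((i, true) : V × Bool) = (i, false) := h3.trans h4.symm
  have h6 : true = false := congrArg Prod.snd h5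
  exact absurd h6 (by decide)

/-- X has the invariant -/
theorem inv_X (C : Chamber)
    (hv : ∀ p q : C.P, C.sup p = {1, 6, 7} → C.sup q = {1, 6, 7} → p = q) :
    Inv (Dev C (GX false)) := by
  classical
  obtain ⟨v0, hv0⟩ := C.exists_sup_eq ix_clique
  let s : Dev C (GX false) := Dev.mk (G := GX false) (0 : V) v0
  let t : Dev C (GX false) := Dev.mk (G := GX false) (V.of 4) v0
  have hst : s ≠ t := by
    intro h
    have h1 : (0 : V) - V.of 4 ∈ spn false (C.sup v0) := (Dev.mk_eq.1 h).2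
    rw [hv0] at h1
    have h2 := (ix_span_V _).1 h1
    revert h2
    decide
  refine ⟨s, t, hst, Dev C ixGl, inferInstance, ixQ C, ?_, ?_, ?_⟩
  · -- covering
    intro x hx
    obtain ⟨i', p, rfl⟩ := Dev.exists_rep x
    have hg : ¬ (ixV ⊆ C.sup p ∧ (show V from i') ∈ ixG) :=
      ix_good C hv v0 hv0 i' p (fun h => hx (Or.inl h)) (fun h => hx (Or.inr h))
    have hT := C.clique_sup p
    refine Dev.evenlyCovered C ixGl (GX false) (fun x : V × Bool => x.1)
      (fun _ hT _ _ h => ((ixGl_r hT).1 h).1) p i' ?_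
    intro T hTp i hi j' hj'
    have hTc : Clique T := hT.mono hTp
    have hi' : (i : V × Bool).1 - (show V from i') ∈ spn false (C.sup p) := hi
    have hj'' : (i : V × Bool).1 - (show V from j') ∈ spn false T := hj'
    have hb : ¬ (ixV ⊆ T ∧ (i : V × Bool).1 ∈ ixG) := by
      rintro ⟨h3, h4⟩
      exact hg ⟨h3.trans hTp, (ixR_G hT (hTp (h3 (by decide))) hi').1 h4⟩
    obtain ⟨y, ⟨hy1, hy2⟩, hy3⟩ := ix_unique (T := T) (i : V × Bool) hb j' hj''
    refine ⟨y, ⟨(ixGl_r hTc).2 hy1, hy2⟩, ?_⟩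
    rintro z ⟨hz1, hz2⟩
    exact hy3 z ⟨(ixGl_r hTc).1 hz1, hz2⟩
  · -- two sheets
    intro y hys hyt
    obtain ⟨i, p, rfl⟩ := Dev.exists_rep y
    have hg : ¬ (ixV ⊆ C.sup p ∧ (show V from i) ∈ ixG) :=
      ix_good C hv v0 hv0 i p hys hyt
    have h1 : (ixQ C ⁻¹' {(Dev.mk i p : Dev C (GX false))}) =
        {Dev.mk (G := ixGl) ((i, false) : V × Bool) p,
          Dev.mk (G := ixGl) ((i, true) : V × Bool) p} := by
      ext x
      simp only [Set.mem_preimage, Set.mem_singleton_iff, Set.mem_insert_iff]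
      constructor
      · intro hx
        obtain ⟨e, he⟩ := ixQ_fib C i p hg x hx
        cases e
        · exact Or.inl he
        · exact Or.inr he
      · rintro (rfl | rfl) <;> rfl
    rw [h1]
    exact Set.ncard_pair (ixQ_ne C i p hg)
  · -- no section
    intro z hz N hN hzN
    rintro ⟨σ, hσ, hσ2⟩
    -- the index of z
    obtain ⟨g, hgG, hg⟩ : ∃ g : V, g ∈ ixG ∧ Dev.mk (G := GX false) g v0 = z := by
      rcases hz with rfl | rfl
      · exact ⟨0, zero_mem _, rfl⟩
      · exact ⟨V.of 4, by decide, rfl⟩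
    -- linear functional
    let φ : L →ₗ[ℝ] ℝ := C.α 1 + C.α 6 + C.α 7
    have hφc : Continuous φ := LinearMap.continuous_of_finiteDimensional φ
    have hα0 : ∀ r : S, r ∈ ixV → C.α r v0.1 = 0 := fun r hr => C.mem_sup.1 (by rw [hv0]; exact hr)
    have hφ0 : φ v0.1 = 0 := by
      simp only [φ, LinearMap.add_apply]
      rw [hα0 1 (by decide), hα0 6 (by decide), hα0 7 (by decide)]
      norm_num
    -- the neighbourhood
    have hW : ∃ r > 0, ∀ p : C.P, p.1 ∈ Metric.ball v0.1 r → ∀ i : V, i - g ∈ Asub →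
        Dev.mk (G := GX false) i p ∈ N := by
      have h1 : IsOpen {p : C.P | ∀ i : V, i - g ∈ Asub → Dev.mk (G := GX false) i p ∈ N} := by
        have h2 : {p : C.P | ∀ i : V, i - g ∈ Asub → Dev.mk (G := GX false) i p ∈ N} =
            ⋂ i : V, ⋂ (_ : i - g ∈ Asub), {p : C.P | Dev.mk (G := GX false) i p ∈ N} := by
          ext p; simp
        rw [h2]
        refine isOpen_iInter_of_finite fun i => isOpen_iInter_of_finite fun _ => ?_
        exact hN.preimage (Dev.continuous_mk (G := GX false) i)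
      have h3 : v0 ∈ {p : C.P | ∀ i : V, i - g ∈ Asub → Dev.mk (G := GX false) i p ∈ N} := by
        intro i hi
        have h4 : Dev.mk (G := GX false) i v0 = Dev.mk (G := GX false) g v0 :=
          Dev.mk_eq.2 ⟨rfl, by rw [hv0]; exact (ix_span_V _).2 hi⟩
        rw [h4, hg]
        exact hzN
      obtain ⟨r, hr, h5⟩ := Metric.isOpen_iff.1 h1 v0 h3
      exact ⟨r, hr, fun p hp => h5 hp⟩
    obtain ⟨r, hr, hW⟩ := hW
    let K : Set C.P := {p | p.1 ∈ Metric.ball v0.1 r ∧ 0 < φ p.1}
    have hKpre : IsPreconnected K := by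
      rw [← Topology.IsInducing.subtypeVal.isPreconnected_image]
      have h1 : ((↑) '' K : Set L) = (Metric.ball v0.1 r ∩ {x | 0 < φ x}) ∩ C.P := by
        ext x
        constructor
        · rintro ⟨p, ⟨h1, h2⟩, rfl⟩
          exact ⟨⟨h1, h2⟩, p.2⟩
        · rintro ⟨⟨h1, h2⟩, h3⟩
          exact ⟨⟨x, h3⟩, ⟨h1, h2⟩, rfl⟩
      rw [h1]
      refine (((convex_ball _ _).inter ?_).inter C.convex).isPreconnected
      exact convex_halfSpace_gt φ.isLinear 0
    have hKne : ∀ p ∈ K, p ≠ v0 := by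
      rintro p ⟨-, h2⟩ rfl
      rw [hφ0] at h2
      exact lt_irrefl _ h2
    have hKst : ∀ p ∈ K, ∀ i : V, Dev.mk (G := GX false) i p ≠ s ∧ Dev.mk (G := GX false) i p ≠ t := by
      intro p hp i
      exact ⟨fun h => hKne p hp (Dev.mk_eq.1 h).1, fun h => hKne p hp (Dev.mk_eq.1 h).1⟩
    have hKg : ∀ p ∈ K, ∀ i : V, ¬ (ixV ⊆ C.sup p ∧ i ∈ ixG) := fun p hp i =>
      ix_good C hv v0 hv0 i p (hKst p hp i).1 (hKst p hp i).2
    have hKN : ∀ p ∈ K, ∀ i : V, i - g ∈ Asub → Dev.mk (G := GX false) i p ∈ N \ {s, t} := by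
      intro p hp i hi
      refine ⟨hW p hp.1 i hi, ?_⟩
      rintro (h | h)
      · exact (hKst p hp i).1 h
      · exact (hKst p hp i).2 h
    -- the sheet is constant on each copy
    have hsheet : ∀ i : V, i - g ∈ Asub → ∃ e : Bool, ∀ p ∈ K,
        σ (Dev.mk (G := GX false) i p) = Dev.mk (G := ixGl) ((i, e) : V × Bool) p := by
      intro i hi
      have hcov : ∀ p ∈ K, ∃ e : Bool,
          σ (Dev.mk (G := GX false) i p) = Dev.mk (G := ixGl) ((i, e) : V × Bool) p :=
        fun p hp => ixQ_fib C i p (hKg p hp i) _ (hσ2 _ (hKN p hp i hi))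
      let M : Set (Dev C ixGl) := (fun p : C.P => σ (Dev.mk (G := GX false) i p)) '' K
      have hMpre : IsPreconnected M := by
        refine hKpre.image _ ?_
        exact hσ.comp (Dev.continuous_mk (G := GX false) i).continuousOn fun p hp => hKN p hp i hi
      let R : Bool → Set (Dev C ixGl) := fun e =>
        Set.range (Dev.mk (G := ixGl) ((i, e) : V × Bool) : C.P → Dev C ixGl)
      have hR : ∀ e, IsClosed (R e) := fun e => by
        have := Dev.isClosed_image_mk (C := C) (G := ixGl) ((i, e) : V × Bool)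
          (isClosed_univ (X := C.P))
        rw [Set.image_univ] at this
        exact this
      have hMR : M ⊆ R false ∪ R true := by
        rintro _ ⟨p, hp, rfl⟩
        obtain ⟨e, he⟩ := hcov p hp
        cases e
        · exact Or.inl ⟨p, he.symm⟩
        · exact Or.inr ⟨p, he.symm⟩
      have hdisj : ¬ (M ∩ (R false ∩ R true)).Nonempty := by
        rintro ⟨_, ⟨p, hp, rfl⟩, ⟨p', hp'⟩, ⟨p'', hp''⟩⟩
        have h1 := hσ2 _ (hKN p hp i hi)
        have h2 : p' = p := by
          have h3 : ixQ C (Dev.mk (G := ixGl) ((i, false) : V × Bool) p') =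
            Dev.mk (G := GX false) i p := by rw [hp']; exact h1
          exact (Dev.mk_eq.1 h3).1
        have h2' : p'' = p := by
          have h3 : ixQ C (Dev.mk (G := ixGl) ((i, true) : V × Bool) p'') =
            Dev.mk (G := GX false) i p := by rw [hp'']; exact h1
          exact (Dev.mk_eq.1 h3).1
        subst h2
        subst h2'
        exact ixQ_ne C i _ (hKg _ hp i) (hp'.trans hp''.symm)
      have hpick : ∃ e : Bool, M ⊆ R e := by
        by_contra hcon
        push Not at hcon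
        have h1 := hcon false
        have h2 := hcon true
        rw [Set.not_subset] at h1 h2
        obtain ⟨a, ha, ha'⟩ := h1
        obtain ⟨b, hb, hb'⟩ := h2
        have ha2 : a ∈ R true := (hMR ha).resolve_left ha'
        have hb2 : b ∈ R false := (hMR hb).resolve_right hb'
        exact hdisj (isPreconnected_closed_iff.1 hMpre _ _ (hR false) (hR true) hMR
          ⟨b, hb, hb2⟩ ⟨a, ha, ha2⟩)
      obtain ⟨e, he⟩ := hpick
      refine ⟨e, fun p hp => ?_⟩
      obtain ⟨p', hp'⟩ := he ⟨p, hp, rfl⟩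
      have h1 := hσ2 _ (hKN p hp i hi)
      have h3 : ixQ C (Dev.mk (G := ixGl) ((i, e) : V × Bool) p') =
          Dev.mk (G := GX false) i p := by rw [hp']; exact h1
      have h4 : p' = p := (Dev.mk_eq.1 h3).1
      subst h4
      exact hp'.symm
    -- points on the three facets
    have hpts : ∀ a : S, a ∈ ixV → ∃ p ∈ K, C.sup p = {a} := by
      intro a ha
      obtain ⟨x, hx⟩ := C.exists_sup_eq (T := {a}) (by
        intro u hu w hw huw
        rw [Finset.mem_singleton] at hu hw
        exact absurd (hu.trans hw.symm) huw)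
      have hxα : ∀ r : S, C.α r x.1 = 0 ↔ r = a := by
        intro r
        rw [← C.mem_sup, hx, Finset.mem_singleton]
      obtain ⟨ε, hε0, hε1, hε⟩ : ∃ ε : ℝ, 0 < ε ∧ ε < 1 ∧
          v0.1 + ε • (x.1 - v0.1) ∈ Metric.ball v0.1 r := by
        have hc : Continuous (fun ε : ℝ => v0.1 + ε • (x.1 - v0.1)) := by fun_prop
        have ho : IsOpen ((fun ε : ℝ => v0.1 + ε • (x.1 - v0.1)) ⁻¹' Metric.ball v0.1 r) :=
          Metric.isOpen_ball.preimage hc
        have h0 : (0 : ℝ) ∈ ((fun ε : ℝ => v0.1 + ε • (x.1 - v0.1)) ⁻¹' Metric.ball v0.1 r) := by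
          simp [hr]
        obtain ⟨δ, hδ, hδ2⟩ := Metric.isOpen_iff.1 ho 0 h0
        refine ⟨min (δ / 2) (1 / 2), by positivity, ?_, hδ2 ?_⟩
        · exact (min_le_right _ _).trans_lt (by norm_num)
        · rw [Metric.mem_ball, Real.dist_eq, sub_zero, abs_of_pos (by positivity)]
          exact (min_le_left _ _).trans_lt (by linarith)
      have hmem : v0.1 + ε • (x.1 - v0.1) ∈ C.P := by
        have h1 := C.convex v0.2 x.2 (show 0 ≤ 1 - ε by linarith) hε0.le (by ring)
        have h2 : (1 - ε) • v0.1 + ε • x.1 = v0.1 + ε • (x.1 - v0.1) := by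
          rw [smul_sub, sub_smul, one_smul]; abel
        rwa [h2] at h1
      have hα : ∀ r : S, C.α r (v0.1 + ε • (x.1 - v0.1)) = (1 - ε) * C.α r v0.1 + ε * C.α r x.1 := by
        intro r
        rw [map_add, map_smul, map_sub, smul_eq_mul]
        ring
      have hαz : ∀ r : S, C.α r (v0.1 + ε • (x.1 - v0.1)) = 0 ↔ r = a := by
        intro r
        rw [hα]
        have h1 := C.nonneg r v0.1 v0.2
        have h2 := C.nonneg r x.1 x.2
        constructor
        · intro h
          rw [← hxα]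
          have h3 : 0 ≤ (1 - ε) * C.α r v0.1 := mul_nonneg (by linarith) h1
          have h4 : 0 ≤ ε * C.α r x.1 := mul_nonneg hε0.le h2
          have h5 : ε * C.α r x.1 = 0 := by linarith
          exact (mul_eq_zero.1 h5).resolve_left hε0.ne'
        · rintro rfl
          rw [hα0 r ha, (hxα r).2 rfl]
          ring
      refine ⟨⟨_, hmem⟩, ⟨hε, ?_⟩, ?_⟩
      · -- φ positive
        have hnn : ∀ r : S, 0 ≤ C.α r (v0.1 + ε • (x.1 - v0.1)) := fun r => C.nonneg r _ hmem
        obtain ⟨b, hb, hba⟩ : ∃ b : S, b ∈ ixV ∧ b ≠ a := by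
          by_cases h : a = 1
          · exact ⟨6, by decide, by rw [h]; decide⟩
          · exact ⟨1, by decide, fun h' => h h'.symm⟩
        have hb0 : 0 < C.α b (v0.1 + ε • (x.1 - v0.1)) :=
          lt_of_le_of_ne (hnn b) fun h => hba ((hαz b).1 h.symm)
        show 0 < φ (v0.1 + ε • (x.1 - v0.1))
        simp only [φ, LinearMap.add_apply]
        have h1 := hnn 1
        have h6 := hnn 6
        have h7 := hnn 7
        have hb' : b = 1 ∨ b = 6 ∨ b = 7 := by
          simpa [ixV] using hb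
        rcases hb' with rfl | rfl | rfl <;> linarith
      · ext r
        rw [C.mem_sup, Finset.mem_singleton]
        exact hαz r
    -- crossing
    have hcross : ∀ a : S, a ∈ ixV → ∀ i j : V, i - g ∈ Asub → j - g ∈ Asub → i - j = col false a →
        ∀ e e' : Bool,
        (∀ p ∈ K, σ (Dev.mk (G := GX false) i p) = Dev.mk (G := ixGl) ((i, e) : V × Bool) p) →
        (∀ p ∈ K, σ (Dev.mk (G := GX false) j p) = Dev.mk (G := ixGl) ((j, e') : V × Bool) p) →
        (e = e' ↔ ixC {a} i (col false a)) := by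
      intro a ha i j hi hj hij e e' he he'
      obtain ⟨p, hp, hpa⟩ := hpts a ha
      have h1 : Dev.mk (G := GX false) i p = Dev.mk (G := GX false) j p := by
        refine Dev.mk_eq.2 ⟨rfl, ?_⟩
        show i - j ∈ spn false (C.sup p)
        rw [hpa, hij]
        exact mem_spn.2 ⟨{a}, by simp, by simp⟩
      have h2 : (Dev.mk (G := ixGl) ((i, e) : V × Bool) p : Dev C ixGl) =
          Dev.mk (G := ixGl) ((j, e') : V × Bool) p := by
        rw [← he p hp, ← he' p hp, h1]
      have h3 : ixR (C.sup p) (i, e) (j, e') :=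
        (ixGl_r (C.clique_sup p)).1 (Dev.mk_eq.1 h2).2
      rw [hpa] at h3
      have h4 : ¬ (ixV ⊆ {a}) := by
        intro h
        have := Finset.card_le_card h
        rw [Finset.card_singleton] at this
        revert this
        decide
      have h5 := h3.2.resolve_left fun h => h4 h.1
      simp only at h5
      rw [hij] at h5
      exact h5
    -- the contradiction
    have hga : ∀ a : V, a ∈ Asub → (g + a) - g ∈ Asub := by
      intro a ha
      rw [add_sub_cancel_left]; exact ha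
    have hgG' : ∀ a : V, a ∈ Asub → g + a ∈ ixG := by
      intro a ha
      refine add_mem hgG ?_
      have h1 : a.1 < 4 := ha
      show a.1 < 8
      omega
    obtain ⟨e0, he0⟩ := hsheet (g + 0) (hga 0 (zero_mem _))
    obtain ⟨e1, he1⟩ := hsheet (g + col false 1) (hga _ (by decide))
    obtain ⟨e2, he2⟩ := hsheet (g + col false 7) (hga _ (by decide))
    have hc1 := hcross 1 (by decide) (g + 0) (g + col false 1) (hga _ (zero_mem _)) (hga _ (by decide))
      (by
        rw [add_sub_add_left_eq_sub]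
        decide) e0 e1 he0 he1
    have hc6 := hcross 6 (by decide) (g + col false 1) (g + col false 7) (hga _ (by decide))
      (hga _ (by decide)) (by
        rw [add_sub_add_left_eq_sub]
        decide) e1 e2 he1 he2
    have hc7 := hcross 7 (by decide) (g + 0) (g + col false 7) (hga _ (zero_mem _)) (hga _ (by decide))
      (by
        rw [add_sub_add_left_eq_sub]
        decide) e0 e2 he0 he2
    have h6 : e1 = e2 := hc6.2 fun h => absurd h (by decide)
    have h7 : e0 = e2 := hc7.2 fun h => absurd h (by decide)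
    have h1 : e0 = e1 := h7.trans h6.symm
    have h8 := hc1.1 h1 (by decide) (hgG' 0 (zero_mem _))
    revert h8
    decide +kernel

/-- the singular points of X': the four vertices with their copies -/
def singT (n : Fin 4) : Finset S :=
  match n with
  | 0 => {0, 6, 11}
  | 1 => {1, 2, 7}
  | 2 => {3, 4, 9}
  | 3 => {6, 7, 12}

end H30
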