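import Pool.Agent.Helper30_Alex.Inv

set_option maxRecDepth 20000

/-!
# The linear algebra over F_2 behind the non-existence of the covering for X'
-/

set_option autoImplicit false

namespace H30

/-- colour of X' -/
abbrev ct (f : S) : V := col true f

def bt (f : S) (g : V) : ℕ := 1 <<< (16 * f.val + g.1)

def relM (f f' : S) (g : V) : ℕ :=
  if f = f' then bt f g ^^^ bt f (g + ct f)
  else if ct f = ct f' then bt f g ^^^ bt f' g
  else bt f g ^^^ bt f' (g + ct f) ^^^ bt f (g + ct f') ^^^ bt f' g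

noncomputable def ev (c : S → V → ZMod 2) (m : ℕ) : ZMod 2 :=
  ∑ x : S × V, if m.testBit (16 * x.1.val + x.2.1) then c x.1 x.2 else 0

theorem ev_zero (c : S → V → ZMod 2) : ev c 0 = 0 := by
  simp [ev]

theorem ev_xor (c : S → V → ZMod 2) (m m' : ℕ) : ev c (m ^^^ m') = ev c m + ev c m' := by
  unfold ev
  rw [← Finset.sum_add_distrib]
  refine Finset.sum_congr rfl fun x _ => ?_
  rw [Nat.testBit_xor]
  have h2 : ∀ a : ZMod 2, a + a = 0 := by decide
  cases m.testBit (16 * x.1.val + x.2.1) <;> cases m'.testBit (16 * x.1.val + x.2.1) <;>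
    simp [h2]

theorem ev_bt (c : S → V → ZMod 2) (f : S) (g : V) : ev c (bt f g) = c f g := by
  unfold ev
  rw [Finset.sum_eq_single (f, g)]
  · simp [bt, Nat.one_shiftLeft, Nat.testBit_two_pow_self]
  · rintro ⟨f', g'⟩ _ hne
    rw [if_neg]
    intro h
    apply hne
    have h1 : 16 * f.val + g.1 = 16 * f'.val + g'.1 := by
      unfold bt at h
      rw [Nat.one_shiftLeft, Nat.testBit_two_pow] at h
      simpa using h
    have hg : g.1 < 16 := g.2
    have hg' : g'.1 < 16 := g'.2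
    have e1 : f' = f := Fin.ext (by omega)
    have e2 : g' = g := Fin.ext (by omega)
    rw [e1, e2]
  · intro h; exact absurd (Finset.mem_univ _) h

/-- the relations satisfied by the transition function -/
structure Rel (c : S → V → ZMod 2) : Prop where
  sym : ∀ f g, c f (g + ct f) = c f g
  edge : ∀ f f', adj f f' → ct f ≠ ct f' → ∀ g,
    c f g + c f' (g + ct f) + c f (g + ct f') + c f' g = 0
  same : ∀ f f', adj f f' → ct f = ct f' → ∀ g, c f g = c f' g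

theorem Rel.shift {c : S → V → ZMod 2} (h : Rel c) (t : V) : Rel (fun f g => c f (g + t)) := by
  refine ⟨fun f g => ?_, fun f f' ha hc g => ?_, fun f f' ha hc g => h.same f f' ha hc _⟩
  · show c f (g + ct f + t) = c f (g + t)
    rw [add_right_comm]; exact h.sym f _
  · have := h.edge f f' ha hc (g + t)
    rw [add_right_comm g t, add_right_comm g t] at this
    exact this

theorem Rel.ev_relM {c : S → V → ZMod 2} (h : Rel c) (f f' : S) (g : V)
    (hf : f = f' ∨ adj f f') : ev c (relM f f' g) = 0 := by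
  have h2 : ∀ a : ZMod 2, a + a = 0 := by decide
  unfold relM
  split_ifs with h1 h3
  · rw [ev_xor, ev_bt, ev_bt, h.sym, h2]
  · rw [ev_xor, ev_bt, ev_bt, h.same f f' (hf.resolve_left h1) h3, h2]
  · rw [ev_xor, ev_xor, ev_xor, ev_bt, ev_bt, ev_bt, ev_bt]
    exact h.edge f f' (hf.resolve_left h1) h3 g

/-- the four singular vertices, ordered -/
def tri : Fin 4 → S × S × S
  | 0 => (0, 6, 11)
  | 1 => (1, 2, 7)
  | 2 => (3, 4, 9)
  | 3 => (6, 7, 12)

/-- the vertex relation -/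
def RR (c : S → V → ZMod 2) (n : Fin 4) (g : V) : ZMod 2 :=
  c (tri n).1 g + c (tri n).2.1 (g + ct (tri n).1) +
    c (tri n).2.2 (g + ct (tri n).1 + ct (tri n).2.1)

def RM (n : Fin 4) (g : V) : ℕ :=
  bt (tri n).1 g ^^^ bt (tri n).2.1 (g + ct (tri n).1) ^^^
    bt (tri n).2.2 (g + ct (tri n).1 + ct (tri n).2.1)

theorem ev_RM (c : S → V → ZMod 2) (n : Fin 4) (g : V) : ev c (RM n g) = RR c n g := by
  unfold RM RR
  rw [ev_xor, ev_xor, ev_bt, ev_bt, ev_bt]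

/-- the supports of the six walls -/
def wallL : Fin 6 → List (Fin 4 × ℕ)
  | 0 => [(0, 0), (0, 4), (0, 8), (0, 12)]
  | 1 => [(1, 0), (1, 4), (1, 8), (1, 12)]
  | 2 => [(2, 0), (2, 4), (2, 8), (2, 12)]
  | 3 => [(0, 0), (0, 4), (1, 0), (1, 4), (3, 0), (3, 4)]
  | 4 => [(1, 0), (1, 8), (2, 0), (2, 8), (3, 0), (3, 8)]
  | 5 => [(2, 0), (2, 12), (0, 0), (0, 12), (3, 0), (3, 12)]

def certL : Fin 6 → List (ℕ × ℕ × ℕ)
    | 0 => [(0, 19, 4), (13, 19, 8), (1, 1, 12), (5, 5, 13), (5, 10, 0), (5, 11, 7), (1, 6, 14),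
      (5, 10, 12), (6, 6, 12), (5, 18, 4), (6, 12, 0), (11, 12, 3), (1, 1, 5), (6, 12, 12), (0,
      6, 8), (1, 13, 1), (1, 1, 1), (1, 13, 8), (5, 5, 8), (12, 12, 0), (1, 6, 3), (10, 12, 12),
      (0, 18, 6), (5, 5, 1), (18, 19, 4), (5, 5, 4), (0, 18, 2), (10, 12, 0), (13, 19, 1), (11,
      12, 0), (18, 19, 1), (5, 5, 12), (5, 18, 1), (5, 11, 0), (0, 19, 12), (0, 6, 0), (6, 6,
      13), (5, 11, 15), (6, 6, 5), (5, 11, 11), (1, 6, 7), (1, 6, 8)]
    | 1 => [(10, 10, 5), (3, 8, 14), (3, 8, 3), (2, 15, 0), (4, 4, 4), (2, 2, 5), (7, 7, 4), (7,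
      8, 7), (10, 12, 4), (2, 15, 4), (1, 1, 1), (3, 15, 6), (7, 8, 15), (4, 10, 5), (7, 7, 2),
      (4, 10, 6), (10, 10, 4), (8, 8, 14), (0, 1, 0), (2, 2, 13), (14, 21, 0), (3, 4, 4), (12,
      12, 5), (7, 7, 8), (7, 7, 12), (1, 7, 8), (0, 6, 0), (3, 8, 10), (1, 14, 0), (1, 2, 8),
      (1, 1, 9), (2, 7, 12), (15, 21, 0), (2, 7, 4), (14, 21, 8), (3, 15, 2), (1, 14, 8), (1, 2,
      0), (6, 7, 0), (3, 3, 2), (8, 12, 4), (7, 8, 3), (7, 7, 0), (3, 8, 4), (15, 21, 4), (7, 8,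
      10)]
    | 2 => [(10, 12, 8), (5, 11, 13), (5, 11, 8), (9, 12, 5), (12, 12, 0), (5, 11, 0), (9, 9, 4),
      (4, 5, 12), (11, 12, 13), (9, 9, 13), (9, 12, 8), (11, 12, 6), (11, 12, 10), (9, 12, 3),
      (9, 12, 13), (4, 16, 1), (4, 16, 5), (5, 17, 0), (9, 10, 4), (17, 23, 0), (9, 9, 8), (16,
      23, 0), (4, 9, 12), (9, 9, 5), (11, 12, 0), (5, 11, 4), (16, 23, 4), (17, 23, 4), (5, 17,
      4), (5, 5, 13), (3, 16, 4), (10, 11, 4), (12, 12, 5), (10, 11, 8), (3, 16, 0), (9, 9, 12)]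
    | 3 => [(2, 2, 1), (0, 13, 0), (14, 20, 1), (1, 13, 0), (6, 7, 0), (11, 12, 7), (2, 2, 5), (6,
      7, 4), (2, 14, 1), (13, 20, 1), (11, 12, 3), (7, 7, 0), (7, 7, 4)]
    | 4 => [(2, 15, 0), (8, 8, 0), (9, 12, 11), (1, 2, 8), (7, 7, 8), (3, 8, 3), (2, 3, 0), (7, 8,
      1), (2, 2, 1), (16, 22, 1), (1, 6, 0), (8, 8, 2), (3, 8, 0), (1, 1, 9), (9, 12, 3), (15,
      22, 1), (7, 8, 2), (3, 15, 0), (4, 16, 1), (6, 7, 8), (1, 6, 9)]
    | 5 => [(8, 9, 0), (6, 7, 12), (7, 8, 12), (18, 24, 1), (5, 11, 3), (3, 8, 3), (7, 8, 0), (5,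
      18, 0), (17, 24, 1), (0, 18, 0), (3, 3, 12), (5, 5, 12), (8, 8, 12), (5, 11, 15), (6, 7,
      0), (3, 8, 13), (3, 9, 0), (5, 5, 0), (4, 17, 1), (9, 12, 15), (9, 12, 3)]

def xorL (l : List ℕ) : ℕ := l.foldl (fun a b => a ^^^ b) 0

theorem ev_foldl (c : S → V → ZMod 2) (l : List ℕ) (a : ℕ) :
    ev c (l.foldl (fun a b => a ^^^ b) a) = ev c a + (l.map (ev c)).sum := by
  induction l generalizing a with
  | nil => simp
  | cons x l ih => rw [List.foldl_cons, ih, ev_xor, List.map_cons, List.sum_cons, add_assoc]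

theorem ev_xorL (c : S → V → ZMod 2) (l : List ℕ) : ev c (xorL l) = (l.map (ev c)).sum := by
  unfold xorL
  rw [ev_foldl, ev_zero, zero_add]

def certM (w : Fin 6) : List ℕ :=
  (certL w).map fun x => relM (Fin.ofNat 32 x.1) (Fin.ofNat 32 x.2.1) (V.of x.2.2)

theorem cert_ok : ∀ w : Fin 6, xorL (certM w) = xorL ((wallL w).map fun x => RM x.1 (V.of x.2)) := by
  decide +kernel

def adjB (f f' : ℕ) : Bool :=
  (f % 32) == (f' % 32) || (nb (Fin.ofNat 32 f)).testBit (f' % 32)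

theorem cert_adj' : ∀ w : Fin 6, (certL w).all (fun x => adjB x.1 x.2.1) = true := by
  decide +kernel

theorem cert_adj (w : Fin 6) (x : ℕ × ℕ × ℕ) (hx : x ∈ certL w) :
    (Fin.ofNat 32 x.1 : S) = Fin.ofNat 32 x.2.1 ∨ adj (Fin.ofNat 32 x.1) (Fin.ofNat 32 x.2.1) := by
  have h := List.all_eq_true.1 (cert_adj' w) x hx
  unfold adjB at h
  rw [Bool.or_eq_true, beq_iff_eq] at h
  rcases h with h | h
  · left; exact Fin.ext h
  · right; exact h

theorem Rel.wall {c : S → V → ZMod 2} (h : Rel c) (w : Fin 6) :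
    ((wallL w).map fun x => RR c x.1 (V.of x.2)).sum = 0 := by
  have h1 := congrArg (ev c) (cert_ok w)
  rw [ev_xorL, ev_xorL] at h1
  have h2 : ((certM w).map (ev c)).sum = 0 := by
    apply List.sum_eq_zero
    intro y hy
    simp only [certM, List.map_map, List.mem_map, Function.comp] at hy
    obtain ⟨x, hx, rfl⟩ := hy
    exact h.ev_relM _ _ _ (cert_adj w x hx)
  rw [h2, List.map_map] at h1
  have h3 : (wallL w).map (fun x => RR c x.1 (V.of x.2)) =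
      (wallL w).map (ev c ∘ fun x => RM x.1 (V.of x.2)) :=
    List.map_congr_left fun x _ => (ev_RM c x.1 (V.of x.2)).symm
  rw [h3]
  exact h1.symm

def wallOK (n₀ n₁ : Fin 4) (d : V) (w : Fin 6) : Bool :=
  decide (wallL w).Nodup && decide ((n₀, 0) ∈ wallL w) && (wallL w).all (fun x =>
    decide (x = (n₀, 0)) || (decide (x.1 ≠ n₀ ∨ V.of x.2 ∉ Asub) &&
      decide (x.1 ≠ n₁ ∨ V.of x.2 - d ∉ Asub)))

theorem wall_pick' : ∀ (n₀ n₁ : Fin 4) (d : V), (n₀ ≠ n₁ ∨ d ∉ Asub) →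
    ∃ w : Fin 6, wallOK n₀ n₁ d w = true := by
  decide +kernel

/-- for every two different singular points there is a wall containing the first but not the
second -/
theorem wall_pick (n₀ n₁ : Fin 4) (d : V) (h : n₀ ≠ n₁ ∨ d ∉ Asub) : ∃ w : Fin 6,
    (wallL w).Nodup ∧ (n₀, 0) ∈ wallL w ∧ ∀ x ∈ wallL w, x ≠ (n₀, 0) →
      (x.1 ≠ n₀ ∨ V.of x.2 ∉ Asub) ∧ (x.1 ≠ n₁ ∨ V.of x.2 - d ∉ Asub) := by
  obtain ⟨w, hw⟩ := wall_pick' n₀ n₁ d h
  unfold wallOK at hw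
  rw [Bool.and_eq_true, Bool.and_eq_true, List.all_eq_true] at hw
  obtain ⟨⟨h1, h2⟩, h3⟩ := hw
  refine ⟨w, of_decide_eq_true h1, of_decide_eq_true h2, fun x hx hne => ?_⟩
  have h4 := h3 x hx
  rw [Bool.or_eq_true, Bool.and_eq_true] at h4
  rcases h4 with h4 | h4
  · exact absurd (of_decide_eq_true h4) hne
  · exact ⟨of_decide_eq_true h4.1, of_decide_eq_true h4.2⟩

theorem Rel.main {c : S → V → ZMod 2} (h : Rel c) (n₀ n₁ : Fin 4) (g₀ g₁ : V)
    (hne : n₀ ≠ n₁ ∨ g₁ - g₀ ∉ Asub)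
    (hR : ∀ n g, (n ≠ n₀ ∨ g - g₀ ∉ Asub) → (n ≠ n₁ ∨ g - g₁ ∉ Asub) → RR c n g = 0) :
    RR c n₀ g₀ = 0 := by
  obtain ⟨w, hnd, hmem, hw⟩ := wall_pick n₀ n₁ (g₁ - g₀) hne
  have h1 := (h.shift g₀).wall w
  have h2 : ∀ x ∈ wallL w, x ≠ (n₀, 0) →
      RR (fun f g => c f (g + g₀)) x.1 (V.of x.2) = 0 := by
    intro x hx hne
    obtain ⟨a1, a2⟩ := hw x hx hne
    have h3 := hR x.1 (V.of x.2 + g₀) (by
      rwa [add_sub_cancel_right]) (by
      rcases a2 with a2 | a2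
      · exact Or.inl a2
      · right; rw [show V.of x.2 + g₀ - g₁ = V.of x.2 - (g₁ - g₀) by abel]; exact a2)
    unfold RR at h3 ⊢
    rw [← h3]
    simp only [add_right_comm _ _ g₀]
  have h4 : ((wallL w).map fun x => RR (fun f g => c f (g + g₀)) x.1 (V.of x.2)).sum =
      RR (fun f g => c f (g + g₀)) n₀ (V.of 0) := by
    have h5 : ((wallL w).map fun x => RR (fun f g => c f (g + g₀)) x.1 (V.of x.2)).sum =
        ∑ x ∈ (wallL w).toFinset, RR (fun f g => c f (g + g₀)) x.1 (V.of x.2) := by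
      rw [List.sum_toFinset _ hnd]
    rw [h5, Finset.sum_eq_single (n₀, 0)]
    · intro x hx hne
      exact h2 x (List.mem_toFinset.1 hx) hne
    · intro h6; exact absurd (List.mem_toFinset.2 hmem) h6
  rw [h1] at h4
  rw [← V.zero_def] at h4
  unfold RR at h4 ⊢
  simp only [zero_add] at h4
  rw [h4]
  rw [add_comm (ct (tri n₀).1) g₀, add_comm (ct (tri n₀).1 + ct (tri n₀).2.1) g₀, ← add_assoc]

end H30
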