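import Pool.Agent.Helper30_Alex.HypM

/-!
# The explicit right-angled hyperbolic polytope with 32 facets (PART 5)
-/

set_option autoImplicit false

namespace H30

/-- a right-angled hyperbolic polytope with the given adjacency, given by its outer unit normals -/
structure Pol where
  e : S → L
  unit : ∀ s, Bf (e s) (e s) = 1
  near : ∀ s t, adj s t → Bf (e s) (e t) = 0
  far : ∀ s t, s ≠ t → ¬ adj s t → Bf (e s) (e t) ≤ -1
  pos : ∀ s, 0 < (e s).1

/-- the positive root of `12 s^4 - 2 s^2 - 1` -/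
noncomputable def s0 : ℝ := Real.sqrt ((1 + Real.sqrt 13) / 12)

/-- coordinates in which the form is `-a^2 + 6c^2 + 2(m^2+mn+n^2)` -/
noncomputable def vec (a c m n : ℝ) : L :=
  (a, !₂[Real.sqrt 6 * c, Real.sqrt 2 * m + Real.sqrt 2 / 2 * n, Real.sqrt 6 / 2 * n])

/-- rotations of (1,0) -/
def rA (i : ℕ) : ℤ × ℤ := [(1, 0), (0, 1), (-1, 1), (-1, 0), (0, -1), (1, -1)].getD i (0, 0)
/-- rotations of (1,1) -/
def rB (i : ℕ) : ℤ × ℤ := [(1, 1), (-1, 2), (-2, 1), (-1, -1), (1, -2), (2, -1)].getD i (0, 0)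

/-- unnormalised outer normals -/
noncomputable def raw (s : S) : L :=
  if s.val < 6 then vec 1 0 (rA s.val).1 (rA s.val).2
  else if s.val < 12 then vec 3 (-1) (rB (s.val - 6)).1 (rB (s.val - 6)).2
  else if s.val < 13 then vec 2 (-1) 0 0
  else if s.val < 19 then vec (6 * s0) 1 (2 * s0 * (rB (s.val - 13)).1) (2 * s0 * (rB (s.val - 13)).2)
  else if s.val < 25 then vec 2 s0 (rA (s.val - 19)).1 (rA (s.val - 19)).2
  else if s.val < 31 then vec (12 * s0 ^ 2 - 3) s0 ((6 * s0 ^ 2 - 2) * (rB (s.val - 25)).1)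
    ((6 * s0 ^ 2 - 2) * (rB (s.val - 25)).2)
  else vec (6 * s0) (12 * s0 ^ 2 - 3) 0 0

/-- the normals -/
noncomputable def nrm (s : S) : L := (1 / Real.sqrt (Bf (raw s) (raw s))) • raw s

/-! ### exact arithmetic in the ring generated by `s0` -/

/-- coefficients of `1, s0, s0^2, s0^3` -/
abbrev poly_Q : Type := ℤ × ℤ × ℤ × ℤ

noncomputable def poly_ev (c : poly_Q) : ℝ :=
  c.1 + c.2.1 * s0 + c.2.2.1 * s0 ^ 2 + c.2.2.2 * s0 ^ 3

def poly_add (c d : poly_Q) : poly_Q :=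
  (c.1 + d.1, c.2.1 + d.2.1, c.2.2.1 + d.2.2.1, c.2.2.2 + d.2.2.2)

def poly_sm (k : ℤ) (c : poly_Q) : poly_Q := (k * c.1, k * c.2.1, k * c.2.2.1, k * c.2.2.2)

/-- 72 times the product -/
def poly_mul (c d : poly_Q) : poly_Q :=
  (72 * (c.1 * d.1) + 6 * (c.2.1 * d.2.2.2 + c.2.2.1 * d.2.2.1 + c.2.2.2 * d.2.1) +
      c.2.2.2 * d.2.2.2,
    72 * (c.1 * d.2.1 + c.2.1 * d.1) + 6 * (c.2.2.1 * d.2.2.2 + c.2.2.2 * d.2.2.1),
    72 * (c.1 * d.2.2.1 + c.2.1 * d.2.1 + c.2.2.1 * d.1) +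
      12 * (c.2.1 * d.2.2.2 + c.2.2.1 * d.2.2.1 + c.2.2.2 * d.2.1) + 8 * (c.2.2.2 * d.2.2.2),
    72 * (c.1 * d.2.2.2 + c.2.1 * d.2.2.1 + c.2.2.1 * d.2.1 + c.2.2.2 * d.1) +
      12 * (c.2.2.1 * d.2.2.2 + c.2.2.2 * d.2.2.1))

theorem poly_s0_nonneg : 0 ≤ s0 := Real.sqrt_nonneg _

theorem poly_s0_sq : s0 ^ 2 = (1 + Real.sqrt 13) / 12 := by
  unfold s0
  exact Real.sq_sqrt (by positivity)

theorem poly_s0_4 : s0 ^ 4 = s0 ^ 2 / 6 + 1 / 12 := by
  have h : s0 ^ 4 = (s0 ^ 2) ^ 2 := by ring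
  have h13 : Real.sqrt 13 ^ 2 = 13 := Real.sq_sqrt (by norm_num)
  rw [h, poly_s0_sq]
  nlinarith

theorem poly_lo : (61951 : ℝ) ≤ 100000 * s0 := by
  have h13 : Real.sqrt 13 ^ 2 = 13 := Real.sq_sqrt (by norm_num)
  have h1 : (3605551 / 1000000 : ℝ) ≤ Real.sqrt 13 := by
    apply Real.le_sqrt_of_sq_le; norm_num
  have h2 := poly_s0_sq
  by_contra hlt
  push Not at hlt
  have h0 := poly_s0_nonneg
  nlinarith

theorem poly_hi : 100000 * s0 ≤ (61952 : ℝ) := by
  have h1 : Real.sqrt 13 ≤ (36056 / 10000 : ℝ) := by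
    apply Real.sqrt_le_iff.2; norm_num
  have h2 := poly_s0_sq
  by_contra hlt
  push Not at hlt
  nlinarith

theorem poly_ev_add (c d : poly_Q) : poly_ev (poly_add c d) = poly_ev c + poly_ev d := by
  simp only [poly_ev, poly_add]; push_cast; ring

theorem poly_ev_sm (k : ℤ) (c : poly_Q) : poly_ev (poly_sm k c) = k * poly_ev c := by
  simp only [poly_ev, poly_sm]; push_cast; ring

theorem poly_ev_mul (c d : poly_Q) : poly_ev (poly_mul c d) = 72 * (poly_ev c * poly_ev d) := by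
  obtain ⟨c0, c1, c2, c3⟩ := c
  obtain ⟨d0, d1, d2, d3⟩ := d
  have h4 := poly_s0_4
  have h5 : s0 ^ 5 = s0 ^ 3 / 6 + s0 / 12 := by
    have : s0 ^ 5 = s0 ^ 4 * s0 := by ring
    rw [this, h4]; ring
  have h6 : s0 ^ 6 = s0 ^ 2 / 9 + 1 / 72 := by
    have : s0 ^ 6 = s0 ^ 4 * s0 ^ 2 := by ring
    rw [this, h4]
    have h : (s0 ^ 2 / 6 + 1 / 12) * s0 ^ 2 = s0 ^ 4 / 6 + s0 ^ 2 / 12 := by ring
    rw [h, h4]; ring
  simp only [poly_ev, poly_mul]
  push_cast
  have e : (72 : ℝ) * (((c0 : ℝ) + c1 * s0 + c2 * s0 ^ 2 + c3 * s0 ^ 3) *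
      ((d0 : ℝ) + d1 * s0 + d2 * s0 ^ 2 + d3 * s0 ^ 3)) =
      72 * (c0 * d0) + 72 * (c0 * d1 + c1 * d0) * s0 + 72 * (c0 * d2 + c1 * d1 + c2 * d0) * s0 ^ 2 +
      72 * (c0 * d3 + c1 * d2 + c2 * d1 + c3 * d0) * s0 ^ 3 +
      72 * (c1 * d3 + c2 * d2 + c3 * d1) * s0 ^ 4 + 72 * (c2 * d3 + c3 * d2) * s0 ^ 5 +
      72 * (c3 * d3) * s0 ^ 6 := by ring
  rw [e, h4, h5, h6]
  ring

/-- lower bound for `10^15` times the value -/
def poly_lb (c : poly_Q) : ℤ :=
  c.1 * 1000000000000000 + (if 0 ≤ c.2.1 then c.2.1 * 61951 else c.2.1 * 61952) * 10000000000 +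
    (if 0 ≤ c.2.2.1 then c.2.2.1 * 3837926401 else c.2.2.1 * 3838050304) * 100000 +
    (if 0 ≤ c.2.2.2 then c.2.2.2 * 237763378468351 else c.2.2.2 * 237774892433408)

theorem poly_lb_le (c : poly_Q) : (poly_lb c : ℝ) ≤ 1000000000000000 * poly_ev c := by
  obtain ⟨c0, c1, c2, c3⟩ := c
  have h0 := poly_s0_nonneg
  have h1 := poly_lo
  have h2 := poly_hi
  have q1 : (3837926401 : ℝ) ≤ 10000000000 * s0 ^ 2 := by nlinarith
  have q2 : 10000000000 * s0 ^ 2 ≤ (3838050304 : ℝ) := by nlinarith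
  have r1 : (237763378468351 : ℝ) ≤ 1000000000000000 * s0 ^ 3 := by
    have : (3837926401 : ℝ) * 61951 ≤ (10000000000 * s0 ^ 2) * (100000 * s0) :=
      mul_le_mul q1 h1 (by norm_num) (by positivity)
    nlinarith
  have r2 : 1000000000000000 * s0 ^ 3 ≤ (237774892433408 : ℝ) := by
    have : (10000000000 * s0 ^ 2) * (100000 * s0) ≤ (3838050304 : ℝ) * 61952 :=
      mul_le_mul q2 h2 (by positivity) (by norm_num)
    nlinarith
  have key : ∀ (z : ℤ) (a b : ℤ) (x : ℝ), (a : ℝ) ≤ x → x ≤ b →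
      ((if 0 ≤ z then z * a else z * b : ℤ) : ℝ) ≤ z * x := by
    intro z a b x ha hb
    split_ifs with hz
    · push_cast
      exact mul_le_mul_of_nonneg_left ha (by exact_mod_cast hz)
    · push_cast
      exact mul_le_mul_of_nonpos_left hb (by exact_mod_cast (not_le.1 hz).le)
  have k1 := key c1 61951 61952 (100000 * s0) (by exact_mod_cast h1) (by exact_mod_cast h2)
  have k2 := key c2 3837926401 3838050304 (10000000000 * s0 ^ 2) (by exact_mod_cast q1)
    (by exact_mod_cast q2)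
  have k3 := key c3 237763378468351 237774892433408 (1000000000000000 * s0 ^ 3)
    (by exact_mod_cast r1) (by exact_mod_cast r2)
  simp only [poly_ev, poly_lb]
  rw [Int.cast_add, Int.cast_add, Int.cast_add, Int.cast_mul, Int.cast_mul, Int.cast_mul]
  push_cast at k1 k2 k3 ⊢
  nlinarith

/-- the coordinates of the normals -/
def poly_cf (s : S) : poly_Q × poly_Q × poly_Q × poly_Q :=
  if s.val < 6 then ((1, 0, 0, 0), (0, 0, 0, 0), ((rA s.val).1, 0, 0, 0), ((rA s.val).2, 0, 0, 0))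
  else if s.val < 12 then ((3, 0, 0, 0), (-1, 0, 0, 0), ((rB (s.val - 6)).1, 0, 0, 0),
    ((rB (s.val - 6)).2, 0, 0, 0))
  else if s.val < 13 then ((2, 0, 0, 0), (-1, 0, 0, 0), (0, 0, 0, 0), (0, 0, 0, 0))
  else if s.val < 19 then ((0, 6, 0, 0), (1, 0, 0, 0), (0, 2 * (rB (s.val - 13)).1, 0, 0),
    (0, 2 * (rB (s.val - 13)).2, 0, 0))
  else if s.val < 25 then ((2, 0, 0, 0), (0, 1, 0, 0), ((rA (s.val - 19)).1, 0, 0, 0),
    ((rA (s.val - 19)).2, 0, 0, 0))
  else if s.val < 31 then ((-3, 0, 12, 0), (0, 1, 0, 0),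
    (-2 * (rB (s.val - 25)).1, 0, 6 * (rB (s.val - 25)).1, 0),
    (-2 * (rB (s.val - 25)).2, 0, 6 * (rB (s.val - 25)).2, 0))
  else ((0, 6, 0, 0), (-3, 0, 12, 0), (0, 0, 0, 0), (0, 0, 0, 0))

theorem poly_raw (s : S) : raw s = vec (poly_ev (poly_cf s).1) (poly_ev (poly_cf s).2.1)
    (poly_ev (poly_cf s).2.2.1) (poly_ev (poly_cf s).2.2.2) := by
  unfold raw poly_cf
  split_ifs <;> simp only [poly_ev] <;> push_cast <;> congr 1 <;> ring

/-- the Gram matrix times 72 -/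
def poly_G (s t : S) : poly_Q :=
  poly_add (poly_sm (-1) (poly_mul (poly_cf s).1 (poly_cf t).1))
    (poly_add (poly_sm 6 (poly_mul (poly_cf s).2.1 (poly_cf t).2.1))
      (poly_add (poly_sm 2 (poly_mul (poly_cf s).2.2.1 (poly_cf t).2.2.1))
        (poly_add (poly_mul (poly_cf s).2.2.1 (poly_cf t).2.2.2)
          (poly_add (poly_mul (poly_cf s).2.2.2 (poly_cf t).2.2.1)
            (poly_sm 2 (poly_mul (poly_cf s).2.2.2 (poly_cf t).2.2.2))))))

theorem poly_vec (a c m n a' c' m' n' : ℝ) : Bf (vec a c m n) (vec a' c' m' n') =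
    -(a * a') + 6 * (c * c') + 2 * (m * m') + m * n' + n * m' + 2 * (n * n') := by
  have h6 : Real.sqrt 6 * Real.sqrt 6 = 6 := Real.mul_self_sqrt (by norm_num)
  have h2 : Real.sqrt 2 * Real.sqrt 2 = 2 := Real.mul_self_sqrt (by norm_num)
  unfold Bf vec
  simp only [PiLp.inner_apply, Fin.sum_univ_three]
  simp
  linear_combination (c * c' + n * n' / 4) * h6 +
    (m + n / 2) * (m' + n' / 2) * h2

theorem poly_gram (s t : S) : poly_ev (poly_G s t) = 72 * Bf (raw s) (raw t) := by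
  rw [poly_raw s, poly_raw t, poly_vec]
  simp only [poly_G, poly_ev_add, poly_ev_sm, poly_ev_mul]
  push_cast
  ring

def poly_check (s t : S) : Bool :=
  if s = t then decide (0 < poly_lb (poly_G s s)) && decide (0 < poly_lb (poly_cf s).1)
  else if adj s t then decide (poly_G s t = (0, 0, 0, 0))
  else decide (0 < poly_lb (poly_sm (-1) (poly_G s t))) &&
    decide (0 < poly_lb (poly_add (poly_mul (poly_G s t) (poly_G s t))
      (poly_sm (-1) (poly_mul (poly_G s s) (poly_G t t)))))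

theorem poly_check_all : ∀ s t : S, poly_check s t = true := by
  decide +kernel

theorem poly_pos_of_lb {c : poly_Q} (h : 0 < poly_lb c) : 0 < poly_ev c := by
  have h1 := poly_lb_le c
  have h2 : (0 : ℝ) < poly_lb c := by exact_mod_cast h
  by_contra h3
  push Not at h3
  nlinarith

theorem poly_norm_pos (s : S) : 0 < Bf (raw s) (raw s) := by
  have h := poly_check_all s s
  unfold poly_check at h
  rw [if_pos rfl, Bool.and_eq_true, decide_eq_true_eq] at h
  have h1 := poly_pos_of_lb h.1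
  rw [poly_gram] at h1
  linarith

theorem poly_raw_pos (s : S) : 0 < (raw s).1 := by
  have h := poly_check_all s s
  unfold poly_check at h
  rw [if_pos rfl, Bool.and_eq_true, decide_eq_true_eq, decide_eq_true_eq] at h
  have h1 := poly_pos_of_lb h.2
  rw [poly_raw]
  exact h1

theorem poly_raw_near (s t : S) (h : adj s t) : Bf (raw s) (raw t) = 0 := by
  have h' := poly_check_all s t
  unfold poly_check at h'
  have hst : s ≠ t := by
    rintro rfl
    exact adj_irrefl _ h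
  rw [if_neg hst, if_pos h, decide_eq_true_eq] at h'
  have h1 := poly_gram s t
  rw [h'] at h1
  simp only [poly_ev] at h1
  push_cast at h1
  linarith

theorem poly_raw_far (s t : S) (hst : s ≠ t) (h : ¬ adj s t) : Bf (raw s) (raw t) < 0 ∧
    Bf (raw s) (raw s) * Bf (raw t) (raw t) ≤ Bf (raw s) (raw t) ^ 2 := by
  have h' := poly_check_all s t
  unfold poly_check at h'
  rw [if_neg hst, if_neg h, Bool.and_eq_true, decide_eq_true_eq, decide_eq_true_eq] at h'
  have h1 := poly_pos_of_lb h'.1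
  have h2 := poly_pos_of_lb h'.2
  rw [poly_ev_add, poly_ev_mul, poly_ev_sm, poly_ev_mul, poly_gram, poly_gram, poly_gram] at h2
  rw [poly_ev_sm, poly_gram] at h1
  push_cast at h1 h2
  constructor
  · linarith
  · nlinarith

theorem poly_Bf_smul (a b : ℝ) (x y : L) : Bf (a • x) (b • y) = a * b * Bf x y := by
  simp only [Bf, Prod.smul_snd, Prod.smul_fst, smul_eq_mul, real_inner_smul_left,
    real_inner_smul_right]
  ring

theorem nrm_unit : ∀ s, Bf (nrm s) (nrm s) = 1 := by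
  intro s
  have h := poly_norm_pos s
  have h1 := Real.mul_self_sqrt h.le
  have h2 := Real.sqrt_pos.2 h
  unfold nrm
  rw [poly_Bf_smul]
  field_simp
  rw [sq, h1]

theorem nrm_near : ∀ s t, adj s t → Bf (nrm s) (nrm t) = 0 := by
  intro s t h
  unfold nrm
  rw [poly_Bf_smul, poly_raw_near s t h, mul_zero]

theorem nrm_far : ∀ s t, s ≠ t → ¬ adj s t → Bf (nrm s) (nrm t) ≤ -1 := by
  intro s t hst h
  obtain ⟨h1, h2⟩ := poly_raw_far s t hst h
  have hs := poly_norm_pos s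
  have ht := poly_norm_pos t
  have hs' := Real.sqrt_pos.2 hs
  have ht' := Real.sqrt_pos.2 ht
  unfold nrm
  rw [poly_Bf_smul]
  have e : 1 / Real.sqrt (Bf (raw s) (raw s)) * (1 / Real.sqrt (Bf (raw t) (raw t))) *
      Bf (raw s) (raw t) = Bf (raw s) (raw t) /
      (Real.sqrt (Bf (raw s) (raw s)) * Real.sqrt (Bf (raw t) (raw t))) := by
    field_simp
  rw [e, div_le_iff₀ (mul_pos hs' ht')]
  have h3 : Real.sqrt (Bf (raw s) (raw s)) * Real.sqrt (Bf (raw t) (raw t)) ≤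
      -Bf (raw s) (raw t) := by
    rw [← Real.sqrt_mul hs.le]
    apply Real.sqrt_le_iff.2
    constructor
    · linarith
    · nlinarith
  linarith

theorem nrm_pos : ∀ s, 0 < (nrm s).1 := by
  intro s
  unfold nrm
  have h2 := Real.sqrt_pos.2 (poly_norm_pos s)
  exact mul_pos (by positivity) (poly_raw_pos s)

noncomputable def pol : Pol := ⟨nrm, nrm_unit, nrm_near, nrm_far, nrm_pos⟩

end H30
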