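import Pool.Agent.Helper30_Alex.HypM

/-!
# Quotients of metric spaces by properly discontinuous isometric actions (PART 6)
-/

set_option autoImplicit false

namespace H30

/-- isometric, properly discontinuous action -/
class PDAct (G H : Type) [Group G] [MetricSpace H] [MulAction G H] : Prop where
  isom : ∀ (g : G) (x y : H), dist (g • x) (g • y) = dist x y
  fin : ∀ (x : H) (R : ℝ), {g : G | dist x (g • x) ≤ R}.Finite

/-- the orbit space -/
def QS (G H : Type) [Group G] [MulAction G H] : Type := Quotient (MulAction.orbitRel G H)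

namespace QS

variable {G H : Type} [Group G] [MetricSpace H] [MulAction G H]

/-- the orbit of a point -/
def mk (G : Type) {H : Type} [Group G] [MulAction G H] (x : H) : QS G H :=
  Quotient.mk (MulAction.orbitRel G H) x

omit [MetricSpace H] in
theorem mk_eq {x y : H} : mk G x = mk G y ↔ ∃ g : G, g • x = y := by
  have h1 : mk G x = mk G y ↔ x ∈ MulAction.orbit G y :=
    Quotient.eq (r := MulAction.orbitRel G H)
  rw [h1, MulAction.mem_orbit_iff]
  constructor
  · rintro ⟨g, hg⟩; exact ⟨g⁻¹, by rw [← hg, inv_smul_smul]⟩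
  · rintro ⟨g, hg⟩; exact ⟨g⁻¹, by rw [← hg, inv_smul_smul]⟩

omit [MetricSpace H] in
theorem mk_surj (a : QS G H) : ∃ x : H, mk G x = a := Quotient.exists_rep a

omit [MetricSpace H] in
theorem mk_smul (g : G) (x : H) : mk G (g • x) = mk G x := (mk_eq.2 ⟨g, rfl⟩).symm

/-- the distance of two orbits -/
noncomputable def dst (a b : QS G H) : ℝ :=
  sInf {d : ℝ | ∃ x y : H, mk G x = a ∧ mk G y = b ∧ d = dist x y}

theorem quot_bdd (a b : QS G H) :
    BddBelow {d : ℝ | ∃ x y : H, mk G x = a ∧ mk G y = b ∧ d = dist x y} :=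
  ⟨0, by rintro _ ⟨x, y, -, -, rfl⟩; exact dist_nonneg⟩

theorem quot_nonempty (a b : QS G H) :
    {d : ℝ | ∃ x y : H, mk G x = a ∧ mk G y = b ∧ d = dist x y}.Nonempty := by
  obtain ⟨x, hx⟩ := mk_surj a
  obtain ⟨y, hy⟩ := mk_surj b
  exact ⟨_, x, y, hx, hy, rfl⟩

theorem quot_dst_le (x y : H) : dst (mk G x) (mk G y) ≤ dist x y :=
  csInf_le (quot_bdd _ _) ⟨x, y, rfl, rfl, rfl⟩

theorem quot_dst_nonneg (a b : QS G H) : 0 ≤ dst a b :=
  le_csInf (quot_nonempty a b) (by rintro _ ⟨x, y, -, -, rfl⟩; exact dist_nonneg)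

theorem dst_self (a : QS G H) : dst a a = 0 := by
  obtain ⟨x, rfl⟩ := mk_surj a
  refine le_antisymm ?_ (quot_dst_nonneg _ _)
  have := quot_dst_le (G := G) x x
  rwa [dist_self] at this

theorem dst_comm (a b : QS G H) : dst a b = dst b a := by
  unfold dst
  congr 1
  ext d
  constructor
  · rintro ⟨x, y, hx, hy, rfl⟩
    exact ⟨y, x, hy, hx, dist_comm _ _⟩
  · rintro ⟨x, y, hx, hy, rfl⟩
    exact ⟨y, x, hy, hx, dist_comm _ _⟩

/-- only finitely many translates of a point are in a ball -/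
theorem quot_finite [PDAct G H] (x y : H) (R : ℝ) : {g : G | dist x (g • y) ≤ R}.Finite := by
  refine (PDAct.fin (G := G) y (dist y x + R)).subset fun g hg => ?_
  have hg' : dist x (g • y) ≤ R := hg
  change dist y (g • y) ≤ dist y x + R
  linarith [dist_triangle y x (g • y)]

/-- the nearest translate -/
theorem quot_min [PDAct G H] (x y : H) :
    ∃ g : G, ∀ g' : G, dist x (g • y) ≤ dist x (g' • y) := by
  have h1 : (1 : G) ∈ {g : G | dist x (g • y) ≤ dist x y} := by
    change dist x ((1 : G) • y) ≤ dist x y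
    rw [one_smul]
  obtain ⟨g, hg, hmin⟩ := (quot_finite (G := G) x y (dist x y)).exists_minimalFor
    (fun g : G => dist x (g • y)) _ ⟨1, h1⟩
  refine ⟨g, fun g' => ?_⟩
  by_cases hg' : dist x (g' • y) ≤ dist x y
  · by_contra hc
    push Not at hc
    exact absurd (hmin hg' hc.le) (not_le.2 hc)
  · exact le_trans hg (not_le.1 hg').le

theorem quot_dst_eq [PDAct G H] (x y : H) (g : G)
    (hg : ∀ g' : G, dist x (g • y) ≤ dist x (g' • y)) : dst (mk G x) (mk G y) = dist x (g • y) := by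
  apply le_antisymm
  · have := quot_dst_le (G := G) x (g • y)
    rwa [mk_smul] at this
  · apply le_csInf (quot_nonempty _ _)
    rintro _ ⟨x', y', hx, hy, rfl⟩
    obtain ⟨h, rfl⟩ := mk_eq.1 hx.symm
    obtain ⟨k, rfl⟩ := mk_eq.1 hy.symm
    have e : dist (h • x) (k • y) = dist x ((h⁻¹ * k) • y) := by
      rw [← PDAct.isom h⁻¹ (h • x) (k • y), inv_smul_smul, mul_smul]
    rw [e]
    exact hg _

/-- the distance of orbits is attained -/
theorem quot_attain [PDAct G H] (x : H) (b : QS G H) :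
    ∃ y : H, mk G y = b ∧ dst (mk G x) b = dist x y := by
  obtain ⟨y, rfl⟩ := mk_surj b
  obtain ⟨g, hg⟩ := quot_min (G := G) x y
  exact ⟨g • y, mk_smul g y, quot_dst_eq x y g hg⟩

theorem dst_tri [PDAct G H] (a b c : QS G H) : dst a c ≤ dst a b + dst b c := by
  obtain ⟨x, rfl⟩ := mk_surj a
  obtain ⟨y, rfl, hy⟩ := quot_attain x b
  obtain ⟨z, rfl, hz⟩ := quot_attain y c
  rw [hy, hz]
  exact (quot_dst_le x z).trans (dist_triangle x y z)

theorem eq_of_dst [PDAct G H] (a b : QS G H) (h : dst a b = 0) : a = b := by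
  obtain ⟨x, rfl⟩ := mk_surj a
  obtain ⟨y, rfl, hy⟩ := quot_attain x b
  rw [hy] at h
  rw [dist_eq_zero.1 h]

noncomputable instance [PDAct G H] : MetricSpace (QS G H) where
  dist := dst
  dist_self := dst_self
  dist_comm := dst_comm
  dist_triangle := dst_tri
  eq_of_dist_eq_zero {a b} := eq_of_dst a b

variable [PDAct G H]

theorem dist_mk_le (x y : H) : dist (mk G x) (mk G y) ≤ dist x y := quot_dst_le x y

/-- the distance of orbits is attained, with any prescribed first representative -/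
theorem exists_dist (x : H) (b : QS G H) : ∃ y : H, mk G y = b ∧ dist (mk G x) b = dist x y :=
  quot_attain x b

theorem quot_lip : LipschitzWith 1 (mk G : H → QS G H) :=
  LipschitzWith.of_dist_le_mul fun x y => by
    rw [NNReal.coe_one, one_mul]; exact dist_mk_le x y

theorem continuous_mk : Continuous (mk G : H → QS G H) := quot_lip.continuous

theorem isOpenMap_mk : IsOpenMap (mk G : H → QS G H) := by
  intro U hU
  rw [Metric.isOpen_iff]
  rintro _ ⟨x, hx, rfl⟩
  obtain ⟨r, hr, hsub⟩ := Metric.isOpen_iff.1 hU x hx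
  refine ⟨r, hr, fun b hb => ?_⟩
  obtain ⟨y, rfl, hy⟩ := exists_dist x b
  refine ⟨y, hsub ?_, rfl⟩
  rw [Metric.mem_ball, dist_comm] at hb ⊢
  rwa [← hy]

theorem compactSpace (K : Set H) (hK : IsCompact K) (hc : ∀ x : H, ∃ g : G, g • x ∈ K) :
    CompactSpace (QS G H) := by
  constructor
  have h : (mk G : H → QS G H) '' K = Set.univ := by
    rw [Set.eq_univ_iff_forall]
    intro a
    obtain ⟨x, rfl⟩ := mk_surj a
    obtain ⟨g, hg⟩ := hc x
    exact ⟨g • x, hg, mk_smul g x⟩
  rw [← h]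
  exact hK.image continuous_mk

theorem quot_angle {κ a b c c' : ℝ} (hκ : 0 < κ) (ha : 0 < a) (hb : 0 < b) (hc : 0 ≤ c)
    (hcc : c ≤ c') : compAngle κ a b c ≤ compAngle κ a b c' := by
  unfold compAngle
  apply Real.arccos_le_arccos
  apply div_le_div_of_nonneg_right
  · have : Real.cosh (κ * c) ≤ Real.cosh (κ * c') := by
      rw [Real.cosh_le_cosh, abs_of_nonneg (by positivity), abs_of_nonneg (by nlinarith)]
      exact mul_le_mul_of_nonneg_left hcc hκ.le
    linarith
  · exact mul_nonneg (Real.sinh_nonneg_iff.2 (by positivity)) (Real.sinh_nonneg_iff.2 (by positivity))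

theorem curvGE {κ : ℝ} (hκ : 0 < κ) (h : CurvGE κ H) : CurvGE κ (QS G H) := by
  intro a b c e hb hc he
  obtain ⟨p, rfl⟩ := mk_surj a
  obtain ⟨x, rfl, hx⟩ := exists_dist p b
  obtain ⟨y, rfl, hy⟩ := exists_dist p c
  obtain ⟨z, rfl, hz⟩ := exists_dist p e
  have hxp : x ≠ p := fun h => hb (by rw [h])
  have hyp : y ≠ p := fun h => hc (by rw [h])
  have hzp : z ≠ p := fun h => he (by rw [h])
  have h1 := quot_angle hκ (dist_pos.2 hxp.symm) (dist_pos.2 hyp.symm)
    (dist_nonneg (x := mk G x) (y := mk G y)) (dist_mk_le x y)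
  have h2 := quot_angle hκ (dist_pos.2 hyp.symm) (dist_pos.2 hzp.symm)
    (dist_nonneg (x := mk G y) (y := mk G z)) (dist_mk_le y z)
  have h3 := quot_angle hκ (dist_pos.2 hzp.symm) (dist_pos.2 hxp.symm)
    (dist_nonneg (x := mk G z) (y := mk G x)) (dist_mk_le z x)
  rw [hx, hy, hz]
  linarith [h p x y z hxp hyp hzp]

theorem geodSpace (h : GeodSpace H) : GeodSpace (QS G H) := by
  intro a b
  obtain ⟨x, rfl⟩ := mk_surj a
  obtain ⟨y, rfl, hy⟩ := exists_dist x b
  obtain ⟨γ, h0, h1, hγ⟩ := h x y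
  refine ⟨fun t => mk G (γ t), by simp only [h0], by simp only [h1], ?_⟩
  have key : ∀ s ∈ Set.Icc (0 : ℝ) 1, ∀ t ∈ Set.Icc (0 : ℝ) 1, s ≤ t →
      dist (mk G (γ s)) (mk G (γ t)) = |s - t| * dist (mk G x) (mk G y) := by
    intro s hs t ht hst
    have e1 : dist (mk G (γ s)) (mk G (γ t)) ≤ (t - s) * dist x y := by
      refine (dist_mk_le _ _).trans ?_
      rw [hγ s hs t ht, abs_sub_comm, abs_of_nonneg (by linarith)]
    have e2 : dist (mk G x) (mk G (γ s)) ≤ s * dist x y := by
      refine (dist_mk_le _ _).trans ?_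
      rw [← h0, hγ 0 ⟨le_rfl, zero_le_one⟩ s hs, h0, zero_sub, abs_neg, abs_of_nonneg hs.1]
    have e3 : dist (mk G (γ t)) (mk G y) ≤ (1 - t) * dist x y := by
      refine (dist_mk_le _ _).trans ?_
      rw [← h1, hγ t ht 1 ⟨zero_le_one, le_rfl⟩, h1, abs_sub_comm, abs_of_nonneg (by linarith [ht.2])]
    have e4 : dist (mk G x) (mk G y) ≤ dist (mk G x) (mk G (γ s)) +
        dist (mk G (γ s)) (mk G (γ t)) + dist (mk G (γ t)) (mk G y) := dist_triangle4 _ _ _ _
    rw [hy] at e4 ⊢
    rw [abs_sub_comm, abs_of_nonneg (by linarith)]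
    apply le_antisymm e1
    linarith
  intro s hs t ht
  rcases le_total s t with hst | hst
  · exact key s hs t ht hst
  · rw [dist_comm, abs_sub_comm]
    exact key t ht s hs hst

theorem dimH_le : dimH (Set.univ : Set (QS G H)) ≤ dimH (Set.univ : Set H) := by
  have h : (mk G : H → QS G H) '' Set.univ = Set.univ := by
    rw [Set.eq_univ_iff_forall]
    intro a
    obtain ⟨x, rfl⟩ := mk_surj a
    exact ⟨x, Set.mem_univ _, rfl⟩
  rw [← h]
  exact quot_lip.dimH_image_le _

/-- the other translates of `x` are not near `x` -/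
theorem quot_gap (x : H) : ∃ δ : ℝ, 0 < δ ∧ ∀ g : G, g • x ≠ x → δ ≤ dist x (g • x) := by
  have hfin : {g : G | dist x (g • x) ≤ 1 ∧ g • x ≠ x}.Finite :=
    (PDAct.fin (G := G) x 1).subset fun g hg => hg.1
  by_cases hne : {g : G | dist x (g • x) ≤ 1 ∧ g • x ≠ x}.Nonempty
  · obtain ⟨g₀, hg₀, hmin⟩ := hfin.exists_minimalFor (fun g : G => dist x (g • x)) _ hne
    have hpos : 0 < dist x (g₀ • x) := dist_pos.2 (Ne.symm hg₀.2)
    refine ⟨min 1 (dist x (g₀ • x)), lt_min one_pos hpos, fun g hg => ?_⟩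
    by_cases h1 : dist x (g • x) ≤ 1
    · refine (min_le_right _ _).trans ?_
      by_contra hc
      push Not at hc
      exact absurd (hmin ⟨h1, hg⟩ hc.le) (not_le.2 hc)
    · exact (min_le_left _ _).trans (not_le.1 h1).le
  · refine ⟨1, one_pos, fun g hg => ?_⟩
    by_contra hc
    push Not at hc
    exact hne ⟨g, hc.le, hg⟩

/-- small balls around points with trivial stabiliser embed isometrically -/
theorem le_dimH (d : ENNReal) (x : H) (hx : ∀ g : G, g • x = x → ∀ y : H, g • y = y)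
    (hd : ∀ r : ℝ, 0 < r → d ≤ dimH (Metric.ball x r)) : d ≤ dimH (Set.univ : Set (QS G H)) := by
  obtain ⟨δ, hδ, hgap⟩ := quot_gap (G := G) x
  have hiso : Isometry (fun y : Metric.ball x (δ / 4) => mk G (y : H)) := by
    apply Isometry.of_dist_eq
    intro y z
    have hy : dist (y : H) x < δ / 4 := y.2
    have hz : dist (z : H) x < δ / 4 := z.2
    obtain ⟨w, hw, hd⟩ := exists_dist (G := G) (y : H) (mk G (z : H))
    rw [hd]
    obtain ⟨g, rfl⟩ := mk_eq.1 hw.symm
    by_cases hg : g • x = x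
    · rw [hx g hg]
      rfl
    · exfalso
      have h1 := hgap g hg
      have h2 : dist (g • (z : H)) (g • x) < δ / 4 := by rw [PDAct.isom]; exact hz
      have h3 := dist_triangle4 x (y : H) (g • (z : H)) (g • x)
      rw [dist_comm x (y : H)] at h3
      have h4 : dist (y : H) (g • (z : H)) ≤ dist (y : H) (z : H) := by
        rw [← hd]; exact dist_mk_le _ _
      have h5 := dist_triangle (y : H) x (z : H)
      rw [dist_comm x (z : H)] at h5
      linarith
  calc d ≤ dimH (Metric.ball x (δ / 4)) := hd _ (by positivity)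
    _ = dimH ((fun y : Metric.ball x (δ / 4) => (y : H)) '' Set.univ) := by
        rw [Set.image_univ, Subtype.range_coe]
    _ = dimH (Set.univ : Set (Metric.ball x (δ / 4))) := isometry_subtype_coe.dimH_image _
    _ = dimH ((fun y : Metric.ball x (δ / 4) => mk G (y : H)) '' Set.univ) :=
        (hiso.dimH_image _).symm
    _ ≤ dimH (Set.univ : Set (QS G H)) := dimH_mono (Set.subset_univ _)

/-- near `x` only the stabiliser of `x` matters -/
theorem exists_ball (x : H) : ∃ r : ℝ, 0 < r ∧ ∀ y ∈ Metric.ball x r, ∀ z ∈ Metric.ball x r,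
    (mk G y = mk G z ↔ ∃ g : G, g • x = x ∧ g • y = z) := by
  obtain ⟨δ, hδ, hgap⟩ := quot_gap (G := G) x
  refine ⟨δ / 2, by positivity, fun y hy z hz => ⟨fun h => ?_, ?_⟩⟩
  · obtain ⟨g, rfl⟩ := mk_eq.1 h
    refine ⟨g, ?_, rfl⟩
    by_contra hg
    have h1 := hgap g hg
    rw [Metric.mem_ball] at hy hz
    have h2 : dist (g • y) (g • x) < δ / 2 := by rw [PDAct.isom]; exact hy
    have h3 := dist_triangle x (g • y) (g • x)
    rw [dist_comm x (g • y)] at h3
    linarith
  · rintro ⟨g, -, rfl⟩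
    exact (mk_smul g y).symm

end QS

/-- geodesic spaces are length spaces -/
theorem GeodSpace.lengthSpace {X : Type} [MetricSpace X] (h : GeodSpace X) : LengthSpace X := by
  intro x y ε hε
  obtain ⟨γ, h0, h1, hγ⟩ := h x y
  have hLo : LipschitzOnWith (Real.toNNReal (dist x y)) γ (Set.Icc (0 : ℝ) 1) := by
    apply LipschitzOnWith.of_dist_le_mul
    intro s hs t ht
    rw [hγ s hs t ht, Real.coe_toNNReal _ dist_nonneg, mul_comm]
    rfl
  have hcont : Continuous (fun t : unitInterval => γ t) :=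
    hLo.continuousOn.comp_continuous continuous_subtype_val fun t => t.2
  refine ⟨⟨⟨fun t => γ t, hcont⟩, by simpa using h0, by simpa using h1⟩, ?_⟩
  have hmaps : Set.MapsTo (fun t : unitInterval => (t : ℝ)) Set.univ (Set.Icc (0 : ℝ) 1) :=
    fun t _ => t.2
  have e1 := hLo.comp_eVariationOn_le hmaps
  have hmono : MonotoneOn (fun t : unitInterval => (t : ℝ)) Set.univ := fun a _ b _ hab => hab
  have e2 := hmono.eVariationOn_eq (Set.mem_univ (0 : unitInterval)) (Set.mem_univ (1 : unitInterval))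
  have e3 : (Set.univ ∩ Set.Icc (0 : unitInterval) 1) = Set.univ := by
    ext t
    simp only [Set.univ_inter, Set.mem_Icc, Set.mem_univ, iff_true]
    exact ⟨t.2.1, t.2.2⟩
  rw [e3] at e2
  rw [e2] at e1
  simp only [Set.Icc.coe_one, Set.Icc.coe_zero, sub_zero, ENNReal.ofReal_one, mul_one] at e1
  have e4 : ((Real.toNNReal (dist x y) : NNReal) : ENNReal) ≤ ENNReal.ofReal (dist x y + ε) :=
    ENNReal.ofReal_le_ofReal (by linarith)
  exact e1.trans e4

end H30
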