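import Mathlib

/-!
# Right-angled Coxeter groups: definitions and the length function (statement)
-/

set_option autoImplicit false

namespace H30

/-- the right-angled Coxeter matrix of a relation -/
def raM {B : Type} [DecidableEq B] (adj : B → B → Prop) [DecidableRel adj] : CoxeterMatrix B where
  M := Matrix.of fun s t => if s = t then 1 else if adj s t ∨ adj t s then 2 else 0
  isSymm := by
    ext s t
    by_cases h : s = t
    · simp [h]
    · simp [h, Ne.symm h, or_comm, eq_comm]
  diagonal := by intro s; simp
  off_diagonal := by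
    intro s t h
    simp only [Matrix.of_apply, if_neg h]
    split_ifs <;> decide

section

variable {B : Type} [DecidableEq B] (adj : B → B → Prop) [DecidableRel adj]

/-- the right-angled Coxeter group -/
abbrev RA := (raM adj).Group

/-- generators -/
def gen (s : B) : RA adj := (raM adj).simple s

theorem gen_mul_self (s : B) : gen adj s * gen adj s = 1 := by
  have := (raM adj).toCoxeterSystem.simple_mul_simple_self s
  simpa [gen, CoxeterMatrix.toCoxeterSystem_simple] using this

theorem gen_comm {s t : B} (h : adj s t) : gen adj s * gen adj t = gen adj t * gen adj s := by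
  by_cases hst : s = t
  · rw [hst]
  have h2 := (raM adj).toCoxeterSystem.simple_mul_simple_pow s t
  have hM : (raM adj) s t = 2 := by
    show (if s = t then 1 else if adj s t ∨ adj t s then 2 else 0) = 2
    rw [if_neg hst, if_pos (Or.inl h)]
  rw [hM] at h2
  have h3 : (gen adj s * gen adj t) ^ 2 = 1 := by
    simpa [gen, CoxeterMatrix.toCoxeterSystem_simple] using h2
  have hs := gen_mul_self adj s
  have ht := gen_mul_self adj t
  have h4 : gen adj s * gen adj t * (gen adj s * gen adj t) = 1 := by rw [← pow_two]; exact h3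
  calc gen adj s * gen adj t = (gen adj s * gen adj t)⁻¹ := by
        rw [eq_inv_iff_mul_eq_one]; exact h4
    _ = gen adj t * gen adj s := by
        rw [mul_inv_rev, inv_eq_of_mul_eq_one_left hs, inv_eq_of_mul_eq_one_left ht]

/-- universal property -/
theorem exists_hom {H : Type} [Group H] (f : B → H) (h2 : ∀ s, f s * f s = 1)
    (hc : ∀ s t, adj s t → f s * f t = f t * f s) :
    ∃ φ : RA adj →* H, ∀ s, φ (gen adj s) = f s := by
  have hl : (raM adj).IsLiftable f := by
    intro s t
    show (f s * f t) ^ (if s = t then 1 else if adj s t ∨ adj t s then 2 else 0) = 1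
    split_ifs with h h'
    · rw [h, pow_one, h2]
    · have hc' : f s * f t = f t * f s := by
        rcases h' with h' | h'
        · exact hc s t h'
        · exact (hc t s h').symm
      rw [pow_two]
      calc f s * f t * (f s * f t) = f s * f t * (f t * f s) := by rw [hc']
        _ = f s * (f t * f t) * f s := by group
        _ = 1 := by rw [h2, mul_one, h2]
    · exact pow_zero _
  refine ⟨(raM adj).toCoxeterSystem.lift ⟨f, hl⟩, fun s => ?_⟩
  have := (raM adj).toCoxeterSystem.lift_apply_simple hl s
  simpa [gen, CoxeterMatrix.toCoxeterSystem_simple] using this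

/-- A geometric representation by reflections: `σ_s x = x - α_s(x) b_s`. -/
structure Geo where
  E : Type
  [ag : AddCommGroup E]
  [md : Module ℝ E]
  α : B → E →ₗ[ℝ] ℝ
  b : B → E
  diag : ∀ s, α s (b s) = 2
  near : ∀ s t, adj s t → α t (b s) = 0
  far : ∀ s t, s ≠ t → ¬ adj s t → α t (b s) ≤ -2
  /-- the action -/
  act : RA adj →* (E ≃ₗ[ℝ] E)
  act_gen : ∀ s x, act (gen adj s) x = x - α s x • b s

attribute [instance] Geo.ag Geo.md

/-- Length function and descent sets of a right-angled Coxeter group. -/
structure LenData where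
  ℓ : RA adj → ℕ
  In : RA adj → Set B
  one : ∀ w, ℓ w = 0 ↔ w = 1
  In_one : In 1 = ∅
  desc : ∀ w s, s ∈ In w → ℓ (w * gen adj s) + 1 = ℓ w
  asc : ∀ w s, s ∉ In w → ℓ (w * gen adj s) = ℓ w + 1
  mem_flip : ∀ w s, s ∈ In (w * gen adj s) ↔ s ∉ In w
  clique : ∀ w, ∀ s ∈ In w, ∀ t ∈ In w, s ≠ t → adj s t
  comm : ∀ w s t, adj s t → (t ∈ In (w * gen adj s) ↔ t ∈ In w)
  geo_neg : ∀ (D : Geo adj) (x : D.E), (∀ s, 0 < D.α s x) → ∀ w s, s ∈ In w →
    D.α s (D.act w⁻¹ x) < 0
  geo_pos : ∀ (D : Geo adj) (x : D.E), (∀ s, 0 < D.α s x) → ∀ w s, s ∉ In w →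
    0 < D.α s (D.act w⁻¹ x)

end

end H30
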