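import Pool.Agent.Helper30_Alex.Tile
import Pool.Agent.Helper30_Alex.Chart
import Pool.Agent.Helper30_Alex.Inv

/-!
# The spaces X, X' as quotients of hyperbolic space (PART 12)
-/

set_option autoImplicit false

namespace H30

/-- the colour homomorphism -/
theorem exists_colHom (k : Bool) : ∃ φ : RA adj →* Multiplicative V,
    ∀ s, φ (gen adj s) = Multiplicative.ofAdd (col k s) := by
  refine exists_hom adj (fun s => Multiplicative.ofAdd (col k s)) (fun s => ?_) (fun s t _ => ?_)
  · rw [← ofAdd_add, V.add_self]; rfl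
  · exact mul_comm _ _

noncomputable def colHom (k : Bool) : RA adj →* Multiplicative V := (exists_colHom k).choose

theorem colHom_gen (k : Bool) (s : S) : colHom k (gen adj s) = Multiplicative.ofAdd (col k s) :=
  (exists_colHom k).choose_spec s

/-- the group of X (false), X' (true) -/
noncomputable def Gam (k : Bool) : Subgroup (RA adj) := (colHom k).ker

/-- the spaces X (false), X' (true) -/
abbrev Xs (k : Bool) : Type := QS (Gam k) H3

/-! ### finite checks -/

theorem space_gen_span : ∀ (k : Bool) (g : V), g ∈ spn k {0, 1, 13, 15} := by decide +kernel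

theorem space_chk1 : ∀ (k : Bool) (s : S), col k s ≠ 0 := by decide +kernel

theorem space_chk2 : ∀ s t : S, adj s t → ∀ r, adj s r → adj t r → ∀ q, adj s q → adj t q →
    ¬ adj r q := by decide +kernel

theorem space_chk3 : ∀ (k : Bool) (s t : S), adj s t → col k s = col k t → ∀ r, adj s r → adj t r →
    col k s ≠ col k r := by decide +kernel

theorem space_chk4 : ∀ s t : S, adj s t → ∀ r, adj s r → adj t r →
    col true s + (col true t + col true r) = 0 → ∃ n, ({s, t, r} : Finset S) = singT n := by
  decide +kernel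

/-! ### the reflection group and the colours -/

theorem space_fix (s : S) (x : H3) (h : al s x.v = 0) : gen adj s • x = x := by
  apply H3.ext'
  rw [smul_v, rep_gen, sgm_apply, h, zero_smul, sub_zero]

theorem space_closure_fix (x : H3) (u : RA adj)
    (h : u ∈ Subgroup.closure (gen adj '' {s | al s x.v = 0})) : u • x = x := by
  have h1 : Subgroup.closure (gen adj '' {s | al s x.v = 0}) ≤ MulAction.stabilizer (RA adj) x := by
    rw [Subgroup.closure_le]
    rintro _ ⟨s, hs, rfl⟩
    exact space_fix s x hs
  exact h1 h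

theorem space_colHom_mul (k : Bool) (u w : RA adj) :
    Multiplicative.toAdd (colHom k (u * w)) =
      Multiplicative.toAdd (colHom k u) + Multiplicative.toAdd (colHom k w) := by
  rw [map_mul]; rfl

theorem space_colHom_gen (k : Bool) (s : S) :
    Multiplicative.toAdd (colHom k (gen adj s)) = col k s := by
  rw [colHom_gen]; rfl

theorem space_colHom_one (k : Bool) : Multiplicative.toAdd (colHom k 1) = 0 := by
  rw [map_one]; rfl

theorem space_neg (a : V) : -a = a := rfl

theorem space_sub (a b : V) : a - b = a + b := by rw [sub_eq_add_neg, space_neg]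

theorem space_colHom_inv (k : Bool) (u : RA adj) :
    Multiplicative.toAdd (colHom k u⁻¹) = Multiplicative.toAdd (colHom k u) := by
  rw [map_inv]; rfl

theorem space_mem_Gam (k : Bool) (u : RA adj) :
    u ∈ Gam k ↔ Multiplicative.toAdd (colHom k u) = 0 := by
  unfold Gam
  rw [MonoidHom.mem_ker]
  exact Iff.rfl

theorem space_col_mem (k : Bool) (T : Finset S) (s : S) (h : s ∈ T) : col k s ∈ spn k T :=
  mem_spn.2 ⟨{s}, Finset.mem_powerset.2 (Finset.singleton_subset_iff.2 h),
    Finset.sum_singleton _ _⟩

theorem space_closure_col (k : Bool) (T : Finset S) (u : RA adj)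
    (h : u ∈ Subgroup.closure (gen adj '' (T : Set S))) :
    Multiplicative.toAdd (colHom k u) ∈ spn k T := by
  induction h using Subgroup.closure_induction with
  | mem x hx =>
    obtain ⟨s, hs, rfl⟩ := hx
    rw [space_colHom_gen]
    exact space_col_mem k T s hs
  | one => rw [space_colHom_one]; exact zero_mem _
  | mul x y _ _ hx hy => rw [space_colHom_mul]; exact add_mem hx hy
  | inv x _ hx => rw [space_colHom_inv]; exact hx

theorem space_colHom_list (k : Bool) (l : List S) :
    Multiplicative.toAdd (colHom k ((l.map (gen adj)).prod)) = (l.map (col k)).sum := by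
  induction l with
  | nil => simp only [List.map_nil, List.prod_nil, List.sum_nil]; exact space_colHom_one k
  | cons a l ih =>
    simp only [List.map_cons, List.prod_cons, List.sum_cons]
    rw [space_colHom_mul, ih, space_colHom_gen]

theorem space_lift (k : Bool) (T : Finset S) (v : V) (h : v ∈ spn k T) :
    ∃ u ∈ Subgroup.closure (gen adj '' (T : Set S)), Multiplicative.toAdd (colHom k u) = v := by
  obtain ⟨T', hT', hs⟩ := mem_spn.1 h
  rw [Finset.mem_powerset] at hT'
  refine ⟨(T'.toList.map (gen adj)).prod, ?_, ?_⟩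
  · apply Subgroup.list_prod_mem
    intro x hx
    rw [List.mem_map] at hx
    obtain ⟨s, hs', rfl⟩ := hx
    exact Subgroup.subset_closure ⟨s, hT' (Finset.mem_toList.1 hs'), rfl⟩
  · rw [space_colHom_list, Finset.sum_map_toList]
    exact hs

theorem space_colHom_surj (k : Bool) (g : V) : ∃ w, Multiplicative.toAdd (colHom k w) = g := by
  obtain ⟨u, _, hu⟩ := space_lift k _ g (space_gen_span k g)
  exact ⟨u, hu⟩

open Classical in
/-- the facets containing a point -/
noncomputable def space_sup (x : H3) : Finset S := Finset.univ.filter (fun s => al s x.v = 0)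

theorem space_mem_sup (x : H3) (s : S) : s ∈ space_sup x ↔ al s x.v = 0 := by
  simp [space_sup]

theorem space_coe_sup (x : H3) : {s | al s x.v = 0} = (space_sup x : Set S) := by
  ext s
  rw [Finset.mem_coe, space_mem_sup]
  exact Iff.rfl

theorem space_clique_sup (x : H3) : Clique (space_sup x) := by
  intro s hs t ht hst
  exact adj_of_meet x s t ((space_mem_sup x s).1 hs) ((space_mem_sup x t).1 ht) hst

theorem space_mk_eq (k : Bool) (w w' : RA adj) (x x' : H3) (hx : x ∈ PiH) (hx' : x' ∈ PiH) :
    QS.mk (Gam k) (w • x) = QS.mk (Gam k) (w' • x') ↔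
      x = x' ∧ Multiplicative.toAdd (colHom k w) - Multiplicative.toAdd (colHom k w') ∈
        spn k (space_sup x) := by
  rw [QS.mk_eq]
  constructor
  · rintro ⟨⟨γ, hγ⟩, h⟩
    have h1 : (w'⁻¹ * γ * w) • x = x' := by
      rw [mul_smul, mul_smul]
      have h2 : γ • w • x = w' • x' := h
      rw [h2, inv_smul_smul]
    obtain ⟨h2, h3⟩ := strict_PiH x x' hx hx' _ h1
    refine ⟨h2, ?_⟩
    rw [space_coe_sup] at h3
    have h4 := space_closure_col k _ _ h3
    rw [space_colHom_mul, space_colHom_mul, space_colHom_inv, (space_mem_Gam k γ).1 hγ,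
      add_zero] at h4
    rw [space_sub, add_comm]
    exact h4
  · rintro ⟨rfl, h⟩
    obtain ⟨u, hu, hu'⟩ := space_lift k _ _ h
    rw [← space_coe_sup] at hu
    have h1 := space_closure_fix x u hu
    refine ⟨⟨w' * u * w⁻¹, ?_⟩, ?_⟩
    · rw [space_mem_Gam, space_colHom_mul, space_colHom_mul, space_colHom_inv, hu', space_sub]
      have := V.add_self (Multiplicative.toAdd (colHom k w))
      have h2 := V.add_self (Multiplicative.toAdd (colHom k w'))
      generalize Multiplicative.toAdd (colHom k w) = a at *
      generalize Multiplicative.toAdd (colHom k w') = b at *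
      calc b + (a + b) + a = (a + a) + (b + b) := by abel
        _ = 0 := by rw [this, h2, add_zero]
    · show (w' * u * w⁻¹) • w • x = w' • x
      rw [mul_smul, inv_smul_smul, mul_smul, h1]

theorem space_cont_smul (w : RA adj) : Continuous (fun x : H3 => w • x) :=
  (Isometry.of_dist_eq (fun x y => PDAct.isom w x y)).continuous

/-- the quotient of hyperbolic space is the glued space -/
theorem homeo_dev (C : Chamber) (ν : C.P → H3) (h1 : Continuous ν) (h2 : Function.Injective ν)
    (h3 : Set.range ν = PiH) (h4 : ∀ (p : C.P) (s : S), C.α s p.1 = 0 ↔ al s (ν p).v = 0)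
    (k : Bool) : ∃ e : Dev C (GX k) ≃ₜ Xs k, ∀ (w : RA adj) (p : C.P),
      e (Dev.mk (G := GX k) (Multiplicative.toAdd (colHom k w)) p) = QS.mk (Gam k) (w • ν p) := by
  choose wd hwd using space_colHom_surj k
  have hP : ∀ p, ν p ∈ PiH := fun p => h3 ▸ Set.mem_range_self p
  have hsup : ∀ p, C.sup p = space_sup (ν p) := by
    intro p
    ext s
    rw [C.mem_sup, space_mem_sup]
    exact h4 p s
  have key : ∀ (i j : V) (p q : C.P), QS.mk (Gam k) (wd i • ν p) = QS.mk (Gam k) (wd j • ν q) ↔
      p = q ∧ (GX k).r (C.sup p) i j := by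
    intro i j p q
    rw [space_mk_eq k _ _ _ _ (hP p) (hP q), hwd, hwd, h2.eq_iff, hsup]
    exact Iff.rfl
  let f : Dev C (GX k) → Xs k := Dev.lift (fun g p => QS.mk (Gam k) (wd g • ν p))
    (fun i j p hij => (key i j p p).2 ⟨rfl, hij⟩)
  have hf : ∀ (g : (GX k).I) (p : C.P), f (Dev.mk g p) = QS.mk (Gam k) (wd g • ν p) :=
    fun g p => rfl
  have hfc : Continuous f := Dev.continuous_lift _ _ fun i =>
    QS.continuous_mk.comp ((space_cont_smul (wd i)).comp h1)
  have hw : ∀ (w : RA adj) (p : C.P),
      f (Dev.mk (G := GX k) (Multiplicative.toAdd (colHom k w)) p) = QS.mk (Gam k) (w • ν p) := by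
    intro w p
    refine (space_mk_eq k (wd (Multiplicative.toAdd (colHom k w))) w _ _ (hP p) (hP p)).2 ⟨rfl, ?_⟩
    rw [hwd, sub_self]
    exact zero_mem _
  have hinj : Function.Injective f := by
    intro x y hxy
    obtain ⟨i, p, rfl⟩ := Dev.exists_rep x
    obtain ⟨j, q, rfl⟩ := Dev.exists_rep y
    rw [hf, hf] at hxy
    exact Dev.mk_eq.2 ((key i j p q).1 hxy)
  have hsurj : Function.Surjective f := by
    intro y
    obtain ⟨x, rfl⟩ := QS.mk_surj y
    obtain ⟨w, hwx⟩ := cover_PiH x
    rw [← h3] at hwx
    obtain ⟨p, hp⟩ := hwx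
    refine ⟨_, (hw w⁻¹ p).trans ?_⟩
    rw [hp, inv_smul_smul]
  have : Finite (GX k).I := inferInstanceAs (Finite V)
  let e := hfc.homeoOfEquivCompactToT2 (f := Equiv.ofBijective f ⟨hinj, hsurj⟩)
  exact ⟨e, fun w p => hw w p⟩

/-! ### local structure -/

theorem space_mfd_homeo {X Y : Type} [TopologicalSpace X] [TopologicalSpace Y] (e : X ≃ₜ Y) (x : X)
    (h : MfdPt X x) : MfdPt Y (e x) := by
  obtain ⟨U, hU, hx, ⟨g⟩⟩ := h
  exact ⟨e '' U, e.isOpenMap _ hU, ⟨x, hx, rfl⟩, ⟨(e.image U).symm.trans g⟩⟩

theorem space_cone_homeo {X Y : Type} [TopologicalSpace X] [TopologicalSpace Y] (e : X ≃ₜ Y) (x : X)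
    (h : ConePt X x) : ConePt Y (e x) := by
  obtain ⟨U, hU, hx, ⟨g⟩⟩ := h
  exact ⟨e '' U, e.isOpenMap _ hU, ⟨x, hx, rfl⟩, ⟨(e.image U).symm.trans g⟩⟩

instance space_normal (k : Bool) : (Gam k).Normal := by unfold Gam; infer_instance

/-- the map of the quotient induced by an element of the reflection group -/
noncomputable def space_tr (k : Bool) (w : RA adj) : Xs k → Xs k :=
  Quotient.map (fun x => w • x) (by
    intro x y h
    have h1 : QS.mk (Gam k) x = QS.mk (Gam k) y := Quotient.sound h
    rw [QS.mk_eq] at h1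
    obtain ⟨⟨γ, hγ⟩, hg⟩ := h1
    have h2 : γ • x = y := hg
    have h3 : QS.mk (Gam k) (w • x) = QS.mk (Gam k) (w • y) := by
      rw [QS.mk_eq]
      refine ⟨⟨w * γ * w⁻¹, (space_normal k).conj_mem γ hγ w⟩, ?_⟩
      show (w * γ * w⁻¹) • w • x = w • y
      rw [mul_smul, inv_smul_smul, mul_smul, h2]
    exact Quotient.exact h3)

theorem space_tr_mk (k : Bool) (w : RA adj) (x : H3) :
    space_tr k w (QS.mk (Gam k) x) = QS.mk (Gam k) (w • x) := rfl

theorem space_tr_cont (k : Bool) (w : RA adj) : Continuous (space_tr k w) := by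
  have hq : Topology.IsQuotientMap (QS.mk (Gam k) : H3 → Xs k) :=
    IsOpenMap.isQuotientMap QS.isOpenMap_mk QS.continuous_mk QS.mk_surj
  rw [hq.continuous_iff]
  exact QS.continuous_mk.comp (space_cont_smul w)

theorem space_tr_tr (k : Bool) (w w' : RA adj) (h : w * w' = 1) (x : Xs k) :
    space_tr k w (space_tr k w' x) = x := by
  obtain ⟨y, rfl⟩ := QS.mk_surj x
  rw [space_tr_mk, space_tr_mk, ← mul_smul, h, one_smul]

/-- the homeomorphism of the quotient induced by an element of the reflection group -/
noncomputable def space_trH (k : Bool) (w : RA adj) : Xs k ≃ₜ Xs k where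
  toFun := space_tr k w
  invFun := space_tr k w⁻¹
  left_inv := space_tr_tr k w⁻¹ w (inv_mul_cancel w)
  right_inv := space_tr_tr k w w⁻¹ (mul_inv_cancel w)
  continuous_toFun := space_tr_cont k w
  continuous_invFun := space_tr_cont k w⁻¹

theorem space_trH_mk (k : Bool) (w : RA adj) (x : H3) :
    space_trH k w (QS.mk (Gam k) x) = QS.mk (Gam k) (w • x) := rfl

/-- the zero sum subsets of a clique -/
theorem space_zero_sum (k : Bool) (T : Finset S) (hT : Clique T) :
    (∀ T' ⊆ T, ∑ s ∈ T', col k s = 0 → T' = ∅) ∨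
    (∃ s ∈ T, ∃ t ∈ T, s ≠ t ∧ col k s = col k t ∧
      ∀ T' ⊆ T, ∑ s ∈ T', col k s = 0 → T' = ∅ ∨ T' = {s, t}) ∨
    (∃ s ∈ T, ∃ t ∈ T, ∃ r ∈ T, s ≠ t ∧ s ≠ r ∧ t ≠ r ∧ T = {s, t, r} ∧
      col k s + (col k t + col k r) = 0 ∧
      ∀ T' ⊆ T, ∑ s ∈ T', col k s = 0 → T' = ∅ ∨ T' = {s, t, r}) := by
  have hcard : T.card ≤ 3 := by
    by_contra hc
    obtain ⟨T₄, hT₄, hc4⟩ := Finset.exists_subset_card_eq (n := 4) (s := T) (by omega)
    rw [Finset.card_eq_succ] at hc4
    obtain ⟨a, R, haR, rfl, hR⟩ := hc4
    obtain ⟨b, c, d, hbc, hbd, hcd, rfl⟩ := Finset.card_eq_three.1 hR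
    have ha : a ∈ T := hT₄ (Finset.mem_insert_self _ _)
    have hb : b ∈ T := hT₄ (by simp)
    have hc : c ∈ T := hT₄ (by simp)
    have hd : d ∈ T := hT₄ (by simp)
    simp only [Finset.mem_insert, Finset.mem_singleton, not_or] at haR
    exact space_chk2 a b (hT a ha b hb haR.1) c (hT a ha c hc haR.2.1) (hT b hb c hc hbc) d
      (hT a ha d hd haR.2.2) (hT b hb d hd hbd) (hT c hc d hd hcd)
  have h2 : ∀ T' ⊆ T, ∑ s ∈ T', col k s = 0 → T' = ∅ ∨
      (∃ a b, a ≠ b ∧ T' = {a, b} ∧ col k a = col k b) ∨
      (∃ a b c, a ≠ b ∧ a ≠ c ∧ b ≠ c ∧ T' = {a, b, c} ∧ col k a + (col k b + col k c) = 0) := by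
    intro T' hT' h0
    have hc' : T'.card ≤ 3 := (Finset.card_le_card hT').trans hcard
    have hcases : T'.card = 0 ∨ T'.card = 1 ∨ T'.card = 2 ∨ T'.card = 3 := by omega
    rcases hcases with h | h | h | h
    · exact Or.inl (Finset.card_eq_zero.1 h)
    · obtain ⟨a, rfl⟩ := Finset.card_eq_one.1 h
      rw [Finset.sum_singleton] at h0
      exact absurd h0 (space_chk1 k a)
    · obtain ⟨a, b, hab, rfl⟩ := Finset.card_eq_two.1 h
      rw [Finset.sum_pair hab] at h0
      refine Or.inr (Or.inl ⟨a, b, hab, rfl, ?_⟩)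
      have := eq_neg_of_add_eq_zero_left h0
      rwa [space_neg] at this
    · obtain ⟨a, b, c, hab, hac, hbc, rfl⟩ := Finset.card_eq_three.1 h
      refine Or.inr (Or.inr ⟨a, b, c, hab, hac, hbc, rfl, ?_⟩)
      rw [Finset.sum_insert (by simp [hab, hac]), Finset.sum_pair hbc] at h0
      exact h0
  by_cases hpair : ∃ s ∈ T, ∃ t ∈ T, s ≠ t ∧ col k s = col k t
  · obtain ⟨s, hs, t, ht, hst, hc⟩ := hpair
    refine Or.inr (Or.inl ⟨s, hs, t, ht, hst, hc, fun T' hT' h0 => ?_⟩)
    have hthird : ∀ r ∈ T, r ≠ s → r ≠ t → col k s ≠ col k r := fun r hr h1 h2 =>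
      space_chk3 k s t (hT s hs t ht hst) hc r (hT s hs r hr (Ne.symm h1))
        (hT t ht r hr (Ne.symm h2))
    rcases h2 T' hT' h0 with h | ⟨a, b, hab, rfl, hcab⟩ | ⟨a, b, c, hab, hac, hbc, rfl, hz⟩
    · exact Or.inl h
    · right
      have ha : a ∈ T := hT' (by simp)
      have hb : b ∈ T := hT' (by simp)
      -- both a and b lie in {s, t}
      by_cases ha1 : a = s
      · by_cases hb1 : b = t
        · rw [ha1, hb1]
        · exfalso
          subst ha1
          exact hthird b hb (Ne.symm hab) hb1 hcab
      · by_cases ha2 : a = t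
        · by_cases hb1 : b = s
          · rw [ha2, hb1, Finset.pair_comm]
          · exfalso
            subst ha2
            exact hthird b hb hb1 (Ne.symm hab) (hc.trans hcab)
        · exfalso
          have h3 := hthird a ha ha1 ha2
          by_cases hb1 : b = s
          · subst hb1; exact h3 hcab.symm
          · by_cases hb2 : b = t
            · subst hb2; exact h3 (hc.trans hcab.symm)
            · -- a, b, s, t four different elements
              have hsub : ({a, b, s, t} : Finset S) ⊆ T := by
                intro x hx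
                simp only [Finset.mem_insert, Finset.mem_singleton] at hx
                rcases hx with rfl | rfl | rfl | rfl <;> assumption
              have h4 : ({a, b, s, t} : Finset S).card = 4 := by
                rw [Finset.card_insert_of_notMem (by simp [hab, ha1, ha2]),
                  Finset.card_insert_of_notMem (by simp [hb1, hb2]), Finset.card_pair hst]
              have h5 := Finset.card_le_card hsub
              omega
    · exfalso
      have hTeq : T = {a, b, c} := by
        refine (Finset.eq_of_subset_of_card_le hT' ?_).symm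
        rw [Finset.card_eq_three.2 ⟨a, b, c, hab, hac, hbc, rfl⟩]
        exact hcard
      rw [hTeq] at hs ht
      simp only [Finset.mem_insert, Finset.mem_singleton] at hs ht
      have hz' : ∀ x y : V, x + (y + y) = 0 → x = 0 := by
        intro x y h; rwa [V.add_self, add_zero] at h
      rcases hs with rfl | rfl | rfl <;> rcases ht with rfl | rfl | rfl
      · exact hst rfl
      · rw [hc, ← add_assoc, V.add_self, zero_add] at hz; exact space_chk1 k _ hz
      · rw [hc, add_comm (col k b), ← add_assoc, V.add_self, zero_add] at hz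
        exact space_chk1 k _ hz
      · rw [hc, ← add_assoc, V.add_self, zero_add] at hz; exact space_chk1 k _ hz
      · exact hst rfl
      · rw [hc] at hz; exact space_chk1 k _ (hz' _ _ hz)
      · rw [hc, add_comm (col k b), ← add_assoc, V.add_self, zero_add] at hz
        exact space_chk1 k _ hz
      · rw [hc] at hz; exact space_chk1 k _ (hz' _ _ hz)
      · exact hst rfl
  · push Not at hpair
    by_cases htrip : ∃ T' ⊆ T, ∑ s ∈ T', col k s = 0 ∧ T' ≠ ∅
    · obtain ⟨T₀, hT₀, h0, hne⟩ := htrip
      rcases h2 T₀ hT₀ h0 with h | ⟨a, b, hab, rfl, hcab⟩ | ⟨a, b, c, hab, hac, hbc, rfl, hz⟩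
      · exact absurd h hne
      · exact absurd hcab (hpair a (hT₀ (by simp)) b (hT₀ (by simp)) hab)
      · have hTeq : T = {a, b, c} := by
          refine (Finset.eq_of_subset_of_card_le hT₀ ?_).symm
          rw [Finset.card_eq_three.2 ⟨a, b, c, hab, hac, hbc, rfl⟩]
          exact hcard
        refine Or.inr (Or.inr ⟨a, hT₀ (by simp), b, hT₀ (by simp), c, hT₀ (by simp), hab, hac, hbc,
          hTeq, hz, fun T' hT' h0' => ?_⟩)
        rcases h2 T' hT' h0' with h | ⟨a', b', hab', rfl, hcab'⟩ |
          ⟨a', b', c', hab', hac', hbc', rfl, hz'⟩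
        · exact Or.inl h
        · exact absurd hcab' (hpair a' (hT' (by simp)) b' (hT' (by simp)) hab')
        · right
          rw [← hTeq]
          refine Finset.eq_of_subset_of_card_le hT' ?_
          rw [Finset.card_eq_three.2 ⟨a', b', c', hab', hac', hbc', rfl⟩]
          exact hcard
    · left
      intro T' hT' h0
      by_contra hne
      exact htrip ⟨T', hT', h0, hne⟩

theorem space_prod_perm {l l' : List S} (hp : l.Perm l')
    (hc : ∀ s ∈ l, ∀ t ∈ l, s ≠ t → adj s t) :
    (l.map (gen adj)).prod = (l'.map (gen adj)).prod := by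
  refine List.Perm.prod_eq' (hp.map _) ?_
  rw [List.pairwise_map]
  refine List.Pairwise.imp_of_mem (R := fun _ _ => True) ?_ (List.pairwise_of_forall (by simp))
  intro a b ha hb _
  by_cases hab : a = b
  · rw [hab]
  · exact gen_comm adj (hc a ha b hb hab)

/-- elements of the group fixing a point of the polytope -/
theorem space_stab (k : Bool) (p : H3) (hp : p ∈ PiH) (γ : RA adj) (hγ : γ ∈ Gam k)
    (h : γ • p = p) : ∃ l : List S, l.Nodup ∧ l.toFinset ⊆ space_sup p ∧
      ∑ s ∈ l.toFinset, col k s = 0 ∧ γ = (l.map (gen adj)).prod := by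
  obtain ⟨_, h3⟩ := strict_PiH p p hp hp γ h
  rw [space_coe_sup] at h3
  obtain ⟨l, hn, hl, hprod⟩ := mem_closure_clique (fun s t h => adj_symm h) (space_sup p)
    (space_clique_sup p) γ h3
  refine ⟨l, hn, fun s hs => hl s (List.mem_toFinset.1 hs), ?_, hprod⟩
  rw [List.sum_toFinset _ hn, ← space_colHom_list, ← hprod]
  exact (space_mem_Gam k γ).1 hγ

theorem space_stab_pair {T : Finset S} (hT : Clique T) {l l' : List S} (hn : l.Nodup)
    (hn' : l'.Nodup) (hl : l.toFinset ⊆ T) (h : l.toFinset = l'.toFinset) :
    (l.map (gen adj)).prod = (l'.map (gen adj)).prod := by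
  refine space_prod_perm ?_ (fun s hs t ht => hT s (hl (List.mem_toFinset.2 hs)) t
    (hl (List.mem_toFinset.2 ht)))
  rw [List.perm_ext_iff_of_nodup hn hn']
  intro a
  rw [← List.mem_toFinset, h, List.mem_toFinset]

theorem space_al_e (s t : S) (h : adj s t) : al s (pol.e t) = 0 := by
  rw [al_apply, pol.near s t h, neg_zero]

theorem space_unit (p : H3) (s : S) (h : al s p.v = 0) : Bf (pol.e s) p.v = 0 := by
  rw [al_apply] at h; linarith

theorem space_Bf_sgm (s : S) (x y : L) : Bf (sgm s x) y = Bf x y + 2 * al s x * Bf (pol.e s) y := by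
  rw [sgm_apply]
  simp only [← Bl_apply, map_sub, map_smul, LinearMap.sub_apply, LinearMap.smul_apply, smul_eq_mul]
  ring

theorem space_Bf_sgm_self (s : S) (x : L) : Bf (sgm s x) (pol.e s) = -Bf x (pol.e s) := by
  rw [space_Bf_sgm, pol.unit, al_apply, Bf_comm (pol.e s) x]; ring

theorem space_Bf_sgm_orth (s : S) (x y : L) (h : Bf (pol.e s) y = 0) :
    Bf (sgm s x) y = Bf x y := by
  rw [space_Bf_sgm, h]; ring

theorem space_main (k : Bool) (p : H3) (hp : p ∈ PiH) :
    MfdPt (Xs k) (QS.mk (Gam k) p) ∨ (ConePt (Xs k) (QS.mk (Gam k) p) ∧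
      ∃ s t r, adj s t ∧ adj s r ∧ adj t r ∧ space_sup p = {s, t, r} ∧
        col k s + (col k t + col k r) = 0) := by
  have hcl := space_clique_sup p
  rcases space_zero_sum k (space_sup p) hcl with h | ⟨s, hs, t, ht, hst, hc, h⟩ |
    ⟨s, hs, t, ht, r, hr, hst, hsr, htr, hT, hz, h⟩
  · left
    refine chart_triv p ?_
    rintro ⟨γ, hγ⟩ hg y
    obtain ⟨l, hn, hl, h0, hprod⟩ := space_stab k p hp γ hγ hg
    have h1 := h _ hl h0
    rw [List.toFinset_eq_empty_iff] at h1
    show γ • y = y
    rw [hprod, h1, List.map_nil, List.prod_nil, one_smul]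
  · left
    have hadj := hcl s hs t ht hst
    obtain ⟨F, hF⟩ := Frame.exists_ext p {0, 1} ![pol.e s, pol.e t, 0]
      (by
        intro i hi
        simp only [Finset.mem_insert, Finset.mem_singleton] at hi
        rcases hi with rfl | rfl
        · exact pol.unit s
        · exact pol.unit t)
      (by
        intro i hi j hj hij
        simp only [Finset.mem_insert, Finset.mem_singleton] at hi hj
        rcases hi with rfl | rfl <;> rcases hj with rfl | rfl
        · exact absurd rfl hij
        · exact pol.near s t hadj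
        · exact pol.near t s (adj_symm hadj)
        · exact absurd rfl hij)
      (by
        intro i hi
        simp only [Finset.mem_insert, Finset.mem_singleton] at hi
        rcases hi with rfl | rfl
        · exact space_unit p s ((space_mem_sup p s).1 hs)
        · exact space_unit p t ((space_mem_sup p t).1 ht))
    have hF0 : F.e 0 = pol.e s := hF 0 (by simp)
    have hF1 : F.e 1 = pol.e t := hF 1 (by simp)
    have hg₀ : gen adj s * gen adj t ∈ Gam k := by
      rw [space_mem_Gam, space_colHom_mul, space_colHom_gen, space_colHom_gen, hc, V.add_self]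
    refine chart_rot p F ⟨gen adj s * gen adj t, hg₀⟩ ?_ ?_ ?_
    · show (gen adj s * gen adj t) • p = p
      rw [mul_smul, space_fix t p ((space_mem_sup p t).1 ht),
        space_fix s p ((space_mem_sup p s).1 hs)]
    · intro y
      have hv : ((⟨gen adj s * gen adj t, hg₀⟩ : Gam k) • y).v = sgm s (sgm t y.v) := by
        show ((gen adj s * gen adj t) • y).v = _
        rw [mul_smul, smul_v, rep_gen, smul_v, rep_gen]
      rw [hv]
      refine ⟨?_, ?_, ?_⟩
      · rw [hF0, space_Bf_sgm_self, space_Bf_sgm_orth t _ _ (pol.near t s (adj_symm hadj))]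
      · rw [hF1, space_Bf_sgm_orth s _ _ (pol.near s t hadj), space_Bf_sgm_self]
      · rw [space_Bf_sgm_orth s, space_Bf_sgm_orth t]
        · rw [← hF1]; exact F.orth 1 2 (by decide)
        · rw [← hF0]; exact F.orth 0 2 (by decide)
    · rintro ⟨γ, hγ⟩ hg
      obtain ⟨l, hn, hl, h0, hprod⟩ := space_stab k p hp γ hγ hg
      rcases h _ hl h0 with h1 | h1
      · left
        intro y
        rw [List.toFinset_eq_empty_iff] at h1
        show γ • y = y
        rw [hprod, h1, List.map_nil, List.prod_nil, one_smul]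
      · right
        intro y
        show γ • y = (gen adj s * gen adj t) • y
        have h2 : γ = gen adj s * gen adj t := by
          rw [hprod, space_stab_pair hcl hn (l' := [s, t]) (by simp [hst]) hl (by simp [h1])]
          simp
        rw [h2]
  · right
    have h12 := hcl s hs t ht hst
    have h13 := hcl s hs r hr hsr
    have h23 := hcl t ht r hr htr
    refine ⟨?_, s, t, r, h12, h13, h23, hT, hz⟩
    obtain ⟨F, hF⟩ := Frame.exists_ext p Finset.univ ![pol.e s, pol.e t, pol.e r]
      (by
        intro i _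
        fin_cases i
        · exact pol.unit s
        · exact pol.unit t
        · exact pol.unit r)
      (by
        intro i _ j _ hij
        fin_cases i <;> fin_cases j
        · exact absurd rfl hij
        · exact pol.near s t h12
        · exact pol.near s r h13
        · exact pol.near t s (adj_symm h12)
        · exact absurd rfl hij
        · exact pol.near t r h23
        · exact pol.near r s (adj_symm h13)
        · exact pol.near r t (adj_symm h23)
        · exact absurd rfl hij)
      (by
        intro i _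
        fin_cases i
        · exact space_unit p s ((space_mem_sup p s).1 hs)
        · exact space_unit p t ((space_mem_sup p t).1 ht)
        · exact space_unit p r ((space_mem_sup p r).1 hr))
    have hF0 : F.e 0 = pol.e s := hF 0 (Finset.mem_univ _)
    have hF1 : F.e 1 = pol.e t := hF 1 (Finset.mem_univ _)
    have hF2 : F.e 2 = pol.e r := hF 2 (Finset.mem_univ _)
    have hg₀ : gen adj s * (gen adj t * gen adj r) ∈ Gam k := by
      rw [space_mem_Gam, space_colHom_mul, space_colHom_mul, space_colHom_gen, space_colHom_gen,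
        space_colHom_gen, hz]
    refine chart_inv p F ⟨gen adj s * (gen adj t * gen adj r), hg₀⟩ ?_ ?_ ?_
    · show (gen adj s * (gen adj t * gen adj r)) • p = p
      rw [mul_smul, mul_smul, space_fix r p ((space_mem_sup p r).1 hr),
        space_fix t p ((space_mem_sup p t).1 ht), space_fix s p ((space_mem_sup p s).1 hs)]
    · intro y i
      have hv : ((⟨gen adj s * (gen adj t * gen adj r), hg₀⟩ : Gam k) • y).v =
          sgm s (sgm t (sgm r y.v)) := by
        show ((gen adj s * (gen adj t * gen adj r)) • y).v = _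
        rw [mul_smul, smul_v, rep_gen, mul_smul, smul_v, rep_gen, smul_v, rep_gen]
      rw [hv]
      have key : ∀ i : Fin 3, i = 0 ∨ i = 1 ∨ i = 2 := by decide
      rcases key i with rfl | rfl | rfl
      · rw [hF0, space_Bf_sgm_self, space_Bf_sgm_orth t _ _ (pol.near t s (adj_symm h12)),
          space_Bf_sgm_orth r _ _ (pol.near r s (adj_symm h13))]
      · rw [hF1, space_Bf_sgm_orth s _ _ (pol.near s t h12), space_Bf_sgm_self,
          space_Bf_sgm_orth r _ _ (pol.near r t (adj_symm h23))]
      · rw [hF2, space_Bf_sgm_orth s _ _ (pol.near s r h13),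
          space_Bf_sgm_orth t _ _ (pol.near t r h23), space_Bf_sgm_self]
    · rintro ⟨γ, hγ⟩ hg
      obtain ⟨l, hn, hl, h0, hprod⟩ := space_stab k p hp γ hγ hg
      rcases h _ hl h0 with h1 | h1
      · left
        intro y
        rw [List.toFinset_eq_empty_iff] at h1
        show γ • y = y
        rw [hprod, h1, List.map_nil, List.prod_nil, one_smul]
      · right
        intro y
        show γ • y = (gen adj s * (gen adj t * gen adj r)) • y
        have h2 : γ = gen adj s * (gen adj t * gen adj r) := by
          rw [hprod, space_stab_pair hcl hn (l' := [s, t, r]) (by simp [hst, hsr, htr]) hl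
            (by simp [h1])]
          simp
        rw [h2]

/-- every point is a manifold point or a cone point -/
theorem mfd_or_cone (k : Bool) (x : Xs k) : MfdPt (Xs k) x ∨ ConePt (Xs k) x := by
  obtain ⟨y, rfl⟩ := QS.mk_surj x
  obtain ⟨w, hw⟩ := cover_PiH y
  have h1 : QS.mk (Gam k) y = space_trH k w⁻¹ (QS.mk (Gam k) (w • y)) := by
    rw [space_trH_mk, inv_smul_smul]
  rw [h1]
  rcases space_main k (w • y) hw with h | ⟨h, _⟩
  · exact Or.inl (space_mfd_homeo _ _ h)
  · exact Or.inr (space_cone_homeo _ _ h)

/-- in X' the points outside the four singular vertices are manifold points -/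
theorem mfd_X' (w : RA adj) (p : H3) (hp : p ∈ PiH)
    (hn : ∀ n, ¬ (∀ s, al s p.v = 0 ↔ s ∈ singT n)) : MfdPt (Xs true) (QS.mk (Gam true) (w • p)) := by
  rw [← space_trH_mk]
  apply space_mfd_homeo
  rcases space_main true p hp with h | ⟨_, s, t, r, h12, h13, h23, hT, hz⟩
  · exact h
  · exfalso
    obtain ⟨n, hn'⟩ := space_chk4 s t h12 r h13 h23 hz
    refine hn n fun q => ?_
    rw [← space_mem_sup, hT, hn']

end H30
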