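import Pool.Agent.Helper30_Alex.TileCpt
import Pool.Agent.Helper30_Alex.Quot

/-!
# The tiling of hyperbolic space by copies of the polytope (PART 4)
-/

set_option autoImplicit false

namespace H30

theorem tile_al_o (s : S) : 0 < al s H3.o.v := by
  have h : al s H3.o.v = (pol.e s).1 := by
    rw [al_apply]; simp [Bf, H3.o]
  rw [h]; exact pol.pos s

/-- the closed polytope is a strict fundamental domain -/
theorem strict_PiH (x y : H3) (hx : x ∈ PiH) (hy : y ∈ PiH) (w : RA adj) (h : w • x = y) :
    x = y ∧ w ∈ Subgroup.closure (gen adj '' {s | al s x.v = 0}) := by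
  have h1 := Geo.strict (adj := adj) (fun s t h => adj_symm h) adj_irrefl geo H3.o.v tile_al_o
    x.v y.v hx hy w (congrArg H3.v h)
  exact ⟨H3.ext' h1.1, h1.2⟩

/-- the values of the forms on the orbit of the base point -/
noncomputable def tileV (w : RA adj) (s : S) : ℝ := al s (rep w⁻¹ H3.o.v)

theorem tile_gen_inv (s : S) : (gen adj s)⁻¹ = gen adj s :=
  inv_eq_of_mul_eq_one_left (gen_mul_self adj s)

theorem tile_rep_step (w : RA adj) (s : S) (x : L) :
    rep (w * gen adj s)⁻¹ x = sgm s (rep w⁻¹ x) := by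
  rw [mul_inv_rev, tile_gen_inv, map_mul]
  show rep (gen adj s) (rep w⁻¹ x) = sgm s (rep w⁻¹ x)
  rw [rep_gen]

theorem tileV_step (w : RA adj) (s t : S) :
    tileV (w * gen adj s) t = tileV w t - tileV w s * (2 * Bf (pol.e t) (pol.e s)) := by
  unfold tileV
  rw [tile_rep_step, sgm_apply, map_sub, map_smul, map_smul, smul_eq_mul, smul_eq_mul,
    al_apply t (pol.e s)]
  ring

theorem tileV_self (w : RA adj) (s : S) : tileV (w * gen adj s) s = -tileV w s := by
  rw [tileV_step, pol.unit]; ring

theorem tileV_near (w : RA adj) (s t : S) (h : adj s t) : tileV (w * gen adj s) t = tileV w t := by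
  rw [tileV_step, pol.near t s (adj_symm h)]; ring

theorem tileV_far (w : RA adj) (s t : S) (hst : s ≠ t) (h : ¬ adj s t) (hp : 0 < tileV w s) :
    tileV w t + 2 * tileV w s ≤ tileV (w * gen adj s) t := by
  rw [tileV_step]
  have := pol.far t s (Ne.symm hst) (fun h' => h (adj_symm h'))
  nlinarith

theorem tile_In_ne (Λ : LenData adj) (w : RA adj) (hw : w ≠ 1) : ∃ s, s ∈ Λ.In w := by
  by_contra hn
  push Not at hn
  have h1 : ∀ s, 0 ≤ al s (rep w⁻¹ H3.o.v) := fun s =>
    (Λ.geo_pos geo H3.o.v tile_al_o w s (hn s)).le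
  have h2 := Geo.strict (adj := adj) (fun s t h => adj_symm h) adj_irrefl geo H3.o.v tile_al_o
    H3.o.v (rep w⁻¹ H3.o.v) (fun s => (tile_al_o s).le) h1 w⁻¹ rfl
  have h3 : {s | geo.α s H3.o.v = 0} = ∅ := by
    ext s
    simp only [Set.mem_ofPred_eq, Set.mem_empty_iff_false, iff_false]
    exact (tile_al_o s).ne'
  have h4 := h2.2
  rw [h3, Set.image_empty, Subgroup.closure_empty, Subgroup.mem_bot, inv_eq_one] at h4
  exact hw h4

theorem tile_pos_of_not (Λ : LenData adj) (w : RA adj) (s : S) (h : s ∉ Λ.In w) :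
    0 < tileV w s := Λ.geo_pos geo H3.o.v tile_al_o w s h

theorem tile_low : ∃ δ : ℝ, 0 < δ ∧ (∀ s, δ ≤ al s H3.o.v) ∧
    ∀ (Λ : LenData adj) (n : ℕ) (w : RA adj), Λ.ℓ w = n →
      (∀ s, δ ≤ |tileV w s|) ∧ (∀ s t, s ≠ t → ¬ adj s t → 0 < tileV w s + tileV w t) := by
  obtain ⟨s₀, hs₀⟩ := Finite.exists_min (fun s : S => al s H3.o.v)
  refine ⟨al s₀ H3.o.v, tile_al_o s₀, hs₀, fun Λ n => ?_⟩
  set δ := al s₀ H3.o.v with hδ
  induction n with
  | zero =>
    intro w hw
    have hw1 : w = 1 := (Λ.one w).1 hw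
    have hv : ∀ s, tileV w s = al s H3.o.v := by
      intro s
      unfold tileV
      rw [hw1, inv_one, map_one]; rfl
    refine ⟨fun s => ?_, fun s t _ _ => ?_⟩
    · rw [hv, abs_of_pos (tile_al_o s)]; exact hs₀ s
    · rw [hv, hv]; exact add_pos (tile_al_o s) (tile_al_o t)
  | succ n ih =>
    intro w hw
    have hw1 : w ≠ 1 := by
      intro h
      rw [(Λ.one w).2 h] at hw
      exact absurd hw (by omega)
    obtain ⟨s, hs⟩ := tile_In_ne Λ w hw1
    have hl : Λ.ℓ (w * gen adj s) = n := by
      have := Λ.desc w s hs; omega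
    obtain ⟨ih1, ih2⟩ := ih _ hl
    have hns : s ∉ Λ.In (w * gen adj s) := fun h => (Λ.mem_flip w s).1 h hs
    have hps := tile_pos_of_not Λ _ s hns
    have hds : δ ≤ tileV (w * gen adj s) s := by
      have := ih1 s
      rwa [abs_of_pos hps] at this
    have hww : w = (w * gen adj s) * gen adj s := by
      rw [mul_assoc, gen_mul_self, mul_one]
    generalize w * gen adj s = u at *
    subst hww
    have hself := tileV_self u s
    have hnear := tileV_near u s
    have hfar : ∀ t, s ≠ t → ¬ adj s t → δ ≤ tileV (u * gen adj s) t ∧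
        tileV u t + 2 * tileV u s ≤ tileV (u * gen adj s) t := by
      intro t hst hn
      have h1 := tileV_far u s t hst hn hps
      have h2 := ih2 s t hst hn
      exact ⟨by linarith, h1⟩
    have hd0 : 0 < δ := tile_al_o s₀
    refine ⟨fun t => ?_, fun t r htr hn => ?_⟩
    · by_cases h1 : s = t
      · subst h1
        rw [hself, abs_neg]; exact ih1 s
      · by_cases h2 : adj s t
        · rw [hnear t h2]; exact ih1 t
        · exact (hfar t h1 h2).1.trans (le_abs_self _)
    · have key : ∀ r, s ≠ r → ¬ adj s r → 0 < tileV (u * gen adj s) s + tileV (u * gen adj s) r := by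
        intro r h1 h2
        have h3 := (hfar r h1 h2).2
        have h4 := ih2 s r h1 h2
        rw [hself]; linarith
      by_cases h1 : s = t
      · subst h1
        exact key r htr hn
      · by_cases h2 : s = r
        · subst h2
          rw [add_comm]
          exact key t h1 (fun h => hn (adj_symm h))
        · by_cases h3 : adj s t
          · rw [hnear t h3]
            by_cases h4 : adj s r
            · rw [hnear r h4]; exact ih2 t r htr hn
            · have := (hfar r h2 h4).2
              have h5 := ih2 t r htr hn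
              linarith
          · by_cases h4 : adj s r
            · rw [hnear r h4]
              have := (hfar t h1 h3).2
              have h5 := ih2 t r htr hn
              linarith
            · have h5 := (hfar t h1 h3).1
              have h6 := (hfar r h2 h4).1
              linarith

theorem tile_cosh_step (w : RA adj) (s : S) :
    -Bf (rep (w * gen adj s)⁻¹ H3.o.v) H3.o.v =
      -Bf (rep w⁻¹ H3.o.v) H3.o.v + 2 * tileV w s * al s H3.o.v := by
  rw [tile_rep_step]
  unfold tileV
  rw [sgm_apply, al_apply s H3.o.v]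
  simp only [← Bl_apply, map_sub, map_smul, LinearMap.sub_apply, LinearMap.smul_apply, smul_eq_mul]
  ring

theorem tile_growth : ∃ δ : ℝ, 0 < δ ∧ ∀ (Λ : LenData adj) (n : ℕ) (w : RA adj), Λ.ℓ w = n →
    1 + δ * n ≤ -Bf (rep w⁻¹ H3.o.v) H3.o.v := by
  obtain ⟨δ, hδ, hδ1, hδ2⟩ := tile_low
  refine ⟨2 * δ * δ, by positivity, fun Λ n => ?_⟩
  induction n with
  | zero =>
    intro w hw
    have hw1 : w = 1 := (Λ.one w).1 hw
    rw [hw1, inv_one, map_one]
    show 1 + 2 * δ * δ * ((0 : ℕ) : ℝ) ≤ -Bf H3.o.v H3.o.v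
    rw [H3.o.norm_eq]; simp
  | succ n ih =>
    intro w hw
    have hw1 : w ≠ 1 := by
      intro h
      rw [(Λ.one w).2 h] at hw
      exact absurd hw (by omega)
    obtain ⟨s, hs⟩ := tile_In_ne Λ w hw1
    have hl : Λ.ℓ (w * gen adj s) = n := by
      have := Λ.desc w s hs; omega
    have h1 := ih _ hl
    have hns : s ∉ Λ.In (w * gen adj s) := fun h => (Λ.mem_flip w s).1 h hs
    have hps := tile_pos_of_not Λ _ s hns
    have h2 := (hδ2 Λ n _ hl).1 s
    rw [abs_of_pos hps] at h2
    have hww : w = (w * gen adj s) * gen adj s := by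
      rw [mul_assoc, gen_mul_self, mul_one]
    have h3 := tile_cosh_step (w * gen adj s) s
    rw [← hww] at h3
    rw [h3]
    have h4 := hδ1 s
    push_cast
    nlinarith [mul_le_mul h2 h4 hδ.le hps.le]

theorem tile_dist_smul (w : RA adj) (x y : H3) : dist (w • x) (w • y) = dist x y := by
  rw [H3.dist_def, H3.dist_def, smul_v, smul_v, Bf_rep]

theorem tile_fin_o (R : ℝ) : {w : RA adj | dist H3.o (w • H3.o) ≤ R}.Finite := by
  obtain ⟨Λ⟩ := exists_lenData adj (fun s t h => adj_symm h) adj_irrefl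
  obtain ⟨δ, hδ, hg⟩ := tile_growth
  refine (Λ.finite_length ⌈(Real.cosh R - 1) / δ⌉₊).subset (fun w hw => ?_)
  have h0 : dist H3.o (w • H3.o) ≤ R := hw
  have h1 : dist H3.o (w • H3.o) = dist (w⁻¹ • H3.o) H3.o := by
    rw [← tile_dist_smul w⁻¹ H3.o (w • H3.o), inv_smul_smul]
  have h2 : Real.cosh (dist (w⁻¹ • H3.o) H3.o) = -Bf (rep w⁻¹ H3.o.v) H3.o.v := by
    rw [H3.cosh_dist, smul_v]
  have h3 : Real.cosh (dist (w⁻¹ • H3.o) H3.o) ≤ Real.cosh R := by
    rw [← h1, Real.cosh_le_cosh, abs_of_nonneg dist_nonneg]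
    exact h0.trans (le_abs_self R)
  have h4 := hg Λ (Λ.ℓ w) w rfl
  show Λ.ℓ w ≤ ⌈(Real.cosh R - 1) / δ⌉₊
  have h5 : (Λ.ℓ w : ℝ) ≤ (Real.cosh R - 1) / δ := by
    rw [le_div_iff₀ hδ]; nlinarith
  exact_mod_cast h5.trans (Nat.le_ceil _)

theorem tile_fin (x : H3) (R : ℝ) : {w : RA adj | dist x (w • x) ≤ R}.Finite := by
  refine (tile_fin_o (2 * dist H3.o x + R)).subset (fun w hw => ?_)
  have h0 : dist x (w • x) ≤ R := hw
  have h1 := dist_triangle4 H3.o x (w • x) (w • H3.o)
  have h2 : dist (w • x) (w • H3.o) = dist H3.o x := by rw [tile_dist_smul, dist_comm]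
  show dist H3.o (w • H3.o) ≤ 2 * dist H3.o x + R
  linarith

/-- the copies of the polytope cover hyperbolic space -/
theorem cover_PiH (x : H3) : ∃ w : RA adj, w • x ∈ PiH := by
  have hF := tile_fin x (2 * dist x H3.o)
  set F : Set (RA adj) := {w : RA adj | dist x (w • x) ≤ 2 * dist x H3.o} with hFdef
  have h1F : (1 : RA adj) ∈ F := by
    show dist x ((1 : RA adj) • x) ≤ 2 * dist x H3.o
    rw [one_smul, dist_self]; positivity
  obtain ⟨w, hwF, hw⟩ := Set.exists_min_image F (fun w => dist (w • x) H3.o) hF ⟨1, h1F⟩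
  have hw1 : dist (w • x) H3.o ≤ dist x H3.o := by
    have := hw 1 h1F
    rwa [one_smul] at this
  refine ⟨w, fun s => ?_⟩
  by_contra hneg
  push Not at hneg
  have hlt : dist ((gen adj s * w) • x) H3.o < dist (w • x) H3.o := by
    have h3 : Real.cosh (dist ((gen adj s * w) • x) H3.o) < Real.cosh (dist (w • x) H3.o) := by
      rw [H3.cosh_dist, H3.cosh_dist, mul_smul, smul_v, rep_gen, sgm_apply]
      have h4 := tile_al_o s
      rw [al_apply] at h4
      simp only [← Bl_apply, map_sub, map_smul, LinearMap.sub_apply, LinearMap.smul_apply,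
        smul_eq_mul] at *
      nlinarith
    rw [Real.cosh_lt_cosh, abs_of_nonneg dist_nonneg, abs_of_nonneg dist_nonneg] at h3
    exact h3
  have hmem : gen adj s * w ∈ F := by
    show dist x ((gen adj s * w) • x) ≤ 2 * dist x H3.o
    have h5 := dist_triangle x H3.o ((gen adj s * w) • x)
    rw [dist_comm H3.o ((gen adj s * w) • x)] at h5
    linarith
  exact absurd (hw _ hmem) (not_le.2 hlt)

/-- the reflection group acts isometrically and properly discontinuously -/
instance : PDAct (RA adj) H3 where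
  isom := tile_dist_smul
  fin := tile_fin

instance (Γ : Subgroup (RA adj)) : PDAct Γ H3 where
  isom g x y := tile_dist_smul (g : RA adj) x y
  fin x R := by
    have h := (tile_fin x R).preimage (f := fun g : Γ => (g : RA adj))
      (Subtype.coe_injective.injOn)
    exact h

end H30
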