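import Pool.Agent.Helper30_Alex.TileDef
import Pool.Agent.Helper30_Alex.Dev

/-!
# The polytope is compact; the chamber (PART 5b)
-/

set_option autoImplicit false

namespace H30

theorem tc_o_v : H3.o.v = ((1 : ℝ), (0 : EuclideanSpace ℝ (Fin 3))) := rfl

theorem tc_al_o (s : S) : al s H3.o.v = (pol.e s).1 := by
  rw [al_apply, tc_o_v, Bf]
  simp

theorem tc_al_e (s t : S) : al t (pol.e s) = -Bf (pol.e t) (pol.e s) := al_apply t _

theorem tc_al_e_self (s : S) : al s (pol.e s) = -1 := by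
  rw [tc_al_e, pol.unit]

theorem tc_al_e_near (s t : S) (h : adj s t) : al t (pol.e s) = 0 := by
  rw [tc_al_e, pol.near t s (adj_symm h), neg_zero]

theorem tc_al_e_nonneg (s t : S) (h : s ≠ t) : 0 ≤ al t (pol.e s) := by
  by_cases h' : adj s t
  · rw [tc_al_e_near s t h']
  · rw [tc_al_e]
    have := pol.far t s (Ne.symm h) (fun h1 => h' (adj_symm h1))
    linarith

/-- the form is the quadratic form of the norm -/
theorem tc_Bf_self (x : L) : Bf x x = ‖x.2‖ ^ 2 - x.1 ^ 2 := by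
  unfold Bf
  rw [real_inner_self_eq_norm_sq]; ring

/-- scaling a timelike vector to hyperbolic space -/
theorem tc_time {x : L} (hx : ‖x.2‖ < x.1) : 0 < -Bf x x := by
  rw [tc_Bf_self]
  have := norm_nonneg x.2
  nlinarith

theorem tc_time_pos {x : L} (hx : ‖x.2‖ < x.1) : 0 < x.1 := (norm_nonneg _).trans_lt hx

theorem tc_time_iff {x : L} : ‖x.2‖ < x.1 ↔ Bf x x < 0 ∧ 0 < x.1 := by
  constructor
  · intro h
    exact ⟨by have := tc_time h; linarith, tc_time_pos h⟩
  · rintro ⟨h1, h2⟩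
    rw [tc_Bf_self] at h1
    exact lt_of_pow_lt_pow_left₀ 2 h2.le (by linarith)

noncomputable def tc_nu (x : L) (hx : ‖x.2‖ < x.1) : H3 where
  v := (1 / Real.sqrt (-Bf x x)) • x
  norm_eq := by
    have h := tc_time hx
    have h1 := Real.mul_self_sqrt h.le
    have h2 := Real.sqrt_pos.2 h
    rw [poly_Bf_smul]
    field_simp
    rw [sq, h1]; ring
  pos := by
    have h2 := Real.sqrt_pos.2 (tc_time hx)
    exact mul_pos (by positivity) (tc_time_pos hx)

theorem tc_nu_v (x : L) (hx : ‖x.2‖ < x.1) : (tc_nu x hx).v = (1 / Real.sqrt (-Bf x x)) • x := rfl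

theorem tc_nu_scale_pos {x : L} (hx : ‖x.2‖ < x.1) : 0 < 1 / Real.sqrt (-Bf x x) := by
  have h2 := Real.sqrt_pos.2 (tc_time hx)
  positivity

theorem tc_H3_time (x : H3) : ‖x.v.2‖ < x.v.1 := by
  rw [tc_time_iff, x.norm_eq]
  exact ⟨by norm_num, x.pos⟩

theorem tc_Bl_sum (a z : L) (T : Finset S) (c : S → ℝ) (v : S → L) :
    Bl (a + ∑ s ∈ T, c s • v s) z = Bl a z + ∑ s ∈ T, c s * Bl (v s) z := by
  rw [map_add, LinearMap.add_apply, map_sum, LinearMap.sum_apply]
  congr 1
  exact Finset.sum_congr rfl fun s _ => by rw [map_smul, LinearMap.smul_apply, smul_eq_mul]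

theorem tc_Bf_add (a b z : L) : Bf (a + b) z = Bf a z + Bf b z := by
  rw [← Bl_apply, map_add, LinearMap.add_apply, Bl_apply, Bl_apply]

/-- every clique of facets has a common point of the polytope lying in no other facet -/
theorem exists_face_point (T : Finset S) (hT : Clique T) :
    ∃ x : H3, x ∈ PiH ∧ ∀ s, al s x.v = 0 ↔ s ∈ T := by
  classical
  set y : L := H3.o.v + ∑ s ∈ T, (pol.e s).1 • pol.e s with hy
  have hal : ∀ t, al t y = (pol.e t).1 + ∑ s ∈ T, (pol.e s).1 * al t (pol.e s) := by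
    intro t
    rw [hy, map_add, tc_al_o, map_sum]
    congr 1
    exact Finset.sum_congr rfl fun s _ => by rw [map_smul, smul_eq_mul]
  have hin : ∀ t ∈ T, al t y = 0 := by
    intro t ht
    rw [hal, Finset.sum_eq_single_of_mem t ht]
    · rw [tc_al_e_self]; ring
    · intro s hs hst
      rw [tc_al_e_near s t (hT s hs t ht hst), mul_zero]
  have hout : ∀ t, t ∉ T → 0 < al t y := by
    intro t ht
    rw [hal]
    have h1 := pol.pos t
    have h2 : 0 ≤ ∑ s ∈ T, (pol.e s).1 * al t (pol.e s) := by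
      refine Finset.sum_nonneg fun s hs => mul_nonneg (pol.pos s).le (tc_al_e_nonneg s t ?_)
      rintro rfl
      exact ht hs
    linarith
  have hyy : Bf y y = -1 - ∑ s ∈ T, (pol.e s).1 ^ 2 := by
    have h1 : Bl y y = Bl H3.o.v y + ∑ s ∈ T, (pol.e s).1 * Bl (pol.e s) y :=
      tc_Bl_sum H3.o.v y T (fun s => (pol.e s).1) pol.e
    have h2 : ∑ s ∈ T, (pol.e s).1 * Bl (pol.e s) y = 0 := by
      refine Finset.sum_eq_zero fun s hs => ?_
      have := hin s hs
      rw [al_apply] at this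
      rw [Bl_apply]
      have h3 : Bf (pol.e s) y = 0 := by linarith
      rw [h3, mul_zero]
    have h3 : Bl H3.o.v y = -1 - ∑ s ∈ T, (pol.e s).1 ^ 2 := by
      rw [hy, map_add, map_sum, Bl_apply, H3.o.norm_eq, sub_eq_add_neg, ← Finset.sum_neg_distrib]
      congr 1
      refine Finset.sum_congr rfl fun s _ => ?_
      rw [map_smul, smul_eq_mul, Bl_apply, Bf_comm]
      have := tc_al_o s
      rw [al_apply] at this
      have h4 : Bf (pol.e s) H3.o.v = -(pol.e s).1 := by linarith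
      rw [h4]; ring
    rw [← Bl_apply, h1, h2, h3, add_zero]
  have hy1 : 0 < y.1 := by
    rw [hy]
    have : (H3.o.v + ∑ s ∈ T, (pol.e s).1 • pol.e s).1 = 1 + ∑ s ∈ T, (pol.e s).1 * (pol.e s).1 := by
      rw [Prod.fst_add, Prod.fst_sum]
      rfl
    rw [this]
    have h2 : 0 ≤ ∑ s ∈ T, (pol.e s).1 * (pol.e s).1 :=
      Finset.sum_nonneg fun s _ => mul_self_nonneg _
    linarith
  have ht : ‖y.2‖ < y.1 := by
    rw [tc_time_iff]
    refine ⟨?_, hy1⟩
    rw [hyy]
    have h2 : 0 ≤ ∑ s ∈ T, (pol.e s).1 ^ 2 := Finset.sum_nonneg fun s _ => sq_nonneg _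
    linarith
  have hsc := tc_nu_scale_pos ht
  refine ⟨tc_nu y ht, fun s => ?_, fun s => ?_⟩
  · rw [tc_nu_v, map_smul, smul_eq_mul]
    by_cases hs : s ∈ T
    · rw [hin s hs, mul_zero]
    · exact (mul_pos hsc (hout s hs)).le
  · rw [tc_nu_v, map_smul, smul_eq_mul]
    constructor
    · intro h
      by_contra hs
      exact (mul_pos hsc (hout s hs)).ne' h
    · intro hs
      rw [hin s hs, mul_zero]

/-- facets meeting in a point of hyperbolic space are adjacent -/
theorem adj_of_meet (x : H3) (s t : S) (hs : al s x.v = 0) (ht : al t x.v = 0) (h : s ≠ t) :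
    adj s t := by
  by_contra hn
  have hf := pol.far s t h hn
  have h1 : Bf (pol.e s + pol.e t) x.v = 0 := by
    rw [al_apply] at hs ht
    rw [tc_Bf_add]
    linarith
  have h2 : Bf (pol.e s + pol.e t) (pol.e s + pol.e t) ≤ 0 := by
    rw [tc_Bf_add, Bf_comm (pol.e s), Bf_comm (pol.e t), tc_Bf_add, tc_Bf_add, pol.unit, pol.unit,
      Bf_comm (pol.e t) (pol.e s)]
    linarith
  have h3 : pol.e s + pol.e t ≠ 0 := by
    intro h0
    have := congrArg Prod.fst h0
    have hs := pol.pos s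
    have ht := pol.pos t
    rw [Prod.fst_add, Prod.fst_zero] at this
    linarith
  have := H3.pos_of_orth x _ h1 h3
  linarith

/-! ### compactness -/

/-- the sum of the forms -/
noncomputable def tc_om : L →ₗ[ℝ] ℝ := ∑ s : S, al s

theorem tc_om_apply (x : L) : tc_om x = ∑ s : S, al s x := by
  rw [tc_om, LinearMap.sum_apply]

theorem tc_om_pos (x : H3) (hx : x ∈ PiH) : 0 < tc_om x.v := by
  rw [tc_om_apply]
  have h0 : ∀ s ∈ (Finset.univ : Finset S), 0 ≤ al s x.v := fun s _ => hx s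
  rcases (Finset.sum_nonneg h0).lt_or_eq with h | h
  · exact h
  · exfalso
    have h1 := (Finset.sum_eq_zero_iff_of_nonneg h0).1 h.symm
    have h2 := adj_of_meet x 0 3 (h1 0 (Finset.mem_univ _)) (h1 3 (Finset.mem_univ _)) (by decide)
    exact absurd h2 (by decide)

/-- flags: ordered triples of adjacent facets -/
def tc_Fl : Type := {q : S × S × S // adj q.1 q.2.1 ∧ adj q.1 q.2.2 ∧ adj q.2.1 q.2.2}

instance : Finite tc_Fl := Subtype.finite

instance : Nonempty tc_Fl := ⟨⟨(0, 1, 6), by decide⟩⟩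

theorem tc_clique3 (q : tc_Fl) : Clique {q.1.1, q.1.2.1, q.1.2.2} := by
  obtain ⟨⟨s, t, r⟩, h1, h2, h3⟩ := q
  intro a ha b hb hab
  simp only [Finset.mem_insert, Finset.mem_singleton] at ha hb
  rcases ha with rfl | rfl | rfl <;> rcases hb with rfl | rfl | rfl <;>
    first
    | exact absurd rfl hab
    | assumption
    | exact adj_symm ‹_›

noncomputable def tc_x (q : tc_Fl) : H3 := (exists_face_point _ (tc_clique3 q)).choose

theorem tc_x_mem (q : tc_Fl) : tc_x q ∈ PiH := (exists_face_point _ (tc_clique3 q)).choose_spec.1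

theorem tc_x_iff (q : tc_Fl) (s : S) : al s (tc_x q).v = 0 ↔ s ∈ ({q.1.1, q.1.2.1, q.1.2.2} : Finset S) :=
  (exists_face_point _ (tc_clique3 q)).choose_spec.2 s

/-- the vertices in the slice -/
noncomputable def tc_v (q : tc_Fl) : L := (tc_om (tc_x q).v)⁻¹ • (tc_x q).v

theorem tc_v_om (q : tc_Fl) : tc_om (tc_v q) = 1 := by
  rw [tc_v, map_smul, smul_eq_mul]
  exact inv_mul_cancel₀ (tc_om_pos _ (tc_x_mem q)).ne'

/-- the slice of the cone over the polytope -/
noncomputable def tc_K : Set L := convexHull ℝ (Set.range tc_v)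

theorem tc_K_compact : IsCompact tc_K := (Set.finite_range tc_v).isCompact_convexHull ℝ

theorem tc_K_convex : Convex ℝ tc_K := convex_convexHull ℝ _

theorem tc_K_om {x : L} (hx : x ∈ tc_K) : tc_om x = 1 := by
  have : tc_K ⊆ {x | tc_om x = 1} := by
    refine convexHull_min ?_ (convex_hyperplane tc_om.isLinear 1)
    rintro _ ⟨q, rfl⟩
    exact tc_v_om q
  exact this hx

theorem tc_K_al {x : L} (hx : x ∈ tc_K) (s : S) : 0 ≤ al s x := by
  have : tc_K ⊆ {x | 0 ≤ al s x} := by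
    refine convexHull_min ?_ (convex_halfSpace_ge (al s).isLinear 0)
    rintro _ ⟨q, rfl⟩
    show 0 ≤ al s (tc_v q)
    rw [tc_v, map_smul, smul_eq_mul]
    exact mul_nonneg (inv_nonneg.2 (tc_om_pos _ (tc_x_mem q)).le) (tc_x_mem q s)
  exact this hx

theorem tc_convex_time : Convex ℝ {x : L | ‖x.2‖ < x.1} := by
  intro x hx y hy a b ha hb hab
  simp only [Set.mem_ofPred_eq] at *
  have h1 : ‖(a • x + b • y).2‖ ≤ a * ‖x.2‖ + b * ‖y.2‖ := by
    calc ‖(a • x + b • y).2‖ = ‖a • x.2 + b • y.2‖ := rfl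
      _ ≤ ‖a • x.2‖ + ‖b • y.2‖ := norm_add_le _ _
      _ = a * ‖x.2‖ + b * ‖y.2‖ := by
        rw [norm_smul, norm_smul, Real.norm_of_nonneg ha, Real.norm_of_nonneg hb]
  have h2 : (a • x + b • y).1 = a * x.1 + b * y.1 := rfl
  rw [h2]
  refine h1.trans_lt ?_
  rcases ha.lt_or_eq with ha' | ha'
  · have := mul_lt_mul_of_pos_left hx ha'
    have := mul_le_mul_of_nonneg_left hy.le hb
    linarith
  · have hb' : b = 1 := by linarith
    rw [← ha', hb']; linarith

theorem tc_K_time {x : L} (hx : x ∈ tc_K) : ‖x.2‖ < x.1 := by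
  have : tc_K ⊆ {x : L | ‖x.2‖ < x.1} := by
    refine convexHull_min ?_ tc_convex_time
    rintro _ ⟨q, rfl⟩
    have h := tc_om_pos _ (tc_x_mem q)
    have h' := inv_pos.2 h
    have h1 := tc_H3_time (tc_x q)
    show ‖((tc_om (tc_x q).v)⁻¹ • (tc_x q).v).2‖ < ((tc_om (tc_x q).v)⁻¹ • (tc_x q).v).1
    rw [Prod.smul_snd, Prod.smul_fst, norm_smul, Real.norm_of_nonneg h'.le, smul_eq_mul]
    exact mul_lt_mul_of_pos_left h1 h'
  exact this hx

theorem tc_expand (p : H3) (s t r : S) (h1 : adj s t) (h2 : adj s r) (h3 : adj t r)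
    (hs : al s p.v = 0) (ht : al t p.v = 0) (hr : al r p.v = 0) (x : L) :
    x = (-Bf x p.v) • p.v - al s x • pol.e s - al t x • pol.e t - al r x • pol.e r := by
  have e1 := pol.near s t h1
  have e2 := pol.near s r h2
  have e3 := pol.near t r h3
  have e1' := pol.near t s (adj_symm h1)
  have e2' := pol.near r s (adj_symm h2)
  have e3' := pol.near r t (adj_symm h3)
  rw [al_apply, neg_eq_zero] at hs ht hr
  let F : Frame p :=
    { e := ![pol.e s, pol.e t, pol.e r]
      unit := by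
        intro i; fin_cases i
        · exact pol.unit s
        · exact pol.unit t
        · exact pol.unit r
      orth := by
        intro i j hij
        fin_cases i <;> fin_cases j <;> first | exact absurd rfl hij | assumption
      tang := by
        intro i; fin_cases i <;> assumption }
  have h := F.expand x
  rw [Fin.sum_univ_three] at h
  have f0 : F.e 0 = pol.e s := rfl
  have f1 : F.e 1 = pol.e t := rfl
  have f2 : F.e 2 = pol.e r := rfl
  rw [f0, f1, f2] at h
  rw [al_apply, al_apply, al_apply, Bf_comm (pol.e s), Bf_comm (pol.e t), Bf_comm (pol.e r)]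
  refine h.trans ?_
  module

theorem tc_nonpos (p p' : H3) (s t r : S) (h1 : adj s t) (h2 : adj s r) (h3 : adj t r)
    (hs : al s p.v = 0) (ht : al t p.v = 0) (hr : al r p.v = 0)
    (hs' : al s p'.v = 0) (ht' : al t p'.v = 0) (hr' : 0 < al r p'.v)
    (η : L →ₗ[ℝ] ℝ) (hη : η p.v = 0) (hη' : 0 ≤ η p'.v) : η (pol.e r) ≤ 0 := by
  have h := congrArg η (tc_expand p s t r h1 h2 h3 hs ht hr p'.v)
  rw [hs', ht'] at h
  simp only [map_sub, map_smul, smul_eq_mul, hη] at h
  by_contra hn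
  push Not at hn
  have := mul_pos hr' hn
  linarith

theorem tc_edge : ∀ s t r : S, adj s t → adj s r → adj t r →
    ∃ r' : S, r' ≠ r ∧ r' ≠ s ∧ r' ≠ t ∧ adj s r' ∧ adj t r' := by
  decide +kernel

theorem tc_nonpos' (q : tc_Fl) (s t r : S) (h1 : adj s t) (h2 : adj s r) (h3 : adj t r)
    (hs : al s (tc_x q).v = 0) (ht : al t (tc_x q).v = 0) (hr : al r (tc_x q).v = 0)
    (η : L →ₗ[ℝ] ℝ) (hη : η (tc_x q).v = 0) (hη' : ∀ q', 0 ≤ η (tc_x q').v) :
    η (pol.e r) ≤ 0 := by
  obtain ⟨r', a1, a2, a3, a4, a5⟩ := tc_edge s t r h1 h2 h3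
  let q' : tc_Fl := ⟨(s, t, r'), h1, a4, a5⟩
  have hne : ∀ a b : S, adj a b → a ≠ b := by
    rintro a _ h rfl
    exact adj_irrefl a h
  refine tc_nonpos (tc_x q) (tc_x q') s t r h1 h2 h3 hs ht hr ?_ ?_ ?_ η hη (hη' q')
  · rw [tc_x_iff]; simp [q']
  · rw [tc_x_iff]; simp [q']
  · rcases (tc_x_mem q' r).lt_or_eq with h | h
    · exact h
    · exfalso
      have := (tc_x_iff q' r).1 h.symm
      simp only [q', Finset.mem_insert, Finset.mem_singleton] at this
      rcases this with h | h | h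
      · exact hne s r h2 h.symm
      · exact hne t r h3 h.symm
      · exact a1 h.symm

theorem tc_mem_K (x : L) (h0 : ∀ s, 0 ≤ al s x) (h1 : tc_om x = 1) : x ∈ tc_K := by
  by_contra hx
  obtain ⟨f, u, hf1, hf2⟩ := geometric_hahn_banach_point_closed tc_K_convex
    tc_K_compact.isClosed hx
  obtain ⟨q, hq⟩ := Finite.exists_min (fun q : tc_Fl => f (tc_v q))
  let η : L →ₗ[ℝ] ℝ := (f : L →ₗ[ℝ] ℝ) - f (tc_v q) • tc_om
  have hη : ∀ y, η y = f y - f (tc_v q) * tc_om y := fun y => rfl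
  have hu : u < f (tc_v q) := hf2 _ (subset_convexHull ℝ _ ⟨q, rfl⟩)
  have hηx : η x < 0 := by
    rw [hη, h1]; linarith
  have hηv : ∀ q', η (tc_x q').v = tc_om (tc_x q').v * η (tc_v q') := by
    intro q'
    have hp := tc_om_pos _ (tc_x_mem q')
    rw [tc_v, map_smul, smul_eq_mul, ← mul_assoc, mul_inv_cancel₀ hp.ne', one_mul]
  have hηq : ∀ q', 0 ≤ η (tc_x q').v := by
    intro q'
    rw [hηv]
    refine mul_nonneg (tc_om_pos _ (tc_x_mem q')).le ?_
    rw [hη, tc_v_om]
    have := hq q'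
    linarith
  have hηq0 : η (tc_x q).v = 0 := by
    rw [hηv, hη, tc_v_om]; ring
  obtain ⟨⟨s, t, r⟩, a1, a2, a3⟩ := q
  simp only at a1 a2 a3
  have z : ∀ a, a ∈ ({s, t, r} : Finset S) → al a (tc_x ⟨(s, t, r), a1, a2, a3⟩).v = 0 :=
    fun a ha => (tc_x_iff ⟨(s, t, r), a1, a2, a3⟩ a).2 ha
  have zs := z s (by simp)
  have zt := z t (by simp)
  have zr := z r (by simp)
  have n1 := tc_nonpos' ⟨(s, t, r), a1, a2, a3⟩ s t r a1 a2 a3 zs zt zr η hηq0 hηq
  have n2 := tc_nonpos' ⟨(s, t, r), a1, a2, a3⟩ s r t a2 a1 (adj_symm a3) zs zr zt η hηq0 hηq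
  have n3 := tc_nonpos' ⟨(s, t, r), a1, a2, a3⟩ t r s a3 (adj_symm a1) (adj_symm a2) zt zr zs
    η hηq0 hηq
  have h := congrArg η (tc_expand _ s t r a1 a2 a3 zs zt zr x)
  simp only [map_sub, map_smul, smul_eq_mul] at h
  rw [hηq0] at h
  have m1 := mul_nonneg (h0 r) (neg_nonneg.2 n1)
  have m2 := mul_nonneg (h0 t) (neg_nonneg.2 n2)
  have m3 := mul_nonneg (h0 s) (neg_nonneg.2 n3)
  nlinarith

/-- radial projection of the slice -/
noncomputable def tc_rad (x : tc_K) : H3 := tc_nu x.1 (tc_K_time x.2)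

theorem tc_rad_continuous : Continuous tc_rad := by
  rw [H3.isClosedEmbedding_v.isInducing.continuous_iff]
  have : H3.v ∘ tc_rad = fun x : tc_K => (1 / Real.sqrt (-Bf x.1 x.1)) • x.1 := rfl
  rw [this]
  have hB : Continuous fun x : tc_K => -Bf x.1 x.1 := by
    unfold Bf
    fun_prop
  refine Continuous.smul (Continuous.div continuous_const (Real.continuous_sqrt.comp hB) ?_)
    continuous_subtype_val
  intro x
  exact (Real.sqrt_pos.2 (tc_time (tc_K_time x.2))).ne'

theorem tc_rad_al (x : tc_K) (s : S) :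
    al s (tc_rad x).v = (1 / Real.sqrt (-Bf x.1 x.1)) * al s x.1 := by
  show al s ((1 / Real.sqrt (-Bf x.1 x.1)) • x.1) = _
  rw [map_smul, smul_eq_mul]

theorem tc_rad_range : Set.range tc_rad = PiH := by
  ext y
  constructor
  · rintro ⟨x, rfl⟩ s
    rw [tc_rad_al]
    exact mul_nonneg (tc_nu_scale_pos (tc_K_time x.2)).le (tc_K_al x.2 s)
  · intro hy
    have hp := tc_om_pos y hy
    have hp' := inv_pos.2 hp
    have hm : (tc_om y.v)⁻¹ • y.v ∈ tc_K := by
      refine tc_mem_K _ (fun s => ?_) ?_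
      · rw [map_smul, smul_eq_mul]
        exact mul_nonneg hp'.le (hy s)
      · rw [map_smul, smul_eq_mul]
        exact inv_mul_cancel₀ hp.ne'
    refine ⟨⟨_, hm⟩, H3.ext' ?_⟩
    show (1 / Real.sqrt (-Bf ((tc_om y.v)⁻¹ • y.v) ((tc_om y.v)⁻¹ • y.v))) • (tc_om y.v)⁻¹ • y.v = y.v
    rw [poly_Bf_smul, y.norm_eq]
    have : -((tc_om y.v)⁻¹ * (tc_om y.v)⁻¹ * -1) = (tc_om y.v)⁻¹ * (tc_om y.v)⁻¹ := by ring
    rw [this, Real.sqrt_mul_self hp'.le, smul_smul, one_div, inv_mul_cancel₀ hp'.ne', one_smul]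

theorem tc_rad_inj : Function.Injective tc_rad := by
  intro x y h
  have h1 := congrArg H3.v h
  change (1 / Real.sqrt (-Bf x.1 x.1)) • x.1 = (1 / Real.sqrt (-Bf y.1 y.1)) • y.1 at h1
  have h2 := congrArg tc_om h1
  rw [map_smul, map_smul, tc_K_om x.2, tc_K_om y.2, smul_eq_mul, smul_eq_mul, mul_one, mul_one] at h2
  rw [h2] at h1
  have h3 := (tc_nu_scale_pos (tc_K_time y.2)).ne'
  exact Subtype.ext (smul_right_injective L h3 h1)

/-- compactness of the polytope -/
theorem isCompact_PiH : IsCompact PiH := by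
  rw [← tc_rad_range]
  have : CompactSpace tc_K := isCompact_iff_compactSpace.1 tc_K_compact
  exact isCompact_range tc_rad_continuous

/-- The chamber: the slice of the cone over the polytope, with the radial projection to the
polytope. -/
theorem exists_chamber : ∃ (C : Chamber) (ν : C.P → H3), Continuous ν ∧ Function.Injective ν ∧
    Set.range ν = PiH ∧ ∀ (p : C.P) (s : S), C.α s p.1 = 0 ↔ al s (ν p).v = 0 := by
  have hz : ∀ (x : tc_K) (s : S), al s x.1 = 0 ↔ al s (tc_rad x).v = 0 := by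
    intro x s
    rw [tc_rad_al, mul_eq_zero, or_iff_right (tc_nu_scale_pos (tc_K_time x.2)).ne']
  let C : Chamber :=
    { P := tc_K
      α := al
      compact := tc_K_compact
      convex := tc_K_convex
      nonneg := fun s p hp => tc_K_al hp s
      face := by
        intro T hT
        obtain ⟨y, hy, hy'⟩ := exists_face_point T hT
        rw [← tc_rad_range] at hy
        obtain ⟨x, rfl⟩ := hy
        exact ⟨x.1, x.2, fun s => (hz x s).trans (hy' s)⟩
      clique := by
        intro p hp s t hs ht hst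
        exact adj_of_meet (tc_rad ⟨p, hp⟩) s t ((hz ⟨p, hp⟩ s).1 hs) ((hz ⟨p, hp⟩ t).1 ht) hst }
  exact ⟨C, tc_rad, tc_rad_continuous, tc_rad_inj, tc_rad_range, hz⟩

end H30
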