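import Pool.Agent.Helper30_Alex.Poly
import Pool.Agent.Helper30_Alex.Hyp1
import Pool.Agent.Helper30_Alex.Racg

/-!
# The reflection group of the polytope acting on hyperbolic space: definitions
-/

set_option autoImplicit false

namespace H30

/-- the Lorentz form as a bilinear map -/
noncomputable def Bl : L →ₗ[ℝ] L →ₗ[ℝ] ℝ :=
  LinearMap.mk₂ ℝ Bf
    (fun x y z => by simp only [Bf, Prod.snd_add, Prod.fst_add, inner_add_left]; ring)
    (fun c x z => by
      simp only [Bf, Prod.smul_snd, Prod.smul_fst, smul_eq_mul, real_inner_smul_left]; ring)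
    (fun x y z => by simp only [Bf, Prod.snd_add, Prod.fst_add, inner_add_right]; ring)
    (fun c x z => by
      simp only [Bf, Prod.smul_snd, Prod.smul_fst, smul_eq_mul, real_inner_smul_right]; ring)

theorem Bl_apply (x y : L) : Bl x y = Bf x y := rfl

/-- `α s x = - <x, e s>`, nonnegative on the polytope -/
noncomputable def al (s : S) : L →ₗ[ℝ] ℝ := -(Bl (pol.e s))

theorem al_apply (s : S) (x : L) : al s x = -Bf (pol.e s) x := rfl

/-- the reflection in a facet -/
noncomputable def sgm (s : S) : L ≃ₗ[ℝ] L :=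
  LinearEquiv.ofInvolutive
    ({ toFun := fun x => x - al s x • ((-2 : ℝ) • pol.e s)
       map_add' := fun x y => by rw [map_add, add_smul]; abel
       map_smul' := fun c x => by
         rw [map_smul, smul_eq_mul, mul_smul, RingHom.id_apply, smul_sub] } : L →ₗ[ℝ] L)
    (fun x => by
      have h : al s ((-2 : ℝ) • pol.e s) = 2 := by
        rw [map_smul, al_apply, pol.unit, smul_eq_mul]; norm_num
      show (x - al s x • ((-2 : ℝ) • pol.e s)) -
        al s (x - al s x • ((-2 : ℝ) • pol.e s)) • ((-2 : ℝ) • pol.e s) = x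
      rw [map_sub, map_smul, h, smul_eq_mul]
      module)

theorem sgm_apply (s : S) (x : L) : sgm s x = x - al s x • ((-2 : ℝ) • pol.e s) := rfl

theorem sgm_sgm (s : S) (x : L) : sgm s (sgm s x) = x := (sgm s).symm_apply_apply x

theorem Bf_sgm (s : S) (x y : L) : Bf (sgm s x) (sgm s y) = Bf x y := by
  have hu : Bl (pol.e s) (pol.e s) = 1 := pol.unit s
  have hc : Bl x (pol.e s) = Bl (pol.e s) x := Bf_comm _ _
  simp only [sgm_apply, ← Bl_apply, al_apply] at *
  simp only [map_sub, map_smul, LinearMap.sub_apply, LinearMap.smul_apply, smul_eq_mul] at *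
  rw [hu, hc]; ring

/-- the representation of the reflection group -/
theorem exists_act : ∃ φ : RA adj →* (L ≃ₗ[ℝ] L), ∀ s, φ (gen adj s) = sgm s := by
  refine exists_hom adj sgm (fun s => ?_) (fun s t h => ?_)
  · ext1 x
    exact sgm_sgm s x
  · ext1 x
    show sgm s (sgm t x) = sgm t (sgm s x)
    have h1 : al s (pol.e t) = 0 := by rw [al_apply, pol.near s t h, neg_zero]
    have h2 : al t (pol.e s) = 0 := by rw [al_apply, pol.near t s (adj_symm h), neg_zero]
    simp only [sgm_apply, map_sub, map_smul, h1, h2]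
    module

/-- the representation of the reflection group on Lorentz space -/
noncomputable def rep : RA adj →* (L ≃ₗ[ℝ] L) := exists_act.choose

theorem rep_gen (s : S) : rep (gen adj s) = sgm s := exists_act.choose_spec s

/-- the geometric representation -/
noncomputable def geo : Geo adj where
  E := L
  α := al
  b s := (-2 : ℝ) • pol.e s
  diag s := by rw [map_smul, al_apply, pol.unit, smul_eq_mul]; norm_num
  near s t h := by rw [map_smul, al_apply, pol.near t s (adj_symm h), smul_eq_mul]; norm_num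
  far s t hst h := by
    have := pol.far t s (Ne.symm hst) (fun h' => h (adj_symm h'))
    rw [map_smul, al_apply, smul_eq_mul]; linarith
  act := rep
  act_gen s x := by rw [rep_gen]; rfl

theorem tile_ind {p : RA adj → Prop} (w : RA adj) (one : p 1)
    (mul : ∀ (w : RA adj) (s : S), p w → p (gen adj s * w)) : p w := by
  refine (raM adj).toCoxeterSystem.simple_induction_left w one (fun w i h => ?_)
  have := mul w i h
  simpa [gen, CoxeterMatrix.toCoxeterSystem_simple] using this

theorem Bf_rep (w : RA adj) (x y : L) : Bf (rep w x) (rep w y) = Bf x y := by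
  refine tile_ind (p := fun w => Bf (rep w x) (rep w y) = Bf x y) w ?_ (fun w s h => ?_)
  · rw [map_one]; rfl
  · show Bf (rep (gen adj s * w) x) (rep (gen adj s * w) y) = Bf x y
    rw [map_mul]
    show Bf (rep (gen adj s) (rep w x)) (rep (gen adj s) (rep w y)) = Bf x y
    rw [rep_gen, Bf_sgm, h]

theorem tile_Bf_sgm_self (s : S) (x : L) : Bf x (sgm s x) = Bf x x - 2 * (al s x) ^ 2 := by
  have hc : Bl x (pol.e s) = Bl (pol.e s) x := Bf_comm _ _
  simp only [sgm_apply, ← Bl_apply, al_apply] at *
  simp only [map_sub, map_smul, smul_eq_mul] at *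
  rw [hc]; ring

theorem tile_sgm_pos (s : S) (x : L) (hx : Bf x x = -1) (h0 : 0 < x.1) : 0 < (sgm s x).1 := by
  by_contra hneg
  have hn : Bf (sgm s x) (sgm s x) = -1 := by rw [Bf_sgm, hx]
  have h1 : (sgm s x).1 ≠ 0 := by
    intro h
    have h2 : 0 ≤ inner ℝ (sgm s x).2 (sgm s x).2 := real_inner_self_nonneg
    have h3 : inner ℝ (sgm s x).2 (sgm s x).2 - (sgm s x).1 * (sgm s x).1 = -1 := hn
    rw [h] at h3
    linarith
  have h2 : (sgm s x).1 < 0 := lt_of_le_of_ne (not_lt.1 hneg) h1
  have h3 : Bf (-(sgm s x)) (-(sgm s x)) = -1 := by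
    rw [← hn]; simp only [Bf, Prod.snd_neg, Prod.fst_neg, inner_neg_neg]; ring
  have h4 : 0 < (-(sgm s x)).1 := by rw [Prod.fst_neg]; linarith
  have h5 := H3.one_le ⟨x, hx, h0⟩ ⟨-(sgm s x), h3, h4⟩
  have h6 : Bf x (-(sgm s x)) = - Bf x (sgm s x) := by
    simp only [Bf, Prod.snd_neg, Prod.fst_neg, inner_neg_right]; ring
  rw [h6, tile_Bf_sgm_self, hx] at h5
  nlinarith [sq_nonneg (al s x)]

/-- the group preserves the sheet -/
theorem rep_pos (w : RA adj) (x : H3) : 0 < (rep w x.v).1 := by
  refine tile_ind (p := fun w => 0 < (rep w x.v).1) w ?_ (fun w s h => ?_)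
  · show 0 < (rep 1 x.v).1
    rw [map_one]; exact x.pos
  · show 0 < (rep (gen adj s * w) x.v).1
    rw [map_mul]
    show 0 < (rep (gen adj s) (rep w x.v)).1
    rw [rep_gen]
    exact tile_sgm_pos s _ (by rw [Bf_rep, x.norm_eq]) h

/-- the action on hyperbolic space -/
noncomputable instance : MulAction (RA adj) H3 where
  smul w x := ⟨rep w x.v, by rw [Bf_rep, x.norm_eq], rep_pos w x⟩
  one_smul x := H3.ext' (by show rep 1 x.v = x.v; rw [map_one]; rfl)
  mul_smul w w' x := H3.ext' (by show rep (w * w') x.v = rep w (rep w' x.v); rw [map_mul]; rfl)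

theorem smul_v (w : RA adj) (x : H3) : (w • x).v = rep w x.v := rfl

/-- the polytope -/
def PiH : Set H3 := {x | ∀ s, 0 ≤ al s x.v}

end H30
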